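import Pool.Agent.LibPS25.Defs

/-
(A2) basic facts on Th
-/

set_option autoImplicit false

noncomputable section

namespace PS25

open Finset

theorem Th_one_left (s : (p : ℕ) → ZMod p → ℝ) (t : ℤ) : Th s 1 t = 1 := by
  unfold Th
  rw [Nat.primeFactors_one, Finset.prod_empty]

theorem s_le {s : (p : ℕ) → ZMod p → ℝ} (hs : Ev s) {p : ℕ} (hp : p.Prime) (x : ZMod p) : |s p x| ≤ 1 := by
  by_cases hx : x = 0
  · rw [hx, hs.zero p hp, abs_zero]
    exact zero_le_one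
  · rcases hs.pm p hp x hx with h | h
    · rw [h, abs_one]
    · rw [h, abs_neg, abs_one]

theorem Th_le {s : (p : ℕ) → ZMod p → ℝ} (hs : Ev s) (m : ℕ) (t : ℤ) : |Th s m t| ≤ 1 := by
  unfold Th
  rw [Finset.abs_prod]
  exact Finset.prod_le_one (fun p _ => abs_nonneg _)
    fun p hp => s_le hs (Nat.prime_of_mem_primeFactors hp) _

theorem Psi_le {s : (p : ℕ) → ZMod p → ℝ} (hs : Ev s) (C : ℤ) (j D : ℕ) : |Psi s C j D| ≤ 1 := by
  unfold Psi
  rw [Finset.abs_prod]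
  exact Finset.prod_le_one (fun p _ => abs_nonneg _)
    fun p hp => s_le hs (Nat.prime_of_mem_primeFactors hp) _

theorem Th_mul (s : (p : ℕ) → ZMod p → ℝ) {m n : ℕ} (h : m.Coprime n) (hm : m ≠ 0) (hn : n ≠ 0) (t : ℤ) :
    Th s (m * n) t = Th s m (t * n) * Th s n (t * m) := by
  unfold Th
  rw [h.primeFactors_mul, Finset.prod_union h.disjoint_primeFactors]
  congr 1
  · refine Finset.prod_congr rfl fun p hp => ?_
    have h1 : m * n / p = n * (m / p) := by
      rw [mul_comm m n, Nat.mul_div_assoc n (Nat.dvd_of_mem_primeFactors hp)]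
    rw [h1]
    congr 2
    push_cast
    ring
  · refine Finset.prod_congr rfl fun p hp => ?_
    have h1 : m * n / p = m * (n / p) :=
      Nat.mul_div_assoc m (Nat.dvd_of_mem_primeFactors hp)
    rw [h1]
    congr 2
    push_cast
    ring

theorem Th_congr (s : (p : ℕ) → ZMod p → ℝ) {m : ℕ} {t t' : ℤ} (h : t ≡ t' [ZMOD m]) :
    Th s m t = Th s m t' := by
  unfold Th
  refine Finset.prod_congr rfl fun p hp => ?_
  congr 1
  rw [ZMod.intCast_eq_intCast_iff]
  have h1 : (p : ℤ) ∣ (m : ℤ) := Int.natCast_dvd_natCast.2 (Nat.dvd_of_mem_primeFactors hp)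
  exact (h.of_dvd h1).mul_right _

theorem Th_neg {s : (p : ℕ) → ZMod p → ℝ} (hs : Ev s) (m : ℕ) (t : ℤ) : Th s m (-t) = Th s m t := by
  unfold Th
  refine Finset.prod_congr rfl fun p _ => ?_
  rw [neg_mul, Int.cast_neg]
  exact hs.even p _

theorem Th_zero {s : (p : ℕ) → ZMod p → ℝ} (hs : Ev s) {m p : ℕ} {t : ℤ} (hp : p.Prime) (hm : p ∣ m)
    (hm0 : m ≠ 0) (ht : (p : ℤ) ∣ t) : Th s m t = 0 := by
  unfold Th
  apply Finset.prod_eq_zero (Nat.mem_primeFactors.2 ⟨hp, hm, hm0⟩)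
  have h1 : ((t * ((m / p : ℕ) : ℤ) : ℤ) : ZMod p) = 0 := by
    rw [ZMod.intCast_zmod_eq_zero_iff_dvd]
    exact Dvd.dvd.mul_right ht _
  rw [h1]
  exact hs.zero p hp

end PS25
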