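import Pool.Agent.LibPS25.Sg
import Pool.Agent.LibPS25.A2

/-
PLAN (A1). A1_ev: Kloo.K_prime_ne_zero gives K p alpha /= 0 for p prime and every alpha, Kloo.K_im its imaginary part is 0, so the real part is
not 0 and Real.sign is 1 or -1; even: (-x)^(-1) ^ 2 = x^(-1) ^ 2.
A1_sign: prove for w coprime to c (c squarefree) by induction on the number of prime factors of c (Nat.recOnPosPrimePosCoprime or
induction on c = p c') : sign (Kloo.F a c w).re = Th (sg a) c w, by Kloo.F_mul (F a (c c') w = F a c (c' w) F a c' (c w), see its exact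
statement), Kloo.F_real (real values), sign_mul, Th_mul of A2, and for c = p prime: Kloo.F a p w = Kloo.K p (a (w^-1)^2) by definition.
Then w = 1 and SP15.Fre a c = (Kloo.F a c 1).re (dif_pos).
-/

set_option autoImplicit false

noncomputable section

namespace PS25

open Finset

private theorem A1_xg (r : ℕ) : ∀ (s t T : ℤ) (r' : ℕ) (s' t' T' : ℤ),
    (Nat.xgcdAux r (-s) T r' (-s') T').2.1 = -(Nat.xgcdAux r s t r' s' t').2.1 := by
  induction r using Nat.strong_induction_on with
  | _ r ih =>
    intro s t T r' s' t' T'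
    rcases Nat.eq_zero_or_pos r with h | h
    · subst h
      rw [Nat.xgcd_zero_left, Nat.xgcd_zero_left]
    · rw [Nat.xgcdAux_rec h, Nat.xgcdAux_rec h]
      have h1 := ih (r' % r) (Nat.mod_lt _ h) (s' - r' / r * s) (t' - r' / r * t) (T' - r' / r * T)
        r s t T
      rw [← h1]
      have h2 : -s' - (r' : ℤ) / r * -s = -(s' - r' / r * s) := by ring
      rw [h2]

private theorem A1_gcdA (x n : ℕ) (hx : 0 < x) (h2 : 2 * x < n) :
    Nat.gcdA (n - x) n = - Nat.gcdA x n := by
  unfold Nat.gcdA Nat.xgcd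
  have h1 : n % (n - x) = x := by
    rw [Nat.mod_eq_sub_mod (by omega)]
    have : n - (n - x) = x := by omega
    rw [this]
    exact Nat.mod_eq_of_lt (by omega)
  have h3 : n / (n - x) = 1 := by
    rw [Nat.div_eq_iff (by omega)]
    omega
  have h3' : (n : ℤ) / ((n - x : ℕ) : ℤ) = 1 := by
    rw [← Int.natCast_div, h3]; rfl
  rw [Nat.xgcdAux_rec (show 0 < n - x by omega), h1, h3']
  rw [Nat.xgcdAux_rec hx, Nat.xgcdAux_rec hx]
  have h4 : (n - x) % x = n % x := (Nat.mod_eq_sub_mod (by omega)).symm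
  have h5 : n / x = (n - x) / x + 1 := by
    have : n = (n - x) + x := by omega
    conv_lhs => rw [this]
    rw [Nat.add_div_right _ hx]
  have h5' : (n : ℤ) / x = ((n - x : ℕ) : ℤ) / x + 1 := by
    rw [← Int.natCast_div, ← Int.natCast_div, h5]
    push_cast
    ring
  rw [h4, h5']
  rw [← A1_xg (n % x) _ _ (0 - ((n - x : ℕ) : ℤ) / x * (1 - 1 * 0)) _ _ _ (1 - 1 * 0)]
  have e1 : (1 : ℤ) - ((n - x : ℕ) : ℤ) / x * (0 - 1 * 1) =
      -(0 - (((n - x : ℕ) : ℤ) / x + 1) * 1) := by ring
  have e2 : (0 : ℤ) - 1 * 1 = -1 := by ring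
  rw [e1, e2]

private theorem A1_inv_neg (p : ℕ) [NeZero p] (x : ZMod p) : (-x)⁻¹ ^ 2 = x⁻¹ ^ 2 := by
  obtain ⟨n, rfl⟩ : ∃ n, p = n + 1 := ⟨p - 1, by
    have := Nat.pos_of_ne_zero (NeZero.ne p)
    omega⟩
  have hinv : ∀ y : ZMod (n + 1), y⁻¹ = ((Nat.gcdA y.val (n + 1) : ℤ) : ZMod (n + 1)) :=
    fun y => rfl
  by_cases hx : x = 0
  · rw [hx, neg_zero]
  have hv : x.val ≠ 0 := by rwa [ne_eq, ZMod.val_eq_zero]
  have hlt : x.val < n + 1 := ZMod.val_lt x
  have hneg : (-x).val = (n + 1) - x.val := by rw [ZMod.neg_val, if_neg hx]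
  rcases lt_trichotomy (2 * x.val) (n + 1) with h | h | h
  · rw [hinv, hinv, hneg, A1_gcdA _ _ (by omega) h]
    push_cast
    ring
  · have : -x = x := by
      apply ZMod.val_injective
      rw [hneg]
      omega
    rw [this]
  · have h6 := A1_gcdA (n + 1 - x.val) (n + 1) (by omega) (by omega)
    have h7 : n + 1 - (n + 1 - x.val) = x.val := by omega
    rw [h7] at h6
    rw [hinv, hinv, hneg, h6]
    push_cast
    ring

private theorem A1_Kre {p : ℕ} (hp : p.Prime) [NeZero p] (α : ZMod p) : (Kloo.K p α).re ≠ 0 := by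
  intro h
  apply Kloo.K_prime_ne_zero hp α
  exact Complex.ext h (Kloo.K_im _ _)

theorem A1_ev (a : ℤ) : Ev (sg a) := by
  refine ⟨?_, ?_, ?_⟩
  · intro p hp
    unfold sg
    rw [dif_pos hp.ne_zero, if_pos rfl]
  · intro p hp x hx
    unfold sg
    rw [dif_pos hp.ne_zero, if_neg hx]
    have : NeZero p := ⟨hp.ne_zero⟩
    have h1 := A1_Kre hp ((a : ZMod p) * x⁻¹ ^ 2)
    rcases Real.sign_apply_eq_of_ne_zero _ h1 with h | h
    · right
      exact h
    · left
      exact h
  · intro p x
    unfold sg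
    by_cases hp : p ≠ 0
    · rw [dif_pos hp, dif_pos hp]
      have : NeZero p := ⟨hp⟩
      rw [A1_inv_neg p x]
      by_cases hx : x = 0
      · rw [hx, neg_zero]
      · rw [if_neg hx, if_neg (neg_ne_zero.mpr hx)]
    · rw [dif_neg hp, dif_neg hp]

private theorem A1_sign_mul (x y : ℝ) : Real.sign (x * y) = Real.sign x * Real.sign y := by
  rcases lt_trichotomy x 0 with hx | hx | hx
  · rcases lt_trichotomy y 0 with hy | hy | hy
    · rw [Real.sign_of_pos (mul_pos_of_neg_of_neg hx hy), Real.sign_of_neg hx,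
        Real.sign_of_neg hy]
      norm_num
    · subst hy
      simp
    · rw [Real.sign_of_neg (mul_neg_of_neg_of_pos hx hy), Real.sign_of_neg hx,
        Real.sign_of_pos hy]
      norm_num
  · subst hx
    simp
  · rcases lt_trichotomy y 0 with hy | hy | hy
    · rw [Real.sign_of_neg (mul_neg_of_pos_of_neg hx hy), Real.sign_of_pos hx,
        Real.sign_of_neg hy]
      norm_num
    · subst hy
      simp
    · rw [Real.sign_of_pos (mul_pos hx hy), Real.sign_of_pos hx, Real.sign_of_pos hy]
      norm_num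

private theorem A1_main (a : ℤ) : ∀ (c : ℕ) (_ : Squarefree c) [NeZero c] (w : ℕ),
    w.Coprime c → Real.sign (Kloo.F a c w).re = Th (sg a) c w := by
  intro c
  induction c using Nat.strong_induction_on with
  | _ c ih =>
    intro hc inst w hw
    by_cases hc1 : c = 1
    · subst hc1
      rw [Th_one_left]
      unfold Kloo.F Kloo.K
      have : Unique (ZMod 1)ˣ := inferInstance
      rw [Fintype.sum_unique]
      have h1 : ∀ z : ZMod 1, (ZMod.stdAddChar z : ℂ) = 1 := fun z => by
        rw [Subsingleton.elim z 0]; simp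
      rw [h1, Complex.one_re, Real.sign_one]
    · have hp : c.minFac.Prime := Nat.minFac_prime hc1
      obtain ⟨m, hm⟩ := Nat.minFac_dvd c
      obtain ⟨p, hpdef⟩ : ∃ p, p = c.minFac := ⟨_, rfl⟩
      rw [← hpdef] at hm hp
      clear hpdef
      subst hm
      have hcop : p.Coprime m := Nat.coprime_of_squarefree_mul hc
      have hm0 : m ≠ 0 := by
        rintro rfl
        exact (NeZero.ne (p * 0)) (by simp)
      have : NeZero p := ⟨hp.ne_zero⟩
      have : NeZero m := ⟨hm0⟩
      have hlt : m < p * m := (Nat.lt_mul_iff_one_lt_left (Nat.pos_of_ne_zero hm0)).2 hp.one_lt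
      have hwp : w.Coprime p := Nat.Coprime.coprime_mul_right_right hw
      have hwm : w.Coprime m := Nat.Coprime.coprime_mul_left_right hw
      rw [Kloo.F_mul a hcop hw]
      have hre : (Kloo.F a p (m * w) * Kloo.F a m (p * w)).re =
          (Kloo.F a p (m * w)).re * (Kloo.F a m (p * w)).re := by
        rw [Complex.mul_re]
        have : (Kloo.F a p (m * w)).im = 0 := Kloo.K_im _ _
        rw [this]
        ring
      rw [hre, A1_sign_mul, ih m hlt hc.of_mul_right (p * w) (Nat.Coprime.mul_left hcop hwm),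
        Th_mul (sg a) hcop hp.ne_zero hm0]
      congr 1
      · unfold Th
        rw [Nat.Prime.primeFactors hp, prod_singleton, Nat.div_self hp.pos]
        unfold sg
        rw [dif_pos hp.ne_zero]
        have hcast : (((w : ℤ) * (m : ℤ) * ((1 : ℕ) : ℤ) : ℤ) : ZMod p) = ((m * w : ℕ) : ZMod p) := by
          push_cast
          ring
        rw [hcast]
        have hne : ((m * w : ℕ) : ZMod p) ≠ 0 := by
          intro h0
          rw [ZMod.natCast_eq_zero_iff] at h0
          have h8 : (m * w).Coprime p := Nat.Coprime.mul_left hcop.symm hwp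
          exact (Nat.Prime.coprime_iff_not_dvd hp).mp h8.symm h0
        rw [if_neg hne]
        rfl
      · congr 1
        push_cast
        ring

theorem A1_sign (a : ℤ) (c : ℕ) (hc : Squarefree c) : Real.sign (SP15.Fre a c) = Th (sg a) c 1 := by
  have hc0 : c ≠ 0 := hc.ne_zero
  unfold SP15.Fre
  rw [dif_pos hc0]
  have : NeZero c := ⟨hc0⟩
  have h := A1_main a c hc 1 (Nat.coprime_one_left c)
  rw [Nat.cast_one] at h
  exact h

end PS25
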