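import Pool.Agent.LibPS25.A2

/-
PLAN (A3). Squarefree (m (L r)) gives that m, L, r are pairwise coprime and nonzero. Th_mul twice:
Th (m (L r)) 1 = Th m (1 L r) Th (L r) (1 m), Th (L r) m = Th L (m r) Th r (m L).
-/

set_option autoImplicit false

noncomputable section

namespace PS25

open Finset

theorem A3_three (s : (p : ℕ) → ZMod p → ℝ) (m L r : ℕ) (h : Squarefree (m * (L * r))) :
    Th s (m * (L * r)) 1 = Th s L ((m * r : ℕ) : ℤ) * Th s m ((L * r : ℕ) : ℤ) * Th s r ((L * m : ℕ) : ℤ) := by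
  obtain ⟨h1, hm, hLr⟩ := Nat.squarefree_mul_iff.1 h
  obtain ⟨h2, hL, hr⟩ := Nat.squarefree_mul_iff.1 hLr
  rw [Th_mul s h1 hm.ne_zero hLr.ne_zero, Th_mul s h2 hL.ne_zero hr.ne_zero, one_mul, one_mul]
  have e1 : ((m : ℕ) : ℤ) * (r : ℤ) = ((m * r : ℕ) : ℤ) := by push_cast; ring
  have e2 : ((m : ℕ) : ℤ) * (L : ℤ) = ((L * m : ℕ) : ℤ) := by push_cast; ring
  rw [e1, e2]
  ring

end PS25
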