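import Pool.Agent.LibPS25.A2

/-
PLAN (A4). For a prime p | u: p does not divide v, so j r = u - v is not 0 mod p, j is invertible mod p and r = -v j^-1 in ZMod p, hence
s p (C r (u/p)) = s p (-(C j^-1 v (u/p))) = s p (C j^-1 (u v / p)) (evenness; (u v)/p = (u/p) v). For p | v: r = u j^-1 and (u v)/p = u (v/p).
(u v).primeFactors is the disjoint union (Nat.Coprime.primeFactors_mul), Finset.prod_union.
-/

set_option autoImplicit false

noncomputable section

namespace PS25

open Finset

theorem A4_key {s : (p : ℕ) → ZMod p → ℝ} (hs : Ev s) (C : ℤ) (u v j r : ℕ) (hv : 0 < v)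
    (h : u = v + j * r) (huv : u.Coprime v) :
    Th s u (C * r) * Th s v (C * r) = Psi s C j (u * v) := by
  have hu : 0 < u := by omega
  have hjp : ∀ p : ℕ, p.Prime → (p ∣ u ∨ p ∣ v) → ¬ p ∣ j := by
    intro p hp hpuv hpj
    have h3 : p ∣ u ∧ p ∣ v := by
      rcases hpuv with h1 | h1
      · refine ⟨h1, ?_⟩
        rw [h] at h1
        exact (Nat.dvd_add_iff_left (hpj.mul_right r)).2 h1
      · refine ⟨?_, h1⟩
        rw [h]
        exact dvd_add h1 (hpj.mul_right r)
    exact hp.one_lt.ne' (Nat.dvd_one.1 (huv ▸ Nat.dvd_gcd h3.1 h3.2))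
  unfold Th Psi
  rw [Nat.Coprime.primeFactors_mul huv,
    Finset.prod_union (Nat.Coprime.disjoint_primeFactors huv)]
  congr 1
  · refine Finset.prod_congr rfl fun p hp => ?_
    have hpp := Nat.prime_of_mem_primeFactors hp
    have hpu := Nat.dvd_of_mem_primeFactors hp
    have : Fact p.Prime := ⟨hpp⟩
    have hj0 : (j : ZMod p) ≠ 0 := by
      rw [Ne, ZMod.natCast_eq_zero_iff]
      exact hjp p hpp (Or.inl hpu)
    have hr : (r : ZMod p) = -((v : ZMod p) * (j : ZMod p)⁻¹) := by
      have h1 : (v : ZMod p) + j * r = 0 := by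
        have h2 : ((u : ℕ) : ZMod p) = 0 := (ZMod.natCast_eq_zero_iff _ _).2 hpu
        rw [h] at h2
        push_cast at h2
        exact h2
      field_simp
      linear_combination h1
    have hdiv : u * v / p = u / p * v := (Nat.div_mul_right_comm hpu v).symm
    rw [hdiv]
    generalize u / p = k
    push_cast
    rw [hr, ← hs.even]
    congr 1
    ring
  · refine Finset.prod_congr rfl fun p hp => ?_
    have hpp := Nat.prime_of_mem_primeFactors hp
    have hpv := Nat.dvd_of_mem_primeFactors hp
    have : Fact p.Prime := ⟨hpp⟩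
    have hj0 : (j : ZMod p) ≠ 0 := by
      rw [Ne, ZMod.natCast_eq_zero_iff]
      exact hjp p hpp (Or.inr hpv)
    have hr : (r : ZMod p) = (u : ZMod p) * (j : ZMod p)⁻¹ := by
      have h1 : (u : ZMod p) = j * r := by
        have h2 : ((v : ℕ) : ZMod p) = 0 := (ZMod.natCast_eq_zero_iff _ _).2 hpv
        rw [h]
        push_cast
        rw [h2, zero_add]
      rw [h1]
      field_simp
    have hdiv : u * v / p = u * (v / p) := Nat.mul_div_assoc u hpv
    rw [hdiv]
    generalize v / p = k
    push_cast
    rw [hr]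
    congr 1
    ring

end PS25
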