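import Pool.Agent.LibPS25.A4

/-
PLAN (A5). hh_le, hh_zero: from Th_le, Th_zero (a prime p dividing m and r divides L r), g = 1 or -1.
hh_pair: g (g0 u) g (g0 v) = g (g0)^2 g u g v = g (u v). Th (g0 u) (L r) = Th g0 (L r u) Th u (L r g0) by Th_mul, the same for v, and
Th u ((L g0) r) Th v ((L g0) r) = Psi s (L g0) j (u v) by A4_key. In ee: j | u - v = j r, (u - v)/j = r. The rest is commutativity (the
arguments are integers, use congr / push_cast / ring_nf in the arguments of Th).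
-/

set_option autoImplicit false

noncomputable section

namespace PS25

open Finset

private theorem A5_mul {a b : ℝ} (ha : |a| ≤ 1) (hb : |b| ≤ 1) : |a * b| ≤ 1 := by
  rw [abs_mul]
  exact mul_le_one₀ ha (abs_nonneg b) hb

private theorem A5_g {g : ℕ → ℝ} (hg : SM g) (m : ℕ) : |g m| ≤ 1 := by
  rcases hg.1 m with h | h <;> rw [h] <;> norm_num

theorem hh_le {s : (p : ℕ) → ZMod p → ℝ} (hs : Ev s) {g : ℕ → ℝ} (hg : SM g) {N : ℕ} {w : ZMod N → ℝ}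
    (hw : Wt N w) (L r m : ℕ) : |hh s g N w L r m| ≤ 1 := by
  rw [hh]
  exact A5_mul (A5_mul (A5_mul (A5_g hg m) (hw _)) (Th_le hs _ _)) (Th_le hs _ _)

theorem hh_zero {s : (p : ℕ) → ZMod p → ℝ} (hs : Ev s) (g : ℕ → ℝ) (N : ℕ) (w : ZMod N → ℝ)
    (L r m : ℕ) (hm : m ≠ 0) (h : ¬ m.Coprime r) : hh s g N w L r m = 0 := by
  obtain ⟨p, hp, hpm, hpr⟩ := Nat.Prime.not_coprime_iff_dvd.mp h
  have h1 : (p : ℤ) ∣ ((L * r : ℕ) : ℤ) := by
    exact_mod_cast hpr.mul_left L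
  rw [hh, Th_zero hs hp hpm hm h1, mul_zero]

theorem ee_le {s : (p : ℕ) → ZMod p → ℝ} (hs : Ev s) {N : ℕ} {w : ZMod N → ℝ}
    (hw : Wt N w) (L g0 j : ℕ) (x y : ℤ) : |ee s N w L g0 j x y| ≤ 1 := by
  classical
  rw [ee]
  split_ifs
  · exact A5_mul (A5_mul (A5_mul (hw _) (hw _)) (A5_mul (Th_le hs _ _) (Th_le hs _ _)))
      (A5_mul (Th_le hs _ _) (Th_le hs _ _))
  · simp

theorem hh_pair {s : (p : ℕ) → ZMod p → ℝ} (hs : Ev s) {g : ℕ → ℝ} (hg : SM g) (N : ℕ) (w : ZMod N → ℝ)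
    (L g0 u v j r : ℕ) (hg0 : 0 < g0) (hj : 0 < j) (hv : 0 < v) (h : u = v + j * r) (huv : u.Coprime v)
    (hgu : g0.Coprime u) (hgv : g0.Coprime v) :
    hh s g N w L r (g0 * u) * hh s g N w L r (g0 * v) =
      g (u * v) * Psi s (L * g0) j (u * v) * ee s N w L g0 j u v := by
  classical
  have hu : u ≠ 0 := by omega
  have hv' : v ≠ 0 := hv.ne'
  have hg0' : g0 ≠ 0 := hg0.ne'
  have hj' : (j : ℤ) ≠ 0 := by exact_mod_cast hj.ne'
  have hsub : (u : ℤ) - (v : ℤ) = (j : ℤ) * (r : ℤ) := by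
    rw [h]
    push_cast
    ring
  have hdiv : ((u : ℤ) - (v : ℤ)) / (j : ℤ) = (r : ℤ) := by
    rw [hsub, Int.mul_ediv_cancel_left _ hj']
  have hdvd : (j : ℤ) ∣ (u : ℤ) - (v : ℤ) := ⟨r, hsub⟩
  have hee : ee s N w L g0 j u v =
      w ((g0 * u : ℤ) : ZMod N) * w ((g0 * v : ℤ) : ZMod N) *
        (Th s L (g0 * u * r) * Th s L (g0 * v * r)) *
        (Th s g0 (L * u * r) * Th s g0 (L * v * r)) := by
    rw [ee, if_pos hdvd, hdiv]
  have hkey := A4_key hs ((L : ℤ) * (g0 : ℤ)) u v j r hv h huv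
  have hu1 : Th s (g0 * u) ((L * r : ℕ) : ℤ) = Th s g0 (L * u * r) * Th s u (L * g0 * r) := by
    rw [Th_mul s hgu hg0' hu]
    push_cast
    congr 2 <;> ring
  have hv1 : Th s (g0 * v) ((L * r : ℕ) : ℤ) = Th s g0 (L * v * r) * Th s v (L * g0 * r) := by
    rw [Th_mul s hgv hg0' hv']
    push_cast
    congr 2 <;> ring
  have hLu : ((g0 * u * r : ℕ) : ℤ) = (g0 : ℤ) * u * r := by push_cast; ring
  have hLv : ((g0 * v * r : ℕ) : ℤ) = (g0 : ℤ) * v * r := by push_cast; ring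
  have hwu : ((g0 * u : ℕ) : ZMod N) = ((g0 * u : ℤ) : ZMod N) := by push_cast; rfl
  have hwv : ((g0 * v : ℕ) : ZMod N) = ((g0 * v : ℤ) : ZMod N) := by push_cast; rfl
  have hsq : g g0 * g g0 = 1 := by
    rcases hg.1 g0 with h1 | h1 <;> rw [h1] <;> norm_num
  have hguv : g (u * v) = g u * g v := hg.2 u v huv
  rw [hh, hh, hg.2 g0 u hgu, hg.2 g0 v hgv, hu1, hv1, hLu, hLv, hwu, hwv, hee, ← hkey, hguv]
  linear_combination (g u * g v * (Th s u (L * g0 * r) * Th s v (L * g0 * r)) *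
    (w ((g0 * u : ℤ) : ZMod N) * w ((g0 * v : ℤ) : ZMod N) *
        (Th s L (g0 * u * r) * Th s L (g0 * v * r)) *
        (Th s g0 (L * u * r) * Th s g0 (L * v * r)))) * hsq

end PS25
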