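import Pool.Agent.LibPS25.A3
import Pool.Agent.LibPS25.A5

/-
PLAN (B1). Put R = X / L. The terms r <= R1 give at most R1 X. For r in (R1, R] with L r squarefree: by A3_three the inner sum is
sum_m hh r m * Th s r (L m) over m in Mr L N X with m coprime to r; hh r m = 0 for the other m in Mr (hh_zero), so it is the sum over all of
Mr L N X (Squarefree (m (L r)) iff m squarefree, coprime to L and r, given L r squarefree). Th s r (L m) depends only on m mod r (Th_congr),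
|Th| <= 1: |inner| <= sum_{t in range r} |sum_{m in Mr, m % r = t} hh r m| <= (r sum_t |..|^2)^(1/2), and
sum_t (sum_{m % r = t} hh)^2 = sum_m sum_{m' = m mod r} hh hh =: V_r >= 0. Cauchy-Schwarz over r: sum_r sqrt (r V_r) <= (sum_{r <= R} r)^(1/2) (sum_r V_r)^(1/2),
sum_{r <= R} r <= R^2, and the sum of V_r over all r in (R1, R] is VV.
-/

set_option autoImplicit false

noncomputable section

namespace PS25

open Finset

/-- the sum over the pairs in one class -/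
private def B1_V (s : (p : ℕ) → ZMod p → ℝ) (g : ℕ → ℝ) (N : ℕ) (w : ZMod N → ℝ) (L X r : ℕ) : ℝ :=
  ∑ m ∈ Mr L N X, ∑ m' ∈ (Mr L N X).filter fun m' => m' ≡ m [MOD r],
    hh s g N w L r m * hh s g N w L r m'

private theorem B1_V_eq (s : (p : ℕ) → ZMod p → ℝ) (g : ℕ → ℝ) (N : ℕ) (w : ZMod N → ℝ)
    (L X r : ℕ) (hr : 0 < r) :
    B1_V s g N w L X r =
      ∑ t ∈ range r, (∑ m ∈ (Mr L N X).filter (fun m => m % r = t), hh s g N w L r m) ^ 2 := by
  unfold B1_V
  rw [← Finset.sum_fiberwise_of_maps_to (s := Mr L N X) (t := range r) (g := fun m => m % r)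
    (fun m _ => mem_range.mpr (Nat.mod_lt m hr))]
  refine Finset.sum_congr rfl fun t _ => ?_
  rw [pow_two, Finset.sum_mul_sum]
  refine Finset.sum_congr rfl fun m hm => ?_
  have h1 : (Mr L N X).filter (fun m' => m' ≡ m [MOD r]) =
      (Mr L N X).filter (fun m' => m' % r = t) := by
    refine Finset.filter_congr fun m' _ => ?_
    unfold Nat.ModEq
    rw [(Finset.mem_filter.mp hm).2]
  rw [h1]

private theorem B1_V_nonneg (s : (p : ℕ) → ZMod p → ℝ) (g : ℕ → ℝ) (N : ℕ) (w : ZMod N → ℝ)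
    (L X r : ℕ) (hr : 0 < r) : 0 ≤ B1_V s g N w L X r := by
  rw [B1_V_eq s g N w L X r hr]
  exact Finset.sum_nonneg fun _ _ => sq_nonneg _

private theorem B1_inner {s : (p : ℕ) → ZMod p → ℝ} (hs : Ev s) (g : ℕ → ℝ) {N : ℕ} (w : ZMod N → ℝ)
    (L X r : ℕ) (hLr : Squarefree (L * r)) :
    (∑ m ∈ (Icc 1 X).filter fun m => Squarefree (m * (L * r)) ∧ m.Coprime N,
      g m * w (m : ZMod N) * Th s (m * (L * r)) 1) =
    ∑ m ∈ Mr L N X, hh s g N w L r m * Th s r ((L * m : ℕ) : ℤ) := by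
  have h1 : ((Icc 1 X).filter fun m => Squarefree (m * (L * r)) ∧ m.Coprime N) ⊆ Mr L N X := by
    intro m hm
    rw [Finset.mem_filter] at hm
    obtain ⟨hm1, hm2, hm3⟩ := hm
    have h2 := (Nat.squarefree_mul_iff.mp hm2)
    unfold Mr
    rw [Finset.mem_filter]
    exact ⟨hm1, h2.2.1, Nat.Coprime.mul_right h2.1.coprime_mul_right_right hm3⟩
  rw [← Finset.sum_subset h1]
  · refine Finset.sum_congr rfl fun m hm => ?_
    rw [Finset.mem_filter] at hm
    rw [A3_three s m L r hm.2.1]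
    unfold hh
    ring
  · intro m hm hm'
    unfold Mr at hm
    rw [Finset.mem_filter] at hm hm'
    obtain ⟨hm1, hm2, hm3⟩ := hm
    have hm0 : m ≠ 0 := by
      have := (Finset.mem_Icc.mp hm1).1
      omega
    have h3 : ¬ m.Coprime r := by
      intro hc
      apply hm'
      refine ⟨hm1, ?_, hm3.coprime_mul_left_right⟩
      exact Nat.squarefree_mul_iff.mpr
        ⟨Nat.Coprime.mul_right hm3.coprime_mul_right_right hc, hm2, hLr⟩
    rw [hh_zero hs g N w L r m hm0 h3, zero_mul]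

private theorem B1_bd {s : (p : ℕ) → ZMod p → ℝ} (hs : Ev s) (g : ℕ → ℝ) {N : ℕ} (w : ZMod N → ℝ)
    (L X r : ℕ) (hr : 0 < r) :
    |∑ m ∈ Mr L N X, hh s g N w L r m * Th s r ((L * m : ℕ) : ℤ)| ≤
      Real.sqrt (r : ℝ) * Real.sqrt (B1_V s g N w L X r) := by
  rw [← Real.sqrt_mul (Nat.cast_nonneg r)]
  apply Real.le_sqrt_of_sq_le
  rw [B1_V_eq s g N w L X r hr]
  rw [← Finset.sum_fiberwise_of_maps_to (s := Mr L N X) (t := range r) (g := fun m => m % r)
    (fun m _ => mem_range.mpr (Nat.mod_lt m hr))]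
  have h1 : ∀ t ∈ range r, (∑ m ∈ (Mr L N X).filter (fun m => m % r = t),
      hh s g N w L r m * Th s r ((L * m : ℕ) : ℤ)) =
      Th s r ((L * t : ℕ) : ℤ) * ∑ m ∈ (Mr L N X).filter (fun m => m % r = t), hh s g N w L r m := by
    intro t _
    rw [Finset.mul_sum]
    refine Finset.sum_congr rfl fun m hm => ?_
    have h2 : Th s r ((L * m : ℕ) : ℤ) = Th s r ((L * t : ℕ) : ℤ) := by
      apply Th_congr
      rw [Int.natCast_modEq_iff]
      apply Nat.ModEq.mul_left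
      rw [← (Finset.mem_filter.mp hm).2]
      exact (Nat.mod_modEq m r).symm
    rw [h2, mul_comm]
  rw [Finset.sum_congr rfl h1]
  have h3 : |∑ t ∈ range r, Th s r ((L * t : ℕ) : ℤ) *
      ∑ m ∈ (Mr L N X).filter (fun m => m % r = t), hh s g N w L r m| ≤
      ∑ t ∈ range r, |∑ m ∈ (Mr L N X).filter (fun m => m % r = t), hh s g N w L r m| := by
    refine (Finset.abs_sum_le_sum_abs _ _).trans (Finset.sum_le_sum fun t _ => ?_)
    rw [abs_mul]
    exact mul_le_of_le_one_left (abs_nonneg _) (Th_le hs _ _)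
  calc |∑ t ∈ range r, Th s r ((L * t : ℕ) : ℤ) *
      ∑ m ∈ (Mr L N X).filter (fun m => m % r = t), hh s g N w L r m| ^ 2
      ≤ (∑ t ∈ range r, |∑ m ∈ (Mr L N X).filter (fun m => m % r = t), hh s g N w L r m|) ^ 2 :=
        pow_le_pow_left₀ (abs_nonneg _) h3 2
    _ ≤ (range r).card * ∑ t ∈ range r,
        |∑ m ∈ (Mr L N X).filter (fun m => m % r = t), hh s g N w L r m| ^ 2 :=
        sq_sum_le_card_mul_sum_sq
    _ = (r : ℝ) * ∑ t ∈ range r,
        (∑ m ∈ (Mr L N X).filter (fun m => m % r = t), hh s g N w L r m) ^ 2 := by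
        rw [Finset.card_range]
        simp only [sq_abs]

private theorem B1_triv {s : (p : ℕ) → ZMod p → ℝ} (hs : Ev s) {g : ℕ → ℝ} (hg : SM g) {N : ℕ}
    {w : ZMod N → ℝ} (hw : Wt N w) (L X r : ℕ) :
    |∑ m ∈ (Icc 1 X).filter fun m => Squarefree (m * (L * r)) ∧ m.Coprime N,
      g m * w (m : ZMod N) * Th s (m * (L * r)) 1| ≤ X := by
  refine (Finset.abs_sum_le_sum_abs _ _).trans ?_
  have h1 : ∀ m ∈ (Icc 1 X).filter (fun m => Squarefree (m * (L * r)) ∧ m.Coprime N),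
      |g m * w (m : ZMod N) * Th s (m * (L * r)) 1| ≤ 1 := by
    intro m _
    rw [abs_mul, abs_mul]
    have h2 : |g m| = 1 := by
      rcases hg.1 m with h | h <;> rw [h] <;> norm_num
    rw [h2, one_mul]
    exact mul_le_one₀ (hw _) (abs_nonneg _) (Th_le hs _ _)
  refine (Finset.sum_le_card_nsmul _ _ _ h1).trans ?_
  rw [nsmul_eq_mul, mul_one]
  have h3 : ((Icc 1 X).filter fun m => Squarefree (m * (L * r)) ∧ m.Coprime N).card ≤ X := by
    refine (Finset.card_filter_le _ _).trans ?_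
    rw [Nat.card_Icc]
    omega
  exact_mod_cast h3

theorem B1_cs {s : (p : ℕ) → ZMod p → ℝ} (hs : Ev s) {g : ℕ → ℝ} (hg : SM g) {N : ℕ} {w : ZMod N → ℝ}
    (hw : Wt N w) (L X R1 : ℕ) (hL : 0 < L) (β : ℕ → ℝ) (hβ : ∀ n, |β n| ≤ 1) :
    |TL s g N w L X β| ≤ R1 * X + ((X / L : ℕ) : ℝ) * Real.sqrt (VV s g N w L X R1 (X / L)) := by
  set R : ℕ := X / L with hR
  set A : Finset ℕ := (Icc 1 R).filter fun r => Squarefree (L * r) with hA
  obtain ⟨I, hI⟩ : ∃ I : ℕ → ℝ, I = fun r =>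
      ∑ m ∈ (Icc 1 X).filter fun m => Squarefree (m * (L * r)) ∧ m.Coprime N,
        g m * w (m : ZMod N) * Th s (m * (L * r)) 1 := ⟨_, rfl⟩
  have h0 : TL s g N w L X β = ∑ r ∈ A, β r * I r := by
    rw [hI]
    rfl
  have h1 : |TL s g N w L X β| ≤ ∑ r ∈ A, |I r| := by
    rw [h0]
    refine (Finset.abs_sum_le_sum_abs _ _).trans (Finset.sum_le_sum fun r _ => ?_)
    rw [abs_mul]
    exact mul_le_of_le_one_left (abs_nonneg _) (hβ r)
  have hsplit : ∑ r ∈ A, |I r| = (∑ r ∈ A.filter (fun r => r ≤ R1), |I r|) +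
      ∑ r ∈ A.filter (fun r => ¬ r ≤ R1), |I r| :=
    (Finset.sum_filter_add_sum_filter_not A (fun r => r ≤ R1) _).symm
  have h2 : (∑ r ∈ A.filter (fun r => r ≤ R1), |I r|) ≤ R1 * X := by
    refine (Finset.sum_le_card_nsmul _ _ (X : ℝ) fun r _ => ?_).trans ?_
    · rw [hI]
      exact B1_triv hs hg hw L X r
    · rw [nsmul_eq_mul]
      refine mul_le_mul_of_nonneg_right ?_ (Nat.cast_nonneg X)
      have h3 : A.filter (fun r => r ≤ R1) ⊆ Icc 1 R1 := by
        intro r hr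
        rw [Finset.mem_filter, hA, Finset.mem_filter, Finset.mem_Icc] at hr
        rw [Finset.mem_Icc]
        exact ⟨hr.1.1.1, hr.2⟩
      have h4 := Finset.card_le_card h3
      rw [Nat.card_Icc] at h4
      have h5 : (A.filter (fun r => r ≤ R1)).card ≤ R1 := by omega
      exact_mod_cast h5
  have h3 : (∑ r ∈ A.filter (fun r => ¬ r ≤ R1), |I r|) ≤
      ∑ r ∈ Ioc R1 R, Real.sqrt (r : ℝ) * Real.sqrt (B1_V s g N w L X r) := by
    have h4 : A.filter (fun r => ¬ r ≤ R1) ⊆ Ioc R1 R := by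
      intro r hr
      rw [Finset.mem_filter, hA, Finset.mem_filter, Finset.mem_Icc] at hr
      rw [Finset.mem_Ioc]
      exact ⟨not_le.mp hr.2, hr.1.1.2⟩
    refine (Finset.sum_le_sum fun r hr => ?_).trans
      (Finset.sum_le_sum_of_subset_of_nonneg h4 fun r _ _ =>
        mul_nonneg (Real.sqrt_nonneg _) (Real.sqrt_nonneg _))
    rw [Finset.mem_filter, hA, Finset.mem_filter, Finset.mem_Icc] at hr
    rw [hI]
    simp only []
    rw [B1_inner hs g w L X r hr.1.2]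
    exact B1_bd hs g w L X r hr.1.1.1
  have h4 : (∑ r ∈ Ioc R1 R, Real.sqrt (r : ℝ) * Real.sqrt (B1_V s g N w L X r)) ≤
      (R : ℝ) * Real.sqrt (VV s g N w L X R1 R) := by
    have h5 : ∀ r ∈ Ioc R1 R, 0 < r := fun r hr => by
      have := (Finset.mem_Ioc.mp hr).1
      omega
    have h6 : (∑ r ∈ Ioc R1 R, Real.sqrt (r : ℝ) * Real.sqrt (B1_V s g N w L X r)) ≤
        Real.sqrt (∑ r ∈ Ioc R1 R, Real.sqrt (r : ℝ) ^ 2) *
          Real.sqrt (∑ r ∈ Ioc R1 R, Real.sqrt (B1_V s g N w L X r) ^ 2) :=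
      Real.sum_mul_le_sqrt_mul_sqrt _ _ _
    refine h6.trans ?_
    have h7 : (∑ r ∈ Ioc R1 R, Real.sqrt (B1_V s g N w L X r) ^ 2) = VV s g N w L X R1 R := by
      unfold VV
      refine Finset.sum_congr rfl fun r hr => ?_
      rw [Real.sq_sqrt (B1_V_nonneg s g N w L X r (h5 r hr))]
      rfl
    rw [h7]
    refine mul_le_mul_of_nonneg_right ?_ (Real.sqrt_nonneg _)
    apply Real.sqrt_le_iff.mpr
    refine ⟨Nat.cast_nonneg R, ?_⟩
    have h8 : (∑ r ∈ Ioc R1 R, Real.sqrt (r : ℝ) ^ 2) ≤ ∑ r ∈ Ioc R1 R, (R : ℝ) := by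
      refine Finset.sum_le_sum fun r hr => ?_
      rw [Real.sq_sqrt (Nat.cast_nonneg r)]
      exact_mod_cast (Finset.mem_Ioc.mp hr).2
    refine h8.trans ?_
    rw [Finset.sum_const, nsmul_eq_mul, Nat.card_Ioc, pow_two]
    refine mul_le_mul_of_nonneg_right ?_ (Nat.cast_nonneg R)
    exact_mod_cast Nat.sub_le R R1
  linarith

end PS25
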