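import Pool.Agent.LibPS25.A5

/-
PLAN (B2). Diagonal m = m': at most (R - R1) X <= R X (hh_le). The pairs m' < m and m < m' give equal sums, so VV <= R X + 2 W,
W = sum over r in (R1, R], m' < m in Mr, m = m' mod r of hh r m hh r m'. A term is 0 unless r is coprime to m and m' (hh_zero). Put
g0 = gcd(m, m'), u = m / g0, v = m' / g0, u coprime to v; r | g0 (u - v) and r coprime to g0, so u - v = j r with j >= 1;
g0 j (R1 + 1) <= g0 j r = m - m' <= X, so g0 <= X/(R1+1) and j <= X/(R1+1)/g0 (Nat.le_div_iff_mul_le, Nat.div_div_eq_div_mul).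
(r, m, m') -> (g0, j, r, v) is a bijection of the nonzero terms of W with the terms of the sums OO g0 j (m = g0 (v + j r), m' = g0 v; gcd = g0 because
v coprime to v + j r): W = sum_{g0, j} OO g0 j <= sum |OO g0 j| (extra tuples of OO are terms of W too: m - m' = g0 j r).
-/

set_option autoImplicit false

noncomputable section

namespace PS25

open Finset

private theorem B2_ite (r : ℕ) (F : ℕ → ℕ → ℝ) (m m' : ℕ) :
    (if m' ≡ m [MOD r] then F m m' else 0) =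
      (if m' ≡ m [MOD r] ∧ m' < m then F m m' else 0) +
        ((if m ≡ m' [MOD r] ∧ m < m' then F m m' else 0) + if m' = m then F m m' else 0) := by
  by_cases hE : m' ≡ m [MOD r]
  · have hE' : m ≡ m' [MOD r] := hE.symm
    rcases lt_trichotomy m' m with h | h | h
    · rw [if_pos hE, if_pos ⟨hE, h⟩, if_neg (fun h1 => lt_asymm h h1.2), if_neg h.ne]
      ring
    · rw [if_pos hE, if_neg (fun h1 => h1.2.ne h), if_neg (fun h1 => h1.2.ne h.symm), if_pos h]
      ring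
    · rw [if_pos hE, if_neg (fun h1 => lt_asymm h h1.2), if_pos ⟨hE', h⟩, if_neg h.ne']
      ring
  · have hE' : ¬ m ≡ m' [MOD r] := fun h => hE h.symm
    have hne : m' ≠ m := by
      rintro rfl
      exact hE (Nat.ModEq.refl _)
    rw [if_neg hE, if_neg (fun h1 => hE h1.1), if_neg (fun h1 => hE' h1.1), if_neg hne]
    ring

private theorem B2_sym (A : Finset ℕ) (r : ℕ) (F : ℕ → ℕ → ℝ) (hF : ∀ m m', F m m' = F m' m) :
    ∑ m ∈ A, ∑ m' ∈ A.filter (fun m' => m' ≡ m [MOD r]), F m m' =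
      ∑ m ∈ A, F m m +
        2 * ∑ m ∈ A, ∑ m' ∈ A.filter (fun m' => m' ≡ m [MOD r] ∧ m' < m), F m m' := by
  have h0 : ∑ m ∈ A, ∑ m' ∈ A.filter (fun m' => m' ≡ m [MOD r]), F m m' =
      ∑ m ∈ A, ∑ m' ∈ A, ((if m' ≡ m [MOD r] ∧ m' < m then F m m' else 0) +
        ((if m ≡ m' [MOD r] ∧ m < m' then F m m' else 0) + if m' = m then F m m' else 0)) := by
    refine Finset.sum_congr rfl fun m _ => ?_
    rw [Finset.sum_filter]
    exact Finset.sum_congr rfl fun m' _ => B2_ite r F m m'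
  have h1 : ∑ m ∈ A, ∑ m' ∈ A, (if m ≡ m' [MOD r] ∧ m < m' then F m m' else 0) =
      ∑ m ∈ A, ∑ m' ∈ A, (if m' ≡ m [MOD r] ∧ m' < m then F m m' else 0) := by
    rw [Finset.sum_comm]
    refine Finset.sum_congr rfl fun m _ => Finset.sum_congr rfl fun m' _ => ?_
    rw [hF m' m]
  have h2 : ∑ m ∈ A, ∑ m' ∈ A, (if m' = m then F m m' else 0) = ∑ m ∈ A, F m m := by
    refine Finset.sum_congr rfl fun m hm => ?_
    rw [Finset.sum_ite_eq' A m (fun m' => F m m'), if_pos hm]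
  rw [h0]
  simp only [Finset.sum_add_distrib]
  rw [h1, h2]
  have h3 : ∑ m ∈ A, ∑ m' ∈ A.filter (fun m' => m' ≡ m [MOD r] ∧ m' < m), F m m' =
      ∑ m ∈ A, ∑ m' ∈ A, (if m' ≡ m [MOD r] ∧ m' < m then F m m' else 0) :=
    Finset.sum_congr rfl fun m _ => Finset.sum_filter _ _
  rw [h3]
  ring

private theorem B2_r (A : Finset ℕ) {X R1 r : ℕ} (hA : ∀ m ∈ A, 1 ≤ m ∧ m ≤ X) (hr : R1 < r)
    (F : ℕ → ℕ → ℝ) (hF : ∀ m m', m ∈ A → ¬ m.Coprime r → F m m' = 0) :
    ∑ m ∈ A, ∑ m' ∈ A.filter (fun m' => m' ≡ m [MOD r] ∧ m' < m), F m m' =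
      ∑ g0 ∈ Icc 1 (X / (R1 + 1)), ∑ j ∈ Icc 1 (X / (R1 + 1) / g0),
        ∑ v ∈ (Icc 1 X).filter fun v => g0 * (v + j * r) ∈ A ∧ g0 * v ∈ A ∧ v.Coprime (v + j * r),
          F (g0 * (v + j * r)) (g0 * v) := by
  have hr0 : 0 < r := by omega
  have hT : ∑ x ∈ A.sigma fun m => A.filter (fun m' => m' ≡ m [MOD r] ∧ m' < m), F x.1 x.2 =
      ∑ m ∈ A, ∑ m' ∈ A.filter (fun m' => m' ≡ m [MOD r] ∧ m' < m), F m m' := by
    rw [Finset.sum_sigma]
  have hS : ∑ y ∈ (Icc 1 (X / (R1 + 1))).sigma fun g0 => (Icc 1 (X / (R1 + 1) / g0)).sigma fun j =>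
      (Icc 1 X).filter fun v => g0 * (v + j * r) ∈ A ∧ g0 * v ∈ A ∧ v.Coprime (v + j * r),
        F (y.1 * (y.2.2 + y.2.1 * r)) (y.1 * y.2.2) =
      ∑ g0 ∈ Icc 1 (X / (R1 + 1)), ∑ j ∈ Icc 1 (X / (R1 + 1) / g0),
        ∑ v ∈ (Icc 1 X).filter fun v => g0 * (v + j * r) ∈ A ∧ g0 * v ∈ A ∧ v.Coprime (v + j * r),
          F (g0 * (v + j * r)) (g0 * v) := by
    rw [Finset.sum_sigma]
    refine Finset.sum_congr rfl fun g0 _ => ?_
    rw [Finset.sum_sigma]
  rw [← hT, ← hS]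
  symm
  refine Finset.sum_of_injOn
    (fun y : (_ : ℕ) × (_ : ℕ) × ℕ => (⟨y.1 * (y.2.2 + y.2.1 * r), y.1 * y.2.2⟩ : (_ : ℕ) × ℕ))
    ?_ ?_ ?_ ?_
  · rintro ⟨g, j, v⟩ hy ⟨g', j', v'⟩ hy' he
    simp only [Finset.coe_sigma, Set.mem_sigma_iff, Finset.coe_filter, Finset.mem_coe,
      Finset.mem_Icc, Set.mem_ofPred_eq] at hy hy'
    simp only [Sigma.mk.injEq, heq_eq_eq] at he
    obtain ⟨he1, he2⟩ := he
    have hg : g = g' := by
      have h1 : Nat.gcd (g * (v + j * r)) (g * v) = g := by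
        rw [Nat.gcd_mul_left, Nat.gcd_comm, hy.2.2.2.2.2, mul_one]
      have h2 : Nat.gcd (g' * (v' + j' * r)) (g' * v') = g' := by
        rw [Nat.gcd_mul_left, Nat.gcd_comm, hy'.2.2.2.2.2, mul_one]
      rw [← h1, ← h2, he1, he2]
    subst hg
    have hg0 : 0 < g := by omega
    have hv : v = v' := Nat.eq_of_mul_eq_mul_left hg0 he2
    subst hv
    have h3 : v + j * r = v + j' * r := Nat.eq_of_mul_eq_mul_left hg0 he1
    have h4 : j * r = j' * r := by omega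
    have hj : j = j' := Nat.eq_of_mul_eq_mul_right hr0 h4
    subst hj
    rfl
  · rintro ⟨g, j, v⟩ hy
    simp only [Finset.coe_sigma, Set.mem_sigma_iff, Finset.coe_filter, Finset.mem_coe,
      Finset.mem_Icc, Set.mem_ofPred_eq] at hy ⊢
    obtain ⟨⟨hg1, hg2⟩, ⟨hj1, hj2⟩, ⟨hv1, hv2⟩, h1, h2, h3⟩ := hy
    refine ⟨h1, h2, ?_, ?_⟩
    · have h4 : g * (v + j * r) = g * v + r * (g * j) := by ring
      rw [h4]
      exact (Nat.modEq_iff_dvd' (Nat.le_add_right _ _)).2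
        (by rw [Nat.add_sub_cancel_left]; exact Dvd.intro _ rfl)
    · refine Nat.mul_lt_mul_of_pos_left ?_ (by omega)
      have : 0 < j * r := Nat.mul_pos (by omega) hr0
      omega
  · rintro ⟨m, m'⟩ hx hn
    simp only [Finset.mem_sigma, Finset.mem_filter] at hx
    obtain ⟨hm, hm', hmod, hlt⟩ := hx
    by_contra hne
    have hcop : m.Coprime r := by
      by_contra hcon
      exact hne (hF m m' hm hcon)
    apply hn
    obtain ⟨hm1, hmX⟩ := hA m hm
    obtain ⟨hm1', hmX'⟩ := hA m' hm'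
    obtain ⟨g, hg⟩ : ∃ g, g = Nat.gcd m m' := ⟨_, rfl⟩
    have hgpos : 0 < g := by
      rw [hg]
      exact Nat.gcd_pos_of_pos_left _ hm1
    obtain ⟨u, hu⟩ : g ∣ m := hg ▸ Nat.gcd_dvd_left m m'
    obtain ⟨v, hv⟩ : g ∣ m' := hg ▸ Nat.gcd_dvd_right m m'
    have huv : u.Coprime v := by
      have h1 : g * Nat.gcd u v = g * 1 := by
        rw [← Nat.gcd_mul_left, ← hu, ← hv, mul_one, hg]
      exact Nat.eq_of_mul_eq_mul_left hgpos h1
    have hlt' : v < u := by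
      rw [hu, hv] at hlt
      exact Nat.lt_of_mul_lt_mul_left hlt
    have hrg : r.Coprime g := by
      have h1 : g ∣ m := hg ▸ Nat.gcd_dvd_left m m'
      exact (Nat.Coprime.coprime_dvd_left h1 hcop).symm
    have hd : r ∣ g * (u - v) := by
      have h1 := (Nat.modEq_iff_dvd' hlt.le).1 hmod
      rw [Nat.mul_sub, ← hu, ← hv]
      exact h1
    obtain ⟨j, hj⟩ := hrg.dvd_of_dvd_mul_left hd
    have hj0 : 0 < j := by
      rcases Nat.eq_zero_or_pos j with h0 | h0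
      · rw [h0, mul_zero] at hj
        omega
      · exact h0
    have huj : u = v + j * r := by
      rw [mul_comm j r]
      omega
    have hv0 : 0 < v := by
      rcases Nat.eq_zero_or_pos v with h0 | h0
      · rw [h0, mul_zero] at hv
        omega
      · exact h0
    have hgj : g * j * (R1 + 1) ≤ X := by
      have h1 : g * j * (R1 + 1) ≤ g * j * r := Nat.mul_le_mul_left _ hr
      have h2 : g * j * r ≤ m := by
        rw [hu, huj, Nat.mul_add, mul_assoc]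
        exact Nat.le_add_left _ _
      omega
    have hgj' : g * j ≤ X / (R1 + 1) := (Nat.le_div_iff_mul_le (Nat.succ_pos _)).2 hgj
    have hjY : j ≤ X / (R1 + 1) / g := (Nat.le_div_iff_mul_le hgpos).2 (by rwa [mul_comm])
    have hgY : g ≤ X / (R1 + 1) := (Nat.le_mul_of_pos_right g hj0).trans hgj'
    have hvX : v ≤ X := by
      have h1 : v ≤ m' := by
        rw [hv]
        exact Nat.le_mul_of_pos_left v hgpos
      omega
    refine ⟨⟨g, j, v⟩, ?_, ?_⟩
    · simp only [Finset.coe_sigma, Set.mem_sigma_iff, Finset.coe_filter, Finset.mem_coe,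
        Finset.mem_Icc, Set.mem_ofPred_eq]
      rw [← huj, ← hu, ← hv]
      exact ⟨⟨hgpos, hgY⟩, ⟨hj0, hjY⟩, ⟨hv0, hvX⟩, hm, hm', huv.symm⟩
    · simp only
      rw [← huj, ← hu, ← hv]
  · intro y _
    rfl

theorem B2_split {s : (p : ℕ) → ZMod p → ℝ} (hs : Ev s) {g : ℕ → ℝ} (hg : SM g) {N : ℕ} {w : ZMod N → ℝ}
    (hw : Wt N w) (L X R1 R : ℕ) (hL : 0 < L) :
    VV s g N w L X R1 R ≤ R * X + 2 * ∑ g0 ∈ Icc 1 (X / (R1 + 1)), ∑ j ∈ Icc 1 (X / (R1 + 1) / g0),
      |OO s g N w L X R1 R g0 j| := by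
  have hA : ∀ m ∈ Mr L N X, 1 ≤ m ∧ m ≤ X := by
    intro m hm
    unfold Mr at hm
    rw [Finset.mem_filter, Finset.mem_Icc] at hm
    exact hm.1
  have hV : VV s g N w L X R1 R = ∑ r ∈ Ioc R1 R, (∑ m ∈ Mr L N X,
      hh s g N w L r m * hh s g N w L r m +
      2 * ∑ g0 ∈ Icc 1 (X / (R1 + 1)), ∑ j ∈ Icc 1 (X / (R1 + 1) / g0),
        ∑ v ∈ (Icc 1 X).filter fun v => g0 * (v + j * r) ∈ Mr L N X ∧ g0 * v ∈ Mr L N X ∧
          v.Coprime (v + j * r),
          hh s g N w L r (g0 * (v + j * r)) * hh s g N w L r (g0 * v)) := by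
    unfold VV
    refine Finset.sum_congr rfl fun r hr => ?_
    rw [Finset.mem_Ioc] at hr
    rw [B2_sym (Mr L N X) r (fun m m' => hh s g N w L r m * hh s g N w L r m')
      (fun m m' => mul_comm _ _), B2_r (Mr L N X) hA hr.1
      (fun m m' => hh s g N w L r m * hh s g N w L r m') (by
        intro m m' hm hc
        rw [hh_zero hs g N w L r m (by have := (hA m hm).1; omega) hc, zero_mul])]
  rw [hV, Finset.sum_add_distrib]
  have hdiag : ∑ r ∈ Ioc R1 R, ∑ m ∈ Mr L N X, hh s g N w L r m * hh s g N w L r m ≤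
      (R : ℝ) * X := by
    have h1 : ∀ r ∈ Ioc R1 R, ∑ m ∈ Mr L N X, hh s g N w L r m * hh s g N w L r m ≤ (X : ℝ) := by
      intro r _
      have h2 : ∀ m ∈ Mr L N X, hh s g N w L r m * hh s g N w L r m ≤ 1 := by
        intro m _
        rw [← abs_mul_abs_self]
        exact mul_le_one₀ (hh_le hs hg hw L r m) (abs_nonneg _) (hh_le hs hg hw L r m)
      refine (Finset.sum_le_card_nsmul _ _ _ h2).trans ?_
      rw [nsmul_eq_mul, mul_one]
      have h3 : (Mr L N X).card ≤ X := by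
        unfold Mr
        refine (Finset.card_filter_le _ _).trans ?_
        rw [Nat.card_Icc, Nat.add_sub_cancel]
      exact_mod_cast h3
    refine (Finset.sum_le_card_nsmul _ _ _ h1).trans ?_
    rw [nsmul_eq_mul]
    refine mul_le_mul_of_nonneg_right ?_ (Nat.cast_nonneg _)
    rw [Nat.card_Ioc]
    exact_mod_cast Nat.sub_le _ _
  have hoff : ∑ r ∈ Ioc R1 R, 2 * ∑ g0 ∈ Icc 1 (X / (R1 + 1)), ∑ j ∈ Icc 1 (X / (R1 + 1) / g0),
        ∑ v ∈ (Icc 1 X).filter fun v => g0 * (v + j * r) ∈ Mr L N X ∧ g0 * v ∈ Mr L N X ∧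
          v.Coprime (v + j * r),
          hh s g N w L r (g0 * (v + j * r)) * hh s g N w L r (g0 * v) =
      2 * ∑ g0 ∈ Icc 1 (X / (R1 + 1)), ∑ j ∈ Icc 1 (X / (R1 + 1) / g0),
        OO s g N w L X R1 R g0 j := by
    rw [← Finset.mul_sum]
    congr 1
    rw [Finset.sum_comm]
    refine Finset.sum_congr rfl fun g0 _ => ?_
    rw [Finset.sum_comm]
    rfl
  rw [hoff]
  refine add_le_add hdiag (mul_le_mul_of_nonneg_left ?_ (by norm_num))
  exact Finset.sum_le_sum fun g0 _ => Finset.sum_le_sum fun j _ => le_abs_self _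

end PS25
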