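import Pool.Agent.LibPS25.A5

/-
PLAN (B3). Every term is at most 1 in absolute value (hh_le), r takes at most R values, v at most X / g0 (g0 v <= X).
-/

set_option autoImplicit false

noncomputable section

namespace PS25

open Finset

theorem B3_triv {s : (p : ℕ) → ZMod p → ℝ} (hs : Ev s) {g : ℕ → ℝ} (hg : SM g) {N : ℕ} {w : ZMod N → ℝ}
    (hw : Wt N w) (L X R1 R g0 j : ℕ) (hg0 : 0 < g0) :
    |OO s g N w L X R1 R g0 j| ≤ R * (X / g0 : ℝ) := by
  classical
  unfold OO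
  have hterm : ∀ r v : ℕ,
      |hh s g N w L r (g0 * (v + j * r)) * hh s g N w L r (g0 * v)| ≤ 1 := by
    intro r v
    rw [abs_mul]
    have h1 := hh_le hs hg hw L r (g0 * (v + j * r))
    have h2 := hh_le hs hg hw L r (g0 * v)
    calc |hh s g N w L r (g0 * (v + j * r))| * |hh s g N w L r (g0 * v)| ≤ 1 * 1 :=
          mul_le_mul h1 h2 (abs_nonneg _) zero_le_one
      _ = 1 := one_mul 1
  have hcard : ∀ r : ℕ, ((((Icc 1 X).filter fun v =>
      g0 * (v + j * r) ∈ Mr L N X ∧ g0 * v ∈ Mr L N X ∧ v.Coprime (v + j * r)).card : ℕ) : ℝ)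
        ≤ (X / g0 : ℝ) := by
    intro r
    have h1 : ((Icc 1 X).filter fun v =>
      g0 * (v + j * r) ∈ Mr L N X ∧ g0 * v ∈ Mr L N X ∧ v.Coprime (v + j * r)) ⊆
        Icc 1 (X / g0) := by
      intro v hv
      rw [mem_filter, mem_Icc] at hv
      obtain ⟨⟨hv1, _⟩, _, hv2, _⟩ := hv
      unfold Mr at hv2
      rw [mem_filter, mem_Icc] at hv2
      rw [mem_Icc]
      refine ⟨hv1, ?_⟩
      rw [Nat.le_div_iff_mul_le hg0]
      calc v * g0 = g0 * v := mul_comm _ _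
        _ ≤ X := hv2.1.2
    have h2 := card_le_card h1
    rw [Nat.card_Icc, Nat.add_sub_cancel] at h2
    calc ((((Icc 1 X).filter fun v =>
      g0 * (v + j * r) ∈ Mr L N X ∧ g0 * v ∈ Mr L N X ∧ v.Coprime (v + j * r)).card : ℕ) : ℝ)
        ≤ ((X / g0 : ℕ) : ℝ) := by exact_mod_cast h2
      _ ≤ (X / g0 : ℝ) := Nat.cast_div_le
  refine (abs_sum_le_sum_abs _ _).trans ?_
  have hinner : ∀ r ∈ Ioc R1 R, |∑ v ∈ (Icc 1 X).filter fun v =>
      g0 * (v + j * r) ∈ Mr L N X ∧ g0 * v ∈ Mr L N X ∧ v.Coprime (v + j * r),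
      hh s g N w L r (g0 * (v + j * r)) * hh s g N w L r (g0 * v)| ≤ (X / g0 : ℝ) := by
    intro r _
    refine (abs_sum_le_sum_abs _ _).trans ?_
    refine (sum_le_card_nsmul _ _ 1 (fun v _ => hterm r v)).trans ?_
    rw [nsmul_eq_mul, mul_one]
    exact hcard r
  refine (sum_le_card_nsmul _ _ _ hinner).trans ?_
  rw [nsmul_eq_mul]
  apply mul_le_mul_of_nonneg_right
  · rw [Nat.card_Ioc]
    exact_mod_cast Nat.sub_le R R1
  · positivity

end PS25
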