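import Pool.Agent.LibPS25.A5

/-
PLAN (B4). If g0 is not squarefree or not coprime to L N, every condition g0 v in Mr fails, OO = 0. Otherwise, by hh_pair (u = v + j r) each term of OO is
g (D) Psi (D) ee u v with D = u v. (r, v) -> (D, u) = (u v, v + j r) is a bijection of the index set of OO onto the pairs with D in [1, X^2] squarefree and
coprime to j L g0 N, u in Iu (X/g0) (j R1) (j R) D, j | u - D/u (for the others ee = 0): D squarefree because u, v are squarefree and coprime; D coprime to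
j because a prime p | j, p | u would divide v; D coprime to g0 because g0 u, g0 v are squarefree; conversely v = D/u, r = (u - v)/j, R1 < r <= R,
g0 u <= X, g0 u squarefree because g0 is squarefree and coprime to D. So OO = sum_D g D Psi D sum_u ee u (D/u), and |g D Psi D| <= 1.
-/

set_option autoImplicit false

noncomputable section

namespace PS25

open Finset

private def B4_S (L N X R1 R g0 j : ℕ) : Finset (ℕ × ℕ) :=
  ((Ioc R1 R) ×ˢ (Icc 1 X)).filter fun x =>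
    g0 * (x.2 + j * x.1) ∈ Mr L N X ∧ g0 * x.2 ∈ Mr L N X ∧ x.2.Coprime (x.2 + j * x.1)

private lemma B4_mem_S {L N X R1 R g0 j : ℕ} {x : ℕ × ℕ} :
    x ∈ B4_S L N X R1 R g0 j ↔ (R1 < x.1 ∧ x.1 ≤ R) ∧ (1 ≤ x.2 ∧ x.2 ≤ X) ∧
      ((1 ≤ g0 * (x.2 + j * x.1) ∧ g0 * (x.2 + j * x.1) ≤ X) ∧ Squarefree (g0 * (x.2 + j * x.1)) ∧
        (g0 * (x.2 + j * x.1)).Coprime (L * N)) ∧
      ((1 ≤ g0 * x.2 ∧ g0 * x.2 ≤ X) ∧ Squarefree (g0 * x.2) ∧ (g0 * x.2).Coprime (L * N)) ∧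
      x.2.Coprime (x.2 + j * x.1) := by
  unfold B4_S Mr
  simp only [mem_filter, mem_product, mem_Ioc, mem_Icc]
  tauto

private lemma B4_OO (s : (p : ℕ) → ZMod p → ℝ) (g : ℕ → ℝ) (N : ℕ) (w : ZMod N → ℝ)
    (L X R1 R g0 j : ℕ) :
    OO s g N w L X R1 R g0 j = ∑ x ∈ B4_S L N X R1 R g0 j,
      hh s g N w L x.1 (g0 * (x.2 + j * x.1)) * hh s g N w L x.1 (g0 * x.2) := by
  unfold OO B4_S
  rw [Finset.sum_filter, Finset.sum_product]
  apply Finset.sum_congr rfl
  intro r _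
  rw [Finset.sum_filter]

private lemma B4_maps {L N X R1 R g0 j : ℕ} (hL : 0 < L) (hg0 : 0 < g0) (hj : 0 < j) {x : ℕ × ℕ}
    (hx : x ∈ B4_S L N X R1 R g0 j) :
    (x.2 + j * x.1) * x.2 ∈ (Icc 1 (X ^ 2)).filter
      fun D => Squarefree D ∧ D.Coprime (j * L * g0 * N) := by
  rw [B4_mem_S] at hx
  obtain ⟨⟨h1, h2⟩, ⟨h3, h4⟩, ⟨⟨h5, h6⟩, h7, h8⟩, ⟨⟨h9, h10⟩, h11, h12⟩, h13⟩ := hx
  set u := x.2 + j * x.1 with hu
  set v := x.2 with hv
  have hu1 : 1 ≤ u := by omega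
  rw [Nat.squarefree_mul_iff] at h7 h11
  have huX : u ≤ X := le_trans (Nat.le_mul_of_pos_left u hg0) h6
  rw [mem_filter, mem_Icc]
  refine ⟨⟨Nat.mul_pos hu1 h3, ?_⟩, ?_, ?_⟩
  · rw [pow_two]
    exact Nat.mul_le_mul huX h4
  · rw [Nat.squarefree_mul_iff]
    exact ⟨h13.symm, h7.2.2, h11.2.2⟩
  · have hLN : (u * v).Coprime (L * N) := by
      apply Nat.Coprime.mul_left
      · exact Nat.Coprime.coprime_mul_left h8
      · exact Nat.Coprime.coprime_mul_left h12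
    have hg : (u * v).Coprime g0 := by
      apply Nat.Coprime.mul_left
      · exact h7.1.symm
      · exact h11.1.symm
    have huj : u.Coprime j := by
      have hh : u.gcd j ∣ u.gcd v := by
        apply Nat.dvd_gcd (Nat.gcd_dvd_left u j)
        have h1 : u.gcd j ∣ u := Nat.gcd_dvd_left u j
        have h2 : u.gcd j ∣ j * x.1 := (Nat.gcd_dvd_right u j).mul_right _
        have h3 : u.gcd j ∣ u - j * x.1 := Nat.dvd_sub h1 h2
        have h4 : u - j * x.1 = v := by omega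
        rwa [h4] at h3
      rw [h13.symm] at hh
      exact Nat.dvd_one.1 hh
    have hvj : v.Coprime j := by
      have hh : v.gcd j ∣ v.gcd u := by
        apply Nat.dvd_gcd (Nat.gcd_dvd_left v j)
        rw [hu]
        exact dvd_add (Nat.gcd_dvd_left v j) ((Nat.gcd_dvd_right v j).mul_right _)
      rw [h13] at hh
      exact Nat.dvd_one.1 hh
    have hjD : (u * v).Coprime j := Nat.Coprime.mul_left huj hvj
    have hLD : (u * v).Coprime L := Nat.Coprime.coprime_mul_right_right hLN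
    have hND : (u * v).Coprime N := Nat.Coprime.coprime_mul_left_right hLN
    exact ((hjD.mul_right hLD).mul_right hg).mul_right hND

private lemma B4_fiber (s : (p : ℕ) → ZMod p → ℝ) (N : ℕ) (w : ZMod N → ℝ)
    (L X R1 R g0 j : ℕ) (hL : 0 < L) (hg0 : 0 < g0) (hj : 0 < j) (hsq : Squarefree g0)
    (hcop : g0.Coprime (L * N)) (D : ℕ) (hD1 : 1 ≤ D) (hD : Squarefree D)
    (hDc : D.Coprime (j * L * g0 * N)) :
    ∑ x ∈ (B4_S L N X R1 R g0 j).filter (fun x => (x.2 + j * x.1) * x.2 = D),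
      ee s N w L g0 j ((x.2 + j * x.1 : ℕ) : ℤ) (x.2 : ℤ) =
    ∑ u ∈ Iu (X / g0) (j * R1) (j * R) D, ee s N w L g0 j u (D / u : ℕ) := by
  classical
  have hstep : ∑ u ∈ Iu (X / g0) (j * R1) (j * R) D, ee s N w L g0 j u (D / u : ℕ) =
      ∑ u ∈ (Iu (X / g0) (j * R1) (j * R) D).filter (fun u : ℕ => (j : ℤ) ∣ (u : ℤ) - ((D / u : ℕ) : ℤ)),
        ee s N w L g0 j u (D / u : ℕ) := by
    symm
    apply Finset.sum_filter_of_ne
    intro u _ hne
    by_contra hcon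
    apply hne
    unfold ee
    rw [if_neg hcon]
  rw [hstep]
  refine Finset.sum_nbij' (fun x => x.2 + j * x.1) (fun u => ((u - D / u) / j, D / u)) ?_ ?_ ?_ ?_ ?_
  · intro x hx
    rw [mem_filter, B4_mem_S] at hx
    obtain ⟨⟨⟨h1, h2⟩, ⟨h3, h4⟩, ⟨⟨h5, h6⟩, h7, h8⟩, ⟨⟨h9, h10⟩, h11, h12⟩, h13⟩, hxD⟩ := hx
    have hupos : 0 < x.2 + j * x.1 := by omega
    have hdiv : D / (x.2 + j * x.1) = x.2 := by
      rw [← hxD]
      exact Nat.mul_div_cancel_left _ hupos
    have hjr : 0 < j * x.1 := Nat.mul_pos hj (by omega)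
    rw [mem_filter]
    unfold Iu
    rw [mem_filter, Nat.mem_divisors, hdiv]
    refine ⟨⟨⟨⟨x.2, hxD.symm⟩, by omega⟩, by omega, ?_, ?_, ?_⟩, ?_⟩
    · rw [Nat.le_div_iff_mul_le hg0, mul_comm]
      exact h6
    · rw [Nat.add_sub_cancel_left]
      exact Nat.mul_lt_mul_of_pos_left h1 hj
    · rw [Nat.add_sub_cancel_left]
      exact Nat.mul_le_mul_left _ h2
    · refine ⟨(x.1 : ℤ), ?_⟩
      push_cast
      ring
  · intro u hu
    rw [mem_filter] at hu
    obtain ⟨hu, hjd⟩ := hu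
    unfold Iu at hu
    rw [mem_filter, Nat.mem_divisors] at hu
    obtain ⟨⟨hud, hD0⟩, h1, h2, h3, h4⟩ := hu
    obtain ⟨v, hv⟩ := hud
    have hu0 : 0 < u := lt_of_le_of_lt (Nat.zero_le _) h1
    have hdiv : D / u = v := by
      rw [hv]
      exact Nat.mul_div_cancel_left _ hu0
    rw [hdiv] at h1 h3 h4 hjd ⊢
    have hv0 : 0 < v := by
      rcases Nat.eq_zero_or_pos v with h | h
      · rw [h, mul_zero] at hv
        exact absurd hv hD0
      · exact h
    have hjd' : j ∣ u - v := by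
      rw [← Nat.cast_sub h1.le] at hjd
      exact_mod_cast hjd
    obtain ⟨r, hr⟩ := hjd'
    have hdiv2 : (u - v) / j = r := by
      rw [hr]
      exact Nat.mul_div_cancel_left _ hj
    rw [hdiv2]
    have huv : v + j * r = u := by omega
    have hguX : g0 * u ≤ X := by
      rw [Nat.le_div_iff_mul_le hg0] at h2
      rw [mul_comm]
      exact h2
    have hsqD := hD
    rw [hv, Nat.squarefree_mul_iff] at hsqD
    obtain ⟨hcuv, hsu, hsv⟩ := hsqD
    have hDg : D.Coprime g0 :=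
      Nat.Coprime.coprime_mul_left_right (Nat.Coprime.coprime_mul_right_right hDc)
    have hDL : D.Coprime L :=
      Nat.Coprime.coprime_mul_left_right
        (Nat.Coprime.coprime_mul_right_right (Nat.Coprime.coprime_mul_right_right hDc))
    have hDN : D.Coprime N := Nat.Coprime.coprime_mul_left_right hDc
    have hDLN : D.Coprime (L * N) := hDL.mul_right hDN
    have hug : u.Coprime g0 := Nat.Coprime.coprime_mul_right (by rw [hv] at hDg; exact hDg)
    have hvg : v.Coprime g0 := Nat.Coprime.coprime_mul_left (by rw [hv] at hDg; exact hDg)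
    have huLN : u.Coprime (L * N) := Nat.Coprime.coprime_mul_right (by rw [hv] at hDLN; exact hDLN)
    have hvLN : v.Coprime (L * N) := Nat.Coprime.coprime_mul_left (by rw [hv] at hDLN; exact hDLN)
    rw [mem_filter, B4_mem_S]
    dsimp only
    rw [huv]
    have hr1 : R1 < r := by
      rw [hr] at h3
      exact lt_of_mul_lt_mul_left h3 (Nat.zero_le j)
    have hr2 : r ≤ R := by
      rw [hr] at h4
      exact le_of_mul_le_mul_left h4 hj
    have hgv : g0 * v ≤ X := le_trans (Nat.mul_le_mul_left _ h1.le) hguX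
    refine ⟨⟨⟨hr1, hr2⟩, ⟨hv0, le_trans (Nat.le_mul_of_pos_left v hg0) hgv⟩,
      ⟨⟨Nat.mul_pos hg0 hu0, hguX⟩, ?_, ?_⟩, ⟨⟨Nat.mul_pos hg0 hv0, hgv⟩, ?_, ?_⟩, hcuv.symm⟩, hv.symm⟩
    · rw [Nat.squarefree_mul_iff]
      exact ⟨hug.symm, hsq, hsu⟩
    · exact Nat.Coprime.mul_left hcop huLN
    · rw [Nat.squarefree_mul_iff]
      exact ⟨hvg.symm, hsq, hsv⟩
    · exact Nat.Coprime.mul_left hcop hvLN
  · intro x hx
    rw [mem_filter, B4_mem_S] at hx
    obtain ⟨⟨⟨h1, h2⟩, ⟨h3, h4⟩, -, -, -⟩, hxD⟩ := hx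
    have hupos : 0 < x.2 + j * x.1 := by omega
    have hdiv : D / (x.2 + j * x.1) = x.2 := by
      rw [← hxD]
      exact Nat.mul_div_cancel_left _ hupos
    rw [hdiv, Nat.add_sub_cancel_left, Nat.mul_div_cancel_left _ hj]
  · intro u hu
    rw [mem_filter] at hu
    obtain ⟨hu, hjd⟩ := hu
    unfold Iu at hu
    rw [mem_filter, Nat.mem_divisors] at hu
    obtain ⟨⟨hud, hD0⟩, h1, h2, h3, h4⟩ := hu
    have hjd' : j ∣ u - D / u := by
      rw [← Nat.cast_sub h1.le] at hjd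
      exact_mod_cast hjd
    rw [Nat.mul_div_cancel' hjd']
    omega
  · intro x hx
    rw [mem_filter, B4_mem_S] at hx
    obtain ⟨⟨⟨h1, h2⟩, ⟨h3, h4⟩, -, -, -⟩, hxD⟩ := hx
    have hupos : 0 < x.2 + j * x.1 := by omega
    have hdiv : D / (x.2 + j * x.1) = x.2 := by
      rw [← hxD]
      exact Nat.mul_div_cancel_left _ hupos
    rw [hdiv]

theorem B4_D {s : (p : ℕ) → ZMod p → ℝ} (hs : Ev s) {g : ℕ → ℝ} (hg : SM g) {N : ℕ} {w : ZMod N → ℝ}
    (hw : Wt N w) (L X R1 R g0 j : ℕ) (hL : 0 < L) (hg0 : 0 < g0) (hj : 0 < j) :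
    |OO s g N w L X R1 R g0 j| ≤
      ∑ D ∈ (Icc 1 (X ^ 2)).filter fun D => Squarefree D ∧ D.Coprime (j * L * g0 * N),
        |∑ u ∈ Iu (X / g0) (j * R1) (j * R) D, ee s N w L g0 j u (D / u : ℕ)| := by
  classical
  rw [B4_OO]
  by_cases hgood : Squarefree g0 ∧ g0.Coprime (L * N)
  · obtain ⟨hsq, hcop⟩ := hgood
    rw [← Finset.sum_fiberwise_of_maps_to (g := fun x : ℕ × ℕ => (x.2 + j * x.1) * x.2)
      (fun x hx => B4_maps hL hg0 hj hx)]
    refine le_trans (Finset.abs_sum_le_sum_abs _ _) ?_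
    apply Finset.sum_le_sum
    intro D hD
    rw [mem_filter, mem_Icc] at hD
    obtain ⟨⟨hD1, hD2⟩, hDs, hDc⟩ := hD
    have hterm : ∀ x ∈ (B4_S L N X R1 R g0 j).filter (fun x => (x.2 + j * x.1) * x.2 = D),
        hh s g N w L x.1 (g0 * (x.2 + j * x.1)) * hh s g N w L x.1 (g0 * x.2) =
        (g D * Psi s (L * g0) j D) * ee s N w L g0 j ((x.2 + j * x.1 : ℕ) : ℤ) (x.2 : ℤ) := by
      intro x hx
      rw [mem_filter, B4_mem_S] at hx
      obtain ⟨⟨⟨h1, h2⟩, ⟨h3, h4⟩, ⟨⟨h5, h6⟩, h7, h8⟩, ⟨⟨h9, h10⟩, h11, h12⟩, h13⟩, hxD⟩ := hx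
      rw [Nat.squarefree_mul_iff] at h7 h11
      rw [hh_pair hs hg N w L g0 (x.2 + j * x.1) x.2 j x.1 hg0 hj h3 rfl h13.symm h7.1 h11.1, hxD]
    rw [Finset.sum_congr rfl hterm, ← Finset.mul_sum,
      B4_fiber s N w L X R1 R g0 j hL hg0 hj hsq hcop D hD1 hDs hDc, abs_mul]
    have h1 : |g D * Psi s (L * g0) j D| ≤ 1 := by
      rw [abs_mul]
      have h2 : |g D| = 1 := by
        rcases hg.1 D with h | h <;> rw [h] <;> simp
      rw [h2, one_mul]
      exact Psi_le hs _ j D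
    calc |g D * Psi s (L * g0) j D| *
          |∑ u ∈ Iu (X / g0) (j * R1) (j * R) D, ee s N w L g0 j u (D / u : ℕ)|
        ≤ 1 * |∑ u ∈ Iu (X / g0) (j * R1) (j * R) D, ee s N w L g0 j u (D / u : ℕ)| :=
          mul_le_mul_of_nonneg_right h1 (abs_nonneg _)
      _ = _ := one_mul _
  · have hemp : B4_S L N X R1 R g0 j = ∅ := by
      rw [Finset.eq_empty_iff_forall_notMem]
      intro x hx
      rw [B4_mem_S] at hx
      obtain ⟨-, -, -, ⟨-, h11, h12⟩, -⟩ := hx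
      rw [Nat.squarefree_mul_iff] at h11
      exact hgood ⟨h11.2.1, Nat.Coprime.coprime_mul_right h12⟩
    rw [hemp, Finset.sum_empty, abs_zero]
    exact Finset.sum_nonneg fun D _ => abs_nonneg _

end PS25
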