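import Pool.Agent.LibPS25.A2

/-
PLAN (C0). ee is periodic modulo q = j L g0 N in both variables: let x = x' + q a, y = y' + q b. j | x - y iff j | x' - y'; then (x - y)/j =
(x' - y')/j + L g0 N (a - b). w: g0 x = g0 x' mod N. Th s L (g0 x r): the arguments agree mod L; Th s g0 (L x r): they agree mod g0 (Th_congr).
-/

set_option autoImplicit false

noncomputable section

namespace PS25

open Finset

private theorem C0_mod {c x x' r r' m : ℤ} (hx : x ≡ x' [ZMOD m]) (hr : r ≡ r' [ZMOD m]) :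
    c * x * r ≡ c * x' * r' [ZMOD m] :=
  ((Int.ModEq.refl c).mul hx).mul hr

theorem C0_per (s : (p : ℕ) → ZMod p → ℝ) (N : ℕ) (w : ZMod N → ℝ) (L g0 j : ℕ) (hj : 0 < j) :
    Per (j * L * g0 * N) (ee s N w L g0 j) := by
  intro x x' y y' hx hy
  have hj0 : (j : ℤ) ≠ 0 := by exact_mod_cast hj.ne'
  have hxm : ∀ m : ℤ, m ∣ ((j * L * g0 * N : ℕ) : ℤ) → x ≡ x' [ZMOD m] := fun m hm => hx.of_dvd hm
  have hym : ∀ m : ℤ, m ∣ ((j * L * g0 * N : ℕ) : ℤ) → y ≡ y' [ZMOD m] := fun m hm => hy.of_dvd hm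
  have hL : (L : ℤ) ∣ ((j * L * g0 * N : ℕ) : ℤ) := by
    refine ⟨(j : ℤ) * g0 * N, ?_⟩; push_cast; ring
  have hg : (g0 : ℤ) ∣ ((j * L * g0 * N : ℕ) : ℤ) := by
    refine ⟨(j : ℤ) * L * N, ?_⟩; push_cast; ring
  have hN : (N : ℤ) ∣ ((j * L * g0 * N : ℕ) : ℤ) := by
    refine ⟨(j : ℤ) * L * g0, ?_⟩; push_cast; ring
  obtain ⟨a, ha⟩ := (Int.modEq_iff_dvd.1 hx)
  obtain ⟨b, hb⟩ := (Int.modEq_iff_dvd.1 hy)
  have hsub : x' - y' = (x - y) + (j : ℤ) * ((L : ℤ) * g0 * N * (a - b)) := by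
    push_cast at ha hb
    linear_combination ha - hb
  have hdvd : (j : ℤ) ∣ x - y ↔ (j : ℤ) ∣ x' - y' := by
    rw [hsub]
    exact (dvd_add_left (Dvd.intro _ rfl)).symm
  unfold ee
  by_cases h : (j : ℤ) ∣ x - y
  · rw [if_pos h, if_pos (hdvd.1 h)]
    have hr : (x' - y') / (j : ℤ) = (x - y) / (j : ℤ) + (L : ℤ) * g0 * N * (a - b) := by
      rw [hsub, Int.add_mul_ediv_left _ _ hj0]
    have hrL : (x - y) / (j : ℤ) ≡ (x' - y') / (j : ℤ) [ZMOD L] := by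
      rw [hr]
      refine Int.modEq_iff_dvd.2 ⟨(g0 : ℤ) * N * (a - b), by ring⟩
    have hrg : (x - y) / (j : ℤ) ≡ (x' - y') / (j : ℤ) [ZMOD g0] := by
      rw [hr]
      refine Int.modEq_iff_dvd.2 ⟨(L : ℤ) * N * (a - b), by ring⟩
    have w1 : ((g0 * x : ℤ) : ZMod N) = ((g0 * x' : ℤ) : ZMod N) :=
      (ZMod.intCast_eq_intCast_iff _ _ _).2 ((Int.ModEq.refl _).mul (hxm _ hN))
    have w2 : ((g0 * y : ℤ) : ZMod N) = ((g0 * y' : ℤ) : ZMod N) :=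
      (ZMod.intCast_eq_intCast_iff _ _ _).2 ((Int.ModEq.refl _).mul (hym _ hN))
    rw [w1, w2, Th_congr s (C0_mod (hxm _ hL) hrL), Th_congr s (C0_mod (hym _ hL) hrL),
      Th_congr s (C0_mod (hxm _ hg) hrg), Th_congr s (C0_mod (hym _ hg) hrg)]
  · rw [if_neg h, if_neg (fun h' => h (hdvd.2 h'))]

end PS25
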