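import Pool.Agent.LibPS25.Defs

/-
PLAN (C1). For u in U (u | D, so u is coprime to q) e(u, D/u) = E(u) where E x = e (x, delta x^-1), delta = the unit of D (Per: the class of D/u is
delta u^-1). Orthogonality (DirichletCharacter.sum_char_inv_mul_char_eq, as used in LibPA15.B parseval): E(u) = (1/phi(q)) sum_chi sum_x chi(x)^-1 E(x) chi(u).
So sum_u E(u) = sum_chi chat(chi) sum_{u in U} chi(u), |chat(chi)| <= 1 (|e| <= 1, norm of chi <= 1), chat(1) = (1/phi(q)) sum_x E(x), whose absolute value is c0 q e D,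
and |sum_{u in U} 1(u)| <= #U.
-/

set_option autoImplicit false

noncomputable section

namespace PS25

open Finset

theorem C1_char (q : ℕ) [NeZero q] (e : ℤ → ℤ → ℝ) (he : Per q e) (hb : ∀ x y, |e x y| ≤ 1)
    (D : ℕ) (hD0 : 0 < D) (hD : D.Coprime q) (U : Finset ℕ) (hU : U ⊆ D.divisors) :
    |∑ u ∈ U, e u (D / u : ℕ)| ≤ c0 q e D * #U +
      ∑ χ ∈ (univ : Finset (DirichletCharacter ℂ q)).erase 1, ‖∑ u ∈ U, χ (u : ZMod q)‖ := by
  classical
  set δ : (ZMod q)ˣ := ZMod.unitOfCoprime D hD with hδ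
  set E : (ZMod q)ˣ → ℝ := fun x => e (((x : ZMod q).val : ℕ) : ℤ)
    (((((δ * x⁻¹ : (ZMod q)ˣ) : ZMod q)).val : ℕ) : ℤ) with hE
  have hcop : ∀ u ∈ U, u.Coprime q := by
    intro u hu
    exact Nat.Coprime.coprime_dvd_left (Nat.dvd_of_mem_divisors (hU hu)) hD
  -- the value at a divisor
  have hval : ∀ u (hu : u ∈ U), e u (D / u : ℕ) = E (ZMod.unitOfCoprime u (hcop u hu)) := by
    intro u hu
    have hdvd := Nat.dvd_of_mem_divisors (hU hu)
    simp only [hE]
    apply he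
    · rw [← ZMod.intCast_eq_intCast_iff]
      simp
    · rw [← ZMod.intCast_eq_intCast_iff, Int.cast_natCast, Int.cast_natCast,
        ZMod.natCast_zmod_val, Units.val_mul, eq_comm]
      have h1 : (δ : ZMod q) = ((D / u : ℕ) : ZMod q) *
          ((ZMod.unitOfCoprime u (hcop u hu) : (ZMod q)ˣ) : ZMod q) := by
        rw [hδ, ZMod.coe_unitOfCoprime, ZMod.coe_unitOfCoprime, ← Nat.cast_mul,
          Nat.div_mul_cancel hdvd]
      rw [h1, mul_assoc, Units.mul_inv, mul_one]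
  have hφ : (0 : ℝ) < (q.totient : ℝ) := by
    exact_mod_cast Nat.totient_pos.mpr (Nat.pos_of_ne_zero (NeZero.ne q))
  have hφc : (q.totient : ℂ) ≠ 0 := by
    exact_mod_cast hφ.ne'
  set ch : DirichletCharacter ℂ q → ℂ := fun χ =>
    (∑ x : (ZMod q)ˣ, (E x : ℂ) * χ ((x : ZMod q)⁻¹)) / (q.totient : ℂ) with hch
  -- expansion
  have hexp : ∀ y : (ZMod q)ˣ, (E y : ℂ) = ∑ χ : DirichletCharacter ℂ q, ch χ * χ (y : ZMod q) := by
    intro y
    have h1 : ∑ χ : DirichletCharacter ℂ q, ch χ * χ (y : ZMod q) =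
        (∑ x : (ZMod q)ˣ, (E x : ℂ) * ∑ χ : DirichletCharacter ℂ q,
          χ ((x : ZMod q)⁻¹) * χ (y : ZMod q)) / (q.totient : ℂ) := by
      simp only [hch, div_mul_eq_mul_div, Finset.sum_mul, Finset.mul_sum]
      rw [← Finset.sum_div, Finset.sum_comm]
      congr 1
      refine Finset.sum_congr rfl fun x _ => Finset.sum_congr rfl fun χ _ => ?_
      ring
    rw [h1]
    have h2 : ∀ x : (ZMod q)ˣ, (E x : ℂ) * ∑ χ : DirichletCharacter ℂ q,
        χ ((x : ZMod q)⁻¹) * χ (y : ZMod q) = if x = y then (E y : ℂ) * (q.totient : ℂ) else 0 := by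
      intro x
      rw [DirichletCharacter.sum_char_inv_mul_char_eq ℂ x.isUnit]
      by_cases hxy : x = y
      · rw [if_pos hxy, if_pos (by rw [hxy]), hxy]
      · rw [if_neg hxy, if_neg (fun h => hxy (Units.ext h)), mul_zero]
    rw [Finset.sum_congr rfl fun x _ => h2 x, Finset.sum_ite_eq' Finset.univ y,
      if_pos (Finset.mem_univ _)]
    field_simp
  -- the sum over `U`
  have hsum : ((∑ u ∈ U, e u (D / u : ℕ) : ℝ) : ℂ) =
      ∑ χ : DirichletCharacter ℂ q, ch χ * ∑ u ∈ U, χ (u : ZMod q) := by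
    rw [Complex.ofReal_sum]
    have h1 : ∀ u ∈ U, ((e u (D / u : ℕ) : ℝ) : ℂ) =
        ∑ χ : DirichletCharacter ℂ q, ch χ * χ (u : ZMod q) := by
      intro u hu
      rw [hval u hu, hexp, ZMod.coe_unitOfCoprime]
    rw [Finset.sum_congr rfl h1, Finset.sum_comm]
    refine Finset.sum_congr rfl fun χ _ => ?_
    rw [Finset.mul_sum]
  have hbE : ∀ x, |E x| ≤ 1 := fun x => hb _ _
  have hch1 : ∀ χ, ‖ch χ‖ ≤ 1 := by
    intro χ
    simp only [hch]
    rw [norm_div, Complex.norm_natCast, div_le_one hφ]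
    refine (norm_sum_le _ _).trans ?_
    calc ∑ x : (ZMod q)ˣ, ‖(E x : ℂ) * χ ((x : ZMod q)⁻¹)‖ ≤ ∑ x : (ZMod q)ˣ, (1 : ℝ) := by
          refine Finset.sum_le_sum fun x _ => ?_
          rw [norm_mul, Complex.norm_real, Real.norm_eq_abs]
          exact mul_le_one₀ (hbE x) (norm_nonneg _) (DirichletCharacter.norm_le_one χ _)
      _ = (q.totient : ℝ) := by
          rw [Finset.sum_const, Finset.card_univ, ZMod.card_units_eq_totient, nsmul_eq_mul, mul_one]
  have hc0 : ‖ch 1‖ = c0 q e D := by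
    unfold c0
    rw [dif_pos hD]
    simp only [hch]
    rw [norm_div, Complex.norm_natCast]
    congr 1
    have h1 : ∑ x : (ZMod q)ˣ, (E x : ℂ) * (1 : DirichletCharacter ℂ q) ((x : ZMod q)⁻¹) =
        ((∑ x : (ZMod q)ˣ, E x : ℝ) : ℂ) := by
      rw [Complex.ofReal_sum]
      refine Finset.sum_congr rfl fun x _ => ?_
      have h2 : IsUnit ((x : ZMod q)⁻¹) := by
        rw [ZMod.inv_coe_unit]
        exact (x⁻¹).isUnit
      rw [MulChar.one_apply h2, mul_one]
    rw [h1, Complex.norm_real, Real.norm_eq_abs]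
  have habs : |∑ u ∈ U, e u (D / u : ℕ)| = ‖((∑ u ∈ U, e u (D / u : ℕ) : ℝ) : ℂ)‖ := by
    rw [Complex.norm_real, Real.norm_eq_abs]
  rw [habs, hsum, ← Finset.add_sum_erase _ _ (Finset.mem_univ (1 : DirichletCharacter ℂ q))]
  refine (norm_add_le _ _).trans (add_le_add ?_ ?_)
  · rw [norm_mul, hc0]
    refine mul_le_mul_of_nonneg_left ?_ (by rw [← hc0]; exact norm_nonneg _)
    refine (norm_sum_le _ _).trans ?_
    calc ∑ u ∈ U, ‖(1 : DirichletCharacter ℂ q) (u : ZMod q)‖ ≤ ∑ u ∈ U, (1 : ℝ) :=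
          Finset.sum_le_sum fun u _ => DirichletCharacter.norm_le_one _ _
      _ = #U := by rw [Finset.sum_const, nsmul_eq_mul, mul_one]
  · refine (norm_sum_le _ _).trans (Finset.sum_le_sum fun χ _ => ?_)
    rw [norm_mul]
    exact mul_le_of_le_one_left (norm_nonneg _) (hch1 χ)

end PS25
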