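import Pool.Agent.LibPS25.Defs

/-
PLAN (C2). sum_D c0(D) #Iu(D) = sum over pairs (D,u), u in Iu D; (D,u) -> (v,u), v = D/u, D = u v is injective, v < u <= Y, v < u <= v + A2, u, v coprime to q:
<= sum_{v in [1,Y], coprime to q} sum_{u in (v, v + A2], coprime to q} c0(u v). c0 depends only on the class mod q. For fixed v: the sum over u in an interval of
length A2 of a nonnegative q-periodic function is at most (A2/q + 1) times the sum over one period (cover by blocks of q consecutive numbers), and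
sum over the classes x coprime to q of c0(x v) = sum over delta of c0(delta) = MM q e / phi(q) (x -> x v is a bijection of the units). The number of v is at most
(Y/q + 1) phi(q). Total (Y/q + 1) (A2/q + 1) MM q e.
-/

set_option autoImplicit false

noncomputable section

namespace PS25

open Finset

private lemma C2_count (q : ℕ) (hq : 0 < q) (n A v : ℕ) :
    (#{u ∈ Ioc n (n + A) | u ≡ v [MOD q]} : ℝ) ≤ (A : ℝ) / q + 1 := by
  have h1 := Nat.Ioc_filter_modEq_card n (n + A) hq v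
  have hq' : (0 : ℚ) < q := by exact_mod_cast hq
  have h2 : (#{u ∈ Ioc n (n + A) | u ≡ v [MOD q]} : ℚ) ≤ (A : ℚ) / q + 1 := by
    have h3 : ((#{u ∈ Ioc n (n + A) | u ≡ v [MOD q]} : ℤ) : ℚ) ≤ (A : ℚ) / q + 1 := by
      rw [h1]
      have h5 : ((n : ℚ) - (v : ℚ)) / (q : ℚ) < (⌊((n : ℚ) - (v : ℚ)) / (q : ℚ)⌋ : ℚ) + 1 :=
        Int.lt_floor_add_one _
      have h6 : (((n + A : ℕ) : ℚ) - (v : ℚ)) / (q : ℚ) =
          ((n : ℚ) - (v : ℚ)) / (q : ℚ) + (A : ℚ) / q := by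
        push_cast
        ring
      have h4 : (⌊(((n + A : ℕ) : ℚ) - (v : ℚ)) / (q : ℚ)⌋ : ℚ) ≤
          ((n : ℚ) - (v : ℚ)) / (q : ℚ) + (A : ℚ) / q := (Int.floor_le _).trans (le_of_eq h6)
      push_cast at h4 ⊢
      refine max_le ?_ ?_
      · linarith
      · positivity
    exact_mod_cast h3
  have h3 : (((#{u ∈ Ioc n (n + A) | u ≡ v [MOD q]} : ℕ) : ℚ) : ℝ) ≤
      (((A : ℚ) / q + 1 : ℚ) : ℝ) := by exact_mod_cast h2
  push_cast at h3
  exact h3

private lemma C2_period (q : ℕ) [NeZero q] (f : ZMod q → ℝ) (hf : ∀ x, 0 ≤ f x) (n A : ℕ) :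
    ∑ u ∈ Ioc n (n + A), f (u : ZMod q) ≤ ((A : ℝ) / q + 1) * ∑ x : ZMod q, f x := by
  classical
  have hq : 0 < q := Nat.pos_of_ne_zero (NeZero.ne q)
  rw [← Finset.sum_fiberwise_of_maps_to (s := Ioc n (n + A)) (t := (univ : Finset (ZMod q)))
    (g := fun u : ℕ => (u : ZMod q)) (fun _ _ => Finset.mem_univ _), Finset.mul_sum]
  refine Finset.sum_le_sum fun x _ => ?_
  have h1 : ∑ u ∈ Ioc n (n + A) with ((u : ℕ) : ZMod q) = x, f (u : ZMod q) =
      #{u ∈ Ioc n (n + A) | ((u : ℕ) : ZMod q) = x} * f x := by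
    rw [← nsmul_eq_mul, ← Finset.sum_const]
    refine Finset.sum_congr rfl fun u hu => ?_
    rw [(Finset.mem_filter.mp hu).2]
  rw [h1]
  refine mul_le_mul_of_nonneg_right ?_ (hf x)
  have h2 := C2_count q hq n A x.val
  have h3 : {u ∈ Ioc n (n + A) | ((u : ℕ) : ZMod q) = x} =
      {u ∈ Ioc n (n + A) | u ≡ x.val [MOD q]} := by
    refine Finset.filter_congr fun u _ => ?_
    rw [← ZMod.natCast_eq_natCast_iff, ZMod.natCast_zmod_val]
  rw [h3]
  exact h2

theorem C2_main (q : ℕ) [NeZero q] (e : ℤ → ℤ → ℝ) (he : Per q e) (X Y A1 A2 : ℕ) :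
    ∑ D ∈ (Icc 1 (X ^ 2)).filter fun D => Squarefree D ∧ D.Coprime q, c0 q e D * #(Iu Y A1 A2 D) ≤
      ((Y : ℝ) / q + 1) * ((A2 : ℝ) / q + 1) * MM q e := by
  classical
  have hq : 0 < q := Nat.pos_of_ne_zero (NeZero.ne q)
  have hφ : (0 : ℝ) < (q.totient : ℝ) := by
    exact_mod_cast Nat.totient_pos.mpr hq
  set G : (ZMod q)ˣ → ℝ := fun δ => |∑ x : (ZMod q)ˣ, e (((x : ZMod q).val : ℕ) : ℤ)
    (((((δ * x⁻¹ : (ZMod q)ˣ) : ZMod q)).val : ℕ) : ℤ)| with hG
  set F : ZMod q → ℝ := fun z => if h : IsUnit z then G h.unit / (q.totient : ℝ) else 0 with hF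
  have hGnn : ∀ δ, 0 ≤ G δ := fun δ => abs_nonneg _
  have hFnn : ∀ z, 0 ≤ F z := by
    intro z
    simp only [hF]
    split_ifs with h
    · exact div_nonneg (hGnn _) hφ.le
    · exact le_refl 0
  have hFu : ∀ δ : (ZMod q)ˣ, F (δ : ZMod q) = G δ / (q.totient : ℝ) := by
    intro δ
    simp only [hF]
    rw [dif_pos δ.isUnit]
    congr 2
    exact Units.ext rfl
  have hF0 : ∀ z : ZMod q, ¬ IsUnit z → F z = 0 := by
    intro z hz
    simp only [hF]
    rw [dif_neg hz]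
  have hcF : ∀ D : ℕ, D.Coprime q → c0 q e D = F (D : ZMod q) := by
    intro D hD
    have h1 : ((ZMod.unitOfCoprime D hD : (ZMod q)ˣ) : ZMod q) = (D : ZMod q) :=
      ZMod.coe_unitOfCoprime D hD
    rw [← h1, hFu]
    unfold c0
    rw [dif_pos hD]
  have hsumF : ∑ z : ZMod q, F z = MM q e / (q.totient : ℝ) := by
    rw [← Fintype.sum_of_injective (fun δ : (ZMod q)ˣ => (δ : ZMod q)) Units.val_injective
      (fun δ => G δ / (q.totient : ℝ)) F ?_ (fun δ => (hFu δ).symm)]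
    · rw [← Finset.sum_div]
      rfl
    · intro z hz
      apply hF0
      intro h
      exact hz ⟨h.unit, rfl⟩
  have hshift : ∀ v : ℕ, v.Coprime q → ∑ z : ZMod q, F ((v : ZMod q) * z) =
      MM q e / (q.totient : ℝ) := by
    intro v hv
    rw [← hsumF]
    have hu : IsUnit (v : ZMod q) := (ZMod.isUnit_iff_coprime v q).mpr hv
    refine Fintype.sum_bijective (fun z => (v : ZMod q) * z) ?_ _ _ (fun z => rfl)
    exact (Units.mulLeft hu.unit).bijective
  have hM : 0 ≤ MM q e := Finset.sum_nonneg fun δ _ => hGnn δ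
  -- rewrite the sum
  set S := (Icc 1 (X ^ 2)).filter fun D => Squarefree D ∧ D.Coprime q with hS
  set T := ((Icc 1 Y).filter fun v => v.Coprime q).sigma (fun v => Ioc v (v + A2)) with hT
  set g : (Σ _ : ℕ, ℕ) → ℝ := fun p => F ((p.1 : ZMod q) * (p.2 : ZMod q)) with hg
  set E : (Σ _ : ℕ, ℕ) → (Σ _ : ℕ, ℕ) := fun p => ⟨p.1 / p.2, p.2⟩ with hE
  have hmem : ∀ p ∈ S.sigma (fun D => Iu Y A1 A2 D), p.2 ∣ p.1 ∧ p.1 ≠ 0 ∧ p.1.Coprime q ∧
      p.1 / p.2 < p.2 ∧ p.2 ≤ Y ∧ p.2 - p.1 / p.2 ≤ A2 := by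
    intro p hp
    rw [Finset.mem_sigma] at hp
    obtain ⟨h1, h2⟩ := hp
    simp only [hS, Finset.mem_filter, Finset.mem_Icc] at h1
    simp only [Iu, Finset.mem_filter, Nat.mem_divisors] at h2
    exact ⟨h2.1.1, h2.1.2, h1.2.2, h2.2.1, h2.2.2.1, h2.2.2.2.2⟩
  have hinj : Set.InjOn E (S.sigma (fun D => Iu Y A1 A2 D) : Set (Σ _ : ℕ, ℕ)) := by
    intro p hp p' hp' h
    have h1 := hmem p hp
    have h2 := hmem p' hp'
    obtain ⟨D, u⟩ := p
    obtain ⟨D', u'⟩ := p'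
    simp only [hE, Sigma.mk.injEq, heq_eq_eq] at h
    simp only at h1 h2
    obtain ⟨h3, h4⟩ := h
    subst h4
    have h5 : D = D' := by
      rw [← Nat.div_mul_cancel h1.1, ← Nat.div_mul_cancel h2.1, h3]
    subst h5
    rfl
  have himg : (S.sigma (fun D => Iu Y A1 A2 D)).image E ⊆ T := by
    intro y hy
    rw [Finset.mem_image] at hy
    obtain ⟨p, hp, rfl⟩ := hy
    obtain ⟨h1, h2, h3, h4, h5, h6⟩ := hmem p hp
    have h7 : 1 ≤ p.1 / p.2 := by
      rcases Nat.eq_zero_or_pos (p.1 / p.2) with h | h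
      · exfalso
        have := Nat.div_mul_cancel h1
        rw [h, zero_mul] at this
        exact h2 this.symm
      · exact h
    simp only [hT, hE, Finset.mem_sigma, Finset.mem_filter, Finset.mem_Icc, Finset.mem_Ioc]
    refine ⟨⟨⟨h7, by omega⟩, ?_⟩, h4, by omega⟩
    exact Nat.Coprime.coprime_dvd_left (Nat.div_dvd_of_dvd h1) h3
  have hLHS : ∑ D ∈ S, c0 q e D * #(Iu Y A1 A2 D) =
      ∑ p ∈ S.sigma (fun D => Iu Y A1 A2 D), g (E p) := by
    rw [Finset.sum_sigma]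
    refine Finset.sum_congr rfl fun D hD => ?_
    rw [mul_comm, ← nsmul_eq_mul, ← Finset.sum_const]
    refine Finset.sum_congr rfl fun u hu => ?_
    have h1 := hmem ⟨D, u⟩ (Finset.mem_sigma.mpr ⟨hD, hu⟩)
    simp only at h1
    simp only [hg, hE]
    rw [hcF D h1.2.2.1, ← Nat.cast_mul, Nat.div_mul_cancel h1.1]
  have hcard : (#((Icc 1 Y).filter fun v => v.Coprime q) : ℝ) ≤
      ((Y : ℝ) / q + 1) * (q.totient : ℝ) := by
    have h1 := C2_period q (fun z => if IsUnit z then (1 : ℝ) else 0)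
      (fun z => by split_ifs <;> norm_num) 0 Y
    have h2 : ∑ z : ZMod q, (if IsUnit z then (1 : ℝ) else 0) = (q.totient : ℝ) := by
      rw [← Fintype.sum_of_injective (fun δ : (ZMod q)ˣ => (δ : ZMod q)) Units.val_injective
        (fun _ => (1 : ℝ)) (fun z => if IsUnit z then (1 : ℝ) else 0) ?_
        (fun δ => by rw [if_pos δ.isUnit])]
      · rw [Finset.sum_const, Finset.card_univ, ZMod.card_units_eq_totient, nsmul_eq_mul, mul_one]
      · intro z hz
        rw [if_neg]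
        intro h
        exact hz ⟨h.unit, rfl⟩
    rw [h2] at h1
    refine le_trans (le_of_eq ?_) h1
    rw [Finset.sum_ite, Finset.sum_const_zero, add_zero, Finset.sum_const, nsmul_eq_mul, mul_one]
    congr 2
    rw [zero_add]
    ext v
    simp only [Finset.mem_filter, Finset.mem_Icc, Finset.mem_Ioc, ZMod.isUnit_iff_coprime]
    constructor
    · rintro ⟨⟨h3, h4⟩, h5⟩
      exact ⟨⟨by omega, h4⟩, h5⟩
    · rintro ⟨⟨h3, h4⟩, h5⟩
      exact ⟨⟨by omega, h4⟩, h5⟩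
  have hA : 0 ≤ (A2 : ℝ) / q + 1 := by positivity
  rw [hLHS, ← Finset.sum_image (f := g) (fun x hx y hy h => hinj hx hy h)]
  calc ∑ y ∈ (S.sigma (fun D => Iu Y A1 A2 D)).image E, g y ≤ ∑ y ∈ T, g y :=
        Finset.sum_le_sum_of_subset_of_nonneg himg (fun y _ _ => hFnn _)
    _ = ∑ v ∈ (Icc 1 Y).filter (fun v => v.Coprime q), ∑ u ∈ Ioc v (v + A2),
          F ((v : ZMod q) * (u : ZMod q)) := by
        rw [hT, Finset.sum_sigma]
    _ ≤ ∑ v ∈ (Icc 1 Y).filter (fun v => v.Coprime q),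
          ((A2 : ℝ) / q + 1) * (MM q e / (q.totient : ℝ)) := by
        refine Finset.sum_le_sum fun v hv => ?_
        have h1 := C2_period q (fun z => F ((v : ZMod q) * z)) (fun z => hFnn _) v A2
        rw [hshift v (Finset.mem_filter.mp hv).2] at h1
        exact h1
    _ = #((Icc 1 Y).filter (fun v => v.Coprime q)) *
          (((A2 : ℝ) / q + 1) * (MM q e / (q.totient : ℝ))) := by
        rw [Finset.sum_const, nsmul_eq_mul]
    _ ≤ (((Y : ℝ) / q + 1) * (q.totient : ℝ)) *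
          (((A2 : ℝ) / q + 1) * (MM q e / (q.totient : ℝ))) :=
        mul_le_mul_of_nonneg_right hcard (mul_nonneg hA (div_nonneg hM hφ.le))
    _ = ((Y : ℝ) / q + 1) * ((A2 : ℝ) / q + 1) * MM q e := by
        field_simp

end PS25
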