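import Pool.Agent.LibPS25.Defs

/-
PLAN (C3). Chinese remainder theorem: the unit group of ZMod (q1 q2) is the product of the unit groups (ZMod.chineseRemainder, Units.mapEquiv, MulEquiv.prodUnits).
Under delta <-> (d1, d2), x <-> (x1, x2): (delta x^-1) <-> (d1 x1^-1, d2 x2^-1), and by Per e_i (x.val, ..) = e_i (x_i.val, ..) because x.val = x_i.val mod q_i.
So the inner sum is the product of the two inner sums, abs_mul, and the sum over (d1, d2) is the product (Fintype.sum_prod_type, sum_mul_sum).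
-/

set_option autoImplicit false

noncomputable section

namespace PS25

open Finset

/-- the Chinese remainder theorem on units -/
private def C3_E (q1 q2 : ℕ) (h : q1.Coprime q2) : (ZMod (q1 * q2))ˣ ≃* (ZMod q1)ˣ × (ZMod q2)ˣ :=
  (Units.mapEquiv (ZMod.chineseRemainder h).toMulEquiv).trans MulEquiv.prodUnits

private theorem C3_hom (q q' : ℕ) [NeZero q] [NeZero q'] (φ : ZMod q →+* ZMod q') (x : ZMod q) :
    ((x.val : ℕ) : ℤ) ≡ (((φ x).val : ℕ) : ℤ) [ZMOD q'] := by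
  rw [← ZMod.intCast_eq_intCast_iff]
  push_cast
  rw [ZMod.natCast_zmod_val]
  conv_rhs => rw [← ZMod.natCast_zmod_val x]
  rw [map_natCast]

private theorem C3_fst (q1 q2 : ℕ) [NeZero q1] [NeZero q2] [NeZero (q1 * q2)] (h : q1.Coprime q2)
    (x : (ZMod (q1 * q2))ˣ) :
    (((x : ZMod (q1 * q2)).val : ℕ) : ℤ) ≡ (((((C3_E q1 q2 h x).1 : (ZMod q1)ˣ) : ZMod q1).val : ℕ) : ℤ) [ZMOD q1] :=
  C3_hom (q1 * q2) q1 ((RingHom.fst (ZMod q1) (ZMod q2)).comp (ZMod.chineseRemainder h).toRingHom) x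

private theorem C3_snd (q1 q2 : ℕ) [NeZero q1] [NeZero q2] [NeZero (q1 * q2)] (h : q1.Coprime q2)
    (x : (ZMod (q1 * q2))ˣ) :
    (((x : ZMod (q1 * q2)).val : ℕ) : ℤ) ≡ (((((C3_E q1 q2 h x).2 : (ZMod q2)ˣ) : ZMod q2).val : ℕ) : ℤ) [ZMOD q2] :=
  C3_hom (q1 * q2) q2 ((RingHom.snd (ZMod q1) (ZMod q2)).comp (ZMod.chineseRemainder h).toRingHom) x

theorem C3_mul (q1 q2 : ℕ) [NeZero q1] [NeZero q2] [NeZero (q1 * q2)] (h : q1.Coprime q2)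
    (e1 e2 : ℤ → ℤ → ℝ) (h1 : Per q1 e1) (h2 : Per q2 e2) :
    MM (q1 * q2) (fun x y => e1 x y * e2 x y) = MM q1 e1 * MM q2 e2 := by
  classical
  let E := C3_E q1 q2 h
  let F1 : (ZMod q1)ˣ → (ZMod q1)ˣ → ℝ := fun δ x =>
    e1 (((x : ZMod q1).val : ℕ) : ℤ) (((((δ * x⁻¹ : (ZMod q1)ˣ) : ZMod q1)).val : ℕ) : ℤ)
  let F2 : (ZMod q2)ˣ → (ZMod q2)ˣ → ℝ := fun δ x =>
    e2 (((x : ZMod q2).val : ℕ) : ℤ) (((((δ * x⁻¹ : (ZMod q2)ˣ) : ZMod q2)).val : ℕ) : ℤ)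
  have hA : ∀ δ x : (ZMod (q1 * q2))ˣ,
      e1 (((x : ZMod (q1 * q2)).val : ℕ) : ℤ)
        (((((δ * x⁻¹ : (ZMod (q1 * q2))ˣ) : ZMod (q1 * q2))).val : ℕ) : ℤ) = F1 (E δ).1 (E x).1 := by
    intro δ x
    refine h1 _ _ _ _ (C3_fst q1 q2 h x) ?_
    have := C3_fst q1 q2 h (δ * x⁻¹)
    rw [map_mul, map_inv] at this
    exact this
  have hB : ∀ δ x : (ZMod (q1 * q2))ˣ,
      e2 (((x : ZMod (q1 * q2)).val : ℕ) : ℤ)
        (((((δ * x⁻¹ : (ZMod (q1 * q2))ˣ) : ZMod (q1 * q2))).val : ℕ) : ℤ) = F2 (E δ).2 (E x).2 := by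
    intro δ x
    refine h2 _ _ _ _ (C3_snd q1 q2 h x) ?_
    have := C3_snd q1 q2 h (δ * x⁻¹)
    rw [map_mul, map_inv] at this
    exact this
  have hC : ∀ δ : (ZMod (q1 * q2))ˣ,
      ∑ x : (ZMod (q1 * q2))ˣ, F1 (E δ).1 (E x).1 * F2 (E δ).2 (E x).2 =
        (∑ x1, F1 (E δ).1 x1) * ∑ x2, F2 (E δ).2 x2 := by
    intro δ
    rw [Finset.sum_mul_sum, ← Fintype.sum_prod_type' (f := fun x1 x2 => F1 (E δ).1 x1 * F2 (E δ).2 x2)]
    exact Equiv.sum_comp E.toEquiv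
      (fun p : (ZMod q1)ˣ × (ZMod q2)ˣ => F1 (E δ).1 p.1 * F2 (E δ).2 p.2)
  have hD : MM (q1 * q2) (fun x y => e1 x y * e2 x y) =
      ∑ δ : (ZMod (q1 * q2))ˣ, |∑ x1, F1 (E δ).1 x1| * |∑ x2, F2 (E δ).2 x2| := by
    unfold MM
    refine Finset.sum_congr rfl fun δ _ => ?_
    rw [← abs_mul, ← hC δ]
    congr 1
    refine Finset.sum_congr rfl fun x _ => ?_
    beta_reduce
    rw [hA δ x, hB δ x]
  rw [hD]
  have hE := Equiv.sum_comp E.toEquiv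
    (fun p : (ZMod q1)ˣ × (ZMod q2)ˣ => |∑ x1, F1 p.1 x1| * |∑ x2, F2 p.2 x2|)
  refine (hE : _ = _).trans ?_
  rw [Fintype.sum_prod_type]
  exact (Finset.sum_mul_sum Finset.univ Finset.univ (fun d1 => |∑ x1, F1 d1 x1|)
    (fun d2 => |∑ x2, F2 d2 x2|)).symm

end PS25
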