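import Pool.Agent.LibPS25.Defs

/-
PLAN (C4a). |sum_x e(x, delta x^-1)| <= #{x : x = delta x^-1 mod j}; summing over delta: the number of pairs (x, y) of units mod q with x = y mod j
(y = delta x^-1). For given x, the number of units y of ZMod q with the image of x in the units of ZMod j is phi(q)/phi(j): the map of unit groups
(ZMod q)^* -> (ZMod j)^* is a surjective homomorphism (ZMod.unitsMap_surjective), all fibres have the same size. So the sum times phi(j) is phi(q)^2.
-/

set_option autoImplicit false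

noncomputable section

namespace PS25

open Finset

private theorem C4a_fib (q j : ℕ) [NeZero q] [NeZero j] (hj : j ∣ q) (x : (ZMod q)ˣ) :
    #{y : (ZMod q)ˣ | ZMod.unitsMap hj x = ZMod.unitsMap hj y} * j.totient = q.totient := by
  classical
  have h1 : ∀ z : (ZMod j)ˣ, #{y : (ZMod q)ˣ | ZMod.unitsMap hj y = z} =
      #{y : (ZMod q)ˣ | ZMod.unitsMap hj y = ZMod.unitsMap hj x} := fun z =>
    MonoidHom.card_fiber_eq_of_mem_range _ (ZMod.unitsMap_surjective hj z) ⟨x, rfl⟩
  have h2 := Finset.card_eq_sum_card_fiberwise (f := ZMod.unitsMap hj)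
    (s := (univ : Finset (ZMod q)ˣ)) (t := (univ : Finset (ZMod j)ˣ)) (fun _ _ => by simp)
  rw [Finset.sum_congr rfl fun z _ => h1 z, Finset.sum_const, Finset.card_univ,
    Finset.card_univ, ZMod.card_units_eq_totient, ZMod.card_units_eq_totient,
    smul_eq_mul] at h2
  rw [h2, mul_comm]
  congr 2
  ext y
  simp only [Finset.mem_filter, Finset.mem_univ, true_and]
  exact eq_comm

theorem C4a_bound (q j : ℕ) [NeZero q] (hj : j ∣ q) (e : ℤ → ℤ → ℝ) (hb : ∀ x y, |e x y| ≤ 1)
    (h0 : ∀ x y : ℤ, ¬ (j : ℤ) ∣ x - y → e x y = 0) :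
    MM q e * (j.totient : ℝ) ≤ (q.totient : ℝ) ^ 2 := by
  classical
  have : NeZero j := ⟨fun h => NeZero.ne q (Nat.eq_zero_of_zero_dvd (h ▸ hj))⟩
  have hval : ∀ x y : (ZMod q)ˣ,
      |e (((x : ZMod q).val : ℕ) : ℤ) (((y : ZMod q).val : ℕ) : ℤ)| ≤
        if ZMod.unitsMap hj x = ZMod.unitsMap hj y then (1 : ℝ) else 0 := by
    intro x y
    split_ifs with h
    · exact hb _ _
    · rw [h0, abs_zero]
      intro hd
      apply h
      apply Units.ext
      rw [ZMod.unitsMap_val, ZMod.unitsMap_val, ← ZMod.natCast_val, ← ZMod.natCast_val]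
      have h1 := (ZMod.intCast_eq_intCast_iff_dvd_sub (((y : ZMod q).val : ℕ) : ℤ)
        (((x : ZMod q).val : ℕ) : ℤ) j).2 hd
      push_cast at h1
      exact h1.symm
  have h1 : MM q e ≤ ∑ x : (ZMod q)ˣ, ∑ y : (ZMod q)ˣ,
      if ZMod.unitsMap hj x = ZMod.unitsMap hj y then (1 : ℝ) else 0 := by
    unfold MM
    refine (Finset.sum_le_sum fun δ _ => (Finset.abs_sum_le_sum_abs _ _).trans
      (Finset.sum_le_sum fun x _ => hval x (δ * x⁻¹))).trans (le_of_eq ?_)
    rw [Finset.sum_comm]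
    refine Finset.sum_congr rfl fun x _ => ?_
    exact Equiv.sum_comp (Equiv.mulRight x⁻¹)
      (fun y => if ZMod.unitsMap hj x = ZMod.unitsMap hj y then (1 : ℝ) else 0)
  have h2 : (∑ x : (ZMod q)ˣ, ∑ y : (ZMod q)ˣ,
      if ZMod.unitsMap hj x = ZMod.unitsMap hj y then (1 : ℝ) else 0) * (j.totient : ℝ) =
      (q.totient : ℝ) ^ 2 := by
    rw [Finset.sum_mul]
    have h3 : ∀ x : (ZMod q)ˣ, (∑ y : (ZMod q)ˣ,
        if ZMod.unitsMap hj x = ZMod.unitsMap hj y then (1 : ℝ) else 0) * (j.totient : ℝ) =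
        (q.totient : ℝ) := by
      intro x
      rw [Finset.sum_boole]
      exact_mod_cast C4a_fib q j hj x
    rw [Finset.sum_congr rfl fun x _ => h3 x, Finset.sum_const, Finset.card_univ,
      ZMod.card_units_eq_totient, nsmul_eq_mul]
    ring
  rw [← h2]
  exact mul_le_mul_of_nonneg_right h1 (Nat.cast_nonneg _)

end PS25
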