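import Pool.Agent.LibPS25.C3

/-
PLAN (C4b). Induction on the finset S: q' prod_{l in S} l, using C3_mul for q1 = q' prod_{l in S} l and q2 = the new prime l (coprime by the hypotheses).
The NeZero instances: state the induction with `letI`/haveI : NeZero (..) or use a version with the instance as an argument (the value of MM does not depend on it).
-/

set_option autoImplicit false

noncomputable section

namespace PS25

open Finset

private theorem C4b_congr {q1 q2 : ℕ} (i1 : NeZero q1) (i2 : NeZero q2) (h : q1 = q2) {e1 e2 : ℤ → ℤ → ℝ}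
    (he : e1 = e2) : @MM q1 i1 e1 = @MM q2 i2 e2 := by
  subst h; subst he; rfl

private theorem C4b_nonneg (q : ℕ) [NeZero q] (e : ℤ → ℤ → ℝ) : 0 ≤ MM q e :=
  Finset.sum_nonneg fun _ _ => abs_nonneg _

private theorem C4b_dvd {q1 q2 : ℕ} (h : q1 ∣ q2) {e : ℤ → ℤ → ℝ} (he : Per q1 e) : Per q2 e :=
  fun x x' y y' hx hy => he x x' y y' (hx.of_dvd (by exact_mod_cast h)) (hy.of_dvd (by exact_mod_cast h))

private theorem C4b_per {q' : ℕ} {e' : ℤ → ℤ → ℝ} (h' : Per q' e') (S : Finset ℕ)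
    (f : ℕ → ℤ → ℤ → ℝ) (hf : ∀ l ∈ S, Per l (f l)) :
    Per (q' * ∏ l ∈ S, l) (fun x y => e' x y * ∏ l ∈ S, f l x y) := by
  intro x x' y y' hx hy
  have h1 := C4b_dvd (Dvd.intro _ rfl : q' ∣ q' * ∏ l ∈ S, l) h' x x' y y' hx hy
  have h2 : ∏ l ∈ S, f l x y = ∏ l ∈ S, f l x' y' := by
    refine Finset.prod_congr rfl fun l hl => ?_
    exact C4b_dvd ((Finset.dvd_prod_of_mem (fun l => l) hl).trans (Dvd.intro_left _ rfl)) (hf l hl)
      x x' y y' hx hy
  show e' x y * ∏ l ∈ S, f l x y = e' x' y' * ∏ l ∈ S, f l x' y'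
  rw [h1, h2]

private theorem C4b_aux (q' : ℕ) (e' : ℤ → ℤ → ℝ) (h' : Per q' e') (i' : NeZero q')
    (f : ℕ → ℤ → ℤ → ℝ) (κ : ℝ) (hκ : 0 ≤ κ) (S : Finset ℕ) :
    (∀ l ∈ S, l.Prime) → (∀ l ∈ S, l.Coprime q') → (∀ l ∈ S, Per l (f l)) →
    (∀ l ∈ S, ∀ _ : NeZero l, MM l (f l) ≤ κ * ((l : ℝ) - 1) ^ 2) →
    ∀ i : NeZero (q' * ∏ l ∈ S, l),
    @MM (q' * ∏ l ∈ S, l) i (fun x y => e' x y * ∏ l ∈ S, f l x y) ≤
      @MM q' i' e' * (κ ^ #S * ∏ l ∈ S, ((l : ℝ) - 1) ^ 2) := by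
  induction S using Finset.induction_on with
  | empty =>
    intro _ _ _ _ i
    rw [C4b_congr i i' (by simp : q' * ∏ l ∈ (∅ : Finset ℕ), l = q')
      (by funext x y; simp : (fun x y => e' x y * ∏ l ∈ (∅ : Finset ℕ), f l x y) = e')]
    simp
  | insert a S ha ih =>
    intro hS hc hf hM i
    have hap : a.Prime := hS a (Finset.mem_insert_self a S)
    have ia : NeZero a := ⟨hap.ne_zero⟩
    have hP : ∏ l ∈ S, l ≠ 0 :=
      Finset.prod_ne_zero_iff.2 fun l hl => (hS l (Finset.mem_insert_of_mem hl)).ne_zero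
    have i1 : NeZero (q' * ∏ l ∈ S, l) := ⟨mul_ne_zero i'.out hP⟩
    have i2 : NeZero ((q' * ∏ l ∈ S, l) * a) := ⟨mul_ne_zero i1.out ia.out⟩
    have hcop : (q' * ∏ l ∈ S, l).Coprime a := by
      refine Nat.Coprime.mul_left (hc a (Finset.mem_insert_self a S)).symm ?_
      refine Nat.Coprime.prod_left fun l hl => ?_
      refine (Nat.coprime_primes (hS l (Finset.mem_insert_of_mem hl)) hap).2 ?_
      rintro rfl
      exact ha hl
    have hfS : ∀ l ∈ S, Per l (f l) := fun l hl => hf l (Finset.mem_insert_of_mem hl)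
    have e1 := C3_mul (q' * ∏ l ∈ S, l) a hcop (fun x y => e' x y * ∏ l ∈ S, f l x y) (f a)
      (C4b_per h' S f hfS) (hf a (Finset.mem_insert_self a S))
    rw [C4b_congr i i2 (by rw [Finset.prod_insert ha]; ring)
      (by funext x y; rw [Finset.prod_insert ha]; ring :
        (fun x y => e' x y * ∏ l ∈ insert a S, f l x y) =
          fun x y => (e' x y * ∏ l ∈ S, f l x y) * f a x y), e1]
    have hi := ih (fun l hl => hS l (Finset.mem_insert_of_mem hl))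
      (fun l hl => hc l (Finset.mem_insert_of_mem hl)) hfS
      (fun l hl => hM l (Finset.mem_insert_of_mem hl)) i1
    have hMa := hM a (Finset.mem_insert_self a S) ia
    have hpos : 0 ≤ @MM q' i' e' * (κ ^ #S * ∏ l ∈ S, ((l : ℝ) - 1) ^ 2) :=
      mul_nonneg (C4b_nonneg _ _) (mul_nonneg (pow_nonneg hκ _)
        (Finset.prod_nonneg fun l _ => sq_nonneg _))
    refine (mul_le_mul hi hMa (C4b_nonneg _ _) hpos).trans (le_of_eq ?_)
    rw [Finset.prod_insert ha, Finset.card_insert_of_notMem ha, pow_succ]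
    ring

theorem C4b_prod (q' : ℕ) (e' : ℤ → ℤ → ℝ) (h' : Per q' e') (S : Finset ℕ) (hS : ∀ l ∈ S, l.Prime)
    (hc : ∀ l ∈ S, l.Coprime q') (f : ℕ → ℤ → ℤ → ℝ) (hf : ∀ l ∈ S, Per l (f l)) (κ : ℝ) (hκ : 0 ≤ κ)
    [hq' : NeZero q'] [NeZero (q' * ∏ l ∈ S, l)]
    (hM : ∀ l ∈ S, ∀ _ : NeZero l, MM l (f l) ≤ κ * ((l : ℝ) - 1) ^ 2) :
    MM (q' * ∏ l ∈ S, l) (fun x y => e' x y * ∏ l ∈ S, f l x y) ≤
      MM q' e' * (κ ^ #S * ∏ l ∈ S, ((l : ℝ) - 1) ^ 2) :=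
  C4b_aux q' e' h' hq' f κ hκ S hS hc hf hM _

end PS25
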