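import Pool.Agent.LibPS25.A5
import Pool.Agent.LibPS25.C0
import Pool.Agent.LibPS25.C4a
import Pool.Agent.LibPS25.C4b

/-
PLAN (C4). q = j L g0 N = q' prod_{l | L} l with q' = j g0 N (L squarefree: Nat.prod_primeFactors_of_squarefree). ee x y = e' x y prod_{l | L} el s l (k_l) x y with
e' x y = if j | x - y then w (g0 x) w (g0 y) Th s g0 (L x r) Th s g0 (L y r) else 0 (r = (x - y)/j), periodic mod q' (as in C0), and k_l = g0 (L/l) j^-1 in ZMod l, a unit:
for j | x - y: r = (x - y) j^-1 in ZMod l (j is invertible mod l), Th s L (g0 x r) = prod_{l | L} s l (g0 x r (L/l)). Use C4b_prod (f l = el s l k_l, Per is clear), Loc for the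
primes l, C4a_bound for e', and phi(q) = phi(q') prod (l - 1) (Nat.totient_mul, totient_prime).
-/

set_option autoImplicit false

noncomputable section

namespace PS25

open Finset

/-- the factor at the moduli `j`, `g₀`, `N` -/
def C4_e (s : (p : ℕ) → ZMod p → ℝ) (N : ℕ) (w : ZMod N → ℝ) (L g0 j : ℕ) (x y : ℤ) : ℝ :=
  open scoped Classical in
  if (j : ℤ) ∣ x - y then
    w ((g0 * x : ℤ) : ZMod N) * w ((g0 * y : ℤ) : ZMod N) *
      (Th s g0 (L * x * ((x - y) / j)) * Th s g0 (L * y * ((x - y) / j)))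
  else 0

private theorem C4_cast {q q' : ℕ} (h : q = q') [i1 : NeZero q] [i2 : NeZero q'] (e : ℤ → ℤ → ℝ) :
    MM q e = MM q' e := by
  subst h
  rfl

private theorem C4_e_eq (s : (p : ℕ) → ZMod p → ℝ) (N : ℕ) (w : ZMod N → ℝ) (L g0 j : ℕ) (x y : ℤ) :
    C4_e s N w L g0 j x y = ee (fun p z => s p (L * z)) N w 1 g0 j x y := by
  have h1 : ∀ t : ℤ, Th (fun p z => s p ((L : ZMod p) * z)) g0 t = Th s g0 (L * t) := by
    intro t
    rw [Th, Th]
    refine Finset.prod_congr rfl fun p _ => ?_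
    congr 1
    push_cast
    ring
  rw [C4_e, ee]
  split_ifs with h
  · rw [Th_one_left, Th_one_left, h1, h1, one_mul, mul_one]
    congr 3 <;> push_cast <;> ring
  · rfl

private theorem C4_per (s : (p : ℕ) → ZMod p → ℝ) (N : ℕ) (w : ZMod N → ℝ) (L g0 j : ℕ) (hj : 0 < j) :
    Per (j * g0 * N) (C4_e s N w L g0 j) := by
  have h := C0_per (fun p z => s p (L * z)) N w 1 g0 j hj
  rw [show j * 1 * g0 * N = j * g0 * N by ring] at h
  intro x x' y y' hx hy
  rw [C4_e_eq, C4_e_eq]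
  exact h x x' y y' hx hy

private theorem C4_le {s : (p : ℕ) → ZMod p → ℝ} (hs : Ev s) {N : ℕ} {w : ZMod N → ℝ}
    (hw : Wt N w) (L g0 j : ℕ) (x y : ℤ) : |C4_e s N w L g0 j x y| ≤ 1 := by
  rw [C4_e]
  split_ifs with h
  · rw [abs_mul, abs_mul, abs_mul]
    have h1 := hw ((g0 * x : ℤ) : ZMod N)
    have h2 := hw ((g0 * y : ℤ) : ZMod N)
    have h3 := Th_le hs g0 (L * x * ((x - y) / j))
    have h4 := Th_le hs g0 (L * y * ((x - y) / j))
    have h5 := mul_le_one₀ h1 (abs_nonneg _) h2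
    have h6 := mul_le_one₀ h3 (abs_nonneg _) h4
    exact mul_le_one₀ h5 (mul_nonneg (abs_nonneg _) (abs_nonneg _)) h6
  · rw [abs_zero]
    exact zero_le_one

private theorem C4_unit (L g0 j l : ℕ) (hl : l.Prime) (hL : Squarefree L) (hlL : l ∣ L)
    (hj : j.Coprime L) (hg0 : g0.Coprime L) :
    ∃ k : (ZMod l)ˣ, (k : ZMod l) = (g0 : ZMod l) * ((L / l : ℕ) : ZMod l) * (j : ZMod l)⁻¹ := by
  have hf : Fact l.Prime := ⟨hl⟩
  have h1 : (g0 : ZMod l) ≠ 0 := by
    intro h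
    have h' := (ZMod.natCast_eq_zero_iff _ _).1 h
    have := Nat.dvd_gcd h' hlL
    rw [hg0] at this
    exact hl.one_lt.ne' (Nat.dvd_one.1 this)
  have h2 : (j : ZMod l) ≠ 0 := by
    intro h
    have h' := (ZMod.natCast_eq_zero_iff _ _).1 h
    have := Nat.dvd_gcd h' hlL
    rw [hj] at this
    exact hl.one_lt.ne' (Nat.dvd_one.1 this)
  have h3 : ((L / l : ℕ) : ZMod l) ≠ 0 := by
    intro h
    have h' := (ZMod.natCast_eq_zero_iff _ _).1 h
    have h4 : l * l ∣ L := by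
      obtain ⟨c, hc⟩ := hlL
      rw [hc, Nat.mul_div_cancel_left _ hl.pos] at h'
      rw [hc]
      exact Nat.mul_dvd_mul_left l h'
    have h5 := hL l h4
    exact hl.one_lt.ne' (Nat.isUnit_iff.1 h5)
  exact ⟨Units.mk0 _ (mul_ne_zero (mul_ne_zero h1 h3) (inv_ne_zero h2)), rfl⟩

private theorem C4_arg (L g0 j l : ℕ) (hl : l.Prime) (hlL : l ∣ L)
    (hj : j.Coprime L) (x y z : ℤ) (h : (j : ℤ) ∣ x - y) :
    (((g0 * z * ((x - y) / j)) * ((L / l : ℕ) : ℤ) : ℤ) : ZMod l) =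
      ((g0 : ZMod l) * ((L / l : ℕ) : ZMod l) * (j : ZMod l)⁻¹) * z * (x - y) := by
  have hf : Fact l.Prime := ⟨hl⟩
  have h2 : (j : ZMod l) ≠ 0 := by
    intro h
    have h' := (ZMod.natCast_eq_zero_iff _ _).1 h
    have := Nat.dvd_gcd h' hlL
    rw [hj] at this
    exact hl.one_lt.ne' (Nat.dvd_one.1 this)
  obtain ⟨r, hr⟩ := h
  have hj0 : (j : ℤ) ≠ 0 := by
    intro h0
    apply h2
    have h3 : ((j : ℤ) : ZMod l) = 0 := by rw [h0]; exact Int.cast_zero
    exact_mod_cast h3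
  have h3 : (x - y) / j = r := by
    rw [hr, Int.mul_ediv_cancel_left _ hj0]
  have h4 : (x : ZMod l) - (y : ZMod l) = (j : ZMod l) * (r : ZMod l) := by
    have := congrArg (fun t : ℤ => (t : ZMod l)) hr
    push_cast at this
    exact this
  rw [h3, h4, Int.cast_mul, Int.cast_mul, Int.cast_mul, Int.cast_natCast, Int.cast_natCast]
  field_simp

private theorem C4_ee {s : (p : ℕ) → ZMod p → ℝ} (N : ℕ) (w : ZMod N → ℝ) (L g0 j : ℕ)
    (hj : j.Coprime L) (x y : ℤ) :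
    ee s N w L g0 j x y = C4_e s N w L g0 j x y *
      ∏ l ∈ L.primeFactors, el s l ((g0 : ZMod l) * ((L / l : ℕ) : ZMod l) * (j : ZMod l)⁻¹) x y := by
  rw [C4_e, ee]
  split_ifs with h
  · have h1 : ∀ z : ℤ, Th s L (g0 * z * ((x - y) / j)) = ∏ l ∈ L.primeFactors,
        s l (((g0 : ZMod l) * ((L / l : ℕ) : ZMod l) * (j : ZMod l)⁻¹) * z * (x - y)) := by
      intro z
      rw [Th]
      refine Finset.prod_congr rfl fun l hl => ?_
      rw [C4_arg L g0 j l (Nat.prime_of_mem_primeFactors hl) (Nat.dvd_of_mem_primeFactors hl) hj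
        x y z h]
    rw [h1, h1, ← Finset.prod_mul_distrib]
    simp only [el]
    ring
  · rw [zero_mul]

private theorem C4_totient (L : ℕ) (hL : Squarefree L) :
    (L.totient : ℝ) = ∏ l ∈ L.primeFactors, ((l : ℝ) - 1) := by
  have h1 := Nat.totient_mul_prod_primeFactors L
  rw [Nat.prod_primeFactors_of_squarefree hL] at h1
  have h0 : L ≠ 0 := hL.ne_zero
  have h2 : L.totient = ∏ p ∈ L.primeFactors, (p - 1) := by
    have : L * L.totient = L * ∏ p ∈ L.primeFactors, (p - 1) := by rw [← h1, mul_comm]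
    exact Nat.eq_of_mul_eq_mul_left (Nat.pos_of_ne_zero h0) this
  rw [h2, Nat.cast_prod]
  refine Finset.prod_congr rfl fun l hl => ?_
  rw [Nat.cast_sub (Nat.prime_of_mem_primeFactors hl).one_le, Nat.cast_one]

theorem C4_bound {s : (p : ℕ) → ZMod p → ℝ} (hs : Ev s) {N : ℕ} {w : ZMod N → ℝ} (hw : Wt N w)
    {κ : ℝ} (hκ : 0 ≤ κ) {l1 : ℕ} {P : ℕ → Prop} (hloc : Loc s κ l1 P) (L g0 j : ℕ) (hL : Squarefree L)
    (hL3 : ∀ l ∈ L.primeFactors, l1 ≤ l ∧ P l) (hj : j.Coprime L) (hg0 : g0.Coprime L)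
    (hN : N.Coprime L) [NeZero (j * L * g0 * N)] :
    MM (j * L * g0 * N) (ee s N w L g0 j) * (j.totient : ℝ) ≤
      κ ^ #L.primeFactors * ((j * L * g0 * N).totient : ℝ) ^ 2 := by
  have hq0 : j * L * g0 * N ≠ 0 := NeZero.ne _
  have hj0 : j ≠ 0 := by rintro rfl; simp at hq0
  have hL0 : L ≠ 0 := hL.ne_zero
  have hg00 : g0 ≠ 0 := by rintro rfl; simp at hq0
  have hN0 : N ≠ 0 := by rintro rfl; simp at hq0
  have hq' : j * g0 * N ≠ 0 := mul_ne_zero (mul_ne_zero hj0 hg00) hN0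
  have hP : ∏ l ∈ L.primeFactors, l = L := Nat.prod_primeFactors_of_squarefree hL
  have hqq : j * L * g0 * N = j * g0 * N * ∏ l ∈ L.primeFactors, l := by rw [hP]; ring
  have i1 : NeZero (j * g0 * N) := ⟨hq'⟩
  have i2 : NeZero (j * g0 * N * ∏ l ∈ L.primeFactors, l) := ⟨by rw [← hqq]; exact hq0⟩
  have hco : (j * g0 * N).Coprime L := Nat.Coprime.mul_left (Nat.Coprime.mul_left hj hg0) hN
  have h1 := C4b_prod (j * g0 * N) (C4_e s N w L g0 j)
    (C4_per s N w L g0 j (Nat.pos_of_ne_zero hj0)) L.primeFactors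
    (fun l hl => Nat.prime_of_mem_primeFactors hl)
    (fun l hl => (hco.symm).coprime_dvd_left (Nat.dvd_of_mem_primeFactors hl))
    (fun l => el s l ((g0 : ZMod l) * ((L / l : ℕ) : ZMod l) * (j : ZMod l)⁻¹))
    (fun l _ x x' y y' hx hy => by
      have hx' : (x : ZMod l) = (x' : ZMod l) := (ZMod.intCast_eq_intCast_iff _ _ _).2 hx
      have hy' : (y : ZMod l) = (y' : ZMod l) := (ZMod.intCast_eq_intCast_iff _ _ _).2 hy
      simp only [el, hx', hy'])
    κ hκ (fun l hl _ => by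
      have hf : Fact l.Prime := ⟨Nat.prime_of_mem_primeFactors hl⟩
      obtain ⟨k, hk⟩ := C4_unit L g0 j l hf.out hL (Nat.dvd_of_mem_primeFactors hl) hj hg0
      rw [← hk]
      exact hloc l (hL3 l hl).1 (hL3 l hl).2 k)
  have h2 : MM (j * L * g0 * N) (ee s N w L g0 j) = MM (j * g0 * N * ∏ l ∈ L.primeFactors, l)
      (fun x y => C4_e s N w L g0 j x y * ∏ l ∈ L.primeFactors,
        el s l ((g0 : ZMod l) * ((L / l : ℕ) : ZMod l) * (j : ZMod l)⁻¹) x y) := by
    rw [C4_cast hqq]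
    congr 1
    funext x y
    exact C4_ee N w L g0 j hj x y
  have h3 := C4a_bound (j * g0 * N) j ⟨g0 * N, by ring⟩ (C4_e s N w L g0 j)
    (C4_le hs hw L g0 j) (fun x y hxy => by rw [C4_e, if_neg hxy])
  have h4 : ((j * L * g0 * N).totient : ℝ) =
      ((j * g0 * N).totient : ℝ) * ∏ l ∈ L.primeFactors, ((l : ℝ) - 1) := by
    rw [show j * L * g0 * N = (j * g0 * N) * L by ring, Nat.totient_mul hco, Nat.cast_mul,
      C4_totient L hL]
  rw [h2]
  calc _ ≤ (MM (j * g0 * N) (C4_e s N w L g0 j) *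
        (κ ^ #L.primeFactors * ∏ l ∈ L.primeFactors, ((l : ℝ) - 1) ^ 2)) * (j.totient : ℝ) :=
        mul_le_mul_of_nonneg_right h1 (Nat.cast_nonneg _)
    _ = (MM (j * g0 * N) (C4_e s N w L g0 j) * (j.totient : ℝ)) *
        (κ ^ #L.primeFactors * ∏ l ∈ L.primeFactors, ((l : ℝ) - 1) ^ 2) := by ring
    _ ≤ ((j * g0 * N).totient : ℝ) ^ 2 *
        (κ ^ #L.primeFactors * ∏ l ∈ L.primeFactors, ((l : ℝ) - 1) ^ 2) := by
        refine mul_le_mul_of_nonneg_right h3 (mul_nonneg (pow_nonneg hκ _) ?_)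
        exact Finset.prod_nonneg fun l _ => sq_nonneg _
    _ = _ := by rw [h4, Finset.prod_pow]; ring

end PS25
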