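import Pool.Agent.LibPS25.B4
import Pool.Agent.LibPS25.C1
import Pool.Agent.LibPS25.C2
import Pool.Agent.LibPS25.C4

/-
PLAN (C5). If g0 is not coprime to L then OO = 0 (no g0 v in Mr). Otherwise B4_D, C1_char (U = Iu .. D, C0_per, ee_le), C2_main, C4_bound with q = j L g0 N, Y = X/g0 (floor),
A2 = j R: main <= (Y/q + 1)(j R/q + 1) MM, MM <= kappa^K phi(q)^2 / phi(j), and (phi(q)/q)^2 <= (phi(j)/j)^2 <= phi(j)/j (q = j k, phi(j k) <= phi(j) k), so
(Y + q)(j R + q) (phi(q)/q)^2 / phi(j) <= (Y + q)(j R + q)/j <= (X/g0 + q)(R + q). Exchange the sums over D and chi, drop the condition D coprime to q in the last sum.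
-/

set_option autoImplicit false

noncomputable section

namespace PS25

open Finset

theorem C5_tot (j k : ℕ) (hj : 0 < j) (hk : 0 < k) :
    ((j * k).totient : ℝ) ≤ (j.totient : ℝ) * k := by
  have h1 : ((j * k).totient : ℚ) ≤ (j.totient : ℚ) * k := by
    rw [Nat.totient_eq_mul_prod_factors, Nat.totient_eq_mul_prod_factors]
    have hsub : j.primeFactors ⊆ (j * k).primeFactors :=
      Nat.primeFactors_mono (Dvd.intro k rfl) (by positivity)
    rw [← Finset.prod_sdiff hsub]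
    have h2 : ∏ p ∈ (j * k).primeFactors \ j.primeFactors, (1 - (p : ℚ)⁻¹) ≤ 1 := by
      refine Finset.prod_le_one (fun p hp => ?_) (fun p hp => ?_)
      · have hp1 : (1 : ℚ) ≤ p := by
          have := (Nat.prime_of_mem_primeFactors (Finset.mem_sdiff.1 hp).1).one_lt
          exact_mod_cast this.le
        have : (p : ℚ)⁻¹ ≤ 1 := inv_le_one_of_one_le₀ hp1
        linarith
      · have : (0 : ℚ) ≤ (p : ℚ)⁻¹ := by positivity
        linarith
    have h3 : (0 : ℚ) ≤ ∏ p ∈ j.primeFactors, (1 - (p : ℚ)⁻¹) := by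
      refine Finset.prod_nonneg fun p hp => ?_
      have hp1 : (1 : ℚ) ≤ p := by
        have := (Nat.prime_of_mem_primeFactors hp).one_lt
        exact_mod_cast this.le
      have : (p : ℚ)⁻¹ ≤ 1 := inv_le_one_of_one_le₀ hp1
      linarith
    have h4 : (∏ p ∈ (j * k).primeFactors \ j.primeFactors, (1 - (p : ℚ)⁻¹)) *
        ∏ p ∈ j.primeFactors, (1 - (p : ℚ)⁻¹) ≤ 1 * ∏ p ∈ j.primeFactors, (1 - (p : ℚ)⁻¹) :=
      mul_le_mul_of_nonneg_right h2 h3
    rw [one_mul] at h4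
    calc ((j * k : ℕ) : ℚ) * ((∏ p ∈ (j * k).primeFactors \ j.primeFactors, (1 - (p : ℚ)⁻¹)) *
          ∏ p ∈ j.primeFactors, (1 - (p : ℚ)⁻¹))
        ≤ ((j * k : ℕ) : ℚ) * ∏ p ∈ j.primeFactors, (1 - (p : ℚ)⁻¹) :=
          mul_le_mul_of_nonneg_left h4 (by positivity)
      _ = (j : ℚ) * (∏ p ∈ j.primeFactors, (1 - (p : ℚ)⁻¹)) * k := by push_cast; ring
  exact_mod_cast h1

theorem C5_num (j k : ℕ) (hj : 0 < j) (hk : 0 < k) (A M Y R : ℝ) (hA : 0 ≤ A)
    (hY : 0 ≤ Y) (hR : 0 ≤ R) (hMj : M * (j.totient : ℝ) ≤ A * ((j * k).totient : ℝ) ^ 2) :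
    (Y / ((j * k : ℕ) : ℝ) + 1) * ((j * R) / ((j * k : ℕ) : ℝ) + 1) * M ≤
      A * (Y + ((j * k : ℕ) : ℝ)) * (R + ((j * k : ℕ) : ℝ)) := by
  have hj' : (0 : ℝ) < j := by exact_mod_cast hj
  have hk' : (0 : ℝ) < k := by exact_mod_cast hk
  have hk1 : (1 : ℝ) ≤ j := by exact_mod_cast hj
  have ht0 : (0 : ℝ) < (j.totient : ℝ) := by exact_mod_cast Nat.totient_pos.2 hj
  have htj : (j.totient : ℝ) ≤ j := by exact_mod_cast Nat.totient_le j
  have ht := C5_tot j k hj hk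
  have h1 : M ≤ A * (j.totient : ℝ) * k ^ 2 := by
    have h2 : M * (j.totient : ℝ) ≤ A * (j.totient : ℝ) * k ^ 2 * (j.totient : ℝ) := by
      calc M * (j.totient : ℝ) ≤ A * ((j * k).totient : ℝ) ^ 2 := hMj
        _ ≤ A * ((j.totient : ℝ) * k) ^ 2 := by
            refine mul_le_mul_of_nonneg_left ?_ hA
            exact pow_le_pow_left₀ (by positivity) ht 2
        _ = A * (j.totient : ℝ) * k ^ 2 * (j.totient : ℝ) := by ring
    exact le_of_mul_le_mul_right h2 ht0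
  push_cast
  have hq : (0 : ℝ) < (j : ℝ) * k := by positivity
  have e1 : Y / ((j : ℝ) * k) + 1 = (Y + j * k) / (j * k) := by field_simp
  have e2 : (j : ℝ) * R / ((j : ℝ) * k) + 1 = (R + k) / k := by field_simp
  rw [e1, e2]
  calc (Y + j * k) / (j * k) * ((R + k) / k) * M
      ≤ (Y + j * k) / (j * k) * ((R + k) / k) * (A * (j.totient : ℝ) * k ^ 2) :=
        mul_le_mul_of_nonneg_left h1 (by positivity)
    _ = A * (Y + j * k) * (R + k) * ((j.totient : ℝ) / j) := by field_simp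
    _ ≤ A * (Y + j * k) * (R + k) * 1 := by
        refine mul_le_mul_of_nonneg_left ?_ (by positivity)
        exact (div_le_one hj').2 htj
    _ ≤ A * (Y + j * k) * (R + j * k) := by
        rw [mul_one]
        refine mul_le_mul_of_nonneg_left ?_ (by positivity)
        nlinarith

theorem C5_OO {s : (p : ℕ) → ZMod p → ℝ} (hs : Ev s) {g : ℕ → ℝ} (hg : SM g) {N : ℕ} {w : ZMod N → ℝ}
    (hw : Wt N w) {κ : ℝ} (hκ : 0 ≤ κ) {l1 : ℕ} {P : ℕ → Prop} (hloc : Loc s κ l1 P) (L X R1 R g0 j : ℕ)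
    (hL : Squarefree L) (hL3 : ∀ l ∈ L.primeFactors, l1 ≤ l ∧ P l) (hj : j.Coprime L)
    (hN : N.Coprime L) (hg0 : 0 < g0) (hj0 : 0 < j) (hN0 : 0 < N) [NeZero (j * L * g0 * N)] :
    |OO s g N w L X R1 R g0 j| ≤
      κ ^ #L.primeFactors * ((X / g0 : ℝ) + (j * L * g0 * N : ℕ)) * (R + (j * L * g0 * N : ℕ)) +
      ∑ χ ∈ (univ : Finset (DirichletCharacter ℂ (j * L * g0 * N))).erase 1,
        ∑ D ∈ (Icc 1 (X ^ 2)).filter Squarefree,
          ‖∑ u ∈ Iu (X / g0) (j * R1) (j * R) D, χ (u : ZMod (j * L * g0 * N))‖ := by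
  classical
  have hκK : 0 ≤ κ ^ #L.primeFactors := by positivity
  have hL0 : 0 < L := Nat.pos_of_ne_zero hL.ne_zero
  by_cases hgL : g0.Coprime L
  swap
  · have h0 : OO s g N w L X R1 R g0 j = 0 := by
      unfold OO
      refine Finset.sum_eq_zero fun r _ => Finset.sum_eq_zero fun v hv => ?_
      exfalso
      have h1 := (Finset.mem_filter.1 hv).2.2.1
      have h2 := (Finset.mem_filter.1 h1).2.2
      exact hgL ((Nat.Coprime.coprime_mul_right h2).coprime_mul_right_right)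
    rw [h0, abs_zero]
    have h3 : 0 ≤ ∑ χ ∈ (univ : Finset (DirichletCharacter ℂ (j * L * g0 * N))).erase 1,
        ∑ D ∈ (Icc 1 (X ^ 2)).filter Squarefree,
          ‖∑ u ∈ Iu (X / g0) (j * R1) (j * R) D, χ (u : ZMod (j * L * g0 * N))‖ :=
      Finset.sum_nonneg fun χ _ => Finset.sum_nonneg fun D _ => norm_nonneg _
    positivity
  refine (B4_D hs hg hw L X R1 R g0 j hL0 hg0 hj0).trans ?_
  have h1 : ∀ D ∈ (Icc 1 (X ^ 2)).filter fun D => Squarefree D ∧ D.Coprime (j * L * g0 * N),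
      |∑ u ∈ Iu (X / g0) (j * R1) (j * R) D, ee s N w L g0 j u (D / u : ℕ)| ≤
        c0 (j * L * g0 * N) (ee s N w L g0 j) D * #(Iu (X / g0) (j * R1) (j * R) D) +
        ∑ χ ∈ (univ : Finset (DirichletCharacter ℂ (j * L * g0 * N))).erase 1,
          ‖∑ u ∈ Iu (X / g0) (j * R1) (j * R) D, χ (u : ZMod (j * L * g0 * N))‖ := by
    intro D hD
    rw [Finset.mem_filter, Finset.mem_Icc] at hD
    exact C1_char (j * L * g0 * N) (ee s N w L g0 j) (C0_per s N w L g0 j hj0)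
      (ee_le hs hw L g0 j) D hD.1.1 hD.2.2 _ (Finset.filter_subset _ _)
  refine (Finset.sum_le_sum h1).trans ?_
  rw [Finset.sum_add_distrib]
  refine add_le_add ?_ ?_
  · refine (C2_main (j * L * g0 * N) (ee s N w L g0 j) (C0_per s N w L g0 j hj0) X (X / g0)
      (j * R1) (j * R)).trans ?_
    have h2 := C4_bound hs hw hκ hloc L g0 j hL hL3 hj hgL hN
    have hM0 : 0 ≤ MM (j * L * g0 * N) (ee s N w L g0 j) :=
      Finset.sum_nonneg fun _ _ => abs_nonneg _
    have e0 : j * L * g0 * N = j * (L * g0 * N) := by ring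
    have h3 : ((j * L * g0 * N : ℕ).totient : ℝ) = ((j * (L * g0 * N) : ℕ).totient : ℝ) := by
      rw [e0]
    have h4 : ((j * L * g0 * N : ℕ) : ℝ) = ((j * (L * g0 * N) : ℕ) : ℝ) := by rw [e0]
    rw [h3] at h2
    have h5 := C5_num j (L * g0 * N) hj0 (by positivity) (κ ^ #L.primeFactors)
      (MM (j * L * g0 * N) (ee s N w L g0 j)) (((X / g0 : ℕ) : ℝ)) (R : ℝ) hκK (by positivity)
      (by positivity) h2
    rw [← h4] at h5
    have h6 : ((j * R : ℕ) : ℝ) = (j : ℝ) * R := by push_cast; ring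
    rw [h6]
    refine h5.trans ?_
    have h7 : (((X / g0 : ℕ) : ℝ)) ≤ (X : ℝ) / g0 := Nat.cast_div_le
    have h8 : (0 : ℝ) ≤ ((j * L * g0 * N : ℕ) : ℝ) := Nat.cast_nonneg _
    refine mul_le_mul_of_nonneg_right ?_ (by positivity)
    refine mul_le_mul_of_nonneg_left ?_ hκK
    linarith
  · rw [Finset.sum_comm]
    refine Finset.sum_le_sum fun χ _ => ?_
    refine Finset.sum_le_sum_of_subset_of_nonneg ?_ fun _ _ _ => norm_nonneg _
    intro D hD
    rw [Finset.mem_filter] at hD ⊢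
    exact ⟨hD.1, hD.2.1⟩

end PS25
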