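import Pool.Agent.LibPS25.Defs

/-
PLAN (D1). chi is periodic mod q with sum 0 over a full period (MulChar.sum_eq_zero_of_ne_one), |chi| <= 1: cut the interval into full periods of length q and a rest of
less than q terms.
-/

set_option autoImplicit false

noncomputable section

namespace PS25

open Finset

private theorem D1_period (q : ℕ) [NeZero q] (χ : DirichletCharacter ℂ q) (hχ : χ ≠ 1) (x : ℕ) :
    ∑ b ∈ Ioc x (x + q), χ (b : ZMod q) = 0 := by
  have hinj : Set.InjOn (fun b : ℕ => (b : ZMod q)) (Ioc x (x + q) : Finset ℕ) := by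
    intro b hb b' hb' h
    simp only [coe_Ioc, Set.mem_Ioc] at hb hb'
    have h1 : b ≡ b' [MOD q] := (ZMod.natCast_eq_natCast_iff _ _ _).1 h
    rcases le_total b b' with hle | hle
    · have h2 := (Nat.modEq_iff_dvd' hle).1 h1
      have h3 : b' - b < q := by omega
      have h4 := Nat.eq_zero_of_dvd_of_lt h2 h3
      omega
    · have h2 := (Nat.modEq_iff_dvd' hle).1 h1.symm
      have h3 : b - b' < q := by omega
      have h4 := Nat.eq_zero_of_dvd_of_lt h2 h3
      omega
  have himg : (Ioc x (x + q)).image (fun b : ℕ => (b : ZMod q)) = univ := by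
    apply Finset.eq_univ_of_card
    rw [Finset.card_image_of_injOn hinj, Nat.card_Ioc, ZMod.card]
    omega
  have h5 : ∑ a ∈ (Ioc x (x + q)).image (fun b : ℕ => (b : ZMod q)), χ a
      = ∑ b ∈ Ioc x (x + q), χ (b : ZMod q) :=
    Finset.sum_image (fun b hb b' hb' h => hinj hb hb' h)
  rw [← h5, himg]
  exact MulChar.sum_eq_zero_of_ne_one hχ

theorem D1_int (q : ℕ) [NeZero q] (χ : DirichletCharacter ℂ q) (hχ : χ ≠ 1) (x y : ℕ) :
    ‖∑ b ∈ Ioc x y, χ (b : ZMod q)‖ ≤ q := by
  have hq : 0 < q := Nat.pos_of_ne_zero (NeZero.ne q)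
  suffices H : ∀ n : ℕ, ∀ x y : ℕ, y - x ≤ n → ‖∑ b ∈ Ioc x y, χ (b : ZMod q)‖ ≤ q from
    H (y - x) x y le_rfl
  intro n
  induction n using Nat.strong_induction_on with
  | _ n ih =>
    intro x y hxy
    rcases le_or_gt (y - x) q with h | h
    · calc ‖∑ b ∈ Ioc x y, χ (b : ZMod q)‖ ≤ ∑ b ∈ Ioc x y, ‖χ (b : ZMod q)‖ := norm_sum_le _ _
        _ ≤ ∑ b ∈ Ioc x y, (1 : ℝ) := Finset.sum_le_sum (fun b _ => DirichletCharacter.norm_le_one χ _)
        _ = ((y - x : ℕ) : ℝ) := by simp
        _ ≤ q := by exact_mod_cast h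
    · have h1 : Ioc x y = Ioc x (x + q) ∪ Ioc (x + q) y := by
        rw [Finset.Ioc_union_Ioc_eq_Ioc (by omega) (by omega)]
      have h2 : Disjoint (Ioc x (x + q)) (Ioc (x + q) y) := by
        rw [Finset.disjoint_left]
        intro a ha hb
        simp only [mem_Ioc] at ha hb
        omega
      rw [h1, Finset.sum_union h2, D1_period q χ hχ x, zero_add]
      exact ih (n - 1) (by omega) (x + q) y (by omega)

end PS25
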