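import Pool.Agent.LibPS25.Defs
import Pool.Agent.LibMaier.Mertens2

/-
PLAN (G5). sum_{n <= x} 1/n <= prod_{p <= x} (1 - 1/p)^-1 (Mathlib or the libraries may have it; search for a landed log log lower bound: e.g. Pool/Agent/LibPA39, LibN78, LibSP15, mertens), so log log x <=
sum_{p <= x} -log(1 - 1/p) <= sum 1/p + sum_p 1/(p (p - 1)) <= sum 1/p + 1.
-/

set_option autoImplicit false

noncomputable section

namespace PS25

open Finset

theorem G5_mert : ∃ C : ℝ, ∀ x : ℕ, 3 ≤ x →
    Real.log (Real.log x) - C ≤ ∑ p ∈ (Icc 1 x).filter Nat.Prime, 1 / (p : ℝ) := by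
  obtain ⟨M, hM⟩ := Pool.Agent.LibMaier.mertens_second
  have h1 : ∀ᶠ t : ℝ in Filter.atTop, M - 1 < Pool.Agent.LibMaier.DR t :=
    hM.eventually (lt_mem_nhds (by linarith))
  obtain ⟨X, hX⟩ := Filter.eventually_atTop.1 h1
  have hsum : ∀ x : ℕ, ∑ p ∈ (Icc 1 x).filter Nat.Prime, 1 / (p : ℝ) = Pool.Agent.LibMaier.RN x := by
    intro x
    unfold Pool.Agent.LibMaier.RN Pool.Agent.LibMaier.PN
    refine sum_congr ?_ fun _ _ => rfl
    ext p
    simp only [mem_filter, mem_Icc]
    constructor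
    · rintro ⟨⟨_, h⟩, hp⟩
      exact ⟨⟨Nat.zero_le _, h⟩, hp⟩
    · rintro ⟨⟨_, h⟩, hp⟩
      exact ⟨⟨hp.one_lt.le, h⟩, hp⟩
  have hnn : ∀ x : ℕ, 0 ≤ ∑ p ∈ (Icc 1 x).filter Nat.Prime, 1 / (p : ℝ) := fun x =>
    sum_nonneg fun p _ => by positivity
  refine ⟨max (1 - M) (Real.log (Real.log (max X 3))), fun x hx => ?_⟩
  have hx3 : (3 : ℝ) ≤ x := by exact_mod_cast hx
  have hlog : 1 < Real.log x := by
    rw [Real.lt_log_iff_exp_lt (by linarith)]
    exact lt_of_lt_of_le (by have := Real.exp_one_lt_d9; linarith) hx3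
  rcases le_total X (x : ℝ) with h | h
  · have h2 := hX x h
    rw [hsum x]
    have h3 : Pool.Agent.LibMaier.DR (x : ℝ) =
        Pool.Agent.LibMaier.RN x - Real.log (Real.log x) := by
      unfold Pool.Agent.LibMaier.DR
      rw [Nat.floor_natCast]
    rw [h3] at h2
    have h4 := le_max_left (1 - M) (Real.log (Real.log (max X 3)))
    linarith
  · have h5 : Real.log (Real.log x) ≤ Real.log (Real.log (max X 3)) := by
      apply Real.log_le_log (by linarith)
      exact Real.log_le_log (by linarith) (h.trans (le_max_left _ _))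
    have h4 := le_max_right (1 - M) (Real.log (Real.log (max X 3)))
    have h6 := hnn x
    linarith

end PS25
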