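import Pool.Agent.LibPS25.G1
import Pool.Agent.LibPS25.G5

/-
PLAN (D8). For n <= X let I = primes <= sqrt X (Nat.sqrt X), S = sum over I of 1/p >= log log (sqrt X) - C >= log log X - C - 1 (G5_mert). G1_var: the number of n <= X with
#{p in I : p | n} < (15/16) S is at most (X S + 2 S #I) / (S/16)^2 <= 256 (1/S + 2 sqrt X / (S X)) X = o(X). For the others omega(n) >= (15/16) S >= (7/8) log log X for X large.
If omega(u) + omega(v) < (7/4) log log X then omega(u) or omega(v) is < (7/8) log log X: at most 2 X o(X) pairs.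
-/

set_option autoImplicit false

noncomputable section

namespace PS25

open Finset

theorem D8_few (η : ℝ) (hη : 0 < η) : ∃ X0 : ℕ, ∀ X : ℕ, X0 ≤ X →
    (#((Icc 1 X ×ˢ Icc 1 X).filter fun p : ℕ × ℕ =>
      ((#p.1.primeFactors + #p.2.primeFactors : ℕ) : ℝ) < 7 / 4 * Real.log (Real.log X)) : ℝ) ≤
      η * (X : ℝ) ^ 2 := by
  obtain ⟨C0, hC0⟩ := G5_mert
  obtain ⟨C, hC, hC1⟩ : ∃ C : ℝ, 0 ≤ C ∧ C0 + 2 ≤ C :=
    ⟨|C0| + 2, by positivity, by linarith [le_abs_self C0]⟩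
  have ht : Filter.Tendsto (fun X : ℕ => Real.log (Real.log X)) Filter.atTop Filter.atTop :=
    Real.tendsto_log_atTop.comp (Real.tendsto_log_atTop.comp tendsto_natCast_atTop_atTop)
  obtain ⟨X1, hX1⟩ := Filter.eventually_atTop.1 (ht.eventually_ge_atTop (15 * C + 1 + 1536 / η))
  refine ⟨max X1 9, fun X hX => ?_⟩
  have hL := hX1 X ((le_max_left _ _).trans hX)
  have hX9 : 9 ≤ X := (le_max_right _ _).trans hX
  obtain ⟨L, hLdef⟩ : ∃ L, L = Real.log (Real.log X) := ⟨_, rfl⟩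
  rw [← hLdef] at hL ⊢
  obtain ⟨s, hs⟩ : ∃ s, s = Nat.sqrt X := ⟨_, rfl⟩
  have hs3 : 3 ≤ s := by rw [hs]; exact Nat.le_sqrt.2 (by omega)
  have hsX : s ≤ X := by rw [hs]; exact Nat.sqrt_le_self X
  have hs4 : X ≤ s ^ 4 := by
    have h1 : X < (s + 1) * (s + 1) := by rw [hs]; exact Nat.lt_succ_sqrt X
    have h2 : s + 1 ≤ s ^ 2 := by nlinarith
    calc X ≤ (s + 1) * (s + 1) := h1.le
      _ ≤ s ^ 2 * s ^ 2 := Nat.mul_le_mul h2 h2
      _ = s ^ 4 := by ring
  have hXr : (9 : ℝ) ≤ X := by exact_mod_cast hX9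
  have hsr : (3 : ℝ) ≤ s := by exact_mod_cast hs3
  have hlogs : L - 2 ≤ Real.log (Real.log s) := by
    have h1 : Real.log X ≤ 4 * Real.log s := by
      have h : Real.log (X : ℝ) ≤ Real.log ((s : ℝ) ^ 4) :=
        Real.log_le_log (by linarith) (by exact_mod_cast hs4)
      rw [Real.log_pow] at h
      exact_mod_cast h
    have h0 : 0 < Real.log X := Real.log_pos (by linarith)
    have h2 : Real.log (Real.log X) ≤ Real.log (4 * Real.log s) := Real.log_le_log h0 h1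
    have hs0 : 0 < Real.log s := Real.log_pos (by linarith)
    rw [Real.log_mul (by norm_num) hs0.ne'] at h2
    have h3 : Real.log 4 ≤ 2 := by
      have h4 : Real.log 4 = 2 * Real.log 2 := by
        rw [show (4 : ℝ) = 2 ^ 2 by norm_num, Real.log_pow]
        norm_num
      have h5 := Real.log_two_lt_d9
      linarith
    rw [hLdef]
    linarith
  obtain ⟨I, hI⟩ : ∃ I, I = (Icc 1 s).filter Nat.Prime := ⟨_, rfl⟩
  obtain ⟨S, hS⟩ : ∃ S : ℝ, S = ∑ l ∈ I, 1 / (l : ℝ) := ⟨_, rfl⟩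
  have hSL : L - C ≤ S := by
    have h := hC0 s hs3
    rw [hS, hI]
    linarith
  have hS1 : 14 * C + 1 + 1536 / η ≤ S := by linarith
  have hη2 : 0 < 1536 / η := by positivity
  have hS0 : 0 < S := by linarith
  have hvar := G1_var I (by intro l hl; rw [hI] at hl; exact (mem_filter.1 hl).2) X
  rw [← hS] at hvar
  obtain ⟨Nb, hNb⟩ : ∃ Nb, Nb = (Icc 1 X).filter fun n : ℕ =>
    ((#n.primeFactors : ℕ) : ℝ) < 7 / 8 * L := ⟨_, rfl⟩
  have hcard : (#Nb : ℝ) * (S / 16) ^ 2 ≤ X * S + 2 * S * #I := by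
    refine le_trans ?_ hvar
    calc (#Nb : ℝ) * (S / 16) ^ 2 = ∑ n ∈ Nb, (S / 16) ^ 2 := by rw [sum_const, nsmul_eq_mul]
      _ ≤ ∑ n ∈ Nb, ((#(I.filter fun l => l ∣ n) : ℝ) - S) ^ 2 := by
        apply sum_le_sum
        intro n hn
        rw [hNb, mem_filter, mem_Icc] at hn
        have hsub : I.filter (fun l => l ∣ n) ⊆ n.primeFactors := by
          intro l hl
          rw [hI] at hl
          obtain ⟨h1, h2⟩ := mem_filter.1 hl
          exact Nat.mem_primeFactors.2 ⟨(mem_filter.1 h1).2, h2, by omega⟩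
        have hc : (#(I.filter fun l => l ∣ n) : ℝ) ≤ #n.primeFactors := by
          exact_mod_cast card_le_card hsub
        have h1 : S / 16 ≤ S - #(I.filter fun l => l ∣ n) := by
          have h2 := hn.2
          linarith
        have h0 : 0 ≤ S / 16 := by positivity
        calc (S / 16) ^ 2 ≤ (S - #(I.filter fun l => l ∣ n)) ^ 2 := pow_le_pow_left₀ h0 h1 2
          _ = ((#(I.filter fun l => l ∣ n) : ℝ) - S) ^ 2 := by ring
      _ ≤ _ := sum_le_sum_of_subset_of_nonneg (by rw [hNb]; exact filter_subset _ _)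
          (fun _ _ _ => sq_nonneg _)
  have hIX : (#I : ℝ) ≤ X := by
    have h1 : #I ≤ s := by
      rw [hI]
      calc #((Icc 1 s).filter Nat.Prime) ≤ #(Icc 1 s) := card_filter_le _ _
        _ = s := by simp
    exact_mod_cast h1.trans hsX
  have hNS : (#Nb : ℝ) * S ≤ 768 * X := by
    have h1 : (#Nb : ℝ) * (S / 16) ^ 2 ≤ 3 * X * S := by nlinarith
    have h2 : S * ((#Nb : ℝ) * S) ≤ S * (768 * X) := by nlinarith
    exact le_of_mul_le_mul_left h2 hS0
  have hN : (#Nb : ℝ) ≤ η / 2 * X := by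
    have h1 : (#Nb : ℝ) * (1536 / η) ≤ 768 * X := by
      refine le_trans ?_ hNS
      exact mul_le_mul_of_nonneg_left (by linarith) (by positivity)
    have h2 : (#Nb : ℝ) * (1536 / η) = (#Nb : ℝ) * 1536 / η := by ring
    rw [h2, div_le_iff₀ hη] at h1
    nlinarith
  have hsub : ((Icc 1 X ×ˢ Icc 1 X).filter fun p : ℕ × ℕ =>
      ((#p.1.primeFactors + #p.2.primeFactors : ℕ) : ℝ) < 7 / 4 * L) ⊆
      Nb ×ˢ Icc 1 X ∪ Icc 1 X ×ˢ Nb := by
    intro p hp
    obtain ⟨h1, h2⟩ := mem_filter.1 hp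
    obtain ⟨h3, h4⟩ := mem_product.1 h1
    rw [mem_union, mem_product, mem_product, hNb, mem_filter, mem_filter]
    by_cases h5 : ((#p.1.primeFactors : ℕ) : ℝ) < 7 / 8 * L
    · exact Or.inl ⟨⟨h3, h5⟩, h4⟩
    · refine Or.inr ⟨h3, h4, ?_⟩
      push_cast at h2
      push Not at h5
      linarith
  have hc1 : (#((Icc 1 X ×ˢ Icc 1 X).filter fun p : ℕ × ℕ =>
      ((#p.1.primeFactors + #p.2.primeFactors : ℕ) : ℝ) < 7 / 4 * L) : ℝ) ≤
      #Nb * X + X * #Nb := by
    have h1 := (card_le_card hsub).trans (card_union_le _ _)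
    rw [card_product, card_product, Nat.card_Icc, Nat.add_sub_cancel] at h1
    exact_mod_cast h1
  have hX0 : (0 : ℝ) ≤ X := by linarith
  nlinarith

end PS25
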