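import Pool.Agent.LibPS25.Defs

/-
PLAN (D9). For squarefree D the number of divisors is 2^omega(D) >= 2^((7/4) log log X) = (log X)^((7/4) log 2) >= (log X)^(6/5) (log X >= 1, (7/4) log 2 = 1.2130 >= 1.2).
sum_{D <= X^2} tau(D) <= X^2 (1 + log(X^2)) = X^2 (1 + 2 log X).
-/

set_option autoImplicit false

noncomputable section

namespace PS25

open Finset

private theorem D9_sum_div (N : ℕ) : (∑ D ∈ Ioc 0 N, (#D.divisors : ℝ)) ≤ N * (1 + Real.log N) := by
  have h1 : ∀ D ∈ Ioc 0 N, #D.divisors = #((Ioc 0 N).filter fun d => d ∣ D) := by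
    intro D hD
    rw [mem_Ioc] at hD
    congr 1
    ext d
    simp only [Nat.mem_divisors, mem_filter, mem_Ioc]
    constructor
    · rintro ⟨h, -⟩
      exact ⟨⟨Nat.pos_of_dvd_of_pos h hD.1, (Nat.le_of_dvd hD.1 h).trans hD.2⟩, h⟩
    · rintro ⟨-, h⟩
      exact ⟨h, by omega⟩
  have h2 : ∑ D ∈ Ioc 0 N, #D.divisors = ∑ d ∈ Ioc 0 N, N / d := by
    rw [sum_congr rfl h1]
    have h3 := sum_card_bipartiteAbove_eq_sum_card_bipartiteBelow (s := Ioc 0 N) (t := Ioc 0 N)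
      (fun D d : ℕ => d ∣ D)
    unfold bipartiteAbove bipartiteBelow at h3
    rw [h3]
    refine sum_congr rfl fun d hd => ?_
    exact Nat.Ioc_filter_dvd_card_eq_div N d
  have h4 : (∑ D ∈ Ioc 0 N, (#D.divisors : ℝ)) = ((∑ d ∈ Ioc 0 N, N / d : ℕ) : ℝ) := by
    rw [← h2]
    push_cast
    rfl
  rw [h4]
  push_cast
  calc (∑ d ∈ Ioc 0 N, ((N / d : ℕ) : ℝ)) ≤ ∑ d ∈ Ioc 0 N, (N : ℝ) * (d : ℝ)⁻¹ := by
        refine sum_le_sum fun d _ => ?_
        rw [← div_eq_mul_inv]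
        exact Nat.cast_div_le
    _ = N * ∑ d ∈ Ioc 0 N, (d : ℝ)⁻¹ := by rw [mul_sum]
    _ ≤ N * (1 + Real.log N) := by
        refine mul_le_mul_of_nonneg_left ?_ (Nat.cast_nonneg N)
        have h5 := harmonic_le_one_add_log N
        rw [harmonic_eq_sum_Icc] at h5
        push_cast at h5
        have h6 : Icc 1 N = Ioc 0 N := by ext; simp [Nat.lt_iff_add_one_le]
        rwa [h6] at h5

private theorem D9_two_pow (D : ℕ) (hD : D ≠ 0) : 2 ^ #D.primeFactors ≤ #D.divisors := by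
  rw [Nat.card_divisors hD, ← prod_const]
  refine prod_le_prod' fun p hp => ?_
  have h : 1 ≤ D.factorization p := (Nat.prime_of_mem_primeFactors hp).factorization_pos_of_dvd hD
    (Nat.dvd_of_mem_primeFactors hp)
  omega

theorem D9_many (X : ℕ) (hX : 3 ≤ X) :
    (#((Icc 1 (X ^ 2)).filter fun D : ℕ => Squarefree D ∧
      7 / 4 * Real.log (Real.log X) ≤ (#D.primeFactors : ℝ)) : ℝ) ≤
      (X : ℝ) ^ 2 * (1 + 2 * Real.log X) * (Real.log X) ^ (-(6 / 5) : ℝ) := by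
  have hX3 : (3 : ℝ) ≤ X := by exact_mod_cast hX
  have hlog : 1 < Real.log X := by
    rw [Real.lt_log_iff_exp_lt (by linarith)]
    exact lt_of_lt_of_le (lt_trans Real.exp_one_lt_d9 (by norm_num)) hX3
  have hl0 : 0 < Real.log X := by linarith
  have hll : 0 < Real.log (Real.log X) := Real.log_pos hlog
  have key : ∀ D ∈ (Icc 1 (X ^ 2)).filter fun D : ℕ => Squarefree D ∧
      7 / 4 * Real.log (Real.log X) ≤ (#D.primeFactors : ℝ),
      (Real.log X) ^ (6 / 5 : ℝ) ≤ (#D.divisors : ℝ) := by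
    intro D hD
    rw [mem_filter, mem_Icc] at hD
    have h1 : (2 : ℝ) ^ #D.primeFactors ≤ (#D.divisors : ℝ) := by
      exact_mod_cast D9_two_pow D (by omega)
    refine le_trans ?_ h1
    rw [Real.rpow_def_of_pos hl0, ← Real.rpow_natCast, Real.rpow_def_of_pos (by norm_num : (0 : ℝ) < 2)]
    apply Real.exp_le_exp.mpr
    have h2 := Real.log_two_gt_d9
    nlinarith [hD.2.2]
  have hsum : (#((Icc 1 (X ^ 2)).filter fun D : ℕ => Squarefree D ∧
      7 / 4 * Real.log (Real.log X) ≤ (#D.primeFactors : ℝ)) : ℝ) * (Real.log X) ^ (6 / 5 : ℝ) ≤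
      (X : ℝ) ^ 2 * (1 + 2 * Real.log X) := by
    have h3 := D9_sum_div (X ^ 2)
    have h4 : Icc 1 (X ^ 2) = Ioc 0 (X ^ 2) := by ext; simp [Nat.lt_iff_add_one_le]
    rw [← h4] at h3
    have h5 := card_nsmul_le_sum _ (fun D : ℕ => (#D.divisors : ℝ)) _ key
    rw [nsmul_eq_mul] at h5
    refine h5.trans ((sum_le_sum_of_subset_of_nonneg (filter_subset _ _)
      (fun _ _ _ => Nat.cast_nonneg _)).trans (h3.trans (le_of_eq ?_)))
    push_cast
    rw [Real.log_pow]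
    push_cast
    ring
  rw [Real.rpow_neg hl0.le, ← div_eq_mul_inv, le_div_iff₀ (Real.rpow_pos_of_pos hl0 _)]
  exact hsum

end PS25
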