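import Pool.Agent.LibPS25.D7
import Pool.Agent.LibPS25.D8
import Pool.Agent.LibPS25.D9

/-
PLAN (D10). The D with omega(D) < (7/4) log log X: |S(D)| <= #Iu D, and the number of pairs (D, u) is at most the number of pairs (u, v) (v = D/u, u, v in [1, X],
omega(u) + omega(v) = omega(D), D squarefree) of D8_few with eta/2. The others: Cauchy-Schwarz with D9_many and D7_second:
<= X^2 ((1 + 2 log X) (log X)^(-6/5) C (1 + log(1 + log X)))^(1/2) = o(X^2).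
-/

set_option autoImplicit false

noncomputable section

namespace PS25

open Finset

private theorem D10_few (X Y A1 A2 : ℕ) (hY : Y ≤ X) (B : ℝ) :
    (#(((Icc 1 (X ^ 2)).filter Squarefree).filter (fun D : ℕ => (#D.primeFactors : ℝ) < B)
      |>.sigma fun D => Iu Y A1 A2 D) : ℝ) ≤
    (#((Icc 1 X ×ˢ Icc 1 X).filter fun p : ℕ × ℕ =>
      ((#p.1.primeFactors + #p.2.primeFactors : ℕ) : ℝ) < B) : ℝ) := by
  norm_cast
  apply card_le_card_of_injOn (fun x => (x.2, x.1 / x.2))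
  · intro x hx
    rw [mem_coe, mem_sigma] at hx
    obtain ⟨h1, h2⟩ := hx
    obtain ⟨h3, h4⟩ := mem_filter.1 h1
    obtain ⟨h5, h6⟩ := mem_filter.1 h3
    obtain ⟨h7, h8⟩ := mem_filter.1 h2
    obtain ⟨h9, h10⟩ := Nat.mem_divisors.1 h7
    have hpos : 0 < x.1 / x.2 := Nat.div_pos (Nat.le_of_dvd (Nat.pos_of_ne_zero h10) h9)
      (Nat.pos_of_dvd_of_pos h9 (Nat.pos_of_ne_zero h10))
    have hx2 : 0 < x.2 := Nat.pos_of_dvd_of_pos h9 (Nat.pos_of_ne_zero h10)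
    have hmul : x.2 * (x.1 / x.2) = x.1 := Nat.mul_div_cancel' h9
    have hcop : x.2.Coprime (x.1 / x.2) := by
      rw [← hmul] at h6
      exact Nat.coprime_of_squarefree_mul h6
    have hcard : #x.2.primeFactors + #(x.1 / x.2).primeFactors = #x.1.primeFactors := by
      conv_rhs => rw [← hmul]
      rw [hcop.primeFactors_mul, card_union_of_disjoint hcop.disjoint_primeFactors]
    rw [mem_coe, mem_filter, mem_product, mem_Icc, mem_Icc]
    refine ⟨⟨⟨hx2, h8.2.1.trans hY⟩, hpos, ?_⟩, ?_⟩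
    · exact (h8.1.le.trans h8.2.1).trans hY
    · show ((#x.2.primeFactors + #(x.1 / x.2).primeFactors : ℕ) : ℝ) < B
      rw [hcard]
      exact h4
  · intro x hx y hy hxy
    rw [mem_coe, mem_sigma] at hx hy
    obtain ⟨h7, -⟩ := mem_filter.1 hx.2
    obtain ⟨h7', -⟩ := mem_filter.1 hy.2
    have hmul : x.2 * (x.1 / x.2) = x.1 := Nat.mul_div_cancel' (Nat.mem_divisors.1 h7).1
    have hmul' : y.2 * (y.1 / y.2) = y.1 := Nat.mul_div_cancel' (Nat.mem_divisors.1 h7').1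
    have h1 : x.2 = y.2 := (Prod.mk.inj hxy).1
    have h2 : x.1 / x.2 = y.1 / y.2 := (Prod.mk.inj hxy).2
    have h3 : x.1 = y.1 := by rw [← hmul, ← hmul', h2, h1]
    exact Sigma.ext h3 (heq_of_eq h1)

private theorem D10_log {l : ℝ} (hl : 1 ≤ l) :
    (1 + 2 * l) * l ^ (-(6 / 5) : ℝ) * (1 + Real.log (1 + l)) ≤ 63 * l ^ (-(1 / 10) : ℝ) := by
  have hl0 : 0 < l := by linarith
  have h1 : Real.log (1 + l) ≤ 20 * l ^ (1 / 10 : ℝ) := by
    have h2 := Real.log_le_rpow_div (x := 1 + l) (ε := 1 / 10) (by linarith) (by norm_num)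
    have h3 : (1 + l) ^ (1 / 10 : ℝ) ≤ (2 * l) ^ (1 / 10 : ℝ) :=
      Real.rpow_le_rpow (by linarith) (by linarith) (by norm_num)
    rw [Real.mul_rpow (by norm_num) hl0.le] at h3
    have h4 : (2 : ℝ) ^ (1 / 10 : ℝ) ≤ 2 := by
      calc (2 : ℝ) ^ (1 / 10 : ℝ) ≤ 2 ^ (1 : ℝ) :=
            Real.rpow_le_rpow_of_exponent_le (by norm_num) (by norm_num)
        _ = 2 := Real.rpow_one 2
    have h5 : 0 ≤ l ^ (1 / 10 : ℝ) := by positivity
    have h6 : (2 : ℝ) ^ (1 / 10 : ℝ) * l ^ (1 / 10 : ℝ) ≤ 2 * l ^ (1 / 10 : ℝ) :=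
      mul_le_mul_of_nonneg_right h4 h5
    have h7 : (1 + l) ^ (1 / 10 : ℝ) / (1 / 10) = 10 * (1 + l) ^ (1 / 10 : ℝ) := by ring
    linarith
  have h2 : (1 : ℝ) ≤ l ^ (1 / 10 : ℝ) := Real.one_le_rpow hl (by norm_num)
  have h3 : 1 + Real.log (1 + l) ≤ 21 * l ^ (1 / 10 : ℝ) := by linarith
  have h4 : 0 ≤ l ^ (-(6 / 5) : ℝ) := by positivity
  have h5 : l * l ^ (-(6 / 5) : ℝ) * l ^ (1 / 10 : ℝ) = l ^ (-(1 / 10) : ℝ) := by
    nth_rewrite 1 [← Real.rpow_one l]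
    rw [← Real.rpow_add hl0, ← Real.rpow_add hl0]
    norm_num
  have hlog0 : 0 ≤ 1 + Real.log (1 + l) := by
    have := Real.log_nonneg (show (1 : ℝ) ≤ 1 + l by linarith)
    linarith
  calc (1 + 2 * l) * l ^ (-(6 / 5) : ℝ) * (1 + Real.log (1 + l))
      ≤ (3 * l) * l ^ (-(6 / 5) : ℝ) * (21 * l ^ (1 / 10 : ℝ)) := by
        apply mul_le_mul _ h3 hlog0 (by positivity)
        exact mul_le_mul_of_nonneg_right (by linarith) h4
    _ = 63 * (l * l ^ (-(6 / 5) : ℝ) * l ^ (1 / 10 : ℝ)) := by ring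
    _ = 63 * l ^ (-(1 / 10) : ℝ) := by rw [h5]

theorem D10_T (q : ℕ) [NeZero q] (χ : DirichletCharacter ℂ q) (hχ : χ ≠ 1) (η : ℝ) (hη : 0 < η) :
    ∃ X0 : ℕ, ∀ X Y A1 A2 : ℕ, X0 ≤ X → Y ≤ X →
      ∑ D ∈ (Icc 1 (X ^ 2)).filter Squarefree, ‖∑ u ∈ Iu Y A1 A2 D, χ (u : ZMod q)‖ ≤
        η * (X : ℝ) ^ 2 := by
  obtain ⟨C, hC, hC1⟩ := D7_second q χ hχ
  obtain ⟨X1, hX1⟩ := D8_few (η / 2) (by positivity)
  have ht : Filter.Tendsto (fun X : ℕ => 63 * C * (Real.log X) ^ (-(1 / 10) : ℝ))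
      Filter.atTop (nhds 0) := by
    have h1 := (tendsto_rpow_neg_atTop (show (0 : ℝ) < 1 / 10 by norm_num)).comp
      (Real.tendsto_log_atTop.comp (tendsto_natCast_atTop_atTop (R := ℝ)))
    have h2 := h1.const_mul (63 * C)
    rw [mul_zero] at h2
    exact h2
  obtain ⟨X2, hX2⟩ := Filter.eventually_atTop.1
    (ht.eventually_le_const (show (0 : ℝ) < (η / 2) ^ 2 by positivity))
  have hl : Filter.Tendsto (fun X : ℕ => Real.log X) Filter.atTop Filter.atTop :=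
    Real.tendsto_log_atTop.comp tendsto_natCast_atTop_atTop
  obtain ⟨X3, hX3⟩ := Filter.eventually_atTop.1 (hl.eventually_ge_atTop 1)
  refine ⟨max (max X1 X2) (max X3 3), fun X Y A1 A2 hX hY => ?_⟩
  have hXX1 : X1 ≤ X := ((le_max_left _ _).trans (le_max_left _ _)).trans hX
  have hXX2 : X2 ≤ X := ((le_max_right _ _).trans (le_max_left _ _)).trans hX
  have hXX3 : X3 ≤ X := ((le_max_left _ _).trans (le_max_right _ _)).trans hX
  have hX3' : 3 ≤ X := ((le_max_right _ _).trans (le_max_right _ _)).trans hX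
  have hfew := hX1 X hXX1
  have hsmall := hX2 X hXX2
  have hlog := hX3 X hXX3
  obtain ⟨B, hB⟩ : ∃ B, B = 7 / 4 * Real.log (Real.log X) := ⟨_, rfl⟩
  rw [← hB] at hfew
  rw [← sum_filter_add_sum_filter_not ((Icc 1 (X ^ 2)).filter Squarefree)
    (fun D : ℕ => (#D.primeFactors : ℝ) < B)]
  have h1 : ∑ D ∈ ((Icc 1 (X ^ 2)).filter Squarefree).filter
      (fun D : ℕ => (#D.primeFactors : ℝ) < B), ‖∑ u ∈ Iu Y A1 A2 D, χ (u : ZMod q)‖ ≤
      η / 2 * (X : ℝ) ^ 2 := by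
    refine le_trans ?_ ((D10_few X Y A1 A2 hY B).trans hfew)
    rw [card_sigma]
    push_cast
    apply sum_le_sum
    intro D _
    calc ‖∑ u ∈ Iu Y A1 A2 D, χ (u : ZMod q)‖ ≤ ∑ u ∈ Iu Y A1 A2 D, (1 : ℝ) :=
          norm_sum_le_of_le _ fun u _ => DirichletCharacter.norm_le_one χ _
      _ = #(Iu Y A1 A2 D) := by simp
  have h2 : ∑ D ∈ ((Icc 1 (X ^ 2)).filter Squarefree).filter
      (fun D : ℕ => ¬ (#D.primeFactors : ℝ) < B), ‖∑ u ∈ Iu Y A1 A2 D, χ (u : ZMod q)‖ ≤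
      η / 2 * (X : ℝ) ^ 2 := by
    obtain ⟨M, hM⟩ : ∃ M, M = ((Icc 1 (X ^ 2)).filter Squarefree).filter
      (fun D : ℕ => ¬ (#D.primeFactors : ℝ) < B) := ⟨_, rfl⟩
    rw [← hM]
    have hcs := sq_sum_le_card_mul_sum_sq (s := M)
      (f := fun D => ‖∑ u ∈ Iu Y A1 A2 D, χ (u : ZMod q)‖)
    have hcard : (#M : ℝ) ≤ (X : ℝ) ^ 2 * (1 + 2 * Real.log X) * (Real.log X) ^ (-(6 / 5) : ℝ) := by
      refine le_trans ?_ (D9_many X hX3')
      have : M ⊆ (Icc 1 (X ^ 2)).filter fun D : ℕ => Squarefree D ∧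
          7 / 4 * Real.log (Real.log X) ≤ (#D.primeFactors : ℝ) := by
        intro D hD
        rw [hM] at hD
        obtain ⟨h3, h4⟩ := mem_filter.1 hD
        obtain ⟨h5, h6⟩ := mem_filter.1 h3
        refine mem_filter.2 ⟨h5, h6, ?_⟩
        rw [← hB]
        exact not_lt.1 h4
      exact_mod_cast card_le_card this
    have hsq : ∑ D ∈ M, ‖∑ u ∈ Iu Y A1 A2 D, χ (u : ZMod q)‖ ^ 2 ≤
        C * (X : ℝ) ^ 2 * (1 + Real.log (1 + Real.log X)) := by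
      refine le_trans ?_ (hC1 X Y A1 A2 hX3' hY)
      apply sum_le_sum_of_subset_of_nonneg
      · rw [hM]
        exact filter_subset _ _
      · intro _ _ _
        positivity
    have hl0 := D10_log hlog
    have hpos : 0 ≤ (X : ℝ) ^ 2 * (1 + 2 * Real.log X) * (Real.log X) ^ (-(6 / 5) : ℝ) := by
      positivity
    have hfin : (∑ D ∈ M, ‖∑ u ∈ Iu Y A1 A2 D, χ (u : ZMod q)‖) ^ 2 ≤
        (η / 2 * (X : ℝ) ^ 2) ^ 2 := by
      calc (∑ D ∈ M, ‖∑ u ∈ Iu Y A1 A2 D, χ (u : ZMod q)‖) ^ 2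
          ≤ #M * ∑ D ∈ M, ‖∑ u ∈ Iu Y A1 A2 D, χ (u : ZMod q)‖ ^ 2 := hcs
        _ ≤ ((X : ℝ) ^ 2 * (1 + 2 * Real.log X) * (Real.log X) ^ (-(6 / 5) : ℝ)) *
            (C * (X : ℝ) ^ 2 * (1 + Real.log (1 + Real.log X))) := by
            apply mul_le_mul hcard hsq (sum_nonneg fun _ _ => by positivity) hpos
        _ = C * (X : ℝ) ^ 4 * ((1 + 2 * Real.log X) * (Real.log X) ^ (-(6 / 5) : ℝ) *
            (1 + Real.log (1 + Real.log X))) := by ring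
        _ ≤ C * (X : ℝ) ^ 4 * (63 * (Real.log X) ^ (-(1 / 10) : ℝ)) :=
            mul_le_mul_of_nonneg_left hl0 (by positivity)
        _ = (X : ℝ) ^ 4 * (63 * C * (Real.log X) ^ (-(1 / 10) : ℝ)) := by ring
        _ ≤ (X : ℝ) ^ 4 * (η / 2) ^ 2 := mul_le_mul_of_nonneg_left hsmall (by positivity)
        _ = (η / 2 * (X : ℝ) ^ 2) ^ 2 := by ring
    exact (sq_le_sq₀ (sum_nonneg fun _ _ => norm_nonneg _) (by positivity)).1 hfin
  linarith

end PS25
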