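import Pool.Agent.LibPS25.D1

/-
PLAN (D2). The indicator of squarefree b is sum over e with e^2 | b of mu(e) (ArithmeticFunction / Mathlib: sum over e^2 | n of moebius e = if squarefree 1 else 0; search for
moebius and sq in Mathlib or in Pool/Agent, or prove it from n = k^2 s: e^2 | n iff e | k), and the indicator of b coprime to M is sum over f | gcd(b, M) of mu(f).
Write b = e^2 b': coprime to M iff e and b' coprime to M. So the sum is sum over e <= sqrt y, e coprime to M, mu(e) chi(e)^2 times sum over f | M of mu(f) chi(f) times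
sum over b'' in (x/(e^2 f), y/(e^2 f)] of chi(b''), each at most q by D1_int. Total at most sqrt(y) tau(M) q.
-/

set_option autoImplicit false

noncomputable section

namespace PS25

open Finset

private theorem sum_mu (n : ℕ) :
    ∑ d ∈ n.divisors, ArithmeticFunction.moebius d = if n = 1 then 1 else 0 := by
  have h := congrArg (fun f : ArithmeticFunction ℤ => f n)
    ArithmeticFunction.moebius_mul_coe_zeta
  simp only [ArithmeticFunction.coe_mul_zeta_apply, ArithmeticFunction.one_apply] at h
  exact h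

private theorem sqf_ind (b Y : ℕ) (hb : 0 < b) (hY : b ≤ Y) :
    ∑ e ∈ (Icc 1 (Nat.sqrt Y)).filter (fun e => e ^ 2 ∣ b), ArithmeticFunction.moebius e =
      if Squarefree b then 1 else 0 := by
  obtain ⟨s, k, hs, hk, hks, hsq⟩ := Nat.sq_mul_squarefree_of_pos hb
  have hset : (Icc 1 (Nat.sqrt Y)).filter (fun e => e ^ 2 ∣ b) = k.divisors := by
    ext e
    simp only [mem_filter, mem_Icc, Nat.mem_divisors]
    constructor
    · rintro ⟨⟨h1, h2⟩, h3⟩
      refine ⟨?_, hk.ne'⟩
      have he : e ≠ 0 := by omega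
      rw [← Nat.factorization_le_iff_dvd he hk.ne']
      intro p
      have h4 : (e ^ 2).factorization p ≤ b.factorization p :=
        (Nat.factorization_le_iff_dvd (pow_ne_zero 2 he) hb.ne').mpr h3 p
      rw [← hks, Nat.factorization_mul (pow_ne_zero 2 hk.ne') hs.ne', Nat.factorization_pow,
        Nat.factorization_pow] at h4
      simp only [Finsupp.coe_smul, Finsupp.coe_add, Pi.smul_apply, Pi.add_apply,
        smul_eq_mul] at h4
      have h5 : s.factorization p ≤ 1 := hsq.natFactorization_le_one p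
      omega
    · rintro ⟨h1, h2⟩
      have hek : e ≤ k := Nat.le_of_dvd hk h1
      have he : 0 < e := Nat.pos_of_dvd_of_pos h1 hk
      have h3 : e ^ 2 ∣ b := by
        rw [← hks]
        exact (pow_dvd_pow_of_dvd h1 2).mul_right s
      refine ⟨⟨he, ?_⟩, h3⟩
      rw [Nat.le_sqrt']
      exact (Nat.le_of_dvd hb h3).trans hY
  rw [hset, sum_mu k]
  have : k = 1 ↔ Squarefree b := by
    constructor
    · intro h
      rw [← hks, h]; simpa using hsq
    · intro h
      have h6 : k * k ∣ b := by rw [← hks, sq]; exact Dvd.intro s rfl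
      exact Nat.isUnit_iff.mp (h k h6)
  simp only [this]

private theorem cop_ind (b M : ℕ) (hM : M ≠ 0) :
    ∑ f ∈ M.divisors.filter (fun f => f ∣ b), ArithmeticFunction.moebius f =
      if b.Coprime M then 1 else 0 := by
  have hset : M.divisors.filter (fun f => f ∣ b) = (b.gcd M).divisors := by
    ext f
    simp only [mem_filter, Nat.mem_divisors, Nat.dvd_gcd_iff]
    constructor
    · rintro ⟨⟨h1, h2⟩, h3⟩
      exact ⟨⟨h3, h1⟩, Nat.gcd_ne_zero_right hM⟩
    · rintro ⟨⟨h1, h2⟩, h3⟩
      exact ⟨⟨h2, hM⟩, h1⟩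
  rw [hset, sum_mu _]

private theorem sum_mult (x y d : ℕ) (hd : 0 < d) (g : ℕ → ℂ) :
    ∑ b ∈ (Ioc x y).filter (fun b => d ∣ b), g b = ∑ b ∈ Ioc (x / d) (y / d), g (d * b) := by
  symm
  apply Finset.sum_nbij' (fun b => d * b) (fun b => b / d)
  · intro b hb
    simp only [mem_filter, mem_Ioc] at hb ⊢
    refine ⟨⟨?_, ?_⟩, dvd_mul_right d b⟩
    · rw [mul_comm]; exact (Nat.div_lt_iff_lt_mul hd).mp hb.1
    · rw [mul_comm]; exact (Nat.le_div_iff_mul_le hd).mp hb.2
  · intro b hb
    simp only [mem_filter, mem_Ioc] at hb ⊢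
    obtain ⟨⟨h1, h2⟩, c, rfl⟩ := hb
    rw [Nat.mul_div_cancel_left c hd]
    rw [Nat.div_lt_iff_lt_mul hd, Nat.le_div_iff_mul_le hd]
    rw [mul_comm c d]
    exact ⟨h1, h2⟩
  · intro b hb
    exact Nat.mul_div_cancel_left b hd
  · intro b hb
    simp only [mem_filter, mem_Ioc] at hb
    exact Nat.mul_div_cancel' hb.2
  · intro b hb; rfl

private theorem cop_bound (q : ℕ) [NeZero q] (χ : DirichletCharacter ℂ q) (hχ : χ ≠ 1) (x y M : ℕ)
    (hM : M ≠ 0) :
    ‖∑ b ∈ Ioc x y, (if b.Coprime M then χ (b : ZMod q) else 0)‖ ≤ q * #M.divisors := by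
  have h1 : ∑ b ∈ Ioc x y, (if b.Coprime M then χ (b : ZMod q) else 0) =
      ∑ f ∈ M.divisors, (ArithmeticFunction.moebius f : ℂ) * χ (f : ZMod q) *
        ∑ b ∈ Ioc (x / f) (y / f), χ (b : ZMod q) := by
    calc ∑ b ∈ Ioc x y, (if b.Coprime M then χ (b : ZMod q) else 0)
        = ∑ b ∈ Ioc x y, ∑ f ∈ M.divisors,
            (if f ∣ b then (ArithmeticFunction.moebius f : ℂ) * χ (b : ZMod q) else 0) := by
          apply Finset.sum_congr rfl
          intro b _
          rw [← Finset.sum_filter, ← Finset.sum_mul]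
          have := cop_ind b M hM
          have h2 : (∑ f ∈ M.divisors.filter (fun f => f ∣ b), (ArithmeticFunction.moebius f : ℂ))
              = if b.Coprime M then 1 else 0 := by
            have := congrArg (fun z : ℤ => (z : ℂ)) this
            push_cast at this
            rw [this]
          rw [h2]
          split_ifs <;> simp
      _ = ∑ f ∈ M.divisors, ∑ b ∈ Ioc x y,
            (if f ∣ b then (ArithmeticFunction.moebius f : ℂ) * χ (b : ZMod q) else 0) :=
          Finset.sum_comm
      _ = _ := by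
          apply Finset.sum_congr rfl
          intro f hf
          have hf0 : 0 < f := Nat.pos_of_mem_divisors hf
          rw [← Finset.sum_filter, ← Finset.mul_sum, sum_mult x y f hf0 (fun b => χ (b : ZMod q))]
          rw [mul_assoc, Finset.mul_sum (Ioc (x / f) (y / f)) _ (χ (f : ZMod q))]
          congr 1
          apply Finset.sum_congr rfl
          intro b _
          rw [Nat.cast_mul, map_mul]
  rw [h1]
  refine (norm_sum_le _ _).trans ?_
  have h3 : ∀ f ∈ M.divisors, ‖(ArithmeticFunction.moebius f : ℂ) * χ (f : ZMod q) *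
        ∑ b ∈ Ioc (x / f) (y / f), χ (b : ZMod q)‖ ≤ q := by
    intro f hf
    rw [norm_mul, norm_mul]
    have h4 : ‖(ArithmeticFunction.moebius f : ℂ)‖ ≤ 1 := by
      rw [Complex.norm_intCast]
      exact_mod_cast ArithmeticFunction.abs_moebius_le_one
    have h5 : ‖χ (f : ZMod q)‖ ≤ 1 := DirichletCharacter.norm_le_one χ _
    have h6 := D1_int q χ hχ (x / f) (y / f)
    calc ‖(ArithmeticFunction.moebius f : ℂ)‖ * ‖χ (f : ZMod q)‖ *
          ‖∑ b ∈ Ioc (x / f) (y / f), χ (b : ZMod q)‖
        ≤ 1 * 1 * q := by gcongr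
      _ = q := by ring
  calc ∑ f ∈ M.divisors, _ ≤ ∑ f ∈ M.divisors, (q : ℝ) := Finset.sum_le_sum h3
    _ = q * #M.divisors := by rw [Finset.sum_const, nsmul_eq_mul, mul_comm]

theorem D2_sqf (q : ℕ) [NeZero q] (χ : DirichletCharacter ℂ q) (hχ : χ ≠ 1) (x y M : ℕ) (hM : M ≠ 0) :
    ‖∑ b ∈ (Ioc x y).filter fun b => Squarefree b ∧ b.Coprime M, χ (b : ZMod q)‖ ≤
      q * Real.sqrt y * #M.divisors := by
  have h1 : ∑ b ∈ (Ioc x y).filter (fun b => Squarefree b ∧ b.Coprime M), χ (b : ZMod q) =
      ∑ e ∈ Icc 1 (Nat.sqrt y), (ArithmeticFunction.moebius e : ℂ) *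
        ((if e.Coprime M then χ ((e ^ 2 : ℕ) : ZMod q) else 0) *
        ∑ b ∈ Ioc (x / e ^ 2) (y / e ^ 2), (if b.Coprime M then χ (b : ZMod q) else 0)) := by
    calc ∑ b ∈ (Ioc x y).filter (fun b => Squarefree b ∧ b.Coprime M), χ (b : ZMod q)
        = ∑ b ∈ Ioc x y, (if Squarefree b then
            (if b.Coprime M then χ (b : ZMod q) else 0) else 0) := by
          rw [Finset.sum_filter]
          apply Finset.sum_congr rfl
          intro b _
          by_cases h : Squarefree b <;> by_cases h' : b.Coprime M <;> simp [h, h']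
      _ = ∑ b ∈ Ioc x y, ∑ e ∈ Icc 1 (Nat.sqrt y),
            (if e ^ 2 ∣ b then (ArithmeticFunction.moebius e : ℂ) *
              (if b.Coprime M then χ (b : ZMod q) else 0) else 0) := by
          apply Finset.sum_congr rfl
          intro b hb
          rw [mem_Ioc] at hb
          rw [← Finset.sum_filter, ← Finset.sum_mul]
          have := sqf_ind b y (by omega) hb.2
          have h2 : (∑ e ∈ (Icc 1 (Nat.sqrt y)).filter (fun e => e ^ 2 ∣ b),
              (ArithmeticFunction.moebius e : ℂ)) = if Squarefree b then 1 else 0 := by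
            have := congrArg (fun z : ℤ => (z : ℂ)) this
            push_cast at this
            rw [this]
          rw [h2]
          split_ifs <;> simp
      _ = ∑ e ∈ Icc 1 (Nat.sqrt y), ∑ b ∈ Ioc x y,
            (if e ^ 2 ∣ b then (ArithmeticFunction.moebius e : ℂ) *
              (if b.Coprime M then χ (b : ZMod q) else 0) else 0) := Finset.sum_comm
      _ = _ := by
          apply Finset.sum_congr rfl
          intro e he
          rw [mem_Icc] at he
          have he0 : 0 < e ^ 2 := pow_pos (by omega) 2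
          rw [← Finset.sum_filter, ← Finset.mul_sum,
            sum_mult x y (e ^ 2) he0 (fun b => if b.Coprime M then χ (b : ZMod q) else 0)]
          congr 1
          rw [Finset.mul_sum]
          apply Finset.sum_congr rfl
          intro b _
          have hc : (e ^ 2 * b).Coprime M ↔ e.Coprime M ∧ b.Coprime M := by
            rw [Nat.coprime_mul_iff_left, Nat.coprime_pow_left_iff (by norm_num : 0 < 2)]
          by_cases h : e.Coprime M
          · by_cases h' : b.Coprime M
            · rw [if_pos (hc.mpr ⟨h, h'⟩), if_pos h, if_pos h', Nat.cast_mul, map_mul]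
            · rw [if_neg (fun h2 => h' (hc.mp h2).2), if_neg h', mul_zero]
          · rw [if_neg (fun h2 => h (hc.mp h2).1), if_neg h, zero_mul]
  rw [h1]
  refine (norm_sum_le _ _).trans ?_
  have h3 : ∀ e ∈ Icc 1 (Nat.sqrt y), ‖(ArithmeticFunction.moebius e : ℂ) *
        ((if e.Coprime M then χ ((e ^ 2 : ℕ) : ZMod q) else 0) *
        ∑ b ∈ Ioc (x / e ^ 2) (y / e ^ 2), (if b.Coprime M then χ (b : ZMod q) else 0))‖ ≤
        q * #M.divisors := by
    intro e he
    rw [norm_mul, norm_mul]
    have h4 : ‖(ArithmeticFunction.moebius e : ℂ)‖ ≤ 1 := by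
      rw [Complex.norm_intCast]
      exact_mod_cast ArithmeticFunction.abs_moebius_le_one
    have h5 : ‖(if e.Coprime M then χ ((e ^ 2 : ℕ) : ZMod q) else 0)‖ ≤ 1 := by
      split_ifs
      · exact DirichletCharacter.norm_le_one χ _
      · simp
    have h6 := cop_bound q χ hχ (x / e ^ 2) (y / e ^ 2) M hM
    calc _ ≤ 1 * (1 * (q * #M.divisors : ℝ)) := by gcongr
      _ = q * #M.divisors := by ring
  calc _ ≤ ∑ e ∈ Icc 1 (Nat.sqrt y), (q * #M.divisors : ℝ) := Finset.sum_le_sum h3
    _ = (Nat.sqrt y : ℝ) * (q * #M.divisors) := by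
        rw [Finset.sum_const, Nat.card_Icc, nsmul_eq_mul]; simp
    _ ≤ Real.sqrt y * (q * #M.divisors) := by
        gcongr
        exact Real.nat_sqrt_le_real_sqrt
    _ = q * Real.sqrt y * #M.divisors := by ring

end PS25
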