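import Pool.Agent.LibPS25.Defs

/-
PLAN (D3). sum_D |S(D)|^2 = sum_D sum_{u, u' in Iu D} chi(u) conj chi(u'). For such (D, u, u') put a = gcd(u, u'), b = u/a, c = u'/a (coprime); from u (D/u) = u' (D/u'):
b v = c v', so v = D/u = c d, v' = D/u' = b d, D = a b c d, all of a, b, c, d in [1, Y]. (D, u, u') <-> (a, b, c, d) is a bijection onto the (a,b,c,d) with
a b c d squarefree, (a b, c d) and (a c, b d) satisfying the conditions of Iu (gcd(b, c) = 1 follows). chi(u) conj chi(u') = |chi(a)|^2 chi(b) conj chi(c).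
b = c happens only for b = c = 1, u = u': these terms are at most #{(D,u)} <= #{(u,v) in [1,Y]^2} <= X^2. The terms with b > c: for fixed a, c, d the sum over b in Bs Y A1 A2 a c d of
chi(b) times a number of norm at most 1; the terms with b < c are their complex conjugates (exchange of b and c, symmetric conditions).
-/

set_option autoImplicit false

noncomputable section

namespace PS25

open Finset

/-- triples `(D, (u, u'))` with `u' < u` -/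
private def TT (X Y A1 A2 : ℕ) : Finset ((_ : ℕ) × ℕ × ℕ) :=
  ((Icc 1 (X ^ 2)).filter Squarefree).sigma fun D =>
    (Iu Y A1 A2 D ×ˢ Iu Y A1 A2 D).filter fun p => p.2 < p.1

/-- quadruples `((a, c, d), b)` -/
private def QQ (Y A1 A2 : ℕ) : Finset ((_ : ℕ × ℕ × ℕ) × ℕ) :=
  (Icc 1 Y ×ˢ Icc 1 Y ×ˢ Icc 1 Y).sigma fun t => Bs Y A1 A2 t.1 t.2.1 t.2.2

private lemma mem_Iu (Y A1 A2 D u : ℕ) : u ∈ Iu Y A1 A2 D ↔
    (u ∣ D ∧ D ≠ 0) ∧ D / u < u ∧ u ≤ Y ∧ A1 < u - D / u ∧ u - D / u ≤ A2 := by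
  unfold Iu
  rw [Finset.mem_filter, Nat.mem_divisors]

private lemma mem_TT (X Y A1 A2 D u u' : ℕ) : (⟨D, u, u'⟩ : (_ : ℕ) × ℕ × ℕ) ∈ TT X Y A1 A2 ↔
    ((1 ≤ D ∧ D ≤ X ^ 2) ∧ Squarefree D) ∧ (u ∈ Iu Y A1 A2 D ∧ u' ∈ Iu Y A1 A2 D) ∧ u' < u := by
  unfold TT
  simp only [Finset.mem_sigma, Finset.mem_filter, Finset.mem_Icc, Finset.mem_product]

private lemma mem_QQ (Y A1 A2 a c d b : ℕ) :
    (⟨(a, c, d), b⟩ : (_ : ℕ × ℕ × ℕ) × ℕ) ∈ QQ Y A1 A2 ↔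
    ((1 ≤ a ∧ a ≤ Y) ∧ (1 ≤ c ∧ c ≤ Y) ∧ (1 ≤ d ∧ d ≤ Y)) ∧ b ∈ Bs Y A1 A2 a c d := by
  unfold QQ
  simp only [Finset.mem_sigma, Finset.mem_Icc, Finset.mem_product]

private lemma mem_Bs (Y A1 A2 a c d b : ℕ) : b ∈ Bs Y A1 A2 a c d ↔
    (1 ≤ b ∧ b ≤ Y) ∧ c < b ∧ Squarefree (a * b * c * d) ∧
    (c * d < a * b ∧ a * b ≤ Y ∧ A1 < a * b - c * d ∧ a * b - c * d ≤ A2) ∧
    (b * d < a * c ∧ a * c ≤ Y ∧ A1 < a * c - b * d ∧ a * c - b * d ≤ A2) := by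
  unfold Bs
  simp only [Finset.mem_filter, Finset.mem_Icc]

/-- the key decomposition -/
private lemma decomp (D u u' : ℕ) (hD : Squarefree D) (hu : u ∣ D) (hu' : u' ∣ D) :
    ∃ a b c d : ℕ, D = a * b * c * d ∧ u = a * b ∧ u' = a * c ∧ b.Coprime c ∧
      a = Nat.gcd u u' := by
  have hD0 : D ≠ 0 := hD.ne_zero
  have hu0 : 0 < u := Nat.pos_of_dvd_of_pos hu (Nat.pos_of_ne_zero hD0)
  have hg : 0 < Nat.gcd u u' := Nat.gcd_pos_of_pos_left _ hu0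
  obtain ⟨b, c, hbc, hb, hc⟩ := Nat.exists_coprime u u'
  have hl : Nat.lcm u u' ∣ D := Nat.lcm_dvd hu hu'
  obtain ⟨d, hd⟩ := hl
  refine ⟨Nat.gcd u u', b, c, d, ?_, ?_, ?_, hbc, rfl⟩
  · have h1 : Nat.lcm u u' = Nat.gcd u u' * b * c := by
      apply Nat.eq_of_mul_eq_mul_left hg
      rw [Nat.gcd_mul_lcm]
      calc u * u' = (b * Nat.gcd u u') * (c * Nat.gcd u u') := by rw [← hb, ← hc]
        _ = Nat.gcd u u' * (Nat.gcd u u' * b * c) := by ring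
    rw [hd, h1]
  · rw [mul_comm]; exact hb
  · rw [mul_comm]; exact hc

private lemma div1 (a b c d : ℕ) (h : 0 < a * b) : a * b * c * d / (a * b) = c * d := by
  rw [mul_assoc (a * b) c d, Nat.mul_div_cancel_left _ h]

private lemma div2 (a b c d : ℕ) (h : 0 < a * c) : a * b * c * d / (a * c) = b * d := by
  have : a * b * c * d = (a * c) * (b * d) := by ring
  rw [this, Nat.mul_div_cancel_left _ h]

private lemma sum_TT (q : ℕ) [NeZero q] (χ : DirichletCharacter ℂ q) (X Y A1 A2 : ℕ) (hY : Y ≤ X) :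
    ∑ t ∈ TT X Y A1 A2, χ (t.2.1 : ZMod q) * (starRingEnd ℂ) (χ (t.2.2 : ZMod q)) =
      ∑ p ∈ QQ Y A1 A2, χ ((p.1.1 * p.2 : ℕ) : ZMod q) *
        (starRingEnd ℂ) (χ ((p.1.1 * p.1.2.1 : ℕ) : ZMod q)) := by
  symm
  refine Finset.sum_bij (fun p _ => (⟨p.1.1 * p.2 * p.1.2.1 * p.1.2.2, p.1.1 * p.2, p.1.1 * p.1.2.1⟩ :
    (_ : ℕ) × ℕ × ℕ)) ?_ ?_ ?_ ?_
  · rintro ⟨⟨a, c, d⟩, b⟩ hp
    rw [mem_QQ, mem_Bs] at hp
    obtain ⟨⟨⟨ha1, ha2⟩, ⟨hc1, hc2⟩, hd1, hd2⟩, ⟨hb1, hb2⟩, hcb, hsq, ⟨h1, h2, h3, h4⟩, h5, h6, h7, h8⟩ := hp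
    simp only
    have hab : 0 < a * b := by positivity
    have hac : 0 < a * c := by positivity
    rw [mem_TT, mem_Iu, mem_Iu, div1 a b c d hab, div2 a b c d hac]
    have hne : a * b * c * d ≠ 0 := hsq.ne_zero
    refine ⟨⟨⟨Nat.one_le_iff_ne_zero.mpr hne, ?_⟩, hsq⟩, ⟨⟨⟨?_, hne⟩, h1, h2, h3, h4⟩,
      ⟨?_, hne⟩, h5, h6, h7, h8⟩, ?_⟩
    · calc a * b * c * d = (a * b) * (c * d) := by ring
        _ ≤ X * X := Nat.mul_le_mul (h2.trans hY) ((h1.le.trans h2).trans hY)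
        _ = X ^ 2 := by ring
    · exact ⟨c * d, by ring⟩
    · exact ⟨b * d, by ring⟩
    · exact Nat.mul_lt_mul_of_pos_left hcb ha1
  · rintro ⟨⟨a, c, d⟩, b⟩ hp ⟨⟨a', c', d'⟩, b'⟩ hp' h
    rw [mem_QQ, mem_Bs] at hp hp'
    obtain ⟨⟨⟨ha1, ha2⟩, ⟨hc1, hc2⟩, hd1, hd2⟩, ⟨hb1, hb2⟩, hcb, hsq, -, -⟩ := hp
    obtain ⟨⟨⟨ha1', ha2'⟩, ⟨hc1', hc2'⟩, hd1', hd2'⟩, ⟨hb1', hb2'⟩, hcb', hsq', -, -⟩ := hp'
    simp only [Sigma.mk.injEq, heq_eq_eq, Prod.mk.injEq] at h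
    obtain ⟨hD, hu, hu'⟩ := h
    have hbc : b.Coprime c := by
      have : Squarefree (b * c) := by
        refine hsq.squarefree_of_dvd ⟨a * d, by ring⟩
      exact Nat.coprime_of_squarefree_mul this
    have hbc' : b'.Coprime c' := by
      have : Squarefree (b' * c') := by
        refine hsq'.squarefree_of_dvd ⟨a' * d', by ring⟩
      exact Nat.coprime_of_squarefree_mul this
    have haa : a = a' := by
      have e1 : Nat.gcd (a * b) (a * c) = a := by rw [Nat.gcd_mul_left, hbc, mul_one]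
      have e2 : Nat.gcd (a' * b') (a' * c') = a' := by rw [Nat.gcd_mul_left, hbc', mul_one]
      rw [← e1, ← e2, hu, hu']
    subst haa
    have hbb : b = b' := Nat.eq_of_mul_eq_mul_left ha1 hu
    subst hbb
    have hcc : c = c' := Nat.eq_of_mul_eq_mul_left ha1 hu'
    subst hcc
    have hdd : d = d' := Nat.eq_of_mul_eq_mul_left (by positivity) hD
    subst hdd
    rfl
  · rintro ⟨D, u, u'⟩ ht
    rw [mem_TT, mem_Iu, mem_Iu] at ht
    obtain ⟨⟨⟨hD1, hD2⟩, hsq⟩, ⟨⟨⟨hu, -⟩, h1, h2, h3, h4⟩, ⟨hu', -⟩, h5, h6, h7, h8⟩, hlt⟩ := ht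
    obtain ⟨a, b, c, d, hD, hab, hac, hbc, -⟩ := decomp D u u' hsq hu hu'
    have hne : D ≠ 0 := hsq.ne_zero
    rw [hD] at hne
    have ha : 0 < a := by
      rcases Nat.eq_zero_or_pos a with h | h
      · exact absurd (by rw [h]; simp) hne
      · exact h
    have hb : 0 < b := by
      rcases Nat.eq_zero_or_pos b with h | h
      · exact absurd (by rw [h]; simp) hne
      · exact h
    have hc : 0 < c := by
      rcases Nat.eq_zero_or_pos c with h | h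
      · exact absurd (by rw [h]; simp) hne
      · exact h
    have hd : 0 < d := by
      rcases Nat.eq_zero_or_pos d with h | h
      · exact absurd (by rw [h]; simp) hne
      · exact h
    have hab' : 0 < a * b := by positivity
    have hac' : 0 < a * c := by positivity
    subst hab hac
    rw [hD] at hsq
    rw [hD, div1 a b c d hab'] at h1 h3 h4
    rw [hD, div2 a b c d hac'] at h5 h7 h8
    refine ⟨⟨(a, c, d), b⟩, ?_, ?_⟩
    · rw [mem_QQ, mem_Bs]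
      have haY : a ≤ Y := (Nat.le_mul_of_pos_right a hb).trans h2
      have hbY : b ≤ Y := (Nat.le_mul_of_pos_left b ha).trans h2
      have hcY : c ≤ Y := (Nat.le_mul_of_pos_left c ha).trans h6
      have hdY : d ≤ Y := (Nat.le_mul_of_pos_left d hc).trans (h1.le.trans h2)
      refine ⟨⟨⟨ha, haY⟩, ⟨hc, hcY⟩, hd, hdY⟩, ⟨hb, hbY⟩, ?_, hsq, ⟨h1, h2, h3, h4⟩, h5, h6, h7, h8⟩
      exact Nat.lt_of_mul_lt_mul_left hlt
    · simp only [hD]
  · rintro ⟨⟨a, c, d⟩, b⟩ hp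
    rfl

private lemma norm_chi (q : ℕ) [NeZero q] (χ : DirichletCharacter ℂ q) (x : ZMod q) :
    ‖χ x‖ ≤ 1 := DirichletCharacter.norm_le_one χ x

private lemma norm_QQ (q : ℕ) [NeZero q] (χ : DirichletCharacter ℂ q) (Y A1 A2 : ℕ) :
    ‖∑ p ∈ QQ Y A1 A2, χ ((p.1.1 * p.2 : ℕ) : ZMod q) *
        (starRingEnd ℂ) (χ ((p.1.1 * p.1.2.1 : ℕ) : ZMod q))‖ ≤
      ∑ a ∈ Icc 1 Y, ∑ c ∈ Icc 1 Y, ∑ d ∈ Icc 1 Y,
        ‖∑ b ∈ Bs Y A1 A2 a c d, χ (b : ZMod q)‖ := by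
  unfold QQ
  rw [Finset.sum_sigma, Finset.sum_product]
  refine (norm_sum_le _ _).trans (Finset.sum_le_sum fun a _ => ?_)
  rw [Finset.sum_product]
  refine (norm_sum_le _ _).trans (Finset.sum_le_sum fun c _ => ?_)
  refine (norm_sum_le _ _).trans (Finset.sum_le_sum fun d _ => ?_)
  simp only
  have h : ∑ b ∈ Bs Y A1 A2 a c d, χ ((a * b : ℕ) : ZMod q) *
      (starRingEnd ℂ) (χ ((a * c : ℕ) : ZMod q)) =
      (χ (a : ZMod q) * (starRingEnd ℂ) (χ ((a * c : ℕ) : ZMod q))) *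
        ∑ b ∈ Bs Y A1 A2 a c d, χ (b : ZMod q) := by
    rw [Finset.mul_sum]
    refine Finset.sum_congr rfl fun b _ => ?_
    push_cast
    rw [map_mul, map_mul]
    ring
  rw [h, norm_mul, norm_mul, RCLike.norm_conj]
  have h1 := norm_chi q χ (a : ZMod q)
  have h2 := norm_chi q χ ((a * c : ℕ) : ZMod q)
  calc ‖χ (a : ZMod q)‖ * ‖χ ((a * c : ℕ) : ZMod q)‖ * ‖∑ b ∈ Bs Y A1 A2 a c d, χ (b : ZMod q)‖
      ≤ 1 * 1 * ‖∑ b ∈ Bs Y A1 A2 a c d, χ (b : ZMod q)‖ := by gcongr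
    _ = _ := by ring

/-- the number of pairs `(D, u)` -/
private lemma count (X Y A1 A2 : ℕ) (hY : Y ≤ X) :
    ∑ D ∈ (Icc 1 (X ^ 2)).filter Squarefree, ((Iu Y A1 A2 D).card : ℝ) ≤ (X : ℝ) ^ 2 := by
  rw [← Nat.cast_sum, ← Finset.card_sigma]
  have h : (((Icc 1 (X ^ 2)).filter Squarefree).sigma fun D => Iu Y A1 A2 D).card ≤
      (Icc 1 X ×ˢ Icc 1 X).card := by
    refine Finset.card_le_card_of_injOn (fun t => (t.2, t.1 / t.2)) ?_ ?_
    · rintro ⟨D, u⟩ ht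
      rw [Finset.mem_coe, Finset.mem_sigma, mem_Iu] at ht
      obtain ⟨-, ⟨hu, hD⟩, h1, h2, -, -⟩ := ht
      have hu0 : 0 < u := Nat.pos_of_dvd_of_pos hu (Nat.pos_of_ne_zero hD)
      simp only [Finset.coe_product, Set.mem_prod, Finset.mem_coe, Finset.mem_Icc]
      refine ⟨⟨hu0, h2.trans hY⟩, ?_, (h1.le.trans h2).trans hY⟩
      exact Nat.div_pos (Nat.le_of_dvd (Nat.pos_of_ne_zero hD) hu) hu0
    · rintro ⟨D, u⟩ ht ⟨D', u'⟩ ht' h
      rw [Finset.mem_coe, Finset.mem_sigma, mem_Iu] at ht ht'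
      obtain ⟨-, ⟨hu, -⟩, -⟩ := ht
      obtain ⟨-, ⟨hu', -⟩, -⟩ := ht'
      simp only [Prod.mk.injEq] at h hu hu'
      obtain ⟨h1, h2⟩ := h
      subst h1
      have : D = D' := by
        rw [← Nat.mul_div_cancel' hu, ← Nat.mul_div_cancel' hu', h2]
      subst this
      rfl
  calc (((((Icc 1 (X ^ 2)).filter Squarefree).sigma fun D => Iu Y A1 A2 D).card : ℕ) : ℝ)
      ≤ (((Icc 1 X ×ˢ Icc 1 X).card : ℕ) : ℝ) := by exact_mod_cast h
    _ = (X : ℝ) ^ 2 := by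
        rw [Finset.card_product, Nat.card_Icc, Nat.add_sub_cancel]
        push_cast
        ring

private lemma square (q : ℕ) [NeZero q] (χ : DirichletCharacter ℂ q) (I : Finset ℕ) :
    ‖∑ u ∈ I, χ (u : ZMod q)‖ ^ 2 ≤ (I.card : ℝ) +
      2 * (∑ p ∈ (I ×ˢ I).filter fun p => p.2 < p.1,
        χ (p.1 : ZMod q) * (starRingEnd ℂ) (χ (p.2 : ZMod q))).re := by
  set W : ℕ × ℕ → ℂ := fun p => χ (p.1 : ZMod q) * (starRingEnd ℂ) (χ (p.2 : ZMod q)) with hW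
  have h1 : ((‖∑ u ∈ I, χ (u : ZMod q)‖ ^ 2 : ℝ) : ℂ) = ∑ p ∈ I ×ˢ I, W p := by
    rw [Finset.sum_product]
    have : ((‖∑ u ∈ I, χ (u : ZMod q)‖ ^ 2 : ℝ) : ℂ) =
        (∑ u ∈ I, χ (u : ZMod q)) * (starRingEnd ℂ) (∑ u ∈ I, χ (u : ZMod q)) := by
      rw [Complex.mul_conj, Complex.normSq_eq_norm_sq]
    rw [this, map_sum, Finset.sum_mul_sum]
  have h2 : ∑ p ∈ I ×ˢ I, W p =
      ∑ p ∈ (I ×ˢ I).filter (fun p => p.2 < p.1), W p +
      (∑ p ∈ (I ×ˢ I).filter (fun p => p.1 < p.2), W p +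
        ∑ p ∈ (I ×ˢ I).filter (fun p => p.1 = p.2), W p) := by
    rw [Finset.sum_filter, Finset.sum_filter, Finset.sum_filter, ← Finset.sum_add_distrib,
      ← Finset.sum_add_distrib]
    refine Finset.sum_congr rfl fun p _ => ?_
    rcases lt_trichotomy p.1 p.2 with h | h | h
    · rw [if_neg (not_lt.mpr h.le), if_pos h, if_neg h.ne]; ring
    · rw [if_neg (by omega), if_neg (by omega), if_pos h]; ring
    · rw [if_pos h, if_neg (not_lt.mpr h.le), if_neg h.ne']; ring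
  have h3 : ∑ p ∈ (I ×ˢ I).filter (fun p => p.1 < p.2), W p =
      (starRingEnd ℂ) (∑ p ∈ (I ×ˢ I).filter (fun p => p.2 < p.1), W p) := by
    rw [map_sum]
    refine Finset.sum_nbij' (fun p => (p.2, p.1)) (fun p => (p.2, p.1)) ?_ ?_ ?_ ?_ ?_
    · rintro ⟨x, y⟩ h
      simp only [Finset.mem_filter, Finset.mem_product] at h ⊢
      tauto
    · rintro ⟨x, y⟩ h
      simp only [Finset.mem_filter, Finset.mem_product] at h ⊢
      tauto
    · rintro ⟨x, y⟩ h; rfl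
    · rintro ⟨x, y⟩ h; rfl
    · rintro ⟨x, y⟩ h
      simp only [hW, map_mul, Complex.conj_conj]
      ring
  have h4 : (∑ p ∈ (I ×ˢ I).filter (fun p => p.1 = p.2), W p).re ≤ (I.card : ℝ) := by
    rw [Complex.re_sum]
    have h5 : ∀ p ∈ (I ×ˢ I).filter (fun p => p.1 = p.2), (W p).re ≤ 1 := by
      intro p _
      refine (Complex.re_le_norm _).trans ?_
      rw [hW]
      simp only [norm_mul, RCLike.norm_conj]
      have e1 := norm_chi q χ (p.1 : ZMod q)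
      have e2 := norm_chi q χ (p.2 : ZMod q)
      calc ‖χ (p.1 : ZMod q)‖ * ‖χ (p.2 : ZMod q)‖ ≤ 1 * 1 := by gcongr
        _ = 1 := one_mul 1
    refine (Finset.sum_le_card_nsmul _ _ 1 h5).trans ?_
    rw [nsmul_eq_mul, mul_one]
    have : ((I ×ˢ I).filter (fun p => p.1 = p.2)).card ≤ I.card := by
      refine Finset.card_le_card_of_injOn (fun p => p.1) ?_ ?_
      · rintro ⟨x, y⟩ h
        simp only [Finset.coe_filter, Set.mem_ofPred_eq, Finset.mem_product] at h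
        exact h.1.1
      · rintro ⟨x, y⟩ h ⟨x', y'⟩ h' he
        simp only [Finset.coe_filter, Set.mem_ofPred_eq, Finset.mem_product] at h h' he
        rw [Prod.mk.injEq]
        exact ⟨he, by rw [← h.2, ← h'.2, he]⟩
    exact_mod_cast this
  have h6 := congrArg Complex.re (h1.trans h2)
  rw [Complex.ofReal_re, Complex.add_re, Complex.add_re, h3, Complex.conj_re] at h6
  rw [h6]
  linarith

theorem D3_param (q : ℕ) [NeZero q] (χ : DirichletCharacter ℂ q) (X Y A1 A2 : ℕ) (hY : Y ≤ X) :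
    ∑ D ∈ (Icc 1 (X ^ 2)).filter Squarefree, ‖∑ u ∈ Iu Y A1 A2 D, χ (u : ZMod q)‖ ^ 2 ≤
      (X : ℝ) ^ 2 + 2 * ∑ a ∈ Icc 1 Y, ∑ c ∈ Icc 1 Y, ∑ d ∈ Icc 1 Y,
        ‖∑ b ∈ Bs Y A1 A2 a c d, χ (b : ZMod q)‖ := by
  have h1 : ∑ D ∈ (Icc 1 (X ^ 2)).filter Squarefree, ‖∑ u ∈ Iu Y A1 A2 D, χ (u : ZMod q)‖ ^ 2 ≤
      ∑ D ∈ (Icc 1 (X ^ 2)).filter Squarefree, (((Iu Y A1 A2 D).card : ℝ) +
        2 * (∑ p ∈ (Iu Y A1 A2 D ×ˢ Iu Y A1 A2 D).filter fun p => p.2 < p.1,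
          χ (p.1 : ZMod q) * (starRingEnd ℂ) (χ (p.2 : ZMod q))).re) :=
    Finset.sum_le_sum fun D _ => square q χ _
  refine h1.trans ?_
  rw [Finset.sum_add_distrib, ← Finset.mul_sum, ← Complex.re_sum]
  have h2 : ∑ D ∈ (Icc 1 (X ^ 2)).filter Squarefree,
      ∑ p ∈ (Iu Y A1 A2 D ×ˢ Iu Y A1 A2 D).filter fun p => p.2 < p.1,
          χ (p.1 : ZMod q) * (starRingEnd ℂ) (χ (p.2 : ZMod q)) =
      ∑ t ∈ TT X Y A1 A2, χ (t.2.1 : ZMod q) * (starRingEnd ℂ) (χ (t.2.2 : ZMod q)) := by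
    unfold TT
    rw [Finset.sum_sigma]
  rw [h2, sum_TT q χ X Y A1 A2 hY]
  have h3 := (Complex.re_le_norm _).trans (norm_QQ q χ Y A1 A2)
  have h4 := count X Y A1 A2 hY
  linarith

end PS25
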