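import Pool.Agent.LibPS25.D2

/-
PLAN (D4). If a c d is not squarefree the set is empty. Otherwise the b in Bs with B <= b < 2B are the squarefree b coprime to a c d in an interval (x, y] with y <= 2B: all the
conditions c < b, c d < a b, a b <= Y, A1 < a b - c d, a b - c d <= A2, b d < a c, A1 < a c - b d, a c - b d <= A2, B <= b < 2B are inequalities between linear
functions of b, so the set of b satisfying them is an interval (order-connected set of naturals; take x = min - 1, y = max), and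
Squarefree (a b c d) iff Squarefree b and b coprime to a c d (given a c d squarefree). D2_sqf, and tau(a c d) <= tau(a) tau(c) tau(d) (equality for coprime).
-/

set_option autoImplicit false

noncomputable section

namespace PS25

open Finset

/-- the linear conditions -/
private def D4_P (Y A1 A2 a c d B b : ℕ) : Prop :=
  1 ≤ b ∧ b ≤ Y ∧ c < b ∧ (c * d < a * b ∧ a * b ≤ Y ∧ A1 < a * b - c * d ∧ a * b - c * d ≤ A2) ∧
    (b * d < a * c ∧ a * c ≤ Y ∧ A1 < a * c - b * d ∧ a * c - b * d ≤ A2) ∧ B ≤ b ∧ b < 2 * B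

private theorem D4_conn {Y A1 A2 a c d B m M b : ℕ} (hm : D4_P Y A1 A2 a c d B m)
    (hM : D4_P Y A1 A2 a c d B M) (h1 : m ≤ b) (h2 : b ≤ M) : D4_P Y A1 A2 a c d B b := by
  obtain ⟨p1, p2, p3, ⟨p4, p5, p6, p7⟩, ⟨p8, p9, p10, p11⟩, p12, p13⟩ := hm
  obtain ⟨r1, r2, r3, ⟨r4, r5, r6, r7⟩, ⟨r8, r9, r10, r11⟩, r12, r13⟩ := hM
  have e1 : a * m ≤ a * b := Nat.mul_le_mul_left a h1
  have e2 : a * b ≤ a * M := Nat.mul_le_mul_left a h2
  have e3 : m * d ≤ b * d := Nat.mul_le_mul_right d h1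
  have e4 : b * d ≤ M * d := Nat.mul_le_mul_right d h2
  refine ⟨by omega, by omega, by omega, ⟨by omega, by omega, by omega, by omega⟩,
    ⟨by omega, by omega, by omega, by omega⟩, by omega, by omega⟩

theorem D4_dy (q : ℕ) [NeZero q] (χ : DirichletCharacter ℂ q) (hχ : χ ≠ 1) (Y A1 A2 a c d B : ℕ)
    (ha : 0 < a) (hc : 0 < c) (hd : 0 < d) :
    ‖∑ b ∈ (Bs Y A1 A2 a c d).filter fun b => B ≤ b ∧ b < 2 * B, χ (b : ZMod q)‖ ≤
      q * Real.sqrt (2 * B) * (#a.divisors * #c.divisors * #d.divisors) := by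
  classical
  have hR : (0 : ℝ) ≤ q * Real.sqrt (2 * B) * (#a.divisors * #c.divisors * #d.divisors) := by
    positivity
  by_cases hsf : Squarefree (a * c * d)
  swap
  · have hemp : ((Bs Y A1 A2 a c d).filter fun b => B ≤ b ∧ b < 2 * B) = ∅ := by
      rw [Finset.eq_empty_iff_forall_notMem]
      intro b hb
      rw [mem_filter, Bs, mem_filter] at hb
      apply hsf
      refine hb.1.2.2.1.squarefree_of_dvd ⟨b, ?_⟩
      ring
    rw [hemp, sum_empty, norm_zero]
    exact hR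
  set T : Finset ℕ := (Icc 1 Y).filter fun b => D4_P Y A1 A2 a c d B b with hT
  have hset : ((Bs Y A1 A2 a c d).filter fun b => B ≤ b ∧ b < 2 * B) =
      T.filter fun b => Squarefree b ∧ b.Coprime (a * c * d) := by
    ext b
    rw [mem_filter, Bs, mem_filter, mem_filter, hT, mem_filter, mem_Icc]
    have e1 : a * b * c * d = b * (a * c * d) := by ring
    rw [e1, Nat.squarefree_mul_iff]
    constructor
    · rintro ⟨⟨⟨h1, h2⟩, h3, ⟨h4, h5, _⟩, h7, h8⟩, h9, h10⟩
      exact ⟨⟨⟨h1, h2⟩, h1, h2, h3, h7, h8, h9, h10⟩, h5, h4⟩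
    · rintro ⟨⟨⟨h1, h2⟩, _, _, h3, h7, h8, h9, h10⟩, h5, h4⟩
      exact ⟨⟨⟨h1, h2⟩, h3, ⟨h4, h5, hsf⟩, h7, h8⟩, h9, h10⟩
  rw [hset]
  by_cases hne : T.Nonempty
  swap
  · rw [Finset.not_nonempty_iff_eq_empty] at hne
    rw [hne, filter_empty, sum_empty, norm_zero]
    exact hR
  have hmin : D4_P Y A1 A2 a c d B (T.min' hne) := (mem_filter.mp (T.min'_mem hne)).2
  have hmax : D4_P Y A1 A2 a c d B (T.max' hne) := (mem_filter.mp (T.max'_mem hne)).2
  have hTI : T = Ioc (T.min' hne - 1) (T.max' hne) := by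
    ext b
    rw [mem_Ioc]
    constructor
    · intro hb
      have h1 := T.min'_le b hb
      have h2 := T.le_max' b hb
      have h3 : 1 ≤ T.min' hne := hmin.1
      omega
    · rintro ⟨h1, h2⟩
      have h3 : 1 ≤ T.min' hne := hmin.1
      have h4 := D4_conn hmin hmax (by omega : T.min' hne ≤ b) h2
      rw [hT, mem_filter, mem_Icc]
      exact ⟨⟨h4.1, h4.2.1⟩, h4⟩
  have hM0 : a * c * d ≠ 0 := hsf.ne_zero
  have h1 := D2_sqf q χ hχ (T.min' hne - 1) (T.max' hne) (a * c * d) hM0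
  rw [← hTI] at h1
  refine h1.trans ?_
  have hy : T.max' hne < 2 * B := hmax.2.2.2.2.2.2
  have h2 : Real.sqrt ((T.max' hne : ℕ) : ℝ) ≤ Real.sqrt (2 * B) := by
    apply Real.sqrt_le_sqrt
    exact_mod_cast hy.le
  have h3 : (#(a * c * d).divisors : ℝ) = #a.divisors * #c.divisors * #d.divisors := by
    rw [Nat.squarefree_mul_iff] at hsf
    obtain ⟨g1, g2, _⟩ := hsf
    rw [Nat.squarefree_mul_iff] at g2
    rw [g1.card_divisors_mul, g2.1.card_divisors_mul]
    push_cast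
    ring
  rw [h3]
  have h4 : (0 : ℝ) ≤ #a.divisors * #c.divisors * #d.divisors :=
    mul_nonneg (mul_nonneg (Nat.cast_nonneg _) (Nat.cast_nonneg _)) (Nat.cast_nonneg _)
  exact mul_le_mul_of_nonneg_right (mul_le_mul_of_nonneg_left h2 (Nat.cast_nonneg q)) h4

end PS25
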