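import Pool.Agent.LibPS25.D4

/-
PLAN (D5). Dyadic blocks B = 2^k B0, b in [B, 2B), B <= X (else Bs has no such b). If the block is not empty for (a, c, d): a b <= Y <= X gives a <= X/B, b d < a c <= Y gives d <= X/B,
c < b gives c < 2B. So by D4_dy the block contributes at most q sqrt(2B) (sum_{a <= X/B} tau a)^2 sum_{c <= 2B} tau c, with sum_{n <= Z} tau n <= Z (1 + log Z)
(for Z <= 2X: at most Z (1 + log (2X))): <= q sqrt(2B) (X/B)^2 2B (1 + log(2X))^3 = 2 sqrt 2 q X^2 (1 + log(2X))^3 / sqrt B. Sum over k of 2^(-k/2) = 3.4143, and 2.8285 * 3.4143 < 16.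
-/

set_option autoImplicit false

noncomputable section

namespace PS25

open Finset

private lemma D5_tau (Z : ℕ) :
    ∑ n ∈ Icc 1 Z, (#n.divisors : ℝ) ≤ Z * (1 + Real.log Z) := by
  have h1 : ∀ n ∈ Icc 1 Z, (#n.divisors : ℝ) = ∑ e ∈ Icc 1 Z, if e ∣ n then (1 : ℝ) else 0 := by
    intro n hn
    rw [mem_Icc] at hn
    rw [← sum_filter, sum_const, nsmul_eq_mul, mul_one]
    congr 2
    ext e
    rw [Nat.mem_divisors, mem_filter, mem_Icc]
    constructor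
    · intro h
      exact ⟨⟨Nat.pos_of_dvd_of_pos h.1 hn.1, (Nat.le_of_dvd hn.1 h.1).trans hn.2⟩, h.1⟩
    · intro h
      exact ⟨h.2, by omega⟩
  rw [sum_congr rfl h1, sum_comm]
  have h2 : ∀ e ∈ Icc 1 Z, ∑ n ∈ Icc 1 Z, (if e ∣ n then (1 : ℝ) else 0) ≤ Z * (e : ℝ)⁻¹ := by
    intro e he
    rw [mem_Icc] at he
    rw [← sum_filter, sum_const, nsmul_eq_mul, mul_one]
    have e1 : (Icc 1 Z).filter (fun n => e ∣ n) = (Ioc 0 Z).filter (fun n => e ∣ n) := by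
      ext n
      rw [mem_filter, mem_filter, mem_Icc, mem_Ioc]
      exact Iff.rfl
    rw [e1, Nat.Ioc_filter_dvd_card_eq_div]
    rw [← div_eq_mul_inv]
    exact Nat.cast_div_le
  refine (sum_le_sum h2).trans ?_
  rw [← mul_sum]
  refine mul_le_mul_of_nonneg_left ?_ (Nat.cast_nonneg _)
  have h := harmonic_le_one_add_log Z
  rw [harmonic_eq_sum_Icc] at h
  push_cast at h
  exact h

private lemma D5_tau' (Z X : ℕ) (hX : 1 ≤ X) (hZ : Z ≤ 2 * X) :
    ∑ n ∈ Icc 1 Z, (#n.divisors : ℝ) ≤ Z * (1 + Real.log (2 * X)) := by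
  refine (D5_tau Z).trans ?_
  refine mul_le_mul_of_nonneg_left ?_ (Nat.cast_nonneg _)
  rcases Nat.eq_zero_or_pos Z with h | h
  · rw [h, Nat.cast_zero, Real.log_zero]
    have : 0 ≤ Real.log (2 * X) := by
      apply Real.log_nonneg
      have : (1 : ℝ) ≤ X := by exact_mod_cast hX
      linarith
    linarith
  · have h0 : (0 : ℝ) < Z := by exact_mod_cast h
    have h1 : (Z : ℝ) ≤ 2 * X := by exact_mod_cast hZ
    have := Real.log_le_log h0 h1
    linarith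

private lemma D5_blk (q : ℕ) [NeZero q] (χ : DirichletCharacter ℂ q) (hχ : χ ≠ 1) (X Y A1 A2 B : ℕ)
    (hX : 1 ≤ X) (hY : Y ≤ X) (hB : 1 ≤ B) :
    ∑ a ∈ Icc 1 Y, ∑ c ∈ Icc 1 Y, ∑ d ∈ Icc 1 Y,
        ‖∑ b ∈ (Bs Y A1 A2 a c d).filter fun b => B ≤ b ∧ b < 2 * B, χ (b : ZMod q)‖ ≤
      2 * Real.sqrt 2 * q * (X : ℝ) ^ 2 * (1 + Real.log (2 * X)) ^ 3 / Real.sqrt B := by
  have hX1 : (1 : ℝ) ≤ X := by exact_mod_cast hX
  have hB1 : (1 : ℝ) ≤ B := by exact_mod_cast hB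
  have hlog : 0 ≤ Real.log (2 * X) := Real.log_nonneg (by linarith)
  set L : ℝ := 1 + Real.log (2 * X) with hL
  have hL0 : 0 ≤ L := by rw [hL]; linarith
  set M : ℕ := X / B with hM
  set Af : ℕ → ℝ := fun a => if a ≤ M then (#a.divisors : ℝ) else 0 with hAf
  set Cf : ℕ → ℝ := fun c => if c ≤ 2 * B then (#c.divisors : ℝ) else 0 with hCf
  set W : ℝ := q * Real.sqrt (2 * B) with hW
  have hW0 : 0 ≤ W := by positivity
  have hAf0 : ∀ a, 0 ≤ Af a := by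
    intro a
    simp only [hAf]
    split_ifs
    · positivity
    · exact le_rfl
  have hCf0 : ∀ a, 0 ≤ Cf a := by
    intro a
    simp only [hCf]
    split_ifs
    · positivity
    · exact le_rfl
  by_cases hBX : B ≤ X
  swap
  · -- all blocks are empty
    have hz : ∀ a ∈ Icc 1 Y, ∀ c ∈ Icc 1 Y, ∀ d ∈ Icc 1 Y,
        ‖∑ b ∈ (Bs Y A1 A2 a c d).filter fun b => B ≤ b ∧ b < 2 * B, χ (b : ZMod q)‖ = 0 := by
      intro a _ c _ d _
      have he : ((Bs Y A1 A2 a c d).filter fun b => B ≤ b ∧ b < 2 * B) = ∅ := by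
        rw [filter_eq_empty_iff]
        intro b hb hb'
        unfold Bs at hb
        rw [mem_filter, mem_Icc] at hb
        omega
      rw [he, sum_empty, norm_zero]
    rw [sum_eq_zero fun a ha => sum_eq_zero fun c hc => sum_eq_zero fun d hd => hz a ha c hc d hd]
    positivity
  have hpt : ∀ a ∈ Icc 1 Y, ∀ c ∈ Icc 1 Y, ∀ d ∈ Icc 1 Y,
      ‖∑ b ∈ (Bs Y A1 A2 a c d).filter fun b => B ≤ b ∧ b < 2 * B, χ (b : ZMod q)‖ ≤
        W * (Af a * (Cf c * Af d)) := by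
    intro a ha c hc d hd
    rw [mem_Icc] at ha hc hd
    rcases ((Bs Y A1 A2 a c d).filter fun b => B ≤ b ∧ b < 2 * B).eq_empty_or_nonempty with h | h
    · rw [h, sum_empty, norm_zero]
      have := hAf0 a
      have := hAf0 d
      have := hCf0 c
      positivity
    · obtain ⟨b, hb⟩ := h
      unfold Bs at hb
      rw [mem_filter, mem_filter, mem_Icc] at hb
      obtain ⟨⟨⟨hb1, hbY⟩, hcb, _, ⟨_, h2, _, _⟩, ⟨h3, h4, _, _⟩⟩, hB2, hB3⟩ := hb
      have haM : a ≤ M := by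
        rw [hM, Nat.le_div_iff_mul_le hB]
        calc a * B ≤ a * b := Nat.mul_le_mul_left a hB2
          _ ≤ X := h2.trans hY
      have hdM : d ≤ M := by
        rw [hM, Nat.le_div_iff_mul_le hB]
        calc d * B ≤ d * b := Nat.mul_le_mul_left d hB2
          _ = b * d := mul_comm _ _
          _ ≤ X := (h3.le.trans h4).trans hY
      have hcB : c ≤ 2 * B := by omega
      have hAa : Af a = #a.divisors := by simp only [hAf]; rw [if_pos haM]
      have hAd : Af d = #d.divisors := by simp only [hAf]; rw [if_pos hdM]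
      have hCc : Cf c = #c.divisors := by simp only [hCf]; rw [if_pos hcB]
      rw [hAa, hAd, hCc]
      have h := D4_dy q χ hχ Y A1 A2 a c d B (by omega) (by omega) (by omega)
      refine h.trans (le_of_eq ?_)
      rw [hW]
      ring
  refine (sum_le_sum fun a ha => sum_le_sum fun c hc => sum_le_sum fun d hd =>
    hpt a ha c hc d hd).trans ?_
  have hfac : ∑ a ∈ Icc 1 Y, ∑ c ∈ Icc 1 Y, ∑ d ∈ Icc 1 Y, W * (Af a * (Cf c * Af d)) =
      W * ((∑ a ∈ Icc 1 Y, Af a) * ((∑ c ∈ Icc 1 Y, Cf c) * ∑ d ∈ Icc 1 Y, Af d)) := by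
    rw [sum_mul, mul_sum]
    refine sum_congr rfl fun a _ => ?_
    rw [sum_mul, mul_sum, mul_sum]
    refine sum_congr rfl fun c _ => ?_
    rw [mul_sum, mul_sum, mul_sum]
  rw [hfac]
  have hSA : ∑ a ∈ Icc 1 Y, Af a ≤ X / B * L := by
    have h1 : ∑ a ∈ Icc 1 Y, Af a ≤ ∑ a ∈ Icc 1 M, (#a.divisors : ℝ) := by
      simp only [hAf]
      rw [← sum_filter]
      refine sum_le_sum_of_subset_of_nonneg ?_ fun i _ _ => by positivity
      intro a ha
      rw [mem_filter, mem_Icc] at ha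
      rw [mem_Icc]
      exact ⟨ha.1.1, ha.2⟩
    refine h1.trans ?_
    have h2 : M ≤ 2 * X := (Nat.div_le_self X B).trans (by omega)
    refine (D5_tau' M X hX h2).trans ?_
    refine mul_le_mul_of_nonneg_right ?_ hL0
    rw [hM]
    exact Nat.cast_div_le
  have hSC : ∑ c ∈ Icc 1 Y, Cf c ≤ 2 * B * L := by
    have h1 : ∑ a ∈ Icc 1 Y, Cf a ≤ ∑ a ∈ Icc 1 (2 * B), (#a.divisors : ℝ) := by
      simp only [hCf]
      rw [← sum_filter]
      refine sum_le_sum_of_subset_of_nonneg ?_ fun i _ _ => by positivity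
      intro a ha
      rw [mem_filter, mem_Icc] at ha
      rw [mem_Icc]
      exact ⟨ha.1.1, ha.2⟩
    refine h1.trans ?_
    refine (D5_tau' (2 * B) X hX (by omega)).trans (le_of_eq ?_)
    push_cast
    rfl
  have hSA0 : 0 ≤ ∑ a ∈ Icc 1 Y, Af a := sum_nonneg fun a _ => hAf0 a
  have hSC0 : 0 ≤ ∑ a ∈ Icc 1 Y, Cf a := sum_nonneg fun a _ => hCf0 a
  have hXB0 : 0 ≤ (X : ℝ) / B * L := by positivity
  have hBL0 : 0 ≤ 2 * (B : ℝ) * L := by positivity
  calc W * ((∑ a ∈ Icc 1 Y, Af a) * ((∑ c ∈ Icc 1 Y, Cf c) * ∑ d ∈ Icc 1 Y, Af d))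
      ≤ W * ((X / B * L) * ((2 * B * L) * (X / B * L))) := by
        refine mul_le_mul_of_nonneg_left ?_ hW0
        refine mul_le_mul hSA ?_ (mul_nonneg hSC0 hSA0) hXB0
        exact mul_le_mul hSC hSA hSA0 hBL0
    _ = 2 * Real.sqrt 2 * q * (X : ℝ) ^ 2 * L ^ 3 / Real.sqrt B := by
        have hsB : Real.sqrt B ≠ 0 := (Real.sqrt_pos.2 (by linarith)).ne'
        have hB0 : (B : ℝ) ≠ 0 := by linarith
        have hsq : Real.sqrt B * Real.sqrt B = B := Real.mul_self_sqrt (by linarith)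
        rw [hW, Real.sqrt_mul (by norm_num : (0 : ℝ) ≤ 2)]
        rw [eq_div_iff hsB]
        field_simp
        rw [pow_two (Real.sqrt B), hsq]

theorem D5_big (q : ℕ) [NeZero q] (χ : DirichletCharacter ℂ q) (hχ : χ ≠ 1) (X Y A1 A2 B0 : ℕ)
    (hX : 1 ≤ X) (hY : Y ≤ X) (hB : 1 ≤ B0) :
    ∑ a ∈ Icc 1 Y, ∑ c ∈ Icc 1 Y, ∑ d ∈ Icc 1 Y,
        ‖∑ b ∈ (Bs Y A1 A2 a c d).filter fun b => B0 ≤ b, χ (b : ZMod q)‖ ≤
      16 * q * (X : ℝ) ^ 2 * (1 + Real.log (2 * X)) ^ 3 / Real.sqrt B0 := by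
  have hX1 : (1 : ℝ) ≤ X := by exact_mod_cast hX
  have hB1 : (1 : ℝ) ≤ B0 := by exact_mod_cast hB
  have hlog : 0 ≤ Real.log (2 * X) := Real.log_nonneg (by linarith)
  set L : ℝ := 1 + Real.log (2 * X) with hL
  have hL0 : 0 ≤ L := by rw [hL]; linarith
  -- decomposition in blocks
  have hdec : ∀ (S : Finset ℕ) (K : ℕ),
      ∑ b ∈ S.filter (fun b => B0 ≤ b ∧ b < 2 ^ K * B0), χ (b : ZMod q) =
        ∑ k ∈ range K, ∑ b ∈ S.filter (fun b => 2 ^ k * B0 ≤ b ∧ b < 2 * (2 ^ k * B0)),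
          χ (b : ZMod q) := by
    intro S K
    induction K with
    | zero =>
      rw [range_zero, sum_empty]
      have : S.filter (fun b => B0 ≤ b ∧ b < 2 ^ 0 * B0) = ∅ := by
        rw [filter_eq_empty_iff]
        intro b _ hb
        omega
      rw [this, sum_empty]
    | succ K ih =>
      rw [sum_range_succ, ← ih, ← sum_union]
      · congr 1
        ext b
        rw [mem_filter, mem_union, mem_filter, mem_filter]
        have h1 : 2 ^ (K + 1) * B0 = 2 * (2 ^ K * B0) := by ring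
        have h2 : 1 * B0 ≤ 2 ^ K * B0 := Nat.mul_le_mul_right _ Nat.one_le_two_pow
        rw [h1]
        constructor
        · rintro ⟨h3, h4, h5⟩
          by_cases h6 : b < 2 ^ K * B0
          · exact Or.inl ⟨h3, h4, h6⟩
          · exact Or.inr ⟨h3, not_lt.1 h6, h5⟩
        · rintro (⟨h3, h4, h5⟩ | ⟨h3, h4, h5⟩)
          · exact ⟨h3, h4, by omega⟩
          · exact ⟨h3, by omega, h5⟩
      · rw [disjoint_left]
        intro b hb hb'
        rw [mem_filter] at hb hb'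
        omega
  have hpt : ∀ a ∈ Icc 1 Y, ∀ c ∈ Icc 1 Y, ∀ d ∈ Icc 1 Y,
      ‖∑ b ∈ (Bs Y A1 A2 a c d).filter fun b => B0 ≤ b, χ (b : ZMod q)‖ ≤
        ∑ k ∈ range X, ‖∑ b ∈ (Bs Y A1 A2 a c d).filter
          (fun b => 2 ^ k * B0 ≤ b ∧ b < 2 * (2 ^ k * B0)), χ (b : ZMod q)‖ := by
    intro a _ c _ d _
    have he : (Bs Y A1 A2 a c d).filter (fun b => B0 ≤ b) =
        (Bs Y A1 A2 a c d).filter (fun b => B0 ≤ b ∧ b < 2 ^ X * B0) := by
      refine filter_congr fun b hb => ?_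
      unfold Bs at hb
      rw [mem_filter, mem_Icc] at hb
      have h1 : X < 2 ^ X := Nat.lt_two_pow_self
      have h2 : 2 ^ X * 1 ≤ 2 ^ X * B0 := Nat.mul_le_mul_left _ hB
      constructor
      · intro h
        exact ⟨h, by omega⟩
      · intro h
        exact h.1
    rw [he, hdec]
    exact norm_sum_le _ _
  refine (sum_le_sum fun a ha => sum_le_sum fun c hc => sum_le_sum fun d hd =>
    hpt a ha c hc d hd).trans ?_
  have hswap : ∑ a ∈ Icc 1 Y, ∑ c ∈ Icc 1 Y, ∑ d ∈ Icc 1 Y, ∑ k ∈ range X,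
      ‖∑ b ∈ (Bs Y A1 A2 a c d).filter
          (fun b => 2 ^ k * B0 ≤ b ∧ b < 2 * (2 ^ k * B0)), χ (b : ZMod q)‖ =
      ∑ k ∈ range X, ∑ a ∈ Icc 1 Y, ∑ c ∈ Icc 1 Y, ∑ d ∈ Icc 1 Y,
        ‖∑ b ∈ (Bs Y A1 A2 a c d).filter
          (fun b => 2 ^ k * B0 ≤ b ∧ b < 2 * (2 ^ k * B0)), χ (b : ZMod q)‖ := by
    rw [sum_comm]
    rw [sum_congr rfl fun a _ => sum_congr rfl fun c _ => sum_comm]
    rw [sum_congr rfl fun a _ => sum_comm]
    rw [sum_comm]
    conv_rhs =>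
      enter [2, k]
      rw [sum_comm]
  rw [hswap]
  have hblk : ∀ k ∈ range X, ∑ a ∈ Icc 1 Y, ∑ c ∈ Icc 1 Y, ∑ d ∈ Icc 1 Y,
        ‖∑ b ∈ (Bs Y A1 A2 a c d).filter
          (fun b => 2 ^ k * B0 ≤ b ∧ b < 2 * (2 ^ k * B0)), χ (b : ZMod q)‖ ≤
      2 * Real.sqrt 2 * q * (X : ℝ) ^ 2 * L ^ 3 / Real.sqrt B0 * ((Real.sqrt 2)⁻¹) ^ k := by
    intro k _
    have h := D5_blk q χ hχ X Y A1 A2 (2 ^ k * B0) hX hY
      (Nat.one_le_iff_ne_zero.2 (by positivity))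
    refine h.trans (le_of_eq ?_)
    have e1 : Real.sqrt ((2 ^ k * B0 : ℕ) : ℝ) = Real.sqrt 2 ^ k * Real.sqrt B0 := by
      push_cast
      rw [Real.sqrt_mul (by positivity)]
      congr 1
      rw [Real.sqrt_eq_iff_mul_self_eq (by positivity) (by positivity), ← mul_pow,
        Real.mul_self_sqrt (by norm_num)]
    rw [e1, inv_pow]
    have h2 : Real.sqrt 2 ≠ 0 := (Real.sqrt_pos.2 (by norm_num)).ne'
    have h3 : Real.sqrt B0 ≠ 0 := (Real.sqrt_pos.2 (by linarith)).ne'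
    rw [hL]
    field_simp
  refine (sum_le_sum hblk).trans ?_
  rw [← mul_sum]
  have hs2 : Real.sqrt 2 * Real.sqrt 2 = 2 := Real.mul_self_sqrt (by norm_num)
  have hs20 : 0 < Real.sqrt 2 := Real.sqrt_pos.2 (by norm_num)
  have hs2l : (1.4 : ℝ) ≤ Real.sqrt 2 := by
    by_contra hc
    rw [not_le] at hc
    nlinarith
  have hgeo : ∑ k ∈ range X, ((Real.sqrt 2)⁻¹) ^ k ≤ 4 := by
    set r : ℝ := (Real.sqrt 2)⁻¹ with hr
    have hr0 : 0 ≤ r := by positivity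
    have hr1 : r ≤ 3 / 4 := by
      rw [hr, inv_le_comm₀ hs20 (by norm_num)]
      linarith
    have h := geom_sum_mul_neg r X
    have hrX : 0 ≤ r ^ X := by positivity
    have hs0 : 0 ≤ ∑ i ∈ range X, r ^ i := sum_nonneg fun i _ => by positivity
    nlinarith
  have hs2u : Real.sqrt 2 ≤ 2 := by nlinarith
  have hC0 : 0 ≤ 2 * Real.sqrt 2 * q * (X : ℝ) ^ 2 * L ^ 3 / Real.sqrt B0 := by positivity
  calc 2 * Real.sqrt 2 * q * (X : ℝ) ^ 2 * L ^ 3 / Real.sqrt B0 * ∑ k ∈ range X, ((Real.sqrt 2)⁻¹) ^ k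
      ≤ 2 * Real.sqrt 2 * q * (X : ℝ) ^ 2 * L ^ 3 / Real.sqrt B0 * 4 :=
        mul_le_mul_of_nonneg_left hgeo hC0
    _ = (4 * Real.sqrt 2) * (2 * (q * (X : ℝ) ^ 2 * L ^ 3 / Real.sqrt B0)) := by ring
    _ ≤ (4 * 2) * (2 * (q * (X : ℝ) ^ 2 * L ^ 3 / Real.sqrt B0)) := by
        refine mul_le_mul_of_nonneg_right ?_ (by positivity)
        linarith
    _ = 16 * q * (X : ℝ) ^ 2 * L ^ 3 / Real.sqrt B0 := by ring

end PS25
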