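import Pool.Agent.LibPS25.Defs

/-
PLAN (D6). The left side is at most the number of (a, b, c, d) with b < B0, c < b, a b <= Y <= X, b d <= a c <= Y <= X, so a <= X/b, d <= X/b: at most
sum_{b < B0} b (X/b)^2 <= X^2 sum_{1 <= b < B0} 1/b <= X^2 (1 + log B0).
-/

set_option autoImplicit false

noncomputable section

namespace PS25

open Finset

theorem D6_small (q : ℕ) [NeZero q] (χ : DirichletCharacter ℂ q) (X Y A1 A2 B0 : ℕ)
    (hY : Y ≤ X) (hB : 1 ≤ B0) :
    ∑ a ∈ Icc 1 Y, ∑ c ∈ Icc 1 Y, ∑ d ∈ Icc 1 Y,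
        ‖∑ b ∈ (Bs Y A1 A2 a c d).filter fun b => b < B0, χ (b : ZMod q)‖ ≤
      (X : ℝ) ^ 2 * (1 + Real.log B0) := by
  classical
  -- the norm is at most the number of terms
  have h1 : ∀ a c d : ℕ, a ∈ Icc 1 Y → c ∈ Icc 1 Y → d ∈ Icc 1 Y →
      ‖∑ b ∈ (Bs Y A1 A2 a c d).filter fun b => b < B0, χ (b : ZMod q)‖ ≤
        ∑ b ∈ Icc 1 B0, (if c < b then (1 : ℝ) else 0) *
          ((if a ≤ X / b then 1 else 0) * (if d ≤ X / b then 1 else 0)) := by
    intro a c d ha hc hd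
    calc ‖∑ b ∈ (Bs Y A1 A2 a c d).filter fun b => b < B0, χ (b : ZMod q)‖
        ≤ ∑ b ∈ (Bs Y A1 A2 a c d).filter fun b => b < B0, ‖χ (b : ZMod q)‖ := norm_sum_le _ _
      _ ≤ ∑ b ∈ (Bs Y A1 A2 a c d).filter fun b => b < B0,
          (if c < b then (1 : ℝ) else 0) *
          ((if a ≤ X / b then 1 else 0) * (if d ≤ X / b then 1 else 0)) := by
        refine Finset.sum_le_sum fun b hb => ?_
        rw [Finset.mem_filter, Bs, Finset.mem_filter, Finset.mem_Icc] at hb
        obtain ⟨⟨⟨hb1, _⟩, hcb, _, ⟨_, hab, _⟩, ⟨hbd, hac, _⟩⟩, _⟩ := hb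
        have hb0 : 0 < b := by omega
        have ha' : a ≤ X / b := (Nat.le_div_iff_mul_le hb0).2 (hab.trans hY)
        have hd' : d ≤ X / b := by
          rw [Nat.le_div_iff_mul_le hb0, mul_comm]
          omega
        rw [if_pos hcb, if_pos ha', if_pos hd']
        simpa using DirichletCharacter.norm_le_one χ (b : ZMod q)
      _ ≤ _ := by
        refine Finset.sum_le_sum_of_subset_of_nonneg ?_ ?_
        · intro b hb
          rw [Finset.mem_filter, Bs, Finset.mem_filter, Finset.mem_Icc] at hb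
          rw [Finset.mem_Icc]
          exact ⟨hb.1.1.1, hb.2.le⟩
        · intro b _ _
          split_ifs <;> norm_num
  have hcount : ∀ n : ℕ, ∑ a ∈ Icc 1 Y, (if a ≤ n then (1 : ℝ) else 0) ≤ n := by
    intro n
    rw [← Finset.sum_filter, Finset.sum_const, nsmul_eq_mul, mul_one]
    have h2 : #((Icc 1 Y).filter fun a => a ≤ n) ≤ n := by
      calc #((Icc 1 Y).filter fun a => a ≤ n) ≤ #(Icc 1 n) := by
            refine Finset.card_le_card fun a ha => ?_
            rw [Finset.mem_filter, Finset.mem_Icc] at ha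
            rw [Finset.mem_Icc]
            exact ⟨ha.1.1, ha.2⟩
        _ = n := by simp
    exact_mod_cast h2
  have hcount' : ∀ n : ℕ, ∑ c ∈ Icc 1 Y, (if c < n then (1 : ℝ) else 0) ≤ n := by
    intro n
    refine le_trans (Finset.sum_le_sum fun c _ => ?_) (hcount n)
    split_ifs with h2 h3 h3
    · exact le_refl _
    · omega
    · norm_num
    · exact le_refl _
  calc ∑ a ∈ Icc 1 Y, ∑ c ∈ Icc 1 Y, ∑ d ∈ Icc 1 Y,
        ‖∑ b ∈ (Bs Y A1 A2 a c d).filter fun b => b < B0, χ (b : ZMod q)‖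
      ≤ ∑ a ∈ Icc 1 Y, ∑ c ∈ Icc 1 Y, ∑ d ∈ Icc 1 Y,
        ∑ b ∈ Icc 1 B0, (if c < b then (1 : ℝ) else 0) *
          ((if a ≤ X / b then 1 else 0) * (if d ≤ X / b then 1 else 0)) :=
        Finset.sum_le_sum fun a ha => Finset.sum_le_sum fun c hc =>
          Finset.sum_le_sum fun d hd => h1 a c d ha hc hd
    _ = ∑ b ∈ Icc 1 B0, (∑ c ∈ Icc 1 Y, (if c < b then (1 : ℝ) else 0)) *
          ((∑ a ∈ Icc 1 Y, (if a ≤ X / b then (1 : ℝ) else 0)) *
            (∑ d ∈ Icc 1 Y, (if d ≤ X / b then (1 : ℝ) else 0))) := by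
        have h2 : ∀ a c : ℕ, ∑ d ∈ Icc 1 Y, ∑ b ∈ Icc 1 B0, (if c < b then (1 : ℝ) else 0) *
            ((if a ≤ X / b then 1 else 0) * (if d ≤ X / b then 1 else 0)) =
            ∑ b ∈ Icc 1 B0, (if c < b then (1 : ℝ) else 0) * ((if a ≤ X / b then 1 else 0) *
              ∑ d ∈ Icc 1 Y, (if d ≤ X / b then (1 : ℝ) else 0)) := by
          intro a c
          rw [Finset.sum_comm]
          refine Finset.sum_congr rfl fun b _ => ?_
          rw [Finset.mul_sum, Finset.mul_sum]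
        simp_rw [h2]
        have h3 : ∀ a : ℕ, ∑ c ∈ Icc 1 Y, ∑ b ∈ Icc 1 B0, (if c < b then (1 : ℝ) else 0) *
            ((if a ≤ X / b then 1 else 0) *
              ∑ d ∈ Icc 1 Y, (if d ≤ X / b then (1 : ℝ) else 0)) =
            ∑ b ∈ Icc 1 B0, (∑ c ∈ Icc 1 Y, (if c < b then (1 : ℝ) else 0)) *
              ((if a ≤ X / b then 1 else 0) *
              ∑ d ∈ Icc 1 Y, (if d ≤ X / b then (1 : ℝ) else 0)) := by
          intro a
          rw [Finset.sum_comm]
          refine Finset.sum_congr rfl fun b _ => ?_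
          rw [Finset.sum_mul]
        simp_rw [h3]
        rw [Finset.sum_comm]
        refine Finset.sum_congr rfl fun b _ => ?_
        rw [← Finset.mul_sum, ← Finset.sum_mul]
    _ ≤ ∑ b ∈ Icc 1 B0, (X : ℝ) ^ 2 * ((b : ℝ))⁻¹ := by
        refine Finset.sum_le_sum fun b hb => ?_
        rw [Finset.mem_Icc] at hb
        have hb0 : (0 : ℝ) < b := by exact_mod_cast (show 0 < b by omega)
        have hdiv : ((X / b : ℕ) : ℝ) ≤ (X : ℝ) / b := Nat.cast_div_le
        have h2 := hcount (X / b)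
        have h3 := hcount' b
        have hn1 : 0 ≤ ∑ a ∈ Icc 1 Y, (if a ≤ X / b then (1 : ℝ) else 0) :=
          Finset.sum_nonneg fun a _ => by split_ifs <;> norm_num
        have hX0 : (0 : ℝ) ≤ (X : ℝ) / b := by positivity
        calc _ ≤ (b : ℝ) * (((X : ℝ) / b) * ((X : ℝ) / b)) := by
              refine mul_le_mul h3 ?_ (mul_nonneg hn1 hn1) hb0.le
              exact mul_le_mul (h2.trans hdiv) (h2.trans hdiv) hn1 hX0
          _ = (X : ℝ) ^ 2 * ((b : ℝ))⁻¹ := by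
              field_simp
    _ = (X : ℝ) ^ 2 * ∑ b ∈ Icc 1 B0, ((b : ℝ))⁻¹ := by rw [Finset.mul_sum]
    _ ≤ (X : ℝ) ^ 2 * (1 + Real.log B0) := by
        apply mul_le_mul_of_nonneg_left _ (by positivity)
        have h2 := harmonic_le_one_add_log B0
        rw [harmonic_eq_sum_Icc] at h2
        push_cast at h2
        exact h2

end PS25
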