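import Pool.Agent.LibPS25.D3
import Pool.Agent.LibPS25.D5
import Pool.Agent.LibPS25.D6

/-
PLAN (D7). D3_param, split the sum over b in Bs at B0 := ceil((1 + log(2X))^6) (triangle inequality), D5_big (<= 16 q X^2), D6_small (<= X^2 (1 + log B0)),
log B0 <= log(2 (1 + log(2X))^6) <= C' (1 + log(1 + log X)) (X >= 3: 1 + log(2X) <= 2 (1 + log X)). The constant C depends only on q.
-/

set_option autoImplicit false

noncomputable section

namespace PS25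

open Finset

theorem D7_second (q : ℕ) [NeZero q] (χ : DirichletCharacter ℂ q) (hχ : χ ≠ 1) :
    ∃ C : ℝ, 0 < C ∧ ∀ X Y A1 A2 : ℕ, 3 ≤ X → Y ≤ X →
      ∑ D ∈ (Icc 1 (X ^ 2)).filter Squarefree, ‖∑ u ∈ Iu Y A1 A2 D, χ (u : ZMod q)‖ ^ 2 ≤
        C * (X : ℝ) ^ 2 * (1 + Real.log (1 + Real.log X)) := by
  refine ⟨17 + 32 * q, by positivity, ?_⟩
  intro X Y A1 A2 hX hY
  have hX0 : (3 : ℝ) ≤ X := by exact_mod_cast hX
  have hXpos : (0 : ℝ) < X := by linarith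
  have hlogX : 0 < Real.log X := Real.log_pos (by linarith)
  have hlog2X : Real.log (2 * X) = Real.log 2 + Real.log X :=
    Real.log_mul (by norm_num) (by positivity)
  have hlog2 : Real.log 2 ≤ 1 := by
    have := Real.log_two_lt_d9
    linarith
  have hlog2' : 0 < Real.log 2 := Real.log_pos (by norm_num)
  set T : ℝ := 1 + Real.log (2 * X) with hT
  have hT1 : 1 ≤ T := by rw [hT, hlog2X]; linarith
  have hT2 : T ≤ 2 * (1 + Real.log X) := by rw [hT, hlog2X]; linarith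
  set B0 : ℕ := ⌈T ^ 6⌉₊ with hB0
  have hT6 : (1 : ℝ) ≤ T ^ 6 := one_le_pow₀ hT1
  have hB0le : T ^ 6 ≤ (B0 : ℝ) := Nat.le_ceil _
  have hB0r : (1 : ℝ) ≤ (B0 : ℝ) := hT6.trans hB0le
  have hB1 : 1 ≤ B0 := by exact_mod_cast hB0r
  have hB0up : (B0 : ℝ) ≤ 2 * T ^ 6 := by
    have := (Nat.ceil_lt_add_one (a := T ^ 6) (by linarith)).le
    linarith
  -- the log of B0
  have hL0 : 0 ≤ Real.log (1 + Real.log X) := Real.log_nonneg (by linarith)
  have hlogT : Real.log T ≤ Real.log 2 + Real.log (1 + Real.log X) := by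
    rw [← Real.log_mul (by norm_num) (by linarith)]
    exact Real.log_le_log (by linarith) hT2
  have hlogB : Real.log (B0 : ℝ) ≤ 7 + 6 * Real.log (1 + Real.log X) := by
    have h1 : Real.log (B0 : ℝ) ≤ Real.log (2 * T ^ 6) := Real.log_le_log (by linarith) hB0up
    have h2 : Real.log (2 * T ^ 6) = Real.log 2 + 6 * Real.log T := by
      rw [Real.log_mul (by norm_num) (by positivity), Real.log_pow]
      norm_num
    rw [h2] at h1
    nlinarith
  -- the large part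
  have hbig := D5_big q χ hχ X Y A1 A2 B0 (by omega) hY hB1
  have hbig2 : 16 * q * (X : ℝ) ^ 2 * (1 + Real.log (2 * X)) ^ 3 / Real.sqrt B0
      ≤ 16 * q * (X : ℝ) ^ 2 := by
    have hs : T ^ 3 ≤ Real.sqrt B0 := by
      apply Real.le_sqrt_of_sq_le
      calc (T ^ 3) ^ 2 = T ^ 6 := by ring
        _ ≤ (B0 : ℝ) := hB0le
    have hspos : 0 < Real.sqrt B0 := Real.sqrt_pos.2 (by linarith)
    rw [div_le_iff₀ hspos]
    exact mul_le_mul_of_nonneg_left hs (by positivity)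
  have hsmall := D6_small q χ X Y A1 A2 B0 hY hB1
  -- split
  have hsplit : ∑ a ∈ Icc 1 Y, ∑ c ∈ Icc 1 Y, ∑ d ∈ Icc 1 Y,
        ‖∑ b ∈ Bs Y A1 A2 a c d, χ (b : ZMod q)‖ ≤
      ∑ a ∈ Icc 1 Y, ∑ c ∈ Icc 1 Y, ∑ d ∈ Icc 1 Y,
        ‖∑ b ∈ (Bs Y A1 A2 a c d).filter fun b => B0 ≤ b, χ (b : ZMod q)‖ +
      ∑ a ∈ Icc 1 Y, ∑ c ∈ Icc 1 Y, ∑ d ∈ Icc 1 Y,
        ‖∑ b ∈ (Bs Y A1 A2 a c d).filter fun b => b < B0, χ (b : ZMod q)‖ := by
    rw [← Finset.sum_add_distrib]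
    refine Finset.sum_le_sum fun a _ => ?_
    rw [← Finset.sum_add_distrib]
    refine Finset.sum_le_sum fun c _ => ?_
    rw [← Finset.sum_add_distrib]
    refine Finset.sum_le_sum fun d _ => ?_
    have h3 : ∑ b ∈ Bs Y A1 A2 a c d, χ (b : ZMod q)
        = ∑ b ∈ (Bs Y A1 A2 a c d).filter (fun b => B0 ≤ b), χ (b : ZMod q)
          + ∑ b ∈ (Bs Y A1 A2 a c d).filter (fun b => b < B0), χ (b : ZMod q) := by
      rw [← Finset.sum_filter_add_sum_filter_not (Bs Y A1 A2 a c d) (fun b => B0 ≤ b)]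
      simp only [not_le]
    rw [h3]
    exact norm_add_le _ _
  have hmain := D3_param q χ X Y A1 A2 hY
  have hX2 : (0 : ℝ) < (X : ℝ) ^ 2 := by positivity
  have hq : (0 : ℝ) ≤ q := by positivity
  have hfin : (X : ℝ) ^ 2 * (1 + Real.log B0) ≤
      (X : ℝ) ^ 2 * (8 + 6 * Real.log (1 + Real.log X)) :=
    mul_le_mul_of_nonneg_left (by linarith) hX2.le
  have hfin2 : (X : ℝ) ^ 2 + 2 * (16 * q * (X : ℝ) ^ 2 + (X : ℝ) ^ 2 * (8 + 6 * Real.log (1 + Real.log X)))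
      ≤ (17 + 32 * q) * (X : ℝ) ^ 2 * (1 + Real.log (1 + Real.log X)) := by
    have h5 : 0 ≤ (X : ℝ) ^ 2 * Real.log (1 + Real.log X) := mul_nonneg hX2.le hL0
    have h6 : 0 ≤ (q : ℝ) * ((X : ℝ) ^ 2 * Real.log (1 + Real.log X)) := mul_nonneg hq h5
    nlinarith
  linarith

end PS25
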