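import Mathlib

/-!
# PS25: definitions for the theorem on the signs of `S(a,1;mn)` (MP_6ea630_nt, ProductSigns)
-/

set_option autoImplicit false

noncomputable section

namespace PS25

open Finset

/-- an even family of signs at the primes, with the value `0` at `0` -/
structure Ev (s : (p : ℕ) → ZMod p → ℝ) : Prop where
  zero : ∀ p : ℕ, p.Prime → s p 0 = 0
  pm : ∀ p : ℕ, p.Prime → ∀ x : ZMod p, x ≠ 0 → s p x = 1 ∨ s p x = -1
  even : ∀ (p : ℕ) (x : ZMod p), s p (-x) = s p x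

/-- the product of the signs `s p (t m / p)` over the prime factors `p` of `m` -/
def Th (s : (p : ℕ) → ZMod p → ℝ) (m : ℕ) (t : ℤ) : ℝ :=
  ∏ p ∈ m.primeFactors, s p ((t * ((m / p : ℕ) : ℤ) : ℤ) : ZMod p)

/-- the part which depends only on the product `D = u v` -/
def Psi (s : (p : ℕ) → ZMod p → ℝ) (C : ℤ) (j D : ℕ) : ℝ :=
  ∏ p ∈ D.primeFactors, s p ((C : ZMod p) * (j : ZMod p)⁻¹ * ((D / p : ℕ) : ZMod p))

/-- multiplicative functions with values `1` and `-1` -/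
def SM (g : ℕ → ℝ) : Prop :=
  (∀ n, g n = 1 ∨ g n = -1) ∧ ∀ m n : ℕ, m.Coprime n → g (m * n) = g m * g n

/-- bounded weights modulo `N` -/
def Wt (N : ℕ) (w : ZMod N → ℝ) : Prop := ∀ x, |w x| ≤ 1

/-- the coefficient of `m` for the modulus `L r`, without the factor `Th s r (L m)` -/
def hh (s : (p : ℕ) → ZMod p → ℝ) (g : ℕ → ℝ) (N : ℕ) (w : ZMod N → ℝ) (L r m : ℕ) : ℝ :=
  g m * w (m : ZMod N) * Th s L ((m * r : ℕ) : ℤ) * Th s m ((L * r : ℕ) : ℤ)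

/-- the range of `m` -/
def Mr (L N X : ℕ) : Finset ℕ := (Icc 1 X).filter fun m => Squarefree m ∧ m.Coprime (L * N)

/-- the bilinear sum for the fixed factor `L` -/
def TL (s : (p : ℕ) → ZMod p → ℝ) (g : ℕ → ℝ) (N : ℕ) (w : ZMod N → ℝ) (L X : ℕ) (β : ℕ → ℝ) : ℝ :=
  ∑ r ∈ (Icc 1 (X / L)).filter fun r => Squarefree (L * r),
    β r * ∑ m ∈ (Icc 1 X).filter fun m => Squarefree (m * (L * r)) ∧ m.Coprime N,
      g m * w (m : ZMod N) * Th s (m * (L * r)) 1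

/-- the sum over pairs in one class modulo `r` -/
def VV (s : (p : ℕ) → ZMod p → ℝ) (g : ℕ → ℝ) (N : ℕ) (w : ZMod N → ℝ) (L X R1 R : ℕ) : ℝ :=
  ∑ r ∈ Ioc R1 R, ∑ m ∈ Mr L N X, ∑ m' ∈ (Mr L N X).filter fun m' => m' ≡ m [MOD r],
    hh s g N w L r m * hh s g N w L r m'

/-- the part of the sum over pairs with `m = g₀ (v + j r)`, `m' = g₀ v` -/
def OO (s : (p : ℕ) → ZMod p → ℝ) (g : ℕ → ℝ) (N : ℕ) (w : ZMod N → ℝ) (L X R1 R g0 j : ℕ) : ℝ :=
  ∑ r ∈ Ioc R1 R, ∑ v ∈ (Icc 1 X).filter fun v =>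
      g0 * (v + j * r) ∈ Mr L N X ∧ g0 * v ∈ Mr L N X ∧ v.Coprime (v + j * r),
    hh s g N w L r (g0 * (v + j * r)) * hh s g N w L r (g0 * v)

/-- the divisors `u` of `D` with `D / u < u ≤ Y` and `A1 < u - D / u ≤ A2` -/
def Iu (Y A1 A2 D : ℕ) : Finset ℕ :=
  D.divisors.filter fun u => D / u < u ∧ u ≤ Y ∧ A1 < u - D / u ∧ u - D / u ≤ A2

/-- the known part, a function of `x` and `y` modulo `j L g₀ N` -/
def ee (s : (p : ℕ) → ZMod p → ℝ) (N : ℕ) (w : ZMod N → ℝ) (L g0 j : ℕ) (x y : ℤ) : ℝ :=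
  open scoped Classical in
  if (j : ℤ) ∣ x - y then
    w ((g0 * x : ℤ) : ZMod N) * w ((g0 * y : ℤ) : ZMod N) *
      (Th s L (g0 * x * ((x - y) / j)) * Th s L (g0 * y * ((x - y) / j))) *
      (Th s g0 (L * x * ((x - y) / j)) * Th s g0 (L * y * ((x - y) / j)))
  else 0

/-- periodic modulo `q` in both variables -/
def Per (q : ℕ) (e : ℤ → ℤ → ℝ) : Prop :=
  ∀ x x' y y' : ℤ, x ≡ x' [ZMOD q] → y ≡ y' [ZMOD q] → e x y = e x' y'

/-- the mean over the product classes of the absolute value of the sum over the factorisations -/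
def MM (q : ℕ) [NeZero q] (e : ℤ → ℤ → ℝ) : ℝ :=
  ∑ δ : (ZMod q)ˣ, |∑ x : (ZMod q)ˣ,
    e (((x : ZMod q).val : ℕ) : ℤ) (((((δ * x⁻¹ : (ZMod q)ˣ) : ZMod q)).val : ℕ) : ℤ)|

/-- the local function at a prime `l` of `L` -/
def el (s : (p : ℕ) → ZMod p → ℝ) (l : ℕ) (k : ZMod l) (x y : ℤ) : ℝ :=
  s l (k * x * (x - y)) * s l (k * y * (x - y))

/-- the local contraction at all primes with the property `P` from `l₁` on -/
def Loc (s : (p : ℕ) → ZMod p → ℝ) (κ : ℝ) (l1 : ℕ) (P : ℕ → Prop) : Prop :=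
  ∀ (l : ℕ) [Fact l.Prime], l1 ≤ l → P l → ∀ k : (ZMod l)ˣ,
    MM l (el s l k) ≤ κ * ((l : ℝ) - 1) ^ 2

/-- the mean over the factorisations of the class of `D` -/
def c0 (q : ℕ) [NeZero q] (e : ℤ → ℤ → ℝ) (D : ℕ) : ℝ :=
  open scoped Classical in
  if h : D.Coprime q then |∑ x : (ZMod q)ˣ, e (((x : ZMod q).val : ℕ) : ℤ)
    (((((ZMod.unitOfCoprime D h * x⁻¹ : (ZMod q)ˣ) : ZMod q)).val : ℕ) : ℤ)| / (q.totient : ℝ) else 0

/-- the values `b > c` for given `a`, `c`, `d` in the second moment -/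
def Bs (Y A1 A2 a c d : ℕ) : Finset ℕ :=
  (Icc 1 Y).filter fun b => c < b ∧ Squarefree (a * b * c * d) ∧
    (c * d < a * b ∧ a * b ≤ Y ∧ A1 < a * b - c * d ∧ a * b - c * d ≤ A2) ∧
    (b * d < a * c ∧ a * c ≤ Y ∧ A1 < a * c - b * d ∧ a * c - b * d ≤ A2)

/-- autocorrelation -/
def acr (l : ℕ) [NeZero l] (f : ZMod l → ℝ) (w : ZMod l) : ℝ := ∑ v : ZMod l, f v * f (v + w)

/-- the sign function at the inverse -/
def rho (s : (p : ℕ) → ZMod p → ℝ) (l : ℕ) (v : ZMod l) : ℝ := s l v⁻¹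

/-- the real quadratic character -/
def qr (l : ℕ) [Fact l.Prime] (v : ZMod l) : ℝ := ((quadraticChar (ZMod l) v : ℤ) : ℝ)

/-- a set of primes with divergent sum of reciprocals -/
def Dv (P : ℕ → Prop) : Prop :=
  ∀ (y : ℕ) (B : ℝ), ∃ z : ℕ, B ≤ open scoped Classical in
    ∑ p ∈ (Ioc y z).filter fun p => p.Prime ∧ P p, 1 / (p : ℝ)

end PS25
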