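import Pool.Agent.LibPS25.Defs

/-
PLAN (E1). el s l k x (delta x^-1) = s (k (z - delta)) s (k delta (z - delta) / z) with z = x^2 (the values of MM are classes mod l, ZMod.natCast_zmod_val). The sum over the units x of f(x^2)
is the sum over the units z of (1 + qr z) f(z) (LibPA15.C sum_sq / quadraticChar_card_sqrts: copy). z = delta gives 0 (s 0 = 0). For z /= delta put v = (k (z - delta))^-1 /= 0, w = (k delta)^-1:
s(k (z - delta)) = rho v; z v / delta = v + w, so s (k delta (z - delta)/z) = rho (v + w); z /= 0 iff v /= -w, and rho(0) = s 0 = 0. qr z = qr (delta) qr (v) qr (v + w)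
(z = delta (v + w)/v). So the sum is acr rho w + qr delta acr (qr rho) w.
-/

set_option autoImplicit false

noncomputable section

namespace PS25

open Finset

/-- the local function of the square class -/
private def E1_f (s : (p : ℕ) → ZMod p → ℝ) (l : ℕ) (k δ z : ZMod l) : ℝ :=
  s l (k * (z - δ)) * s l (k * δ * (z - δ) * z⁻¹)

private lemma E1_el (s : (p : ℕ) → ZMod p → ℝ) (l : ℕ) [Fact l.Prime] (k δ x : (ZMod l)ˣ) :
    el s l k (((x : ZMod l).val : ℕ) : ℤ)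
        (((((δ * x⁻¹ : (ZMod l)ˣ) : ZMod l)).val : ℕ) : ℤ) =
      E1_f s l k δ ((x ^ 2 : (ZMod l)ˣ) : ZMod l) := by
  have hx : (x : ZMod l) ≠ 0 := x.ne_zero
  unfold el E1_f
  simp only [Int.cast_natCast, ZMod.natCast_zmod_val]
  rw [Units.val_mul, Units.val_inv_eq_inv_val, Units.val_pow_eq_pow_val]
  have e1 : (k : ZMod l) * (x : ZMod l) * ((x : ZMod l) - (δ : ZMod l) * (x : ZMod l)⁻¹) =
      (k : ZMod l) * ((x : ZMod l) ^ 2 - (δ : ZMod l)) := by
    field_simp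
  have e2 : (k : ZMod l) * ((δ : ZMod l) * (x : ZMod l)⁻¹) *
      ((x : ZMod l) - (δ : ZMod l) * (x : ZMod l)⁻¹) =
      (k : ZMod l) * (δ : ZMod l) * ((x : ZMod l) ^ 2 - (δ : ZMod l)) * ((x : ZMod l) ^ 2)⁻¹ := by
    field_simp
  rw [e1, e2]

private lemma E1_card {l : ℕ} [Fact l.Prime] (h2 : l ≠ 2) (t : (ZMod l)ˣ) :
    (((univ.filter fun u : (ZMod l)ˣ => u ^ 2 = t).card : ℕ) : ℝ) = 1 + qr l (t : ZMod l) := by
  classical
  have hF : ringChar (ZMod l) ≠ 2 := by rw [ZMod.ringChar_zmod_n]; exact h2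
  have h := quadraticChar_card_sqrts hF (t : ZMod l)
  have e : (univ.filter fun u : (ZMod l)ˣ => u ^ 2 = t).card =
      ({x : ZMod l | x ^ 2 = (t : ZMod l)} : Set (ZMod l)).toFinset.card := by
    refine card_bij (fun u _ => (u : ZMod l)) ?_ ?_ ?_
    · intro u hu
      rw [mem_filter] at hu
      rw [Set.mem_toFinset, Set.mem_ofPred_eq, ← hu.2, Units.val_pow_eq_pow_val]
    · intro u _ v _ h
      exact Units.ext h
    · intro x hx
      rw [Set.mem_toFinset, Set.mem_ofPred_eq] at hx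
      have hx0 : x ≠ 0 := by
        rintro rfl
        apply t.ne_zero
        rw [← hx]; ring
      refine ⟨Units.mk0 x hx0, ?_, rfl⟩
      rw [mem_filter]
      refine ⟨mem_univ _, Units.ext ?_⟩
      rw [Units.val_pow_eq_pow_val, Units.val_mk0, hx]
  rw [e]
  unfold qr
  have h' : ((({x : ZMod l | x ^ 2 = (t : ZMod l)} : Set (ZMod l)).toFinset.card : ℤ) : ℝ) =
      ((quadraticChar (ZMod l) (t : ZMod l) + 1 : ℤ) : ℝ) := by exact_mod_cast h
  push_cast at h'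
  rw [add_comm]
  exact_mod_cast h'

private lemma E1_sum_sq {l : ℕ} [Fact l.Prime] (h2 : l ≠ 2) (H : (ZMod l)ˣ → ℝ) :
    ∑ u : (ZMod l)ˣ, H (u ^ 2) = ∑ t : (ZMod l)ˣ, H t * (1 + qr l (t : ZMod l)) := by
  classical
  rw [← sum_fiberwise univ (fun u : (ZMod l)ˣ => u ^ 2) (fun u => H (u ^ 2))]
  refine sum_congr rfl fun t _ => ?_
  rw [← E1_card h2 t]
  rw [sum_congr rfl (fun u hu => by rw [(mem_filter.1 hu).2] : ∀ u ∈ univ.filter
    (fun u : (ZMod l)ˣ => u ^ 2 = t), H (u ^ 2) = H t), sum_const, nsmul_eq_mul, mul_comm]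

private lemma E1_units {l : ℕ} [Fact l.Prime] (g : ZMod l → ℝ) (h0 : g 0 = 0) :
    ∑ t : (ZMod l)ˣ, g (t : ZMod l) = ∑ z : ZMod l, g z := by
  classical
  refine sum_bij_ne_zero (fun t _ _ => (t : ZMod l)) (fun _ _ _ => mem_univ _)
    (fun a _ _ b _ _ h => Units.ext h) ?_ (fun _ _ _ => rfl)
  intro z _ hz
  have hz0 : z ≠ 0 := fun h => hz (by rw [h, h0])
  exact ⟨Units.mk0 z hz0, mem_univ _, by rw [Units.val_mk0]; exact hz, rfl⟩

private lemma E1_sub {s : (p : ℕ) → ZMod p → ℝ} (hs : Ev s) (l : ℕ) [Fact l.Prime]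
    (k δ : ZMod l) (hk : k ≠ 0) (hd : δ ≠ 0) (c : ZMod l → ℝ) :
    ∑ z : ZMod l, c z * E1_f s l k δ z =
      ∑ v : ZMod l, c (δ * (v + (k * δ)⁻¹) * v⁻¹) * (rho s l v * rho s l (v + (k * δ)⁻¹)) := by
  classical
  have hp : l.Prime := Fact.out
  have hs0 : s l 0 = 0 := hs.zero l hp
  have hf : ∀ z : ZMod l, c z * E1_f s l k δ z ≠ 0 → z ≠ 0 ∧ z - δ ≠ 0 := by
    intro z hz
    refine ⟨?_, ?_⟩
    · rintro rfl
      apply hz
      unfold E1_f
      rw [inv_zero, mul_zero, hs0, mul_zero, mul_zero]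
    · intro h
      apply hz
      unfold E1_f
      rw [h, mul_zero, hs0, zero_mul, mul_zero]
  have hkey : ∀ z : ZMod l, z ≠ 0 → z - δ ≠ 0 →
      (k * (z - δ))⁻¹ + (k * δ)⁻¹ = (k * δ * (z - δ) * z⁻¹)⁻¹ := by
    intro z hz hzd
    field_simp
    ring
  have hkey2 : ∀ z : ZMod l, z ≠ 0 → z - δ ≠ 0 →
      δ * ((k * (z - δ))⁻¹ + (k * δ)⁻¹) * ((k * (z - δ))⁻¹)⁻¹ = z := by
    intro z hz hzd
    rw [hkey z hz hzd]
    field_simp
  have hgen : ∀ z : ZMod l, z ≠ 0 → z - δ ≠ 0 → E1_f s l k δ z =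
      rho s l (k * (z - δ))⁻¹ * rho s l ((k * (z - δ))⁻¹ + (k * δ)⁻¹) := by
    intro z hz hzd
    rw [hkey z hz hzd]
    unfold E1_f rho
    rw [inv_inv, inv_inv]
  refine sum_bij_ne_zero (fun z _ _ => (k * (z - δ))⁻¹) (fun _ _ _ => mem_univ _) ?_ ?_ ?_
  · intro a _ ha b _ hb h
    have h1 : k * (a - δ) = k * (b - δ) := inv_injective h
    have h2 : a - δ = b - δ := mul_left_cancel₀ hk h1
    exact sub_left_injective h2
  · intro v _ hv
    have hv0 : v ≠ 0 := by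
      rintro rfl
      apply hv
      unfold rho
      rw [inv_zero, hs0, zero_mul, mul_zero]
    have hw0 : v + (k * δ)⁻¹ ≠ 0 := by
      intro h
      apply hv
      rw [h]
      unfold rho
      simp only [inv_zero, hs0, mul_zero]
    have hz0 : δ * (v + (k * δ)⁻¹) * v⁻¹ ≠ 0 :=
      mul_ne_zero (mul_ne_zero hd hw0) (inv_ne_zero hv0)
    have hzd : δ * (v + (k * δ)⁻¹) * v⁻¹ - δ = k⁻¹ * v⁻¹ := by
      field_simp
      ring
    have hzd0 : δ * (v + (k * δ)⁻¹) * v⁻¹ - δ ≠ 0 := by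
      rw [hzd]
      exact mul_ne_zero (inv_ne_zero hk) (inv_ne_zero hv0)
    have hvv : (k * (δ * (v + (k * δ)⁻¹) * v⁻¹ - δ))⁻¹ = v := by
      rw [hzd]
      field_simp
    have hval : c (δ * (v + (k * δ)⁻¹) * v⁻¹) *
        E1_f s l k δ (δ * (v + (k * δ)⁻¹) * v⁻¹) =
        c (δ * (v + (k * δ)⁻¹) * v⁻¹) * (rho s l v * rho s l (v + (k * δ)⁻¹)) := by
      have h3 := hgen _ hz0 hzd0
      rw [hvv] at h3
      rw [h3]
    exact ⟨δ * (v + (k * δ)⁻¹) * v⁻¹, mem_univ _, by rw [hval]; exact hv, hvv⟩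
  · intro z _ hz
    obtain ⟨hz0, hzd⟩ := hf z hz
    rw [hkey2 z hz0 hzd, hkey z hz0 hzd]
    unfold E1_f rho
    rw [inv_inv, inv_inv]

private lemma E1_qr_mul {l : ℕ} [Fact l.Prime] (a b : ZMod l) : qr l (a * b) = qr l a * qr l b := by
  unfold qr
  rw [map_mul]
  push_cast
  rfl

private lemma E1_qr_inv {l : ℕ} [Fact l.Prime] (a : ZMod l) : qr l a⁻¹ = qr l a := by
  by_cases h : a = 0
  · rw [h, inv_zero]
  · unfold qr
    have h1 : quadraticChar (ZMod l) a⁻¹ = quadraticChar (ZMod l) a := by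
      have h2 : quadraticChar (ZMod l) a⁻¹ * quadraticChar (ZMod l) a = 1 := by
        rw [← map_mul, inv_mul_cancel₀ h, map_one]
      rcases quadraticChar_dichotomy h with h3 | h3
      · rw [h3] at h2 ⊢
        linarith
      · rw [h3] at h2 ⊢
        linarith
    rw [h1]

theorem E1_change {s : (p : ℕ) → ZMod p → ℝ} (hs : Ev s) (l : ℕ) [Fact l.Prime] (h2 : l ≠ 2)
    (k δ : (ZMod l)ˣ) :
    ∑ x : (ZMod l)ˣ, el s l k (((x : ZMod l).val : ℕ) : ℤ)
        (((((δ * x⁻¹ : (ZMod l)ˣ) : ZMod l)).val : ℕ) : ℤ) =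
      acr l (rho s l) (((k * δ)⁻¹ : (ZMod l)ˣ) : ZMod l) + qr l (δ : ZMod l) *
        acr l (fun v => qr l v * rho s l v) (((k * δ)⁻¹ : (ZMod l)ˣ) : ZMod l) := by
  classical
  have hp : l.Prime := Fact.out
  have hs0 : s l 0 = 0 := hs.zero l hp
  have hk : (k : ZMod l) ≠ 0 := k.ne_zero
  have hd : (δ : ZMod l) ≠ 0 := δ.ne_zero
  have hw : (((k * δ)⁻¹ : (ZMod l)ˣ) : ZMod l) = ((k : ZMod l) * (δ : ZMod l))⁻¹ := by
    rw [Units.val_inv_eq_inv_val, Units.val_mul]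
  rw [hw]
  have h1 : ∑ x : (ZMod l)ˣ, el s l k (((x : ZMod l).val : ℕ) : ℤ)
        (((((δ * x⁻¹ : (ZMod l)ˣ) : ZMod l)).val : ℕ) : ℤ) =
      ∑ x : (ZMod l)ˣ, (fun t : (ZMod l)ˣ => E1_f s l k δ (t : ZMod l)) (x ^ 2) :=
    sum_congr rfl fun x _ => E1_el s l k δ x
  have h0 : E1_f s l k δ 0 * (1 + qr l (0 : ZMod l)) = 0 := by
    unfold E1_f
    rw [inv_zero, mul_zero, hs0, mul_zero, zero_mul]
  have h3 : ∑ t : (ZMod l)ˣ, (fun t : (ZMod l)ˣ => E1_f s l k δ (t : ZMod l)) t *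
      (1 + qr l (t : ZMod l)) = ∑ z : ZMod l, E1_f s l k δ z * (1 + qr l z) :=
    E1_units (fun z => E1_f s l k δ z * (1 + qr l z)) h0
  have h4 : ∑ z : ZMod l, E1_f s l k δ z * (1 + qr l z) =
      ∑ z : ZMod l, (fun _ => (1 : ℝ)) z * E1_f s l k δ z +
        ∑ z : ZMod l, qr l z * E1_f s l k δ z := by
    rw [← sum_add_distrib]
    refine sum_congr rfl fun z _ => ?_
    ring
  rw [h1, E1_sum_sq h2 (fun t : (ZMod l)ˣ => E1_f s l k δ (t : ZMod l)), h3, h4, E1_sub hs l k δ hk hd (fun _ => 1), E1_sub hs l k δ hk hd (qr l)]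
  unfold acr
  rw [mul_sum]
  congr 1
  · refine sum_congr rfl fun v _ => ?_
    rw [one_mul]
  · refine sum_congr rfl fun v _ => ?_
    rw [E1_qr_mul, E1_qr_mul, E1_qr_inv]
    ring

end PS25
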