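import Pool.Agent.LibPS25.E1

/-
PLAN (E2). By E1_change MM = sum over delta of |A(w) + qr(delta) B(w)|, w = (k delta)^-1. delta -> -delta: w -> -w, A(-w) = A(w), B(-w) = B(w) (an autocorrelation is even: shift the
variable), qr(-delta) = -qr(delta) (l = 3 mod 4: quadraticChar (-1) = -1, see Kloo.chi_neg_one in LibKloosterman.Negative). So 2 MM = sum (|A + qr B| + |A - qr B|) <= 2 sum sqrt(2)... precisely
|A + B| + |A - B| = 2 max(|A|,|B|) <= 2 sqrt(A^2 + B^2); then Cauchy-Schwarz over the l - 1 values delta and delta -> w a bijection onto the units: <= ((l - 1) sum_w (A^2 + B^2))^(1/2).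
-/

set_option autoImplicit false

noncomputable section

namespace PS25

open Finset

private theorem E2_acr_neg (l : ℕ) [NeZero l] (f : ZMod l → ℝ) (w : ZMod l) :
    acr l f (-w) = acr l f w := by
  unfold acr
  refine Fintype.sum_equiv (Equiv.addRight (-w)) _ _ fun v => ?_
  simp only [Equiv.coe_addRight, neg_add_cancel_right]
  ring

private theorem E2_qr_neg (l : ℕ) [Fact l.Prime] (h3 : l % 4 = 3) (x : ZMod l) :
    qr l (-x) = -qr l x := by
  have h2 : ringChar (ZMod l) ≠ 2 := by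
    rw [ZMod.ringChar_zmod_n]
    rintro rfl
    omega
  have h1 : quadraticChar (ZMod l) (-1) = -1 := by
    rw [quadraticChar_neg_one h2, ZMod.card]
    rw [ZMod.χ₄_nat_three_mod_four h3]
  unfold qr
  rw [neg_eq_neg_one_mul, map_mul, h1]
  push_cast
  ring

private theorem E2_qr_sq (l : ℕ) [Fact l.Prime] (u : (ZMod l)ˣ) : qr l (u : ZMod l) ^ 2 = 1 := by
  unfold qr
  have h1 := quadraticChar_sq_one (F := ZMod l) (Units.ne_zero u)
  exact_mod_cast h1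

private theorem E2_two (A B q : ℝ) (hq : q ^ 2 = 1) :
    |A + q * B| + |A + -q * B| ≤ 2 * Real.sqrt (A ^ 2 + B ^ 2) := by
  have h0 : 0 ≤ A ^ 2 + B ^ 2 := by positivity
  have h1 := Real.sq_sqrt h0
  have h2 := Real.sqrt_nonneg (A ^ 2 + B ^ 2)
  apply le_of_sq_le_sq _ (by positivity)
  have h3 : (2 * Real.sqrt (A ^ 2 + B ^ 2)) ^ 2 = 4 * (A ^ 2 + B ^ 2) := by
    rw [mul_pow, h1]; ring
  rw [h3]
  have h4 : |A + q * B| ^ 2 = (A + q * B) ^ 2 := sq_abs _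
  have h5 : |A + -q * B| ^ 2 = (A + -q * B) ^ 2 := sq_abs _
  have h6 : 2 * (|A + q * B| * |A + -q * B|) ≤ |A + q * B| ^ 2 + |A + -q * B| ^ 2 := by
    nlinarith [sq_nonneg (|A + q * B| - |A + -q * B|)]
  have h7 : (A + q * B) ^ 2 + (A + -q * B) ^ 2 = 2 * (A ^ 2 + B ^ 2) := by
    have : (A + q * B) ^ 2 + (A + -q * B) ^ 2 = 2 * (A ^ 2 + q ^ 2 * B ^ 2) := by ring
    rw [this, hq]; ring
  nlinarith

private theorem E2_units (l : ℕ) [Fact l.Prime] (f : ZMod l → ℝ) (hf : ∀ x, 0 ≤ f x)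
    (k : (ZMod l)ˣ) : ∑ δ : (ZMod l)ˣ, f (((k * δ)⁻¹ : (ZMod l)ˣ) : ZMod l) ≤ ∑ w, f w := by
  classical
  have hinj : Function.Injective fun δ : (ZMod l)ˣ => (((k * δ)⁻¹ : (ZMod l)ˣ) : ZMod l) := by
    intro a b hab
    have h1 : (k * a)⁻¹ = (k * b)⁻¹ := Units.ext hab
    exact mul_left_cancel (inv_injective h1)
  calc ∑ δ : (ZMod l)ˣ, f (((k * δ)⁻¹ : (ZMod l)ˣ) : ZMod l)
      = ∑ w ∈ Finset.univ.map ⟨_, hinj⟩, f w := by
        rw [Finset.sum_map]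
        rfl
    _ ≤ ∑ w, f w := Finset.sum_le_sum_of_subset_of_nonneg (Finset.subset_univ _)
        fun w _ _ => hf w

theorem E2_max {s : (p : ℕ) → ZMod p → ℝ} (hs : Ev s) (l : ℕ) [Fact l.Prime] (h3 : l % 4 = 3)
    (k : (ZMod l)ˣ) :
    MM l (el s l k) ≤ Real.sqrt (((l : ℝ) - 1) * (∑ w : ZMod l, acr l (rho s l) w ^ 2 +
      ∑ w : ZMod l, acr l (fun v => qr l v * rho s l v) w ^ 2)) := by
  classical
  have h2 : l ≠ 2 := by
    rintro rfl
    omega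
  set A : (ZMod l)ˣ → ℝ := fun δ => acr l (rho s l) (((k * δ)⁻¹ : (ZMod l)ˣ) : ZMod l) with hA
  set B : (ZMod l)ˣ → ℝ := fun δ =>
    acr l (fun v => qr l v * rho s l v) (((k * δ)⁻¹ : (ZMod l)ˣ) : ZMod l) with hB
  have hMM : MM l (el s l k) = ∑ δ : (ZMod l)ˣ, |A δ + qr l (δ : ZMod l) * B δ| := by
    unfold MM
    exact Finset.sum_congr rfl fun δ _ => by rw [E1_change hs l h2 k δ]
  have hneg : ∀ δ : (ZMod l)ˣ, (((k * -δ)⁻¹ : (ZMod l)ˣ) : ZMod l) =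
      -(((k * δ)⁻¹ : (ZMod l)ˣ) : ZMod l) := by
    intro δ
    rw [mul_neg, inv_neg, Units.val_neg]
  have hMM' : MM l (el s l k) = ∑ δ : (ZMod l)ˣ, |A δ + -qr l (δ : ZMod l) * B δ| := by
    rw [hMM]
    refine Fintype.sum_equiv (Equiv.neg _) _ _ fun δ => ?_
    simp only [Equiv.neg_apply, hA, hB]
    rw [hneg, E2_acr_neg, E2_acr_neg, Units.val_neg, E2_qr_neg l h3, neg_neg]
  have hMM2 : MM l (el s l k) ≤ ∑ δ : (ZMod l)ˣ, Real.sqrt (A δ ^ 2 + B δ ^ 2) := by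
    have h4 : 2 * MM l (el s l k) = ∑ δ : (ZMod l)ˣ,
        (|A δ + qr l (δ : ZMod l) * B δ| + |A δ + -qr l (δ : ZMod l) * B δ|) := by
      rw [Finset.sum_add_distrib, ← hMM, ← hMM']
      ring
    have h5 : 2 * MM l (el s l k) ≤ ∑ δ : (ZMod l)ˣ, 2 * Real.sqrt (A δ ^ 2 + B δ ^ 2) := by
      rw [h4]
      exact Finset.sum_le_sum fun δ _ => E2_two _ _ _ (E2_qr_sq l δ)
    rw [← Finset.mul_sum] at h5
    linarith
  refine hMM2.trans ?_
  apply Real.le_sqrt_of_sq_le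
  have hcard : ((Finset.univ : Finset (ZMod l)ˣ).card : ℝ) = (l : ℝ) - 1 := by
    rw [Finset.card_univ, ZMod.card_units l, Nat.cast_sub (Fact.out : l.Prime).one_lt.le,
      Nat.cast_one]
  have h6 := sq_sum_le_card_mul_sum_sq (s := (Finset.univ : Finset (ZMod l)ˣ))
    (f := fun δ => Real.sqrt (A δ ^ 2 + B δ ^ 2))
  refine h6.trans ?_
  rw [hcard]
  have hl1 : (0 : ℝ) ≤ (l : ℝ) - 1 := by
    have := (Fact.out : l.Prime).one_lt
    have h7 : (1 : ℝ) ≤ l := by exact_mod_cast this.le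
    linarith
  apply mul_le_mul_of_nonneg_left _ hl1
  have h8 : ∀ δ : (ZMod l)ˣ, Real.sqrt (A δ ^ 2 + B δ ^ 2) ^ 2 = A δ ^ 2 + B δ ^ 2 :=
    fun δ => Real.sq_sqrt (by positivity)
  simp_rw [h8]
  rw [Finset.sum_add_distrib]
  exact add_le_add (E2_units l (fun w => acr l (rho s l) w ^ 2) (fun w => sq_nonneg _) k)
    (E2_units l (fun w => acr l (fun v => qr l v * rho s l v) w ^ 2) (fun w => sq_nonneg _) k)

end PS25
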