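import Pool.Agent.LibPS25.Defs

/-
PLAN (E3). F(xi) = sum_v f(v) psi(xi v), psi = ZMod.stdAddChar. Parseval: sum_xi |F|^2 = l sum f^2 =: l Q. acr f is the correlation, its transform is |F(xi)|^2 (up to xi -> -xi), so
l sum_w acr(w)^2 = sum_xi |F(xi)|^4. F(0) = S = sum f. For xi /= 0: |F(-xi)| = |F(xi)| (f real) and -xi /= xi, so 2 |F(xi)|^2 <= l Q - S^2; this gives the first bound
sum_xi |F|^4 <= S^4 + (l Q - S^2)^2/2. Second bound: |F(xi)| <= (2/3) l for xi /= 0, |f| <= 1: with theta such that |F(xi)| = Re(c F(xi)), |c| = 1: |F(xi)| = sum f(v) Re(c psi(xi v)) <= sum |t_v|,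
t_v = Re(c psi(xi v)) in [-1, 1], |t| <= 2/9 + (11/9) t^2 - (4/9) t^4 (2 + 11 t^2 - 4 t^4 - 9 t = (1 - t)(2t - 1)^2 (t + 2) for t = |t|), and
sum t_v^2 = l/2, sum t_v^4 = 3 l/8 (t = (c psi + conj)/2, the sums of psi(2 xi v), psi(4 xi v) vanish as l is odd), 2/9 + 11/18 - 1/6 = 2/3. So sum_{xi /= 0} |F|^4 <= (4/9) l^2 (l Q - S^2).
-/

set_option autoImplicit false

noncomputable section

namespace PS25

open Finset

private def FF (l : ℕ) [Fact l.Prime] (f : ZMod l → ℝ) (ξ : ZMod l) : ℂ :=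
  ∑ v : ZMod l, (f v : ℂ) * ZMod.stdAddChar (v * ξ)

private lemma conj_std (l : ℕ) [Fact l.Prime] (x : ZMod l) :
    (starRingEnd ℂ) (ZMod.stdAddChar x) = ZMod.stdAddChar (-x) := by
  rw [AddChar.map_neg_eq_conj]

private lemma norm_std (l : ℕ) [Fact l.Prime] (x : ZMod l) :
    ‖(ZMod.stdAddChar x : ℂ)‖ = 1 := by
  exact AddChar.norm_apply _ _

private lemma conj_FF (l : ℕ) [Fact l.Prime] (f : ZMod l → ℝ) (ξ : ZMod l) :
    (starRingEnd ℂ) (FF l f ξ) = FF l f (-ξ) := by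
  unfold FF
  rw [map_sum]
  refine Finset.sum_congr rfl fun v _ => ?_
  rw [map_mul, Complex.conj_ofReal, conj_std, mul_neg]

private lemma normSq_FF (l : ℕ) [Fact l.Prime] (f : ZMod l → ℝ) (ξ : ZMod l) :
    ((‖FF l f ξ‖ ^ 2 : ℝ) : ℂ) = FF l (acr l f) ξ := by
  have h1 : ((‖FF l f ξ‖ ^ 2 : ℝ) : ℂ) = FF l f ξ * (starRingEnd ℂ) (FF l f ξ) := by
    rw [Complex.mul_conj, Complex.normSq_eq_norm_sq]
  rw [h1, conj_FF]
  unfold FF acr
  rw [Finset.sum_mul_sum, Finset.sum_comm]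
  push_cast
  have h2 : ∀ v : ZMod l, ∑ x : ZMod l, (f x : ℂ) * ZMod.stdAddChar (x * ξ) *
      ((f v : ℂ) * ZMod.stdAddChar (v * -ξ)) =
      ∑ w : ZMod l, (f v : ℂ) * (f (v + w) : ℂ) * ZMod.stdAddChar (w * ξ) := by
    intro v
    rw [← Equiv.sum_comp (Equiv.addLeft v)]
    refine Finset.sum_congr rfl fun w _ => ?_
    simp only [Equiv.coe_addLeft]
    have : (ZMod.stdAddChar (w * ξ) : ℂ) =
        ZMod.stdAddChar ((v + w) * ξ) * ZMod.stdAddChar (v * -ξ) := by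
      rw [← AddChar.map_add_eq_mul]
      congr 1
      ring
    rw [this]
    ring
  rw [Finset.sum_congr rfl fun v _ => h2 v, Finset.sum_comm]
  refine Finset.sum_congr rfl fun w _ => ?_
  rw [Finset.sum_mul]

private lemma sum_FF (l : ℕ) [Fact l.Prime] (g : ZMod l → ℝ) :
    ∑ ξ : ZMod l, FF l g ξ = ((l * g 0 : ℝ) : ℂ) := by
  unfold FF
  rw [Finset.sum_comm]
  have h : ∀ v : ZMod l, ∑ ξ : ZMod l, (g v : ℂ) * ZMod.stdAddChar (v * ξ) =
      if v = 0 then (g v : ℂ) * l else 0 := by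
    intro v
    rw [← Finset.mul_sum]
    have := AddChar.sum_mulShift (R := ZMod l) (R' := ℂ) v (ZMod.isPrimitive_stdAddChar l)
    simp_rw [mul_comm v]
    rw [this]
    split_ifs <;> simp [ZMod.card]
  rw [Finset.sum_congr rfl fun v _ => h v]
  rw [Finset.sum_ite_eq' Finset.univ (0 : ZMod l)]
  simp [mul_comm]

private lemma parseval (l : ℕ) [Fact l.Prime] (f : ZMod l → ℝ) :
    ∑ ξ : ZMod l, ‖FF l f ξ‖ ^ 2 = l * ∑ v, f v ^ 2 := by
  have h : ((∑ ξ : ZMod l, ‖FF l f ξ‖ ^ 2 : ℝ) : ℂ) = ((l * ∑ v, f v ^ 2 : ℝ) : ℂ) := by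
    rw [Complex.ofReal_sum, Finset.sum_congr rfl fun ξ _ => normSq_FF l f ξ, sum_FF]
    congr 2
    unfold acr
    refine Finset.sum_congr rfl fun v _ => ?_
    rw [add_zero, sq]
  exact_mod_cast h

private lemma fourth (l : ℕ) [Fact l.Prime] (f : ZMod l → ℝ) :
    l * ∑ w : ZMod l, acr l f w ^ 2 = ∑ ξ : ZMod l, (‖FF l f ξ‖ ^ 2) ^ 2 := by
  rw [← parseval]
  refine Finset.sum_congr rfl fun ξ _ => ?_
  rw [← normSq_FF, Complex.norm_real, Real.norm_of_nonneg (by positivity)]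

private lemma FF_zero (l : ℕ) [Fact l.Prime] (f : ZMod l → ℝ) :
    ‖FF l f 0‖ ^ 2 = (∑ v, f v) ^ 2 := by
  have : FF l f 0 = ((∑ v, f v : ℝ) : ℂ) := by
    unfold FF
    simp
  rw [this, Complex.norm_real, Real.norm_eq_abs, sq_abs]

private lemma rest (l : ℕ) [Fact l.Prime] (f : ZMod l → ℝ) :
    ∑ ξ ∈ univ.erase (0 : ZMod l), ‖FF l f ξ‖ ^ 2 = l * ∑ v, f v ^ 2 - (∑ v, f v) ^ 2 := by
  rw [← parseval, ← FF_zero, ← Finset.add_sum_erase univ (fun ξ => ‖FF l f ξ‖ ^ 2) (mem_univ (0 : ZMod l))]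
  ring

private lemma fourth_le (l : ℕ) [Fact l.Prime] (f : ZMod l → ℝ) (B : ℝ)
    (hB : ∀ ξ : ZMod l, ξ ≠ 0 → ‖FF l f ξ‖ ^ 2 ≤ B) :
    l * ∑ w : ZMod l, acr l f w ^ 2 ≤
      (∑ v, f v) ^ 4 + (l * ∑ v, f v ^ 2 - (∑ v, f v) ^ 2) * B := by
  rw [fourth, ← Finset.add_sum_erase univ (fun ξ => (‖FF l f ξ‖ ^ 2) ^ 2) (mem_univ (0 : ZMod l)),
    ← rest, FF_zero, Finset.sum_mul]
  have h1 : ((∑ v, f v) ^ 2) ^ 2 = (∑ v, f v) ^ 4 := by ring
  rw [h1]
  gcongr with ξ hξ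
  rw [sq (‖FF l f ξ‖ ^ 2)]
  exact mul_le_mul_of_nonneg_left (hB ξ (Finset.ne_of_mem_erase hξ)) (by positivity)

private lemma neg_ne (l : ℕ) [Fact l.Prime] (h2 : l ≠ 2) (ξ : ZMod l) (h : ξ ≠ 0) : -ξ ≠ ξ := by
  intro h'
  have h3 : (2 : ZMod l) * ξ = 0 := by
    have : ξ + ξ = 0 := by
      nth_rewrite 1 [← h']
      simp
    rw [two_mul, this]
  rcases mul_eq_zero.mp h3 with h4 | h4
  · have : ((2 : ℕ) : ZMod l) = 0 := by exact_mod_cast h4
    rw [ZMod.natCast_eq_zero_iff] at this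
    have := (Nat.prime_dvd_prime_iff_eq (Fact.out : l.Prime) Nat.prime_two).mp this
    exact h2 this
  · exact h h4

private lemma two_ne (l : ℕ) [Fact l.Prime] (h2 : l ≠ 2) : (2 : ZMod l) ≠ 0 := by
  intro h4
  have : ((2 : ℕ) : ZMod l) = 0 := by exact_mod_cast h4
  rw [ZMod.natCast_eq_zero_iff] at this
  exact h2 ((Nat.prime_dvd_prime_iff_eq (Fact.out : l.Prime) Nat.prime_two).mp this)

theorem E3_energy (l : ℕ) [Fact l.Prime] (h2 : l ≠ 2) (f : ZMod l → ℝ) :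
    l * ∑ w : ZMod l, acr l f w ^ 2 ≤
      (∑ v, f v) ^ 4 + (l * ∑ v, f v ^ 2 - (∑ v, f v) ^ 2) ^ 2 / 2 := by
  have hB : ∀ ξ : ZMod l, ξ ≠ 0 →
      ‖FF l f ξ‖ ^ 2 ≤ (l * ∑ v, f v ^ 2 - (∑ v, f v) ^ 2) / 2 := by
    intro ξ hξ
    have h3 : ‖FF l f (-ξ)‖ = ‖FF l f ξ‖ := by
      rw [← conj_FF, RCLike.norm_conj]
    have h4 : ∑ η ∈ ({ξ, -ξ} : Finset (ZMod l)), ‖FF l f η‖ ^ 2 ≤
        ∑ η ∈ univ.erase (0 : ZMod l), ‖FF l f η‖ ^ 2 := by
      refine Finset.sum_le_sum_of_subset_of_nonneg ?_ fun _ _ _ => by positivity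
      intro η hη
      rw [Finset.mem_insert, Finset.mem_singleton] at hη
      rw [Finset.mem_erase]
      refine ⟨?_, mem_univ _⟩
      rcases hη with h | h
      · rw [h]; exact hξ
      · rw [h]; exact neg_ne_zero.mpr hξ
    rw [Finset.sum_pair (neg_ne l h2 ξ hξ).symm, rest, h3] at h4
    linarith
  have := fourth_le l f _ hB
  linarith [this]

private lemma poly (t : ℝ) (ht : |t| ≤ 1) :
    |t| ≤ 2 / 9 + 11 / 9 * t ^ 2 - 4 / 9 * t ^ 4 := by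
  have h0 : 0 ≤ |t| := abs_nonneg t
  have h2 : t ^ 2 = |t| ^ 2 := (sq_abs t).symm
  have h4 : t ^ 4 = |t| ^ 4 := by
    have : t ^ 4 = (t ^ 2) ^ 2 := by ring
    rw [this, h2]; ring
  rw [h2, h4]
  set u := |t| with hu
  have h5 : 0 ≤ (1 - u) * (2 * u - 1) ^ 2 * (u + 2) := by
    have : 0 ≤ 1 - u := by linarith
    positivity
  nlinarith [h5]

private lemma sum_std_pow (l : ℕ) [Fact l.Prime] (b : ZMod l) (hb : b ≠ 0) :
    ∑ v : ZMod l, (ZMod.stdAddChar (v * b) : ℂ) = 0 := by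
  have := AddChar.sum_mulShift (R := ZMod l) (R' := ℂ) b (ZMod.isPrimitive_stdAddChar l)
  rw [this, if_neg hb]
  simp

private lemma bound_FF (l : ℕ) [Fact l.Prime] (h2 : l ≠ 2) (f : ZMod l → ℝ)
    (hf : ∀ v, |f v| ≤ 1) (ξ : ZMod l) (hξ : ξ ≠ 0) : ‖FF l f ξ‖ ≤ 2 / 3 * l := by
  obtain ⟨c, hc, hcF⟩ : ∃ c : ℂ, ‖c‖ = 1 ∧ c * FF l f ξ = (‖FF l f ξ‖ : ℂ) := by
    by_cases h : FF l f ξ = 0
    · exact ⟨1, by simp, by simp [h]⟩
    · refine ⟨(‖FF l f ξ‖ : ℂ) / FF l f ξ, ?_, ?_⟩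
      · rw [norm_div, Complex.norm_real, norm_norm, div_self (norm_ne_zero_iff.mpr h)]
      · field_simp
  set z : ZMod l → ℂ := fun v => c * ZMod.stdAddChar (v * ξ) with hz
  have hz1 : ∀ v, ‖z v‖ = 1 := by
    intro v
    rw [hz]
    simp only [norm_mul, hc, norm_std, mul_one]
  have hF : ‖FF l f ξ‖ = ∑ v, f v * (z v).re := by
    have h := congrArg Complex.re hcF
    rw [Complex.ofReal_re] at h
    rw [← h]
    unfold FF
    rw [Finset.mul_sum, Complex.re_sum]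
    refine Finset.sum_congr rfl fun v _ => ?_
    have : c * ((f v : ℂ) * ZMod.stdAddChar (v * ξ)) = (f v : ℂ) * z v := by
      rw [hz]; ring
    rw [this, Complex.re_ofReal_mul]
  have hre : ∀ v, |(z v).re| ≤ 1 := fun v => (Complex.abs_re_le_norm _).trans (hz1 v).le
  have hns : ∀ v, (z v).re ^ 2 + (z v).im ^ 2 = 1 := by
    intro v
    have h := Complex.normSq_apply (z v)
    rw [Complex.normSq_eq_norm_sq, hz1 v] at h
    nlinarith [h]
  have hsq : ∀ v, ((z v) ^ 2).re = 2 * (z v).re ^ 2 - 1 := by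
    intro v
    have h := hns v
    rw [sq, Complex.mul_re]
    nlinarith [h]
  have hsqim : ∀ v, ((z v) ^ 2).im = 2 * (z v).re * (z v).im := by
    intro v
    rw [sq, Complex.mul_im]
    ring
  have hfour : ∀ v, ((z v) ^ 4).re = 8 * (z v).re ^ 4 - 8 * (z v).re ^ 2 + 1 := by
    intro v
    have h := hns v
    have : (z v) ^ 4 = (z v) ^ 2 * (z v) ^ 2 := by ring
    rw [this, Complex.mul_re, hsq, hsqim]
    have him : (z v).im ^ 2 = 1 - (z v).re ^ 2 := by linarith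
    have : 2 * (z v).re * (z v).im * (2 * (z v).re * (z v).im) =
        4 * (z v).re ^ 2 * (z v).im ^ 2 := by ring
    rw [this, him]
    ring
  have hpow : ∀ (n : ℕ) (v : ZMod l), (z v) ^ n = c ^ n * ZMod.stdAddChar (v * ((n : ZMod l) * ξ)) := by
    intro n v
    rw [hz]
    simp only [mul_pow]
    congr 1
    rw [← AddChar.map_nsmul_eq_pow]
    congr 1
    rw [nsmul_eq_mul]
    ring
  have h2' := two_ne l h2
  have hs2 : ∑ v, (z v) ^ 2 = 0 := by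
    rw [Finset.sum_congr rfl fun v _ => hpow 2 v, ← Finset.mul_sum, sum_std_pow, mul_zero]
    push_cast
    exact mul_ne_zero h2' hξ
  have hs4 : ∑ v, (z v) ^ 4 = 0 := by
    rw [Finset.sum_congr rfl fun v _ => hpow 4 v, ← Finset.mul_sum, sum_std_pow, mul_zero]
    push_cast
    have : (4 : ZMod l) = 2 * 2 := by norm_num
    rw [this]
    exact mul_ne_zero (mul_ne_zero h2' h2') hξ
  have hcard : ∑ _v : ZMod l, (1 : ℝ) = l := by
    simp [ZMod.card]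
  have ht2 : ∑ v, (z v).re ^ 2 = (l : ℝ) / 2 := by
    have h := congrArg Complex.re hs2
    rw [Complex.re_sum, Complex.zero_re, Finset.sum_congr rfl fun v _ => hsq v,
      Finset.sum_sub_distrib, ← Finset.mul_sum, hcard] at h
    linarith
  have ht4 : ∑ v, (z v).re ^ 4 = 3 * (l : ℝ) / 8 := by
    have h := congrArg Complex.re hs4
    rw [Complex.re_sum, Complex.zero_re, Finset.sum_congr rfl fun v _ => hfour v,
      Finset.sum_add_distrib, Finset.sum_sub_distrib, ← Finset.mul_sum, ← Finset.mul_sum,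
      hcard, ht2] at h
    linarith
  calc ‖FF l f ξ‖ = ∑ v, f v * (z v).re := hF
    _ ≤ ∑ v, (2 / 9 * 1 + 11 / 9 * (z v).re ^ 2 - 4 / 9 * (z v).re ^ 4) := by
        refine Finset.sum_le_sum fun v _ => ?_
        have h1 : f v * (z v).re ≤ |(z v).re| := by
          calc f v * (z v).re ≤ |f v * (z v).re| := le_abs_self _
            _ = |f v| * |(z v).re| := abs_mul _ _
            _ ≤ 1 * |(z v).re| := by gcongr; exact hf v
            _ = |(z v).re| := one_mul _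
        rw [mul_one]
        exact h1.trans (poly _ (hre v))
    _ = 2 / 3 * l := by
        rw [Finset.sum_sub_distrib, Finset.sum_add_distrib, ← Finset.mul_sum, ← Finset.mul_sum,
          ← Finset.mul_sum, hcard, ht2, ht4]
        ring

theorem E3_energy' (l : ℕ) [Fact l.Prime] (h2 : l ≠ 2) (f : ZMod l → ℝ) (hf : ∀ v, |f v| ≤ 1) :
    l * ∑ w : ZMod l, acr l f w ^ 2 ≤
      (∑ v, f v) ^ 4 + (l * ∑ v, f v ^ 2 - (∑ v, f v) ^ 2) * (4 / 9 * (l : ℝ) ^ 2) := by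
  refine fourth_le l f _ fun ξ hξ => ?_
  have h := bound_FF l h2 f hf ξ hξ
  have h0 : 0 ≤ ‖FF l f ξ‖ := norm_nonneg _
  calc ‖FF l f ξ‖ ^ 2 ≤ (2 / 3 * (l : ℝ)) ^ 2 := by gcongr
    _ = 4 / 9 * (l : ℝ) ^ 2 := by ring

end PS25
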