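import Pool.Agent.LibSP15.Defs
import Pool.Agent.LibKloosterman.Triple
import Pool.Agent.LibPS25.Defs

/-
definition of the signs
-/

set_option autoImplicit false

noncomputable section

namespace PS25

open Finset

/-- the sign of `S(a x⁻², 1; p)` for `x ≠ 0` -/
def sg (a : ℤ) (p : ℕ) (x : ZMod p) : ℝ :=
  open scoped Classical in
  if h : p ≠ 0 then (if x = 0 then 0 else Real.sign (@Kloo.K p ⟨h⟩ ((a : ZMod p) * x⁻¹ ^ 2)).re) else 0

end PS25
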