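import Pool.Agent.LibPA15.C
import Pool.Agent.LibPS25.Sg

/-
PLAN (E4). rho (sg a) l v = sign of Kr l (a v^2) for v /= 0 (v^-1^-1 = v). K(u) := Kr l (a u^2), u a unit. |K| <= 2 sqrt l (PA15.Kr_le), sum K^2 >= l^2 - 2 l - 1 (PA15.second),
|sum K| <= 2 l (sum over u of K(a u^2) = sum over t of ff (a) t by PA15.sum_sq, and PA15.mellin_ff for phi = 1). So sum |K| >= (l^2 - 2 l - 1)/(2 sqrt l), the sum of the positive values is
(sum |K| + sum K)/2 and at most 2 sqrt l P, P = number of positive values: P >= l/8 - 1/4 - 1/(8 l) - sqrt l / 2; the same for the number of negative values; P + P' = l - 1, so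
|P - P'| <= (3/4) l + sqrt l <= .76 l for l >= 10^4.
-/

set_option autoImplicit false

noncomputable section

namespace PS25

open Finset

private lemma E4_rho (a : ℤ) (l : ℕ) [Fact l.Prime] (α : (ZMod l)ˣ) (hα : (α : ZMod l) = (a : ZMod l))
    (u : (ZMod l)ˣ) :
    rho (sg a) l (u : ZMod l) = Real.sign (PA15.Kr l ((α : ZMod l) * (u : ZMod l) ^ 2)) := by
  have hl0 : l ≠ 0 := (Fact.out : l.Prime).ne_zero
  have hu : (u : ZMod l)⁻¹ ≠ 0 := inv_ne_zero u.ne_zero
  unfold rho sg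
  rw [dif_pos hl0, if_neg hu, inv_inv, hα]
  rfl

private lemma E4_sum (a : ℤ) (l : ℕ) [Fact l.Prime] :
    ∑ v : ZMod l, rho (sg a) l v = ∑ u : (ZMod l)ˣ, rho (sg a) l (u : ZMod l) := by
  have hl0 : l ≠ 0 := (Fact.out : l.Prime).ne_zero
  have h0 : rho (sg a) l 0 = 0 := by
    unfold rho sg
    rw [dif_pos hl0, inv_zero, if_pos rfl]
  symm
  refine sum_of_injOn (fun u : (ZMod l)ˣ => (u : ZMod l)) ?_ ?_ ?_ ?_
  · intro u _ v _ h
    exact Units.ext h
  · intro u _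
    exact mem_coe.2 (mem_univ _)
  · intro v _ hv
    by_cases h : v = 0
    · rw [h, h0]
    · exact absurd ⟨Units.mk0 v h, mem_coe.2 (mem_univ _), rfl⟩ hv
  · intro u _
    rfl

theorem E4_mean (a : ℤ) (l : ℕ) [Fact l.Prime] (hl : 10 ^ 4 ≤ l) (ha : ¬ (l : ℤ) ∣ a) :
    |∑ v : ZMod l, rho (sg a) l v| ≤ 76 / 100 * l := by
  have ha0 : (a : ZMod l) ≠ 0 := by
    rw [Ne, ZMod.intCast_zmod_eq_zero_iff_dvd]
    exact ha
  have h2 : l ≠ 2 := by omega
  set α : (ZMod l)ˣ := Units.mk0 (a : ZMod l) ha0 with hαdef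
  have hα : (α : ZMod l) = (a : ZMod l) := rfl
  have hlR : (10 : ℝ) ^ 4 ≤ l := by exact_mod_cast hl
  set k : (ZMod l)ˣ → ℝ := fun u => PA15.Kr l ((α : ZMod l) * (u : ZMod l) ^ 2) with hk
  set s : (ZMod l)ˣ → ℝ := fun u => Real.sign (k u) with hs
  set q : ℝ := Real.sqrt l with hq
  have hq0 : 0 ≤ q := Real.sqrt_nonneg _
  have hqq : q * q = l := Real.mul_self_sqrt (Nat.cast_nonneg l)
  have hkb : ∀ u, |k u| ≤ 2 * q := fun u =>
    PA15.Kr_le _ (mul_ne_zero α.ne_zero (pow_ne_zero 2 u.ne_zero))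
  have hsec : (l : ℝ) ^ 2 - 2 * l - 1 ≤ ∑ u : (ZMod l)ˣ, k u ^ 2 := PA15.second h2 α
  have hsum : |∑ u : (ZMod l)ˣ, k u| ≤ 2 * l := by
    have e1 : ∑ u : (ZMod l)ˣ, k u = ∑ t : (ZMod l)ˣ, PA15.ff α t := by
      have h := PA15.sum_sq (d := l) h2 (fun t : (ZMod l)ˣ => PA15.Kr l ((α : ZMod l) * (t : ZMod l)))
      have e2 : ∑ u : (ZMod l)ˣ, k u = ∑ u : (ZMod l)ˣ,
          PA15.Kr l ((α : ZMod l) * ((u ^ 2 : (ZMod l)ˣ) : ZMod l)) := by
        refine sum_congr rfl fun u _ => ?_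
        rw [hk, Units.val_pow_eq_pow_val]
      rw [e2, h]
      rfl
    have h := PA15.mellin_ff (d := l) α 1
    have e3 : ∑ t : (ZMod l)ˣ, (1 : MulChar (ZMod l) ℂ) (t : ZMod l) * (PA15.ff α t : ℂ) =
        ((∑ t : (ZMod l)ˣ, PA15.ff α t : ℝ) : ℂ) := by
      rw [Complex.ofReal_sum]
      refine sum_congr rfl fun t _ => ?_
      rw [MulChar.one_apply_coe, one_mul]
    rw [e3, Complex.norm_real, Real.norm_eq_abs] at h
    rw [e1]
    exact h
  have hL1 : (l : ℝ) ^ 2 - 2 * l - 1 ≤ 2 * q * ∑ u : (ZMod l)ˣ, |k u| := by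
    refine hsec.trans ?_
    rw [mul_sum]
    refine sum_le_sum fun u _ => ?_
    rw [← sq_abs, pow_two]
    exact mul_le_mul_of_nonneg_right (hkb u) (abs_nonneg _)
  have hcard : ∑ _u : (ZMod l)ˣ, (1 : ℝ) = (l : ℝ) - 1 := by
    rw [sum_const, card_univ, nsmul_eq_mul, mul_one, PA15.card_units']
  have hplus : ∑ u : (ZMod l)ˣ, |k u| + ∑ u : (ZMod l)ˣ, k u ≤
      2 * q * ((l - 1) + ∑ u : (ZMod l)ˣ, s u) := by
    rw [← hcard, ← sum_add_distrib, ← sum_add_distrib, mul_sum]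
    refine sum_le_sum fun u _ => ?_
    have h1 := hkb u
    rcases lt_trichotomy (k u) 0 with h | h | h
    · have : s u = -1 := Real.sign_of_neg h
      rw [this, abs_of_neg h]
      linarith
    · have : s u = 0 := by rw [hs]; simp only; rw [h, Real.sign_zero]
      rw [this, h, abs_zero]
      linarith
    · have : s u = 1 := Real.sign_of_pos h
      rw [this, abs_of_pos h]
      rw [abs_of_pos h] at h1
      linarith
  have hminus : ∑ u : (ZMod l)ˣ, |k u| - ∑ u : (ZMod l)ˣ, k u ≤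
      2 * q * ((l - 1) - ∑ u : (ZMod l)ˣ, s u) := by
    rw [← hcard, ← sum_sub_distrib, ← sum_sub_distrib, mul_sum]
    refine sum_le_sum fun u _ => ?_
    have h1 := hkb u
    rcases lt_trichotomy (k u) 0 with h | h | h
    · have : s u = -1 := Real.sign_of_neg h
      rw [this]
      have h3 : |k u| - k u ≤ |k u| + |k u| := by linarith [neg_abs_le (k u)]
      linarith
    · have : s u = 0 := by rw [hs]; simp only; rw [h, Real.sign_zero]
      rw [this, h, abs_zero]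
      linarith
    · have : s u = 1 := Real.sign_of_pos h
      rw [this, abs_of_pos h]
      linarith
  have hS : ∑ v : ZMod l, rho (sg a) l v = ∑ u : (ZMod l)ˣ, s u := by
    rw [E4_sum]
    exact sum_congr rfl fun u _ => E4_rho a l α hα u
  rw [hS]
  set S := ∑ u : (ZMod l)ˣ, s u
  set T := ∑ u : (ZMod l)ˣ, |k u|
  set K := ∑ u : (ZMod l)ˣ, k u
  have hK := abs_le.1 hsum
  have hq100 : 100 * q ≤ l := by
    have h100 : 100 ≤ q := by
      rw [hq]
      have : (100 : ℝ) = Real.sqrt (100 ^ 2) := by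
        rw [Real.sqrt_sq (by norm_num)]
      rw [this]
      exact Real.sqrt_le_sqrt (by norm_num at hlR ⊢; linarith)
    nlinarith
  have hl0 : (0 : ℝ) < l := by linarith
  have hA : (l : ℝ) ^ 2 - 2 * l - 1 - 4 * q * l ≤ 4 * l * ((l - 1) + S) := by
    have h1 : 2 * q * (T + K) ≤ 2 * q * (2 * q * ((l - 1) + S)) :=
      mul_le_mul_of_nonneg_left hplus (by positivity)
    have h2' : 2 * q * (2 * q * (((l : ℝ) - 1) + S)) = 4 * l * ((l - 1) + S) := by
      rw [← hqq]; ring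
    have h3 : 2 * q * (-(2 * l)) ≤ 2 * q * K := mul_le_mul_of_nonneg_left hK.1 (by positivity)
    nlinarith
  have hB : (l : ℝ) ^ 2 - 2 * l - 1 - 4 * q * l ≤ 4 * l * ((l - 1) - S) := by
    have h1 : 2 * q * (T - K) ≤ 2 * q * (2 * q * ((l - 1) - S)) :=
      mul_le_mul_of_nonneg_left hminus (by positivity)
    have h2' : 2 * q * (2 * q * (((l : ℝ) - 1) - S)) = 4 * l * ((l - 1) - S) := by
      rw [← hqq]; ring
    have h3 : 2 * q * K ≤ 2 * q * (2 * l) := mul_le_mul_of_nonneg_left hK.2 (by positivity)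
    nlinarith
  have hql : 4 * q * l ≤ 4 / 100 * (l : ℝ) ^ 2 := by nlinarith
  rw [abs_le]
  constructor
  · have h1 : 4 * (l : ℝ) * (-S) ≤ 4 * l * (76 / 100 * l) := by nlinarith
    have h2' := le_of_mul_le_mul_left h1 (by positivity)
    linarith
  · have h1 : 4 * (l : ℝ) * S ≤ 4 * l * (76 / 100 * l) := by nlinarith
    exact le_of_mul_le_mul_left h1 (by positivity)

end PS25
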