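import Pool.Agent.LibPS25.E2
import Pool.Agent.LibPS25.E3
import Pool.Agent.LibPS25.E4
import Pool.Agent.LibPS25.A1

/-
PLAN (E5). l1 = max(10^4, |a| + 1). rho even, +-1 off 0. psi = qr rho: sum psi = 0 (odd: qr(-1) = -1), |psi| <= 1, sum psi^2 <= l: by E3_energy' l sum acr psi^2 <= (4/9) l^4.
rho: S = sum rho, m = S^2/l^2 <= .5776, Q <= l: if m <= 4/9, E3_energy' gives m^2 + (4/9)(1 - m) <= 4/9; if m > 4/9, E3_energy gives m^2 + (1 - m)^2/2 <= .4228 <= 4/9 (convex, check the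
end points). So MM <= ((l - 1) (8/9) l^3)^(1/2) <= (95/100) (l - 1)^2 for l >= 10^4 (8/9 l^3 <= .9025 (l - 1)^3).
-/

set_option autoImplicit false

noncomputable section

namespace PS25

open Finset

private theorem E5_qr_neg (l : ℕ) [Fact l.Prime] (h3 : l % 4 = 3) (x : ZMod l) :
    qr l (-x) = -qr l x := by
  have h2 : ringChar (ZMod l) ≠ 2 := by
    rw [ZMod.ringChar_zmod_n]
    rintro rfl
    omega
  have h1 : quadraticChar (ZMod l) (-1) = -1 := by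
    rw [quadraticChar_neg_one h2, ZMod.card]
    rw [ZMod.χ₄_nat_three_mod_four h3]
  unfold qr
  rw [neg_eq_neg_one_mul, map_mul, h1]
  push_cast
  ring

private theorem E5_rho {s : (p : ℕ) → ZMod p → ℝ} (hs : Ev s) (l : ℕ) [Fact l.Prime]
    (v : ZMod l) : |rho s l v| ≤ 1 := by
  unfold rho
  by_cases h0 : v⁻¹ = 0
  · rw [h0, hs.zero l Fact.out]
    norm_num
  · rcases hs.pm l Fact.out _ h0 with h | h <;> rw [h] <;> norm_num

private theorem E5_qr (l : ℕ) [Fact l.Prime] (v : ZMod l) : |qr l v| ≤ 1 := by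
  unfold qr
  by_cases h0 : v = 0
  · rw [h0, MulChar.map_zero]
    norm_num
  · rcases quadraticChar_dichotomy h0 with h | h <;> rw [h] <;> norm_num

private theorem E5_num (L S Q : ℝ) (hL : 0 < L) (hS : |S| ≤ 76 / 100 * L) (hQ : Q ≤ L)
    (hSQ : S ^ 2 ≤ L * Q) (E : ℝ) (h1 : L * E ≤ S ^ 4 + (L * Q - S ^ 2) ^ 2 / 2)
    (h2 : L * E ≤ S ^ 4 + (L * Q - S ^ 2) * (4 / 9 * L ^ 2)) : L * E ≤ 4 / 9 * L ^ 4 := by
  have hm0 : S ^ 2 ≤ (5776 / 10000) * L ^ 2 := by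
    have h3 := abs_le.1 hS
    nlinarith
  have hLQ : L * Q ≤ L ^ 2 := by nlinarith
  set M : ℝ := S ^ 2 with hM
  have hS4 : S ^ 4 = M ^ 2 := by rw [hM]; ring
  rw [hS4] at h1 h2
  have hM0 : 0 ≤ M := sq_nonneg S
  set P : ℝ := L ^ 2 with hP
  have hP0 : 0 < P := by positivity
  have hL4 : L ^ 4 = P ^ 2 := by rw [hP]; ring
  rw [hL4]
  by_cases hc : M ≤ 4 / 9 * P
  · refine h2.trans ?_
    have h3 : (L * Q - M) * (4 / 9 * P) ≤ (P - M) * (4 / 9 * P) := by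
      apply mul_le_mul_of_nonneg_right _ (by positivity)
      linarith
    nlinarith
  · push Not at hc
    refine h1.trans ?_
    have h3 : (L * Q - M) ^ 2 ≤ (P - M) ^ 2 := by
      apply pow_le_pow_left₀ (by linarith)
      linarith
    nlinarith [mul_nonneg (sub_nonneg.2 hc.le) (sub_nonneg.2 hm0), mul_nonneg hP0.le hM0,
      mul_nonneg hP0.le (sub_nonneg.2 hm0), mul_nonneg hP0.le (sub_nonneg.2 hc.le)]

theorem E5_loc (a : ℤ) (ha : a ≠ 0) : ∃ l1 : ℕ, Loc (sg a) (95 / 100) l1 (fun p => p % 4 = 3) := by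
  classical
  refine ⟨max (10 ^ 4) (a.natAbs + 1), fun l hl hl1 hl3 k => ?_⟩
  have hp : l.Prime := Fact.out
  have hl4 : 10 ^ 4 ≤ l := (le_max_left _ _).trans hl1
  have hla : a.natAbs + 1 ≤ l := (le_max_right _ _).trans hl1
  have hdvd : ¬ (l : ℤ) ∣ a := by
    intro h
    have h1 : l ∣ a.natAbs := Int.natCast_dvd.1 h
    have h2 := Nat.le_of_dvd (Int.natAbs_pos.2 ha) h1
    omega
  have h2 : l ≠ 2 := by
    rintro rfl
    omega
  have hs : Ev (sg a) := A1_ev a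
  have hLR : (10000 : ℝ) ≤ l := by exact_mod_cast hl4
  have hL0 : (0 : ℝ) < l := by linarith
  have hcard : ((Finset.univ : Finset (ZMod l)).card : ℝ) = l := by
    rw [Finset.card_univ, ZMod.card]
  have hsumsq : ∀ f : ZMod l → ℝ, (∀ v, |f v| ≤ 1) → ∑ v, f v ^ 2 ≤ l := by
    intro f hf
    calc ∑ v, f v ^ 2 ≤ ∑ _v : ZMod l, (1 : ℝ) := by
          refine Finset.sum_le_sum fun v _ => ?_
          have h5 := abs_le.1 (hf v)
          nlinarith
      _ = l := by rw [Finset.sum_const, nsmul_eq_mul, mul_one, hcard]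
  -- rho
  have hr : l * ∑ w : ZMod l, acr l (rho (sg a) l) w ^ 2 ≤ 4 / 9 * (l : ℝ) ^ 4 := by
    refine E5_num l (∑ v, rho (sg a) l v) (∑ v, rho (sg a) l v ^ 2) hL0
      (E4_mean a l hl4 hdvd) (hsumsq _ (E5_rho hs l)) ?_ _ (E3_energy l h2 _)
      (E3_energy' l h2 _ (E5_rho hs l))
    have h6 := sq_sum_le_card_mul_sum_sq (s := (Finset.univ : Finset (ZMod l)))
      (f := fun v => rho (sg a) l v)
    rwa [hcard] at h6
  -- psi
  have hψ1 : ∀ v : ZMod l, |qr l v * rho (sg a) l v| ≤ 1 := by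
    intro v
    rw [abs_mul]
    exact mul_le_one₀ (E5_qr l v) (abs_nonneg _) (E5_rho hs l v)
  have hψ0 : ∑ v : ZMod l, qr l v * rho (sg a) l v = 0 := by
    have h5 : ∑ v : ZMod l, qr l v * rho (sg a) l v = ∑ v : ZMod l, -(qr l v * rho (sg a) l v) := by
      refine Fintype.sum_equiv (Equiv.neg _) _ _ fun v => ?_
      simp only [Equiv.neg_apply]
      rw [E5_qr_neg l hl3]
      unfold rho
      rw [inv_neg, hs.even]
      ring
    rw [Finset.sum_neg_distrib] at h5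
    linarith
  have hψ : l * ∑ w : ZMod l, acr l (fun v => qr l v * rho (sg a) l v) w ^ 2 ≤
      4 / 9 * (l : ℝ) ^ 4 := by
    have h5 := E3_energy' l h2 (fun v => qr l v * rho (sg a) l v) hψ1
    rw [hψ0] at h5
    have h6 := hsumsq _ hψ1
    have h7 : (0 : ℝ) ≤ 4 / 9 * (l : ℝ) ^ 2 := by positivity
    have h8 : (l : ℝ) * ∑ v : ZMod l, (qr l v * rho (sg a) l v) ^ 2 ≤ (l : ℝ) * l :=
      mul_le_mul_of_nonneg_left h6 hL0.le
    nlinarith [mul_le_mul_of_nonneg_right h8 h7]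
  refine (E2_max hs l hl3 k).trans ?_
  apply Real.sqrt_le_iff.2
  have hl1R : (0 : ℝ) ≤ (l : ℝ) - 1 := by linarith
  refine ⟨by positivity, ?_⟩
  set E1 : ℝ := ∑ w : ZMod l, acr l (rho (sg a) l) w ^ 2
  set E2 : ℝ := ∑ w : ZMod l, acr l (fun v => qr l v * rho (sg a) l v) w ^ 2
  have h9 : E1 ≤ 4 / 9 * (l : ℝ) ^ 3 := by
    have : (l : ℝ) * E1 ≤ l * (4 / 9 * (l : ℝ) ^ 3) := by
      calc (l : ℝ) * E1 ≤ 4 / 9 * (l : ℝ) ^ 4 := hr
        _ = l * (4 / 9 * (l : ℝ) ^ 3) := by ring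
    exact le_of_mul_le_mul_left this hL0
  have h10 : E2 ≤ 4 / 9 * (l : ℝ) ^ 3 := by
    have : (l : ℝ) * E2 ≤ l * (4 / 9 * (l : ℝ) ^ 3) := by
      calc (l : ℝ) * E2 ≤ 4 / 9 * (l : ℝ) ^ 4 := hψ
        _ = l * (4 / 9 * (l : ℝ) ^ 3) := by ring
    exact le_of_mul_le_mul_left this hL0
  have h11 : 8 / 9 * (l : ℝ) ^ 3 ≤ 9025 / 10000 * ((l : ℝ) - 1) ^ 3 := by
    set u : ℝ := (l : ℝ) - 1 with hu
    have hl : (l : ℝ) = u + 1 := by rw [hu]; ring
    have hu1 : (9999 : ℝ) ≤ u := by rw [hu]; linarith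
    rw [hl]
    nlinarith [mul_nonneg (sub_nonneg.2 hu1) (sq_nonneg u), mul_nonneg (sub_nonneg.2 hu1)
      (by linarith : (0 : ℝ) ≤ u)]
  calc ((l : ℝ) - 1) * (E1 + E2) ≤ ((l : ℝ) - 1) * (8 / 9 * (l : ℝ) ^ 3) := by
        apply mul_le_mul_of_nonneg_left _ hl1R
        linarith
    _ ≤ ((l : ℝ) - 1) * (9025 / 10000 * ((l : ℝ) - 1) ^ 3) :=
        mul_le_mul_of_nonneg_left h11 hl1R
    _ = (95 / 100 * ((l : ℝ) - 1) ^ 2) ^ 2 := by ring

end PS25
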