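import Pool.Agent.LibPS25.Defs

/-
PLAN (G1). Expand: sum_n omega^2 = sum_{l, l'} #{n <= Y : lcm | n} <= sum_{l /= l'} Y/(l l') + sum_l Y/l <= Y S^2 + Y S; sum_n omega = sum_l floor(Y/l) >= Y S - #I;
so sum (omega - S)^2 <= Y S^2 + Y S - 2 S (Y S - #I) + S^2 Y.
-/

set_option autoImplicit false

noncomputable section

namespace PS25

open Finset

theorem G1_count (Y d : ℕ) : #((Icc 1 Y).filter fun n => d ∣ n) = Y / d := by
  have h : Icc 1 Y = Ioc 0 Y := by ext x; simp; omega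
  rw [h]
  exact Nat.Ioc_filter_dvd_card_eq_div Y d

theorem G1_sumOmega (I : Finset ℕ) (Y : ℕ) :
    ∑ n ∈ Icc 1 Y, (#(I.filter fun l => l ∣ n) : ℝ) = ∑ l ∈ I, ((Y / l : ℕ) : ℝ) := by
  have : ∀ n, (#(I.filter fun l => l ∣ n) : ℝ) = ∑ l ∈ I, if l ∣ n then (1 : ℝ) else 0 := by
    intro n
    rw [Finset.sum_ite, Finset.sum_const_zero, add_zero, Finset.sum_const, nsmul_eq_mul, mul_one]
  simp_rw [this]
  rw [Finset.sum_comm]
  refine Finset.sum_congr rfl fun l _ => ?_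
  rw [Finset.sum_ite, Finset.sum_const_zero, add_zero, Finset.sum_const, nsmul_eq_mul, mul_one,
    G1_count]

theorem G1_var (I : Finset ℕ) (hI : ∀ l ∈ I, l.Prime) (Y : ℕ) :
    ∑ n ∈ Icc 1 Y, ((#(I.filter fun l => l ∣ n) : ℝ) - ∑ l ∈ I, 1 / (l : ℝ)) ^ 2 ≤
      Y * ∑ l ∈ I, 1 / (l : ℝ) + 2 * (∑ l ∈ I, 1 / (l : ℝ)) * #I := by
  classical
  set S : ℝ := ∑ l ∈ I, 1 / (l : ℝ) with hS
  have hS0 : 0 ≤ S := Finset.sum_nonneg fun l _ => by positivity
  have e1 : ∀ n, (#(I.filter fun l => l ∣ n) : ℝ) = ∑ l ∈ I, if l ∣ n then (1 : ℝ) else 0 := by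
    intro n
    rw [Finset.sum_ite, Finset.sum_const_zero, add_zero, Finset.sum_const, nsmul_eq_mul, mul_one]
  -- second moment
  have e2 : ∑ n ∈ Icc 1 Y, (#(I.filter fun l => l ∣ n) : ℝ) ^ 2 ≤ Y * S ^ 2 + Y * S := by
    have e3 : ∀ n, (#(I.filter fun l => l ∣ n) : ℝ) ^ 2 =
        ∑ l ∈ I, ∑ l' ∈ I, if l ∣ n ∧ l' ∣ n then (1 : ℝ) else 0 := by
      intro n
      rw [e1, sq, Finset.sum_mul_sum]
      refine Finset.sum_congr rfl fun l _ => Finset.sum_congr rfl fun l' _ => ?_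
      by_cases h1 : l ∣ n <;> by_cases h2 : l' ∣ n <;> simp [h1, h2]
    simp_rw [e3]
    rw [Finset.sum_comm]
    have e4 : ∀ l ∈ I, ∑ n ∈ Icc 1 Y, ∑ l' ∈ I, (if l ∣ n ∧ l' ∣ n then (1 : ℝ) else 0) ≤
        ∑ l' ∈ I, ((Y : ℝ) * (1 / (l : ℝ)) * (1 / (l' : ℝ)) +
          if l' = l then (Y : ℝ) * (1 / (l : ℝ)) else 0) := by
      intro l hl
      rw [Finset.sum_comm]
      refine Finset.sum_le_sum fun l' hl' => ?_
      rw [Finset.sum_ite, Finset.sum_const_zero, add_zero, Finset.sum_const, nsmul_eq_mul, mul_one]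
      have hlp := (hI l hl).pos
      have hlp' := (hI l' hl').pos
      by_cases h : l' = l
      · subst h
        simp only [and_self, if_true]
        rw [G1_count]
        have h1 : ((Y / l' : ℕ) : ℝ) ≤ (Y : ℝ) / l' := Nat.cast_div_le
        have h2 : (0 : ℝ) ≤ (Y : ℝ) * (1 / (l' : ℝ)) * (1 / (l' : ℝ)) := by positivity
        have h3 : (Y : ℝ) / l' = (Y : ℝ) * (1 / (l' : ℝ)) := by ring
        linarith
      · rw [if_neg h, add_zero]
        have hc : Nat.Coprime l l' := (Nat.coprime_primes (hI l hl) (hI l' hl')).2 (Ne.symm h)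
        have hf : ((Icc 1 Y).filter fun n => l ∣ n ∧ l' ∣ n) = (Icc 1 Y).filter fun n => l * l' ∣ n := by
          refine Finset.filter_congr fun n _ => ?_
          constructor
          · rintro ⟨h1, h2⟩; exact hc.mul_dvd_of_dvd_of_dvd h1 h2
          · intro h1; exact ⟨(Dvd.intro _ rfl).trans h1, (Dvd.intro_left _ rfl).trans h1⟩
        rw [hf, G1_count]
        have h1 : ((Y / (l * l') : ℕ) : ℝ) ≤ (Y : ℝ) / ((l * l' : ℕ) : ℝ) := Nat.cast_div_le
        refine h1.trans (le_of_eq ?_)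
        push_cast
        field_simp
    refine (Finset.sum_le_sum e4).trans (le_of_eq ?_)
    simp_rw [Finset.sum_add_distrib, Finset.sum_ite_eq' I]
    have e5 : ∑ l ∈ I, ∑ l' ∈ I, (Y : ℝ) * (1 / (l : ℝ)) * (1 / (l' : ℝ)) = Y * S ^ 2 := by
      rw [sq, hS, Finset.sum_mul_sum, Finset.mul_sum]
      refine Finset.sum_congr rfl fun l _ => ?_
      rw [Finset.mul_sum]
      refine Finset.sum_congr rfl fun l' _ => by ring
    have e6 : ∑ l ∈ I, (if l ∈ I then (Y : ℝ) * (1 / (l : ℝ)) else 0) = Y * S := by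
      rw [hS, Finset.mul_sum]
      refine Finset.sum_congr rfl fun l hl => by rw [if_pos hl]
    rw [e5, e6]
  -- first moment
  have e7 : (Y : ℝ) * S - #I ≤ ∑ n ∈ Icc 1 Y, (#(I.filter fun l => l ∣ n) : ℝ) := by
    rw [G1_sumOmega, hS, Finset.mul_sum]
    have : ((#I : ℕ) : ℝ) = ∑ l ∈ I, (1 : ℝ) := by simp
    rw [this, ← Finset.sum_sub_distrib]
    refine Finset.sum_le_sum fun l hl => ?_
    have hlp := (hI l hl).pos
    have h1 : (Y : ℝ) / l < ((Y / l : ℕ) : ℝ) + 1 := by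
      have := Nat.lt_floor_add_one ((Y : ℝ) / l)
      rwa [Nat.floor_div_natCast, Nat.floor_natCast] at this
    have h3 : (Y : ℝ) / l = (Y : ℝ) * (1 / (l : ℝ)) := by ring
    linarith
  have e8 : ∑ n ∈ Icc 1 Y, ((#(I.filter fun l => l ∣ n) : ℝ) - S) ^ 2 =
      ∑ n ∈ Icc 1 Y, (#(I.filter fun l => l ∣ n) : ℝ) ^ 2 -
        2 * S * ∑ n ∈ Icc 1 Y, (#(I.filter fun l => l ∣ n) : ℝ) + Y * S ^ 2 := by
    rw [Finset.mul_sum, ← Finset.sum_sub_distrib]
    have : (Y : ℝ) * S ^ 2 = ∑ n ∈ Icc 1 Y, S ^ 2 := by simp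
    rw [this, ← Finset.sum_add_distrib]
    refine Finset.sum_congr rfl fun n _ => by ring
  rw [e8]
  nlinarith [mul_le_mul_of_nonneg_left e7 hS0]

end PS25
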