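import Pool.Agent.LibPS25.G1

/-
PLAN (G2). sum_{l in I} sum_{r <= Y/l} f(l r) = sum_{n <= Y} f(n) omega(n), omega(n) = #{l in I : l | n} (n = l r). So the left side is (1/S) |sum_n f(n) (S - omega(n))|, Cauchy-Schwarz and G1_var.
-/

set_option autoImplicit false

noncomputable section

namespace PS25

open Finset

theorem G2_reindex (l Y : ℕ) (hl : 0 < l) (f : ℕ → ℝ) :
    ∑ r ∈ Icc 1 (Y / l), f (l * r) = ∑ n ∈ (Icc 1 Y).filter (fun n => l ∣ n), f n := by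
  refine Finset.sum_nbij' (fun r => l * r) (fun n => n / l) ?_ ?_ ?_ ?_ ?_
  · intro r hr
    rw [Finset.mem_Icc] at hr
    rw [Finset.mem_filter, Finset.mem_Icc]
    refine ⟨⟨Nat.mul_pos hl hr.1, ?_⟩, Dvd.intro _ rfl⟩
    have := (Nat.le_div_iff_mul_le hl).1 hr.2
    rwa [mul_comm] at this
  · intro n hn
    rw [Finset.mem_filter, Finset.mem_Icc] at hn
    rw [Finset.mem_Icc]
    exact ⟨Nat.div_pos (Nat.le_of_dvd hn.1.1 hn.2) hl, Nat.div_le_div_right hn.1.2⟩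
  · intro r _
    exact Nat.mul_div_cancel_left r hl
  · intro n hn
    rw [Finset.mem_filter] at hn
    exact Nat.mul_div_cancel' hn.2
  · intro r _
    rfl

theorem G2_sum (I : Finset ℕ) (hI : ∀ l ∈ I, l.Prime) (Y : ℕ) (f : ℕ → ℝ) :
    ∑ l ∈ I, ∑ r ∈ Icc 1 (Y / l), f (l * r) =
      ∑ n ∈ Icc 1 Y, f n * (#(I.filter fun l => l ∣ n) : ℝ) := by
  have h1 : ∀ l ∈ I, ∑ r ∈ Icc 1 (Y / l), f (l * r) =
      ∑ n ∈ Icc 1 Y, if l ∣ n then f n else 0 := by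
    intro l hl
    rw [G2_reindex l Y (hI l hl).pos f, Finset.sum_filter]
  rw [Finset.sum_congr rfl h1, Finset.sum_comm]
  refine Finset.sum_congr rfl fun n _ => ?_
  rw [Finset.sum_ite, Finset.sum_const_zero, add_zero, Finset.sum_const, nsmul_eq_mul, mul_comm]

theorem G2_insert (I : Finset ℕ) (hI : ∀ l ∈ I, l.Prime) (hS : 0 < ∑ l ∈ I, 1 / (l : ℝ)) (Y : ℕ)
    (f : ℕ → ℝ) (hf : ∀ n, |f n| ≤ 1) :
    |∑ n ∈ Icc 1 Y, f n - (∑ l ∈ I, 1 / (l : ℝ))⁻¹ * ∑ l ∈ I, ∑ r ∈ Icc 1 (Y / l), f (l * r)| ≤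
      (∑ l ∈ I, 1 / (l : ℝ))⁻¹ * Real.sqrt (Y * (Y * ∑ l ∈ I, 1 / (l : ℝ) + 2 * (∑ l ∈ I, 1 / (l : ℝ)) * #I)) := by
  rw [G2_sum I hI Y f]
  have hG := G1_var I hI Y
  set S : ℝ := ∑ l ∈ I, 1 / (l : ℝ) with hSdef
  have e1 : ∑ n ∈ Icc 1 Y, f n - S⁻¹ * ∑ n ∈ Icc 1 Y, f n * (#(I.filter fun l => l ∣ n) : ℝ) =
      S⁻¹ * ∑ n ∈ Icc 1 Y, f n * (S - (#(I.filter fun l => l ∣ n) : ℝ)) := by
    have : ∑ n ∈ Icc 1 Y, f n = S⁻¹ * ∑ n ∈ Icc 1 Y, f n * S := by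
      rw [← Finset.sum_mul]
      field_simp
    rw [this, ← mul_sub, ← Finset.sum_sub_distrib]
    congr 1
    refine Finset.sum_congr rfl fun n _ => by ring
  rw [e1, abs_mul, abs_of_pos (inv_pos.2 hS)]
  refine mul_le_mul_of_nonneg_left ?_ (inv_pos.2 hS).le
  refine Real.abs_le_sqrt ?_
  have hcs := Finset.sum_mul_sq_le_sq_mul_sq (Icc 1 Y) f (fun n => S - (#(I.filter fun l => l ∣ n) : ℝ))
  refine hcs.trans ?_
  have hf2 : ∑ n ∈ Icc 1 Y, f n ^ 2 ≤ Y := by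
    have : (Y : ℝ) = ∑ n ∈ Icc 1 Y, (1 : ℝ) := by simp
    rw [this]
    refine Finset.sum_le_sum fun n _ => ?_
    have := hf n
    rw [← sq_abs]
    have h0 := abs_nonneg (f n)
    nlinarith
  have hv : ∑ n ∈ Icc 1 Y, (S - (#(I.filter fun l => l ∣ n) : ℝ)) ^ 2 ≤ Y * S + 2 * S * #I := by
    refine le_trans (le_of_eq ?_) hG
    refine Finset.sum_congr rfl fun n _ => by ring
  refine mul_le_mul hf2 hv (Finset.sum_nonneg fun n _ => sq_nonneg _) (Nat.cast_nonneg _)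

end PS25
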