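import Pool.Agent.LibPS25.G2

/-
PLAN (G3). Induction on K. K = 0: the family {1}. Step: the family F for K and delta/2; y = max of l0 and of all members of F; by Dv choose z with S = sum_{p in (y, z], P p} 1/p so large that
1/S <= (delta/8)^2 (delta <= 1 without loss or use delta); I = these primes, new family {L l : L in F, l in I} (l does not divide L as l > y; l >= l0). For L in F, Y = X / L, the
function r -> f(L r): by G2_insert |sum_{r <= Y} f(L r)| <= (1/S) sum_l |sum_{r <= Y/l} f(L l r)| + error, Y / l = X / (L l) (Nat.div_div_eq_div_mul), hypothesis for L l: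
<= (1/S) sum_l B X/(L l) = B X/L; error <= Y (1/S + 2 #I/(S Y))^(1/2) <= (delta/2) X/L for X large (F and I are fixed). Apply the induction hypothesis with B + delta/2.
-/

set_option autoImplicit false

noncomputable section

namespace PS25

open Finset

/-- the error term for one factor `L` -/
theorem G3_err (S δ W N : ℝ) (Y : ℕ) (hδ : 0 < δ) (hS : 8 / δ ^ 2 ≤ S) (hYW : (Y : ℝ) ≤ W)
    (hN : 0 ≤ N) (hW : 2 * N ≤ W) :
    S⁻¹ * Real.sqrt (Y * (Y * S + 2 * S * N)) ≤ δ / 2 * W := by
  have hS0 : 0 < S := lt_of_lt_of_le (by positivity) hS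
  have hY0 : (0 : ℝ) ≤ Y := Nat.cast_nonneg _
  have hW0 : 0 ≤ W := hY0.trans hYW
  rw [inv_mul_le_iff₀ hS0]
  refine Real.sqrt_le_iff.2 ⟨by positivity, ?_⟩
  have h8 : 8 ≤ S * δ ^ 2 := by
    rw [div_le_iff₀ (by positivity)] at hS
    exact hS
  have h1 : (Y : ℝ) * (Y * S + 2 * S * N) ≤ W * (W * S + S * W) := by
    refine mul_le_mul hYW ?_ (by positivity) hW0
    nlinarith [mul_le_mul_of_nonneg_left hYW hS0.le, mul_le_mul_of_nonneg_left hW hS0.le]
  refine h1.trans ?_
  have h2 : 0 ≤ S * W ^ 2 := by positivity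
  nlinarith [mul_le_mul_of_nonneg_left h8 h2]

theorem G3_family (P : ℕ → Prop) (hP : Dv P) (K l0 : ℕ) (δ : ℝ) (hδ : 0 < δ) :
    ∃ F : Finset ℕ, (∀ L ∈ F, Squarefree L ∧ #L.primeFactors = K ∧ ∀ p ∈ L.primeFactors, P p ∧ l0 ≤ p) ∧
      ∃ X0 : ℕ, ∀ X : ℕ, X0 ≤ X → ∀ f : ℕ → ℝ, (∀ n, |f n| ≤ 1) → ∀ B : ℝ, 0 ≤ B →
        (∀ L ∈ F, |∑ r ∈ Icc 1 (X / L), f (L * r)| ≤ B * (X / L : ℝ)) →
        |∑ n ∈ Icc 1 X, f n| ≤ (B + δ) * X := by
  classical
  induction K generalizing δ with
  | zero =>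
    refine ⟨{1}, ?_, 0, ?_⟩
    · intro L hL
      rw [Finset.mem_singleton] at hL
      subst hL
      simp
    · intro X _ f _ B _ h
      have h1 := h 1 (Finset.mem_singleton_self 1)
      simp only [Nat.div_one, one_mul, Nat.cast_one, div_one] at h1
      refine h1.trans ?_
      have hX : (0 : ℝ) ≤ X := Nat.cast_nonneg _
      nlinarith [mul_nonneg hδ.le hX]
  | succ K ih =>
    obtain ⟨F, hF, X0, hX0⟩ := ih (δ / 2) (by positivity)
    set y : ℕ := max l0 (F.sup id) with hy
    obtain ⟨z, hz⟩ := hP y (8 / δ ^ 2)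
    set I : Finset ℕ := (Ioc y z).filter fun p => p.Prime ∧ P p with hIdef
    have hz' : 8 / δ ^ 2 ≤ ∑ l ∈ I, 1 / (l : ℝ) := by
      convert hz using 1
    have hI : ∀ l ∈ I, l.Prime := by
      intro l hl
      rw [hIdef, Finset.mem_filter] at hl
      exact hl.2.1
    have hIy : ∀ l ∈ I, y < l := by
      intro l hl
      rw [hIdef, Finset.mem_filter, Finset.mem_Ioc] at hl
      exact hl.1.1
    have hIP : ∀ l ∈ I, P l := by
      intro l hl
      rw [hIdef, Finset.mem_filter] at hl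
      exact hl.2.2
    have hFy : ∀ L ∈ F, L ≤ y := by
      intro L hL
      exact (Finset.le_sup (f := id) hL).trans (le_max_right _ _)
    have hS : 0 < ∑ l ∈ I, 1 / (l : ℝ) := lt_of_lt_of_le (by positivity) hz'
    refine ⟨(F ×ˢ I).image (fun q => q.1 * q.2), ?_, max X0 (2 * #I * y), ?_⟩
    · intro M hM
      rw [Finset.mem_image] at hM
      obtain ⟨⟨L, l⟩, hq, rfl⟩ := hM
      rw [Finset.mem_product] at hq
      obtain ⟨hL, hl⟩ := hq
      simp only at hL hl ⊢
      obtain ⟨h1, h2, h3⟩ := hF L hL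
      have hlp := hI l hl
      have hlt : L < l := lt_of_le_of_lt (hFy L hL) (hIy l hl)
      have hL0 : 0 < L := Nat.pos_of_ne_zero h1.ne_zero
      have hnd : ¬ l ∣ L := fun hd => absurd (Nat.le_of_dvd hL0 hd) (by omega)
      have hc : Nat.Coprime L l := ((Nat.Prime.coprime_iff_not_dvd hlp).2 hnd).symm
      have hpf : (L * l).primeFactors = L.primeFactors ∪ {l} := by
        rw [Nat.primeFactors_mul h1.ne_zero hlp.ne_zero, hlp.primeFactors]
      refine ⟨(Nat.squarefree_mul hc).2 ⟨h1, hlp.squarefree⟩, ?_, ?_⟩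
      · rw [hpf, Finset.card_union_of_disjoint, h2, Finset.card_singleton]
        rw [Finset.disjoint_singleton_right]
        intro hmem
        exact hnd (Nat.dvd_of_mem_primeFactors hmem)
      · intro p hp
        rw [hpf, Finset.mem_union, Finset.mem_singleton] at hp
        rcases hp with hp | hp
        · exact h3 p hp
        · subst hp
          exact ⟨hIP p hl, ((le_max_left l0 (F.sup id)).trans_lt (hIy p hl)).le⟩
    · intro X hX f hf B hB hyp
      have hXr : (2 * #I * y : ℝ) ≤ X := by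
        have := (le_max_right X0 (2 * #I * y)).trans hX
        exact_mod_cast this
      have key := hX0 X ((le_max_left _ _).trans hX) f hf (B + δ / 2) (by positivity) ?_
      · refine key.trans (le_of_eq ?_)
        ring
      intro L hL
      obtain ⟨h1, h2, h3⟩ := hF L hL
      have hL0 : 0 < L := Nat.pos_of_ne_zero h1.ne_zero
      have hL0r : (0 : ℝ) < L := by exact_mod_cast hL0
      have hG := G2_insert I hI hS (X / L) (fun r => f (L * r)) (fun r => hf _)
      have herr := G3_err (∑ l ∈ I, 1 / (l : ℝ)) δ ((X : ℝ) / L) (#I : ℝ) (X / L) hδ hz'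
        Nat.cast_div_le (Nat.cast_nonneg _) (by
          rw [le_div_iff₀ hL0r]
          refine le_trans ?_ hXr
          have : (L : ℝ) ≤ y := by exact_mod_cast hFy L hL
          exact mul_le_mul_of_nonneg_left this (by positivity))
      have hmain : |(∑ l ∈ I, 1 / (l : ℝ))⁻¹ * ∑ l ∈ I, ∑ r ∈ Icc 1 (X / L / l), f (L * (l * r))| ≤
          B * ((X : ℝ) / L) := by
        rw [abs_mul, abs_of_pos (inv_pos.2 hS), inv_mul_le_iff₀ hS, Finset.sum_mul]
        refine (Finset.abs_sum_le_sum_abs _ _).trans (Finset.sum_le_sum fun l hl => ?_)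
        have hmem : L * l ∈ (F ×ˢ I).image (fun q => q.1 * q.2) :=
          Finset.mem_image.2 ⟨(L, l), Finset.mem_product.2 ⟨hL, hl⟩, rfl⟩
        have h4 := hyp (L * l) hmem
        rw [Nat.div_div_eq_div_mul]
        simp only [← mul_assoc]
        refine h4.trans (le_of_eq ?_)
        push_cast
        have hl0 : (0 : ℝ) < l := by exact_mod_cast (hI l hl).pos
        field_simp
      have h5 := abs_sub_abs_le_abs_sub (∑ n ∈ Icc 1 (X / L), f (L * n))
        ((∑ l ∈ I, 1 / (l : ℝ))⁻¹ * ∑ l ∈ I, ∑ r ∈ Icc 1 (X / L / l), f (L * (l * r)))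
      calc |∑ r ∈ Icc 1 (X / L), f (L * r)| ≤ B * ((X : ℝ) / L) + δ / 2 * ((X : ℝ) / L) := by
            linarith [hG.trans herr]
        _ = (B + δ / 2) * ((X : ℝ) / L) := by ring

end PS25
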