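import Pool.Agent.LibPS25.Defs

/-
PLAN (G4). Suppose not: there are y, B with sum over the primes p = 3 mod 4 in (y, z] of 1/p < B for all z; so sum of 1/p over p = 3 mod 4 converges; choose M with sum_{p > M} 1/p <= 1/2.
Mathlib (NumberTheory.LSeries.PrimesInAP): ArithmeticFunction.vonMangoldt.LSeries_residueClass_lower_bound: for a unit class a mod q there is C with, for all x in (1, 2],
(q.totient)^-1/(x - 1) - C <= sum_n residueClass a n / n^x. Prime powers: sum over n not prime of Lambda(n)/n^x is bounded (see the lemmas next to it, e.g.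
summable_residueClass_non_primes_div). Primes: sum_{p > M} log p / p^x = sum (log p p^-(x-1)) / p <= (1/(e (x-1))) (1/2) (log t <= t^(x-1)/(e (x-1)), from 1 + y <= e^y), p <= M: at most C_M.
So 1/(2 (x-1)) - C <= 1/(2 e (x-1)) + C', a contradiction as x -> 1+.
-/

set_option autoImplicit false

noncomputable section

namespace PS25

open Finset

open ArithmeticFunction.vonMangoldt in
private lemma G4_key (g : ℕ → ℝ) (hg : ∀ n : ℕ, g n = if n.Prime ∧ n % 4 = 3 then 1 / (n : ℝ) else 0)
    (gs : Summable g) : False := by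
  have g0 : ∀ n, 0 ≤ g n := by
    intro n; rw [hg n]; split_ifs <;> positivity
  have ha : IsUnit ((3 : ℕ) : ZMod 4) := by
    rw [ZMod.isUnit_iff_coprime]; norm_num
  obtain ⟨C, hC⟩ := LSeries_residueClass_lower_bound (q := 4) ha
  set R : ℕ → ℝ := fun n => residueClass ((3 : ℕ) : ZMod 4) n with hR
  have R0 : ∀ n, 0 ≤ R n := fun n => residueClass_nonneg _ n
  -- the tail
  obtain ⟨M, hM⟩ : ∃ M : ℕ, ∑' k, g (k + M) ≤ 1 / 4 := by
    have h1 := tendsto_sum_nat_add g
    have h2 := (h1.eventually (gt_mem_nhds (show (0 : ℝ) < 1 / 4 by norm_num))).exists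
    obtain ⟨M, hM⟩ := h2
    exact ⟨M, hM.le⟩
  set gM : ℕ → ℝ := fun n => if M ≤ n then g n else 0 with hgM
  have gMs : Summable gM := by
    apply Summable.of_nonneg_of_le _ _ gs
    · intro n; simp only [hgM]; split_ifs
      · exact g0 n
      · exact le_refl 0
    · intro n; simp only [hgM]; split_ifs
      · exact le_refl _
      · exact g0 n
  have gMt : ∑' n, gM n ≤ 1 / 4 := by
    have h1 := gMs.sum_add_tsum_nat_add M
    have h2 : ∑ i ∈ range M, gM i = 0 := by
      apply sum_eq_zero
      intro i hi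
      simp only [hgM]
      rw [if_neg (by simpa using hi)]
    have h3 : ∀ k, gM (k + M) = g (k + M) := by
      intro k; simp only [hgM]; rw [if_pos (by omega)]
    rw [← h1, h2, zero_add]
    simp_rw [h3]
    exact hM
  set h : ℕ → ℝ := fun n => (if n.Prime then 0 else R n) / n + (if n < M then R n / n else 0) with hh
  have hs1 : Summable fun n : ℕ => (if n.Prime then 0 else R n) / (n : ℝ) :=
    summable_residueClass_non_primes_div _
  have hs2 : Summable fun n : ℕ => (if n < M then R n / (n : ℝ) else 0) := by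
    apply summable_of_ne_finset_zero (s := range M)
    intro n hn
    rw [if_neg (by simpa using hn)]
  have hsum : Summable h := hs1.add hs2
  have hpt : ∀ x : ℝ, 1 < x → ∀ n : ℕ, R n / (n : ℝ) ^ x ≤ h n + (1 / (x - 1)) * gM n := by
    intro x hx n
    rcases Nat.eq_zero_or_pos n with rfl | hn
    · have : R 0 = 0 := residueClass_apply_zero _
      simp only [hh, hgM, this]
      have h0 : g 0 = 0 := by rw [hg 0]; simp
      simp [h0]
    have hn1 : (1 : ℝ) ≤ n := by exact_mod_cast hn
    have hnp : (0 : ℝ) < n := by linarith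
    have hle : R n / (n : ℝ) ^ x ≤ R n / n := by
      apply div_le_div_of_nonneg_left (R0 n) hnp
      conv_lhs => rw [← Real.rpow_one (n : ℝ)]
      exact Real.rpow_le_rpow_of_exponent_le hn1 hx.le
    have hgM0 : 0 ≤ gM n := by
      simp only [hgM]; split_ifs
      · exact g0 n
      · exact le_refl 0
    have hx1 : 0 < x - 1 := by linarith
    by_cases hp : n.Prime
    · by_cases hM' : n < M
      · simp only [hh, if_pos hp, if_pos hM']
        have : 0 ≤ 1 / (x - 1) * gM n := by positivity
        simp only [zero_div, zero_add]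
        linarith
      · simp only [hh, if_pos hp, if_neg hM', zero_div, zero_add]
        have hgMn : gM n = g n := by simp only [hgM]; rw [if_pos (by omega)]
        rw [hgMn, hg n]
        by_cases h4 : n % 4 = 3
        · rw [if_pos ⟨hp, h4⟩]
          have hRn : R n ≤ Real.log n := by
            have := residueClass_le ((3 : ℕ) : ZMod 4) n
            rw [ArithmeticFunction.vonMangoldt_apply_prime hp] at this
            exact this
          have hlog : Real.log n ≤ (n : ℝ) ^ (x - 1) / (x - 1) := Real.log_le_rpow_div hnp.le hx1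
          have hpow : (n : ℝ) ^ x = (n : ℝ) ^ (x - 1) * n := by
            rw [← Real.rpow_add_one hnp.ne']
            congr 1; ring
          have hpp : 0 < (n : ℝ) ^ (x - 1) := Real.rpow_pos_of_pos hnp _
          rw [hpow, div_le_iff₀ (by positivity)]
          calc R n ≤ (n : ℝ) ^ (x - 1) / (x - 1) := hRn.trans hlog
            _ = 1 / (x - 1) * (1 / n) * ((n : ℝ) ^ (x - 1) * n) := by
              field_simp
        · rw [if_neg (fun h => h4 h.2)]
          have : R n = 0 := by
            simp only [hR]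
            apply Set.indicator_of_notMem
            intro hmem
            apply h4
            have h5 : ((n : ℕ) : ZMod 4) = ((3 : ℕ) : ZMod 4) := hmem
            rw [ZMod.natCast_eq_natCast_iff] at h5
            have h6 : n % 4 = 3 % 4 := h5
            simpa using h6
          rw [this]; simp
    · simp only [hh, if_neg hp]
      have h1 : 0 ≤ (if n < M then R n / (n : ℝ) else 0) := by
        split_ifs
        · exact div_nonneg (R0 n) hnp.le
        · exact le_refl 0
      have h2 : 0 ≤ 1 / (x - 1) * gM n := by positivity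
      linarith
  have hfin : ∀ x : ℝ, x ∈ Set.Ioc (1 : ℝ) 2 →
      (1 / 2 : ℝ) / (x - 1) - C ≤ (∑' n, h n) + (1 / (x - 1)) * (1 / 4) := by
    intro x hx
    have h1 := hC hx
    have ht : ((Nat.totient 4 : ℕ) : ℝ)⁻¹ = 1 / 2 := by
      have : Nat.totient 4 = 2 := by decide
      rw [this]; norm_num
    rw [ht] at h1
    have hx1 : 0 < x - 1 := by linarith [hx.1]
    have hsR : Summable fun n : ℕ => R n / (n : ℝ) ^ x := by
      apply Summable.of_nonneg_of_le _ (hpt x hx.1) (hsum.add (gMs.mul_left _))
      intro n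
      exact div_nonneg (R0 n) (Real.rpow_nonneg (Nat.cast_nonneg n) _)
    have h2 : ∑' n, R n / (n : ℝ) ^ x ≤ ∑' n, (h n + (1 / (x - 1)) * gM n) :=
      hsR.tsum_le_tsum (hpt x hx.1) (hsum.add (gMs.mul_left _))
    rw [hsum.tsum_add (gMs.mul_left _), tsum_mul_left] at h2
    have h3 : (1 / (x - 1)) * ∑' n, gM n ≤ (1 / (x - 1)) * (1 / 4) :=
      mul_le_mul_of_nonneg_left gMt (by positivity)
    calc (1 / 2 : ℝ) / (x - 1) - C ≤ ∑' n, R n / (n : ℝ) ^ x := h1
      _ ≤ _ := h2
      _ ≤ _ := by linarith
  set K : ℝ := max ((∑' n, h n) + C) 1 with hK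
  have hK1 : 1 ≤ K := le_max_right _ _
  have hKC : (∑' n, h n) + C ≤ K := le_max_left _ _
  have hx := hfin (1 + 1 / (8 * K)) ⟨by
      have : 0 < 1 / (8 * K) := by positivity
      linarith, by
      have : 1 / (8 * K) ≤ 1 := by
        rw [div_le_one (by positivity)]; linarith
      linarith⟩
  have hxx : (1 + 1 / (8 * K) : ℝ) - 1 = 1 / (8 * K) := by ring
  rw [hxx] at hx
  have e1 : (1 / 2 : ℝ) / (1 / (8 * K)) = 4 * K := by field_simp; norm_num
  have e2 : (1 / (1 / (8 * K)) : ℝ) * (1 / 4) = 2 * K := by field_simp; norm_num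
  rw [e1, e2] at hx
  linarith

theorem G4_div : Dv (fun p => p % 4 = 3) := by
  classical
  intro y B
  by_contra hcon
  push Not at hcon
  apply G4_key (fun n => if n.Prime ∧ n % 4 = 3 then 1 / (n : ℝ) else 0) (fun n => rfl)
  set g : ℕ → ℝ := fun n => if n.Prime ∧ n % 4 = 3 then 1 / (n : ℝ) else 0 with hg
  have g0 : ∀ n, 0 ≤ g n := by
    intro n; simp only [hg]; split_ifs <;> positivity
  apply summable_of_sum_range_le (c := (∑ n ∈ range (y + 1), g n) + B) g0
  intro n
  have h1 : ∑ i ∈ range n, g i ≤ ∑ i ∈ range (y + 1) ∪ Ioc y n, g i := by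
    apply sum_le_sum_of_subset_of_nonneg
    · intro i hi
      rw [mem_range] at hi
      rw [mem_union, mem_range, mem_Ioc]
      omega
    · intro i _ _; exact g0 i
  have h2 : ∑ i ∈ range (y + 1) ∪ Ioc y n, g i ≤ ∑ i ∈ range (y + 1), g i + ∑ i ∈ Ioc y n, g i := by
    rw [← sum_union_inter]
    have : 0 ≤ ∑ i ∈ range (y + 1) ∩ Ioc y n, g i := sum_nonneg (fun i _ => g0 i)
    linarith
  have h3 : ∑ i ∈ Ioc y n, g i ≤ B := by
    have h4 := (hcon n).le
    refine le_trans (le_of_eq ?_) h4
    simp only [hg]
    rw [sum_filter]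
  linarith

end PS25
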