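import Pool.Agent.LibPS25.Defs

/-
PLAN (G4q). The same as the delivered G4 (in the tar LibPS25_v2: G4.lean, complete proof) with the class 3 mod 4 replaced by the class of r mod q: IsUnit ((r : ℕ) : ZMod q) from r.Coprime q, the constant 1/2 by 1/phi(q),
the tail 1/4 by 1/(2 phi(q)); NeZero q from hq.
-/

set_option autoImplicit false

noncomputable section

namespace PS25

open Finset

open ArithmeticFunction.vonMangoldt in
private lemma G4q_key (q r : ℕ) (hq : 0 < q) (hr : r.Coprime q) (g : ℕ → ℝ)
    (hg : ∀ n : ℕ, g n = if n.Prime ∧ n ≡ r [MOD q] then 1 / (n : ℝ) else 0)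
    (gs : Summable g) : False := by
  have : NeZero q := ⟨hq.ne'⟩
  obtain ⟨c, hc⟩ : ∃ c : ℝ, c = ((Nat.totient q : ℕ) : ℝ)⁻¹ := ⟨_, rfl⟩
  have hφ : 1 ≤ ((Nat.totient q : ℕ) : ℝ) := by
    exact_mod_cast Nat.totient_pos.2 hq
  have hc0 : 0 < c := by
    rw [hc]; positivity
  have hc1 : c ≤ 1 := by
    rw [hc]; exact inv_le_one_of_one_le₀ hφ
  have g0 : ∀ n, 0 ≤ g n := by
    intro n; rw [hg n]; split_ifs <;> positivity
  have ha : IsUnit ((r : ℕ) : ZMod q) := by
    rw [ZMod.isUnit_iff_coprime]; exact hr
  obtain ⟨C, hC⟩ := LSeries_residueClass_lower_bound (q := q) ha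
  set R : ℕ → ℝ := fun n => residueClass ((r : ℕ) : ZMod q) n with hR
  have R0 : ∀ n, 0 ≤ R n := fun n => residueClass_nonneg _ n
  -- the tail
  obtain ⟨M, hM⟩ : ∃ M : ℕ, ∑' k, g (k + M) ≤ c / 2 := by
    have h1 := tendsto_sum_nat_add g
    have h2 := (h1.eventually (gt_mem_nhds (show (0 : ℝ) < c / 2 by positivity))).exists
    obtain ⟨M, hM⟩ := h2
    exact ⟨M, hM.le⟩
  set gM : ℕ → ℝ := fun n => if M ≤ n then g n else 0 with hgM
  have gMs : Summable gM := by
    apply Summable.of_nonneg_of_le _ _ gs
    · intro n; simp only [hgM]; split_ifs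
      · exact g0 n
      · exact le_refl 0
    · intro n; simp only [hgM]; split_ifs
      · exact le_refl _
      · exact g0 n
  have gMt : ∑' n, gM n ≤ c / 2 := by
    have h1 := gMs.sum_add_tsum_nat_add M
    have h2 : ∑ i ∈ range M, gM i = 0 := by
      apply sum_eq_zero
      intro i hi
      simp only [hgM]
      rw [if_neg (by simpa using hi)]
    have h3 : ∀ k, gM (k + M) = g (k + M) := by
      intro k; simp only [hgM]; rw [if_pos (by omega)]
    rw [← h1, h2, zero_add]
    simp_rw [h3]
    exact hM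
  set h : ℕ → ℝ := fun n => (if n.Prime then 0 else R n) / n + (if n < M then R n / n else 0) with hh
  have hs1 : Summable fun n : ℕ => (if n.Prime then 0 else R n) / (n : ℝ) :=
    summable_residueClass_non_primes_div _
  have hs2 : Summable fun n : ℕ => (if n < M then R n / (n : ℝ) else 0) := by
    apply summable_of_ne_finset_zero (s := range M)
    intro n hn
    rw [if_neg (by simpa using hn)]
  have hsum : Summable h := hs1.add hs2
  have hpt : ∀ x : ℝ, 1 < x → ∀ n : ℕ, R n / (n : ℝ) ^ x ≤ h n + (1 / (x - 1)) * gM n := by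
    intro x hx n
    rcases Nat.eq_zero_or_pos n with rfl | hn
    · have : R 0 = 0 := residueClass_apply_zero _
      simp only [hh, hgM, this]
      have h0 : g 0 = 0 := by rw [hg 0]; simp
      simp [h0]
    have hn1 : (1 : ℝ) ≤ n := by exact_mod_cast hn
    have hnp : (0 : ℝ) < n := by linarith
    have hle : R n / (n : ℝ) ^ x ≤ R n / n := by
      apply div_le_div_of_nonneg_left (R0 n) hnp
      conv_lhs => rw [← Real.rpow_one (n : ℝ)]
      exact Real.rpow_le_rpow_of_exponent_le hn1 hx.le
    have hgM0 : 0 ≤ gM n := by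
      simp only [hgM]; split_ifs
      · exact g0 n
      · exact le_refl 0
    have hx1 : 0 < x - 1 := by linarith
    by_cases hp : n.Prime
    · by_cases hM' : n < M
      · simp only [hh, if_pos hp, if_pos hM']
        have : 0 ≤ 1 / (x - 1) * gM n := by positivity
        simp only [zero_div, zero_add]
        linarith
      · simp only [hh, if_pos hp, if_neg hM', zero_div, zero_add]
        have hgMn : gM n = g n := by simp only [hgM]; rw [if_pos (by omega)]
        rw [hgMn, hg n]
        by_cases h4 : n ≡ r [MOD q]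
        · rw [if_pos ⟨hp, h4⟩]
          have hRn : R n ≤ Real.log n := by
            have := residueClass_le ((r : ℕ) : ZMod q) n
            rw [ArithmeticFunction.vonMangoldt_apply_prime hp] at this
            exact this
          have hlog : Real.log n ≤ (n : ℝ) ^ (x - 1) / (x - 1) := Real.log_le_rpow_div hnp.le hx1
          have hpow : (n : ℝ) ^ x = (n : ℝ) ^ (x - 1) * n := by
            rw [← Real.rpow_add_one hnp.ne']
            congr 1; ring
          have hpp : 0 < (n : ℝ) ^ (x - 1) := Real.rpow_pos_of_pos hnp _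
          rw [hpow, div_le_iff₀ (by positivity)]
          calc R n ≤ (n : ℝ) ^ (x - 1) / (x - 1) := hRn.trans hlog
            _ = 1 / (x - 1) * (1 / n) * ((n : ℝ) ^ (x - 1) * n) := by
              field_simp
        · rw [if_neg (fun h => h4 h.2)]
          have : R n = 0 := by
            simp only [hR]
            apply Set.indicator_of_notMem
            intro hmem
            apply h4
            have h5 : ((n : ℕ) : ZMod q) = ((r : ℕ) : ZMod q) := hmem
            rw [ZMod.natCast_eq_natCast_iff] at h5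
            exact h5
          rw [this]; simp
    · simp only [hh, if_neg hp]
      have h1 : 0 ≤ (if n < M then R n / (n : ℝ) else 0) := by
        split_ifs
        · exact div_nonneg (R0 n) hnp.le
        · exact le_refl 0
      have h2 : 0 ≤ 1 / (x - 1) * gM n := by positivity
      linarith
  have hfin : ∀ x : ℝ, x ∈ Set.Ioc (1 : ℝ) 2 →
      c / (x - 1) - C ≤ (∑' n, h n) + (1 / (x - 1)) * (c / 2) := by
    intro x hx
    have h1 := hC hx
    rw [← hc] at h1
    have hx1 : 0 < x - 1 := by linarith [hx.1]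
    have hsR : Summable fun n : ℕ => R n / (n : ℝ) ^ x := by
      apply Summable.of_nonneg_of_le _ (hpt x hx.1) (hsum.add (gMs.mul_left _))
      intro n
      exact div_nonneg (R0 n) (Real.rpow_nonneg (Nat.cast_nonneg n) _)
    have h2 : ∑' n, R n / (n : ℝ) ^ x ≤ ∑' n, (h n + (1 / (x - 1)) * gM n) :=
      hsR.tsum_le_tsum (hpt x hx.1) (hsum.add (gMs.mul_left _))
    rw [hsum.tsum_add (gMs.mul_left _), tsum_mul_left] at h2
    have h3 : (1 / (x - 1)) * ∑' n, gM n ≤ (1 / (x - 1)) * (c / 2) :=
      mul_le_mul_of_nonneg_left gMt (by positivity)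
    calc c / (x - 1) - C ≤ ∑' n, R n / (n : ℝ) ^ x := h1
      _ ≤ _ := h2
      _ ≤ _ := by linarith
  set K : ℝ := max ((∑' n, h n) + C) 1 with hK
  have hK1 : 1 ≤ K := le_max_right _ _
  have hKC : (∑' n, h n) + C ≤ K := le_max_left _ _
  have hx := hfin (1 + c / (4 * K)) ⟨by
      have : 0 < c / (4 * K) := by positivity
      linarith, by
      have : c / (4 * K) ≤ 1 := by
        rw [div_le_one (by positivity)]; linarith
      linarith⟩
  have hxx : (1 + c / (4 * K) : ℝ) - 1 = c / (4 * K) := by ring
  rw [hxx] at hx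
  have e1 : c / (c / (4 * K)) = 4 * K := by field_simp
  have e2 : (1 / (c / (4 * K)) : ℝ) * (c / 2) = 2 * K := by field_simp; norm_num
  rw [e1, e2] at hx
  linarith

theorem G4q_div (q r : ℕ) (hq : 0 < q) (hr : r.Coprime q) : Dv (fun p => p ≡ r [MOD q]) := by
  classical
  intro y B
  by_contra hcon
  push Not at hcon
  apply G4q_key q r hq hr (fun n => if n.Prime ∧ n ≡ r [MOD q] then 1 / (n : ℝ) else 0)
    (fun n => rfl)
  set g : ℕ → ℝ := fun n => if n.Prime ∧ n ≡ r [MOD q] then 1 / (n : ℝ) else 0 with hg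
  have g0 : ∀ n, 0 ≤ g n := by
    intro n; simp only [hg]; split_ifs <;> positivity
  apply summable_of_sum_range_le (c := (∑ n ∈ range (y + 1), g n) + B) g0
  intro n
  have h1 : ∑ i ∈ range n, g i ≤ ∑ i ∈ range (y + 1) ∪ Ioc y n, g i := by
    apply sum_le_sum_of_subset_of_nonneg
    · intro i hi
      rw [mem_range] at hi
      rw [mem_union, mem_range, mem_Ioc]
      omega
    · intro i _ _; exact g0 i
  have h2 : ∑ i ∈ range (y + 1) ∪ Ioc y n, g i ≤ ∑ i ∈ range (y + 1), g i + ∑ i ∈ Ioc y n, g i := by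
    rw [← sum_union_inter]
    have : 0 ≤ ∑ i ∈ range (y + 1) ∩ Ioc y n, g i := sum_nonneg (fun i _ => g0 i)
    linarith
  have h3 : ∑ i ∈ Ioc y n, g i ≤ B := by
    have h4 := (hcon n).le
    refine le_trans (le_of_eq ?_) h4
    simp only [hg]
    rw [sum_filter]
  linarith

end PS25
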