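import Pool.Agent.LibPS25.B1
import Pool.Agent.LibPS25.B2
import Pool.Agent.LibPS25.B3
import Pool.Agent.LibPS25.C5
import Pool.Agent.LibPS25.D10

/-
PLAN (H1). R = X / L, R1 = R / T (floors), J = X / (R1 + 1). R1 + 1 >= R/T real, so R J <= T X and J <= 2 L T for X >= L. B1_cs: |TL| <= R1 X + R sqrt VV. B2_split:
VV <= R X + 2 sum_{g0 <= J} sum_{j <= J/g0} |OO g0 j|. If j is not coprime to L (some prime l | L divides j): B3_triv, and the number of these j <= J/g0 is at most (J/g0) K/l0: total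
2 sum_g0 (R X/g0) (J/g0) (K/l0) <= 4 T X^2 K/l0 (sum 1/g0^2 <= 2). If j is coprime to L: C5_OO: kappa^K (X/g0 + q)(R + q), for X large at most 2 kappa^K X R/g0 (q <= (2LT)^2 L N bounded; R >= X/(2L)): total
<= 8 kappa^K T X^2; error: for the finitely many (g0, j) <= (2LT, 2LT) and characters mod q D10_T with eta' so small that the total is at most eta X^2 (the maximum of finitely many X0).
So VV <= X^2 (1/L + T (8 kappa^K + 4 K/l0) + eta) (R <= X/L) and |TL| <= (X/L) X (1/T + sqrt(..)).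
-/

set_option autoImplicit false

noncomputable section

namespace PS25

open Finset

theorem H1_err1 (q : ℕ) [NeZero q] (η : ℝ) (hη : 0 < η) :
    ∃ X0 : ℕ, ∀ X Y A1 A2 : ℕ, X0 ≤ X → Y ≤ X →
      ∑ χ ∈ (univ : Finset (DirichletCharacter ℂ q)).erase 1,
        ∑ D ∈ (Icc 1 (X ^ 2)).filter Squarefree, ‖∑ u ∈ Iu Y A1 A2 D, χ (u : ZMod q)‖ ≤
        η * (X : ℝ) ^ 2 := by
  classical
  set n : ℕ := #((univ : Finset (DirichletCharacter ℂ q)).erase 1) with hn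
  have hη' : 0 < η / ((n : ℝ) + 1) := by positivity
  have h1 : ∀ χ : DirichletCharacter ℂ q, ∃ X0 : ℕ, χ ≠ 1 → ∀ X Y A1 A2 : ℕ, X0 ≤ X → Y ≤ X →
      ∑ D ∈ (Icc 1 (X ^ 2)).filter Squarefree, ‖∑ u ∈ Iu Y A1 A2 D, χ (u : ZMod q)‖ ≤
        η / ((n : ℝ) + 1) * (X : ℝ) ^ 2 := by
    intro χ
    by_cases h : χ = 1
    · exact ⟨0, fun h' => absurd h h'⟩
    · obtain ⟨X0, hX0⟩ := D10_T q χ h _ hη'
      exact ⟨X0, fun _ => hX0⟩
  choose X0 hX0 using h1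
  refine ⟨(univ : Finset (DirichletCharacter ℂ q)).sup X0, fun X Y A1 A2 hX hY => ?_⟩
  calc ∑ χ ∈ (univ : Finset (DirichletCharacter ℂ q)).erase 1,
        ∑ D ∈ (Icc 1 (X ^ 2)).filter Squarefree, ‖∑ u ∈ Iu Y A1 A2 D, χ (u : ZMod q)‖
      ≤ ∑ χ ∈ (univ : Finset (DirichletCharacter ℂ q)).erase 1,
          η / ((n : ℝ) + 1) * (X : ℝ) ^ 2 :=
        Finset.sum_le_sum fun χ hχ => hX0 χ (Finset.ne_of_mem_erase hχ) X Y A1 A2
          ((Finset.le_sup (f := X0) (Finset.mem_univ χ)).trans hX) hY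
    _ = n * (η / ((n : ℝ) + 1) * (X : ℝ) ^ 2) := by rw [Finset.sum_const, nsmul_eq_mul]
    _ = (n / ((n : ℝ) + 1)) * (η * (X : ℝ) ^ 2) := by ring
    _ ≤ 1 * (η * (X : ℝ) ^ 2) := by
        refine mul_le_mul_of_nonneg_right ?_ (by positivity)
        rw [div_le_one (by positivity)]
        linarith
    _ = η * (X : ℝ) ^ 2 := by ring

theorem H1_err2 (B : ℕ) (η : ℝ) (hη : 0 < η) :
    ∃ X0 : ℕ, ∀ (q : ℕ) [NeZero q], q ≤ B → ∀ X Y A1 A2 : ℕ, X0 ≤ X → Y ≤ X →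
      ∑ χ ∈ (univ : Finset (DirichletCharacter ℂ q)).erase 1,
        ∑ D ∈ (Icc 1 (X ^ 2)).filter Squarefree, ‖∑ u ∈ Iu Y A1 A2 D, χ (u : ZMod q)‖ ≤
        η * (X : ℝ) ^ 2 := by
  classical
  have h1 : ∀ q : ℕ, ∃ X0 : ℕ, ∀ [NeZero q], ∀ X Y A1 A2 : ℕ, X0 ≤ X → Y ≤ X →
      ∑ χ ∈ (univ : Finset (DirichletCharacter ℂ q)).erase 1,
        ∑ D ∈ (Icc 1 (X ^ 2)).filter Squarefree, ‖∑ u ∈ Iu Y A1 A2 D, χ (u : ZMod q)‖ ≤
        η * (X : ℝ) ^ 2 := by
    intro q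
    by_cases h : q = 0
    · exact ⟨0, fun {h'} => absurd h h'.out⟩
    · have : NeZero q := ⟨h⟩
      obtain ⟨X0, hX0⟩ := H1_err1 q η hη
      exact ⟨X0, fun {_} => hX0⟩
  choose X0 hX0 using h1
  refine ⟨(range (B + 1)).sup X0, fun q hq hqB X Y A1 A2 hX hY => ?_⟩
  exact hX0 q X Y A1 A2 ((Finset.le_sup (f := X0) (Finset.mem_range.2 (by omega))).trans hX) hY

theorem H1_sq (n : ℕ) : ∑ g ∈ Icc 1 n, 1 / (g : ℝ) ^ 2 ≤ 2 := by
  have h : ∀ n : ℕ, ∑ g ∈ Icc 1 (n + 1), 1 / (g : ℝ) ^ 2 ≤ 2 - 1 / ((n : ℝ) + 1) := by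
    intro n
    induction n with
    | zero => norm_num
    | succ n ih =>
      rw [Finset.sum_Icc_succ_top (by omega)]
      have h1 : (0 : ℝ) < (n : ℝ) + 1 := by positivity
      have h2 : (0 : ℝ) < (n : ℝ) + 1 + 1 := by positivity
      have h3 : 1 / ((n : ℝ) + 1 + 1) ^ 2 ≤ 1 / ((n : ℝ) + 1) - 1 / ((n : ℝ) + 1 + 1) := by
        have e1 : 1 / ((n : ℝ) + 1) - 1 / ((n : ℝ) + 1 + 1) =
            1 / (((n : ℝ) + 1) * ((n : ℝ) + 1 + 1)) := by
          field_simp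
          ring
        rw [e1]
        apply one_div_le_one_div_of_le (by positivity)
        nlinarith
      push_cast at ih ⊢
      linarith
  rcases n with _ | n
  · simp
  · refine (h n).trans ?_
    have : (0 : ℝ) ≤ 1 / ((n : ℝ) + 1) := by positivity
    linarith

theorem H1_bad (L l0 n : ℕ) (hL : L ≠ 0) (hl0 : 0 < l0) (hL0 : ∀ l ∈ L.primeFactors, l0 ≤ l) :
    (#((Icc 1 n).filter fun j => ¬ j.Coprime L) : ℝ) ≤ #L.primeFactors * ((n : ℝ) / l0) := by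
  classical
  have h1 : (Icc 1 n).filter (fun j => ¬ j.Coprime L) ⊆
      L.primeFactors.biUnion fun l => (Ioc 0 n).filter fun j => l ∣ j := by
    intro j hj
    rw [Finset.mem_filter, Finset.mem_Icc] at hj
    rw [Finset.mem_biUnion]
    obtain ⟨p, hp, hpj, hpL⟩ := Nat.Prime.not_coprime_iff_dvd.1 hj.2
    refine ⟨p, Nat.mem_primeFactors.2 ⟨hp, hpL, hL⟩, ?_⟩
    rw [Finset.mem_filter, Finset.mem_Ioc]
    exact ⟨⟨by omega, hj.1.2⟩, hpj⟩
  calc (#((Icc 1 n).filter fun j => ¬ j.Coprime L) : ℝ)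
      ≤ (#(L.primeFactors.biUnion fun l => (Ioc 0 n).filter fun j => l ∣ j) : ℝ) := by
        exact_mod_cast Finset.card_le_card h1
    _ ≤ ∑ l ∈ L.primeFactors, (#((Ioc 0 n).filter fun j => l ∣ j) : ℝ) := by
        exact_mod_cast Finset.card_biUnion_le
    _ ≤ ∑ l ∈ L.primeFactors, (n : ℝ) / l0 := by
        refine Finset.sum_le_sum fun l hl => ?_
        rw [Nat.Ioc_filter_dvd_card_eq_div]
        refine Nat.cast_div_le.trans ?_
        have h2 : (l0 : ℝ) ≤ l := by exact_mod_cast hL0 l hl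
        have h3 : (0 : ℝ) < l0 := by exact_mod_cast hl0
        exact div_le_div_of_nonneg_left (by positivity) h3 h2
    _ = #L.primeFactors * ((n : ℝ) / l0) := by rw [Finset.sum_const, nsmul_eq_mul]

theorem H1_fixed {s : (p : ℕ) → ZMod p → ℝ} (hs : Ev s) {κ : ℝ} (hκ : 0 ≤ κ) {l1 : ℕ}
    {P : ℕ → Prop} (hloc : Loc s κ l1 P) (N L T l0 K : ℕ) (hN : 0 < N) (hL : Squarefree L) (hK : #L.primeFactors = K)
    (hL3 : ∀ l ∈ L.primeFactors, P l ∧ l1 ≤ l ∧ l0 ≤ l) (hNL : N.Coprime L) (hT : 0 < T)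
    (hl0 : 0 < l0) (η : ℝ) (hη : 0 < η) :
    ∃ X0 : ℕ, ∀ X : ℕ, X0 ≤ X → ∀ (g : ℕ → ℝ) (w : ZMod N → ℝ) (β : ℕ → ℝ), SM g → Wt N w →
      (∀ n, |β n| ≤ 1) →
      |TL s g N w L X β| ≤ (X / L : ℝ) * X *
        (1 / T + Real.sqrt (1 / L + T * (8 * κ ^ K + 4 * K / l0) + η)) := by
  classical
  have hL0 : 0 < L := Nat.pos_of_ne_zero hL.ne_zero
  have hLT : 0 < L * T := by positivity
  set Q : ℕ := L * T * L * N with hQ
  set η' : ℝ := η / (2 * ((L * T : ℕ) : ℝ) ^ 2) with hη'def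
  have hLT' : (0 : ℝ) < ((L * T : ℕ) : ℝ) := by exact_mod_cast hLT
  have hη' : 0 < η' := by positivity
  obtain ⟨X1, hX1⟩ := H1_err2 Q η' hη'
  refine ⟨X1 + 4 * Q * (L * T) + 2 * Q * L, fun X hX g w β hg hw hβ => ?_⟩
  set R : ℕ := X / L with hR
  set R1 : ℕ := R / T with hR1
  set J : ℕ := X / (R1 + 1) with hJ
  have hRT : R + 1 ≤ T * (R1 + 1) := Nat.lt_mul_div_succ R hT
  have hXL : X < L * (R + 1) := Nat.lt_mul_div_succ X hL0
  have hJLT : J ≤ L * T := by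
    refine (Nat.lt_succ_iff.1 ?_)
    rw [hJ, Nat.div_lt_iff_lt_mul (Nat.succ_pos _)]
    calc X < L * (R + 1) := hXL
      _ ≤ L * (T * (R1 + 1)) := Nat.mul_le_mul_left _ hRT
      _ = L * T * (R1 + 1) := by ring
      _ ≤ (L * T).succ * (R1 + 1) := Nat.mul_le_mul_right _ (Nat.le_succ _)
  have hRJ : (R : ℝ) * J ≤ T * X := by
    have h1 : R * J ≤ T * X := by
      calc R * J ≤ (T * (R1 + 1)) * J := Nat.mul_le_mul_right _ ((Nat.le_succ R).trans hRT)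
        _ = T * ((R1 + 1) * J) := by ring
        _ ≤ T * X := Nat.mul_le_mul_left _ (Nat.mul_div_le X (R1 + 1))
    exact_mod_cast h1
  have hX4 : 4 * Q * (L * T) ≤ X := by omega
  have hR2 : 2 * Q ≤ R := by
    rw [hR, Nat.le_div_iff_mul_le hL0]
    omega
  have hRXL : (R : ℝ) ≤ (X : ℝ) / L := Nat.cast_div_le
  have hR1R : (R1 : ℝ) ≤ (R : ℝ) / T := Nat.cast_div_le
  have hκK : 0 ≤ κ ^ K := by positivity
  have hL0' : (0 : ℝ) < L := by exact_mod_cast hL0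
  have hT' : (0 : ℝ) < T := by exact_mod_cast hT
  have hl0' : (0 : ℝ) < l0 := by exact_mod_cast hl0
  have hX0' : (0 : ℝ) ≤ X := Nat.cast_nonneg _
  have hR0' : (0 : ℝ) ≤ R := Nat.cast_nonneg _
  -- the terms
  have hterm : ∀ g0 ∈ Icc 1 J, ∀ j ∈ Icc 1 (J / g0), |OO s g N w L X R1 R g0 j| ≤
      (2 * κ ^ K * ((X : ℝ) / g0) * R + η' * (X : ℝ) ^ 2) +
        if ¬ j.Coprime L then (R : ℝ) * ((X : ℝ) / g0) else 0 := by
    intro g0 hg0 j hj
    rw [Finset.mem_Icc] at hg0 hj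
    have hg0' : (0 : ℝ) < g0 := by exact_mod_cast (by omega : 0 < g0)
    have hb0 : 0 ≤ 2 * κ ^ K * ((X : ℝ) / g0) * R + η' * (X : ℝ) ^ 2 := by positivity
    by_cases hjL : j.Coprime L
    · rw [if_neg (not_not.2 hjL), add_zero]
      have : NeZero (j * L * g0 * N) := ⟨by
        have : 0 < j * L * g0 * N := by
          have h1 : 0 < j := by omega
          have h2 : 0 < g0 := by omega
          positivity
        omega⟩
      have hgj : j * g0 ≤ J := (Nat.le_div_iff_mul_le (by omega)).1 hj.2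
      have hqQ : j * L * g0 * N ≤ Q := by
        calc j * L * g0 * N = (j * g0) * (L * N) := by ring
          _ ≤ (L * T) * (L * N) := Nat.mul_le_mul_right _ (hgj.trans hJLT)
          _ = Q := by rw [hQ]; ring
      have h1 := C5_OO hs hg hw hκ hloc L X R1 R g0 j hL (fun l hl => ⟨(hL3 l hl).2.1, (hL3 l hl).1⟩)
        hjL hNL (by omega) (by omega) hN
      rw [hK] at h1
      refine h1.trans (add_le_add ?_ ?_)
      · have h2 : 4 * ((j * L * g0 * N : ℕ) : ℝ) ≤ (X : ℝ) / g0 := by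
          rw [le_div_iff₀ hg0']
          have h3 : 4 * (j * L * g0 * N) * g0 ≤ X := by
            calc 4 * (j * L * g0 * N) * g0 ≤ 4 * Q * (L * T) :=
                  Nat.mul_le_mul (Nat.mul_le_mul_left _ hqQ) (hg0.2.trans hJLT)
              _ ≤ X := hX4
          exact_mod_cast h3
        have h3 : 2 * ((j * L * g0 * N : ℕ) : ℝ) ≤ R := by
          have h4 : 2 * (j * L * g0 * N) ≤ R := (Nat.mul_le_mul_left _ hqQ).trans hR2
          exact_mod_cast h4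
        have h5 : (0 : ℝ) ≤ ((j * L * g0 * N : ℕ) : ℝ) := Nat.cast_nonneg _
        have h6 : ((X : ℝ) / g0 + ((j * L * g0 * N : ℕ) : ℝ)) * (R + ((j * L * g0 * N : ℕ) : ℝ)) ≤
            2 * (((X : ℝ) / g0) * R) := by
          have h7 : (X : ℝ) / g0 + ((j * L * g0 * N : ℕ) : ℝ) ≤ (5 / 4) * ((X : ℝ) / g0) := by
            linarith
          have h8 : R + ((j * L * g0 * N : ℕ) : ℝ) ≤ (3 / 2) * (R : ℝ) := by linarith
          have h9 : (0 : ℝ) ≤ (X : ℝ) / g0 := by positivity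
          calc ((X : ℝ) / g0 + ((j * L * g0 * N : ℕ) : ℝ)) * (R + ((j * L * g0 * N : ℕ) : ℝ))
              ≤ ((5 / 4) * ((X : ℝ) / g0)) * ((3 / 2) * (R : ℝ)) :=
                mul_le_mul h7 h8 (by positivity) (by positivity)
            _ = (15 / 8) * (((X : ℝ) / g0) * R) := by ring
            _ ≤ 2 * (((X : ℝ) / g0) * R) := by
                refine mul_le_mul_of_nonneg_right (by norm_num) (by positivity)
        calc κ ^ K * ((X : ℝ) / g0 + ((j * L * g0 * N : ℕ) : ℝ)) *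
              (R + ((j * L * g0 * N : ℕ) : ℝ))
            = κ ^ K * (((X : ℝ) / g0 + ((j * L * g0 * N : ℕ) : ℝ)) *
              (R + ((j * L * g0 * N : ℕ) : ℝ))) := by ring
          _ ≤ κ ^ K * (2 * (((X : ℝ) / g0) * R)) := mul_le_mul_of_nonneg_left h6 hκK
          _ = 2 * κ ^ K * ((X : ℝ) / g0) * R := by ring
      · exact hX1 (j * L * g0 * N) hqQ X (X / g0) (j * R1) (j * R) (by omega) (Nat.div_le_self _ _)
    · rw [if_pos hjL]
      have h1 := B3_triv hs hg hw L X R1 R g0 j (by omega)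
      linarith
  -- the sum over j
  have hsumj : ∀ g0 ∈ Icc 1 J, ∑ j ∈ Icc 1 (J / g0), |OO s g N w L X R1 R g0 j| ≤
      (1 / (g0 : ℝ) ^ 2) * ((2 * κ ^ K + K / l0) * T * (X : ℝ) ^ 2) +
        ((L * T : ℕ) : ℝ) * (η' * (X : ℝ) ^ 2) := by
    intro g0 hg0
    have hg0'' := Finset.mem_Icc.1 hg0
    have hg0' : (0 : ℝ) < g0 := by exact_mod_cast (by omega : 0 < g0)
    have hJg : ((J / g0 : ℕ) : ℝ) ≤ (J : ℝ) / g0 := Nat.cast_div_le
    have hJg2 : ((J / g0 : ℕ) : ℝ) ≤ ((L * T : ℕ) : ℝ) := by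
      exact_mod_cast (Nat.div_le_self J g0).trans hJLT
    refine (Finset.sum_le_sum (hterm g0 hg0)).trans ?_
    rw [Finset.sum_add_distrib, Finset.sum_const, nsmul_eq_mul, ← Finset.sum_filter,
      Finset.sum_const, nsmul_eq_mul]
    have hbad := H1_bad L l0 (J / g0) hL.ne_zero hl0 (fun l hl => (hL3 l hl).2.2)
    rw [hK] at hbad
    have hcard : ((#(Icc 1 (J / g0)) : ℕ) : ℝ) = ((J / g0 : ℕ) : ℝ) := by simp
    rw [hcard]
    have h1 : ((J / g0 : ℕ) : ℝ) * (2 * κ ^ K * ((X : ℝ) / g0) * R + η' * (X : ℝ) ^ 2) ≤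
        (1 / (g0 : ℝ) ^ 2) * (2 * κ ^ K * T * (X : ℝ) ^ 2) +
          ((L * T : ℕ) : ℝ) * (η' * (X : ℝ) ^ 2) := by
      rw [mul_add]
      refine add_le_add ?_ (mul_le_mul_of_nonneg_right hJg2 (by positivity))
      calc ((J / g0 : ℕ) : ℝ) * (2 * κ ^ K * ((X : ℝ) / g0) * R)
          ≤ ((J : ℝ) / g0) * (2 * κ ^ K * ((X : ℝ) / g0) * R) :=
            mul_le_mul_of_nonneg_right hJg (by positivity)
        _ = (1 / (g0 : ℝ) ^ 2) * (2 * κ ^ K * X) * (R * J) := by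
            field_simp
        _ ≤ (1 / (g0 : ℝ) ^ 2) * (2 * κ ^ K * X) * (T * X) :=
            mul_le_mul_of_nonneg_left hRJ (by positivity)
        _ = (1 / (g0 : ℝ) ^ 2) * (2 * κ ^ K * T * (X : ℝ) ^ 2) := by ring
    have h2 : (#((Icc 1 (J / g0)).filter fun j => ¬ j.Coprime L) : ℝ) *
        ((R : ℝ) * ((X : ℝ) / g0)) ≤ (1 / (g0 : ℝ) ^ 2) * (K / l0 * T * (X : ℝ) ^ 2) := by
      calc (#((Icc 1 (J / g0)).filter fun j => ¬ j.Coprime L) : ℝ) *
            ((R : ℝ) * ((X : ℝ) / g0))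
          ≤ (K * (((J / g0 : ℕ) : ℝ) / l0)) * ((R : ℝ) * ((X : ℝ) / g0)) :=
            mul_le_mul_of_nonneg_right hbad (by positivity)
        _ ≤ (K * (((J : ℝ) / g0) / l0)) * ((R : ℝ) * ((X : ℝ) / g0)) := by
            refine mul_le_mul_of_nonneg_right ?_ (by positivity)
            refine mul_le_mul_of_nonneg_left ?_ (by positivity)
            exact div_le_div_of_nonneg_right hJg hl0'.le
        _ = (1 / (g0 : ℝ) ^ 2) * (K / l0 * X) * (R * J) := by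
            field_simp
        _ ≤ (1 / (g0 : ℝ) ^ 2) * (K / l0 * X) * (T * X) :=
            mul_le_mul_of_nonneg_left hRJ (by positivity)
        _ = (1 / (g0 : ℝ) ^ 2) * (K / l0 * T * (X : ℝ) ^ 2) := by ring
    calc _ ≤ _ := add_le_add h1 h2
      _ = (1 / (g0 : ℝ) ^ 2) * ((2 * κ ^ K + K / l0) * T * (X : ℝ) ^ 2) +
        ((L * T : ℕ) : ℝ) * (η' * (X : ℝ) ^ 2) := by ring
  -- the sum over g0
  have hsumg : ∑ g0 ∈ Icc 1 J, ∑ j ∈ Icc 1 (J / g0), |OO s g N w L X R1 R g0 j| ≤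
      2 * ((2 * κ ^ K + K / l0) * T * (X : ℝ) ^ 2) + η / 2 * (X : ℝ) ^ 2 := by
    refine (Finset.sum_le_sum hsumj).trans ?_
    rw [Finset.sum_add_distrib, ← Finset.sum_mul, Finset.sum_const, nsmul_eq_mul]
    refine add_le_add (mul_le_mul_of_nonneg_right (H1_sq J) (by positivity)) ?_
    have hcard : ((#(Icc 1 J) : ℕ) : ℝ) = (J : ℝ) := by simp
    rw [hcard]
    have hJ' : (J : ℝ) ≤ ((L * T : ℕ) : ℝ) := by exact_mod_cast hJLT
    calc (J : ℝ) * (((L * T : ℕ) : ℝ) * (η' * (X : ℝ) ^ 2))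
        ≤ ((L * T : ℕ) : ℝ) * (((L * T : ℕ) : ℝ) * (η' * (X : ℝ) ^ 2)) :=
          mul_le_mul_of_nonneg_right hJ' (by positivity)
      _ = η / 2 * (X : ℝ) ^ 2 := by
          rw [hη'def]
          field_simp
  -- VV
  set c : ℝ := 1 / L + T * (8 * κ ^ K + 4 * K / l0) + η with hc
  have hc0 : 0 ≤ c := by positivity
  have hVV : VV s g N w L X R1 R ≤ (X : ℝ) ^ 2 * c := by
    refine (B2_split hs hg hw L X R1 R hL0).trans ?_
    have h1 : (R : ℝ) * X ≤ (X : ℝ) / L * X := mul_le_mul_of_nonneg_right hRXL hX0'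
    calc (R : ℝ) * X + 2 * ∑ g0 ∈ Icc 1 J, ∑ j ∈ Icc 1 (J / g0), |OO s g N w L X R1 R g0 j|
        ≤ (X : ℝ) / L * X + 2 * (2 * ((2 * κ ^ K + K / l0) * T * (X : ℝ) ^ 2) +
          η / 2 * (X : ℝ) ^ 2) := by linarith
      _ = (X : ℝ) ^ 2 * c := by
          rw [hc]
          ring
  have hsq : Real.sqrt (VV s g N w L X R1 R) ≤ X * Real.sqrt c := by
    calc Real.sqrt (VV s g N w L X R1 R) ≤ Real.sqrt ((X : ℝ) ^ 2 * c) := Real.sqrt_le_sqrt hVV
      _ = X * Real.sqrt c := by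
          rw [Real.sqrt_mul (by positivity), Real.sqrt_sq hX0']
  have hcs := B1_cs hs hg hw L X R1 hL0 β hβ
  rw [← hR] at hcs
  refine hcs.trans ?_
  have h1 : (R1 : ℝ) * X ≤ ((X : ℝ) / L / T) * X := by
    refine mul_le_mul_of_nonneg_right (hR1R.trans ?_) hX0'
    exact div_le_div_of_nonneg_right hRXL hT'.le
  have h2 : (R : ℝ) * Real.sqrt (VV s g N w L X R1 R) ≤ ((X : ℝ) / L) * (X * Real.sqrt c) :=
    mul_le_mul hRXL hsq (Real.sqrt_nonneg _) (by positivity)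
  calc (R1 : ℝ) * X + (R : ℝ) * Real.sqrt (VV s g N w L X R1 R)
      ≤ ((X : ℝ) / L / T) * X + ((X : ℝ) / L) * (X * Real.sqrt c) := add_le_add h1 h2
    _ = (X / L : ℝ) * X * (1 / T + Real.sqrt c) := by
        ring

end PS25
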