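import Pool.Agent.LibPS25.H1
import Pool.Agent.LibPS25.G3
import Pool.Agent.LibPS25.G4

/-
PLAN (H2). T with 1/T <= eps/8, K with 8 T kappa^K <= (eps/16)^2 (kappa < 1), K >= 1, l0 >= l1, > N (so N is coprime to all primes >= l0), 4 T K/l0 <= (eps/16)^2, 1/l0 <= (eps/16)^2 (then
1/L <= 1/l0), eta = (eps/16)^2: the bracket of H1_fixed is <= eps/2. F, X0 from G3_family (P = (p % 4 = 3), G4_div, delta = eps/2); X0 also the maximum over L in F of the X0 of H1_fixed.
Given g, w: alpha n = sign of G(n) = sum_m g m w m Th s (m n) 1, f n = alpha n G(n)/X, |f| <= 1. sum_{r <= X/L} f (L r) = TL(beta)/X with beta r = alpha (L r) (if L r is not squarefree the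
inner sum is empty), so H1_fixed gives the hypothesis of G3 with B = eps/2. Then sum_n |G(n)| = X sum_n f(n) <= X (eps/2 + eps/2) X.
-/

set_option autoImplicit false

noncomputable section

namespace PS25

open Finset

private theorem H2_th {s : (p : ℕ) → ZMod p → ℝ} (hs : Ev s) (m : ℕ) (t : ℤ) :
    |Th s m t| ≤ 1 := by
  unfold Th
  rw [Finset.abs_prod]
  refine Finset.prod_le_one (fun p _ => abs_nonneg _) fun p hp => ?_
  have hpp : p.Prime := Nat.prime_of_mem_primeFactors hp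
  by_cases h0 : ((t * ((m / p : ℕ) : ℤ) : ℤ) : ZMod p) = 0
  · rw [h0, hs.zero p hpp]
    norm_num
  · rcases hs.pm p hpp _ h0 with h | h <;> rw [h] <;> norm_num

theorem H2_main {s : (p : ℕ) → ZMod p → ℝ} (hs : Ev s) {κ : ℝ} (hκ : 0 ≤ κ) (hκ1 : κ < 1) {l1 : ℕ}
    {P : ℕ → Prop} (hP : Dv P) (hloc : Loc s κ l1 P) (N : ℕ) (hN : 0 < N) (ε : ℝ) (hε : 0 < ε) :
    ∃ X0 : ℕ, ∀ X : ℕ, X0 ≤ X → ∀ (g : ℕ → ℝ) (w : ZMod N → ℝ), SM g → Wt N w →
      ∑ n ∈ Icc 1 X, |∑ m ∈ (Icc 1 X).filter fun m => Squarefree (m * n) ∧ m.Coprime N,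
        g m * w (m : ZMod N) * Th s (m * n) 1| ≤ ε * (X : ℝ) ^ 2 := by
  classical
  -- the parameters
  obtain ⟨T, hT⟩ := exists_nat_gt (8 / ε)
  have hT0 : (0 : ℝ) < T := lt_trans (by positivity) hT
  have hT0' : 0 < T := by exact_mod_cast hT0
  have hT1 : 1 / (T : ℝ) ≤ ε / 8 := by
    rw [div_le_iff₀ hT0]
    rw [div_lt_iff₀ hε] at hT
    nlinarith
  set η : ℝ := (ε / 16) ^ 2 with hηdef
  have hη : 0 < η := by positivity
  obtain ⟨K0, hK0⟩ := exists_pow_lt_of_lt_one (show (0 : ℝ) < η / (8 * T) by positivity) hκ1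
  set K : ℕ := K0 + 1 with hKdef
  have hK : (T : ℝ) * (8 * κ ^ K) ≤ η := by
    have h1 : κ ^ K ≤ κ ^ K0 := by
      rw [hKdef, pow_succ]
      have := pow_nonneg hκ K0
      nlinarith
    have h2 : κ ^ K0 * (8 * T) < η := by
      rwa [lt_div_iff₀ (by positivity)] at hK0
    nlinarith
  obtain ⟨l2, hl2⟩ := exists_nat_gt ((4 * T * K + 1) / η)
  set l0 : ℕ := l2 + l1 + N + 1 with hl0def
  have hl0 : 0 < l0 := by omega
  have hl0R : (0 : ℝ) < l0 := by exact_mod_cast hl0
  have hl0η : (4 * T * K + 1 : ℝ) ≤ η * l0 := by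
    rw [div_lt_iff₀ hη] at hl2
    have h1 : (l2 : ℝ) ≤ l0 := by
      exact_mod_cast (show l2 ≤ l0 by omega)
    nlinarith
  have hTK : (0 : ℝ) ≤ 4 * T * K := by positivity
  have h4 : (T : ℝ) * (4 * K / l0) ≤ η := by
    have h1 : (T : ℝ) * (4 * K / l0) = 4 * T * K / l0 := by ring
    rw [h1, div_le_iff₀ hl0R]
    linarith
  have h5 : 1 / (l0 : ℝ) ≤ η := by
    rw [div_le_iff₀ hl0R]
    linarith
  obtain ⟨F, hF, X1, hX1⟩ := G3_family P hP K l0 (ε / 2) (by positivity)
  have hfix : ∀ L ∈ F, ∃ X0 : ℕ, ∀ X : ℕ, X0 ≤ X → ∀ (g : ℕ → ℝ) (w : ZMod N → ℝ) (β : ℕ → ℝ),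
      SM g → Wt N w → (∀ n, |β n| ≤ 1) →
      |TL s g N w L X β| ≤ (X / L : ℝ) * X * (ε / 2) := by
    intro L hL
    obtain ⟨hLsq, hLK, hLp⟩ := hF L hL
    have hL0 : 0 < L := Nat.pos_of_ne_zero hLsq.ne_zero
    have hNL : N.Coprime L := by
      by_contra hcon
      rw [Nat.Prime.not_coprime_iff_dvd] at hcon
      obtain ⟨p, hp, hpN, hpL⟩ := hcon
      have h1 := (hLp p (Nat.mem_primeFactors.2 ⟨hp, hpL, hLsq.ne_zero⟩)).2
      have h2 := Nat.le_of_dvd hN hpN
      omega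
    obtain ⟨X0, hX0⟩ := H1_fixed hs hκ hloc N L T l0 K hN hLsq hLK
      (fun l hl => ⟨(hLp l hl).1, le_trans (by omega) (hLp l hl).2, (hLp l hl).2⟩) hNL hT0' hl0 η hη
    refine ⟨X0, fun X hX g w β hg hw hβ => (hX0 X hX g w β hg hw hβ).trans ?_⟩
    have hLR : (0 : ℝ) < L := by exact_mod_cast hL0
    have hLl : 1 / (L : ℝ) ≤ η := by
      refine le_trans ?_ h5
      have h1 : l0 ≤ L := by
        have h2 : 0 < #L.primeFactors := by omega
        obtain ⟨p, hp⟩ := Finset.card_pos.1 h2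
        exact (hLp p hp).2.trans (Nat.le_of_dvd hL0 (Nat.dvd_of_mem_primeFactors hp))
      exact one_div_le_one_div_of_le hl0R (by exact_mod_cast h1)
    have hsq : Real.sqrt (1 / L + T * (8 * κ ^ K + 4 * K / l0) + η) ≤ ε / 8 := by
      apply Real.sqrt_le_iff.2
      refine ⟨by positivity, ?_⟩
      have h1 : (T : ℝ) * (8 * κ ^ K + 4 * K / l0) = T * (8 * κ ^ K) + T * (4 * K / l0) := by ring
      rw [h1]
      have h2 : (ε / 8) ^ 2 = 4 * η := by rw [hηdef]; ring
      rw [h2]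
      linarith
    apply mul_le_mul_of_nonneg_left _ (by positivity)
    linarith
  choose! X2 hX2 using hfix
  refine ⟨X1 + F.sup X2 + 1, fun X hX g w hg hw => ?_⟩
  have hXpos : 0 < X := by omega
  have hXR : (0 : ℝ) < X := by exact_mod_cast hXpos
  set G : ℕ → ℝ := fun n => ∑ m ∈ (Icc 1 X).filter fun m => Squarefree (m * n) ∧ m.Coprime N,
    g m * w (m : ZMod N) * Th s (m * n) 1 with hG
  set α : ℕ → ℝ := fun n => if 0 ≤ G n then 1 else -1 with hα
  have hα1 : ∀ n, |α n| ≤ 1 := by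
    intro n
    simp only [hα]
    split_ifs <;> norm_num
  have hαG : ∀ n, α n * G n = |G n| := by
    intro n
    simp only [hα]
    split_ifs with h
    · rw [one_mul, abs_of_nonneg h]
    · rw [abs_of_neg (not_le.1 h)]
      ring
  have hGX : ∀ n, |G n| ≤ X := by
    intro n
    simp only [hG]
    refine (Finset.abs_sum_le_sum_abs _ _).trans ?_
    have h1 : ∀ m ∈ (Icc 1 X).filter fun m => Squarefree (m * n) ∧ m.Coprime N,
        |g m * w (m : ZMod N) * Th s (m * n) 1| ≤ 1 := by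
      intro m _
      rw [abs_mul, abs_mul]
      have h2 : |g m| = 1 := by
        rcases hg.1 m with h | h <;> rw [h] <;> norm_num
      have h3 := hw (m : ZMod N)
      have h4 := H2_th hs (m * n) 1
      rw [h2, one_mul]
      exact mul_le_one₀ h3 (abs_nonneg _) h4
    refine (Finset.sum_le_sum h1).trans ?_
    rw [Finset.sum_const, nsmul_eq_mul, mul_one]
    have h2 : #((Icc 1 X).filter fun m => Squarefree (m * n) ∧ m.Coprime N) ≤ X := by
      refine (Finset.card_filter_le _ _).trans ?_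
      simp
    exact_mod_cast h2
  have hmain := hX1 X (by omega) (fun n => α n * G n / X) (by
    intro n
    rw [hαG, abs_div, abs_abs, abs_of_pos hXR, div_le_one hXR]
    exact hGX n) (ε / 2) (by positivity) (by
    intro L hL
    obtain ⟨hLsq, hLK, hLp⟩ := hF L hL
    have hle : X2 L ≤ X := by
      have h1 : X2 L ≤ F.sup X2 := Finset.le_sup (f := X2) hL
      omega
    have h1 := hX2 L hL X hle g w (fun r => α (L * r)) hg hw (fun r => hα1 _)
    have h2 : ∑ r ∈ Icc 1 (X / L), α (L * r) * G (L * r) / X =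
        TL s g N w L X (fun r => α (L * r)) / X := by
      unfold TL
      rw [Finset.sum_div, Finset.sum_filter]
      refine Finset.sum_congr rfl fun r _ => ?_
      split_ifs with hsq
      · rfl
      · have h3 : G (L * r) = 0 := by
          simp only [hG]
          rw [Finset.filter_eq_empty_iff.2, Finset.sum_empty]
          rintro m _ ⟨h4, _⟩
          exact hsq (h4.squarefree_of_dvd (dvd_mul_left _ _))
        rw [h3, mul_zero, zero_div]
    rw [h2, abs_div, abs_of_pos hXR, div_le_iff₀ hXR]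
    calc _ ≤ (X / L : ℝ) * X * (ε / 2) := h1
      _ = ε / 2 * (X / L : ℝ) * X := by ring)
  have h6 : ∑ n ∈ Icc 1 X, α n * G n / X = (∑ n ∈ Icc 1 X, |G n|) / X := by
    rw [Finset.sum_div]
    exact Finset.sum_congr rfl fun n _ => by rw [hαG]
  rw [h6] at hmain
  have h7 := (le_abs_self _).trans hmain
  rw [div_le_iff₀ hXR] at h7
  calc ∑ n ∈ Icc 1 X, |G n| ≤ (ε / 2 + ε / 2) * X * X := h7
    _ = ε * (X : ℝ) ^ 2 := by ring

end PS25
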