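import Pool.Agent.LibPS25.E2
import Pool.Agent.LibPS25.E3

/-
PLAN (J2). rho := rho s l is even (s even, (-v)^-1 = -(v^-1)), rho 0 = 0, +-1 elsewhere. psi := qr rho is odd (l = 3 mod 4), sum psi = 0, sum psi^2 = l - 1. mu := (sum rho)/l, m = mu^2.
(a) m <= 66/100: E2_max, E3_energy' for psi: l sum acr psi^2 <= (4/9) l^4; for rho: E3_energy' if m <= 4/9: (m^2 + (1 - m)(4/9)) l^4 <= (4/9) l^4; E3_energy if 4/9 <= m <= .66: (m^2 + (1 - m)^2/2) l^4 <= .4935 l^4
(convex: check the end points). Total <= (l - 1)(.4935 + .4445) l^3 <= (.97 (l - 1)^2)^2 for l >= 10^4.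
(b) m > 66/100, so |sum rho| >= .8124 l; let sgm = sign of the sum, the number p of units v with rho v /= sgm is at most (1 - .8124) l/2 = .0938 l. For w /= 0: rho v rho (v + w) = 1 except for v = 0, v = -w and
at most 2 p values of v (one of v, v + w in the minority): A(w) := acr rho w >= l - 2 - 4 p... precisely A(w) >= (l - 2) - 2 (2 p) and |B(w)| <= |sum_v qr(v) qr(v + w)| + 2 (2 p) = 1 + 4 p
(sum_v qr(v (v + w)) = -1 for w /= 0), so |B(w)| <= A(w). By E1_change and the symmetry delta -> -delta as in the proof of E2: MM = sum_w max(|A|,|B|) = sum_{w /= 0} A(w) = (sum rho)^2 - (l - 1)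
<= (499/500)^2 l^2 <= (997/1000)(l - 1)^2 for l >= 10^4 (.996004 l^2). (You may take the step MM <= sum over w of max(|A w|, |B w|) from the proof of E2_max in PS25_E2.lean; restate it here as a private lemma.)
-/

set_option autoImplicit false

noncomputable section

namespace PS25

open Finset

private theorem J2_rho0 {s : (p : ℕ) → ZMod p → ℝ} (hs : Ev s) (l : ℕ) [Fact l.Prime] :
    rho s l 0 = 0 := by
  unfold rho
  rw [inv_zero]
  exact hs.zero l Fact.out

private theorem J2_pm {s : (p : ℕ) → ZMod p → ℝ} (hs : Ev s) (l : ℕ) [Fact l.Prime]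
    {v : ZMod l} (hv : v ≠ 0) : rho s l v = 1 ∨ rho s l v = -1 := by
  unfold rho
  exact hs.pm l Fact.out _ (inv_ne_zero hv)

private theorem J2_even {s : (p : ℕ) → ZMod p → ℝ} (hs : Ev s) (l : ℕ) [Fact l.Prime]
    (v : ZMod l) : rho s l (-v) = rho s l v := by
  unfold rho
  rw [inv_neg]
  exact hs.even l _

private theorem J2_abs {s : (p : ℕ) → ZMod p → ℝ} (hs : Ev s) (l : ℕ) [Fact l.Prime]
    (v : ZMod l) : |rho s l v| ≤ 1 := by
  by_cases hv : v = 0
  · rw [hv, J2_rho0 hs, abs_zero]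
    exact zero_le_one
  · rcases J2_pm hs l hv with h | h <;> rw [h] <;> norm_num

private theorem J2_qr0 (l : ℕ) [Fact l.Prime] : qr l (0 : ZMod l) = 0 := by
  unfold qr
  rw [quadraticChar_zero, Int.cast_zero]

private theorem J2_qrpm (l : ℕ) [Fact l.Prime] {v : ZMod l} (hv : v ≠ 0) :
    qr l v = 1 ∨ qr l v = -1 := by
  unfold qr
  rcases quadraticChar_dichotomy hv with h | h
  · left
    rw [h]
    norm_num
  · right
    rw [h]
    norm_num

private theorem J2_qr_neg (l : ℕ) [Fact l.Prime] (h3 : l % 4 = 3) (x : ZMod l) :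
    qr l (-x) = -qr l x := by
  have h2 : ringChar (ZMod l) ≠ 2 := by
    rw [ZMod.ringChar_zmod_n]
    rintro rfl
    omega
  have h1 : quadraticChar (ZMod l) (-1) = -1 := by
    rw [quadraticChar_neg_one h2, ZMod.card]
    rw [ZMod.χ₄_nat_three_mod_four h3]
  unfold qr
  rw [neg_eq_neg_one_mul, map_mul, h1]
  push_cast
  ring

private theorem J2_acr_neg (l : ℕ) [NeZero l] (f : ZMod l → ℝ) (w : ZMod l) :
    acr l f (-w) = acr l f w := by
  unfold acr
  refine Fintype.sum_equiv (Equiv.addRight (-w)) _ _ fun v => ?_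
  simp only [Equiv.coe_addRight, neg_add_cancel_right]
  ring

private theorem J2_units (l : ℕ) [Fact l.Prime] (f : ZMod l → ℝ) (hf : ∀ x, 0 ≤ f x)
    (k : (ZMod l)ˣ) : ∑ δ : (ZMod l)ˣ, f (((k * δ)⁻¹ : (ZMod l)ˣ) : ZMod l) ≤ ∑ w, f w := by
  classical
  have hinj : Function.Injective fun δ : (ZMod l)ˣ => (((k * δ)⁻¹ : (ZMod l)ˣ) : ZMod l) := by
    intro a b hab
    have h1 : (k * a)⁻¹ = (k * b)⁻¹ := Units.ext hab
    exact mul_left_cancel (inv_injective h1)
  calc ∑ δ : (ZMod l)ˣ, f (((k * δ)⁻¹ : (ZMod l)ˣ) : ZMod l)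
      = ∑ w ∈ Finset.univ.map ⟨_, hinj⟩, f w := by
        rw [Finset.sum_map]
        rfl
    _ ≤ ∑ w, f w := Finset.sum_le_sum_of_subset_of_nonneg (Finset.subset_univ _)
        fun w _ _ => hf w

private theorem J2_card (l : ℕ) [Fact l.Prime] : ∑ _v : ZMod l, (1 : ℝ) = l := by
  simp [ZMod.card]

private theorem J2_ind (l : ℕ) [Fact l.Prime] (a : ZMod l) :
    ∑ v : ZMod l, (if v = a then (1 : ℝ) else 0) = 1 := by
  rw [Finset.sum_ite_eq' Finset.univ a]
  simp

private theorem J2_shift (l : ℕ) [Fact l.Prime] (g : ZMod l → ℝ) (w : ZMod l) :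
    ∑ v : ZMod l, g (v + w) = ∑ v : ZMod l, g v :=
  Equiv.sum_comp (Equiv.addRight w) g

private theorem J2_sq (l : ℕ) [Fact l.Prime] (g : ZMod l → ℝ) (h0 : g 0 = 0)
    (h1 : ∀ v, v ≠ 0 → g v = 1 ∨ g v = -1) : ∑ v, g v ^ 2 = (l : ℝ) - 1 := by
  have h2 : ∀ v : ZMod l, g v ^ 2 = 1 - (if v = 0 then (1 : ℝ) else 0) := by
    intro v
    by_cases hv : v = 0
    · rw [hv, h0, if_pos rfl]
      norm_num
    · rw [if_neg hv]
      rcases h1 v hv with h | h <;> rw [h] <;> norm_num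
  rw [Finset.sum_congr rfl fun v _ => h2 v, Finset.sum_sub_distrib, J2_card, J2_ind]

private theorem J2_qrsum (l : ℕ) [Fact l.Prime] (h3 : l % 4 = 3) : ∑ v : ZMod l, qr l v = 0 := by
  have h1 : ∑ v : ZMod l, qr l v = ∑ v : ZMod l, qr l (-v) :=
    (Equiv.sum_comp (Equiv.neg (ZMod l)) (qr l)).symm
  rw [Finset.sum_congr rfl fun v _ => J2_qr_neg l h3 v, Finset.sum_neg_distrib] at h1
  linarith

private theorem J2_qr_mul {l : ℕ} [Fact l.Prime] (a b : ZMod l) : qr l (a * b) = qr l a * qr l b := by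
  unfold qr
  rw [map_mul]
  push_cast
  rfl

private theorem J2_corr (l : ℕ) [Fact l.Prime] (h3 : l % 4 = 3) {w : ZMod l} (hw : w ≠ 0) :
    ∑ v : ZMod l, qr l v * qr l (v + w) = -1 := by
  classical
  have h1 : ∑ v : ZMod l, qr l v * qr l (v + w) =
      ∑ v ∈ univ.erase (0 : ZMod l), qr l v * qr l (v + w) := by
    rw [← Finset.add_sum_erase univ (fun v => qr l v * qr l (v + w)) (mem_univ (0 : ZMod l)),
      J2_qr0, zero_mul, zero_add]
  have h2 : ∑ v ∈ univ.erase (0 : ZMod l), qr l v * qr l (v + w) =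
      ∑ u ∈ univ.erase (1 : ZMod l), qr l u := by
    refine Finset.sum_bij' (fun v _ => 1 + w * v⁻¹) (fun u _ => w * (u - 1)⁻¹) ?_ ?_ ?_ ?_ ?_
    · intro v hv
      have hv0 := Finset.ne_of_mem_erase hv
      refine Finset.mem_erase.2 ⟨fun h => ?_, mem_univ _⟩
      have h4 : w * v⁻¹ = 0 := by
        have h5 : (1 : ZMod l) + w * v⁻¹ = 1 + 0 := by rw [h, add_zero]
        exact add_left_cancel h5
      exact mul_ne_zero hw (inv_ne_zero hv0) h4
    · intro u hu
      have hu1 := Finset.ne_of_mem_erase hu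
      exact Finset.mem_erase.2 ⟨mul_ne_zero hw (inv_ne_zero (sub_ne_zero.2 hu1)), mem_univ _⟩
    · intro v hv
      have hv0 := Finset.ne_of_mem_erase hv
      show w * (1 + w * v⁻¹ - 1)⁻¹ = v
      rw [add_sub_cancel_left]
      field_simp
    · intro u hu
      have hu1 := sub_ne_zero.2 (Finset.ne_of_mem_erase hu)
      show 1 + w * (w * (u - 1)⁻¹)⁻¹ = u
      rw [mul_inv, inv_inv, ← mul_assoc, mul_inv_cancel₀ hw, one_mul]
      ring
    · intro v hv
      have hv0 := Finset.ne_of_mem_erase hv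
      show qr l v * qr l (v + w) = qr l (1 + w * v⁻¹)
      have h4 : v + w = v * (1 + w * v⁻¹) := by
        rw [mul_add, mul_one, mul_left_comm, mul_inv_cancel₀ hv0, mul_one]
      rw [h4, J2_qr_mul, ← mul_assoc]
      rcases J2_qrpm l hv0 with h | h <;> rw [h] <;> ring
  have h5 : qr l (1 : ZMod l) = 1 := by
    unfold qr
    rw [map_one, Int.cast_one]
  have h6 := Finset.add_sum_erase univ (fun u => qr l u) (mem_univ (1 : ZMod l))
  rw [J2_qrsum l h3, h5] at h6
  rw [h1, h2]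
  linarith

private theorem J2_num1 {l M A B : ℝ} (hl : 10 ^ 4 ≤ l) (hM : M ^ 2 ≤ 66 / 100 * l ^ 2)
    (hA1 : l * A ≤ M ^ 4 + (l * (l - 1) - M ^ 2) ^ 2 / 2)
    (hA2 : l * A ≤ M ^ 4 + (l * (l - 1) - M ^ 2) * (4 / 9 * l ^ 2))
    (hB : l * B ≤ (0 : ℝ) ^ 4 + (l * (l - 1) - 0 ^ 2) * (4 / 9 * l ^ 2)) :
    Real.sqrt ((l - 1) * (A + B)) ≤ 997 / 1000 * (l - 1) ^ 2 := by
  have hl0 : 0 < l := by linarith
  obtain ⟨x, hx⟩ : ∃ x, x = M ^ 2 := ⟨_, rfl⟩
  have hx0 : 0 ≤ x := by rw [hx]; positivity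
  have hM4 : M ^ 4 = x ^ 2 := by rw [hx]; ring
  rw [hM4, ← hx] at hA1 hA2
  rw [← hx] at hM
  have hlA : l * A ≤ 4935 / 10000 * l ^ 4 := by
    rcases le_or_gt x (4 / 9 * l ^ 2) with h | h
    · have h1 : x ^ 2 ≤ 4 / 9 * l ^ 2 * x := by nlinarith
      have h2 : l * A ≤ 4 / 9 * l ^ 3 * (l - 1) := by nlinarith
      have h3 : 0 ≤ l ^ 3 := by positivity
      have h4 : 0 ≤ l ^ 4 := by positivity
      nlinarith
    · have h1 : 0 ≤ l * (l - 1) - x := by nlinarith
      have h2 : (l * (l - 1) - x) ^ 2 ≤ (l ^ 2 - x) ^ 2 :=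
        pow_le_pow_left₀ h1 (by nlinarith) 2
      have h3 : x ^ 2 + (l ^ 2 - x) ^ 2 / 2 ≤ 4935 / 10000 * l ^ 4 := by
        have h4 : 0 ≤ (x - 4 / 9 * l ^ 2) * (66 / 100 * l ^ 2 - x) :=
          mul_nonneg (by linarith) (by linarith)
        have h5 : 0 ≤ l ^ 2 * (66 / 100 * l ^ 2 - x) := mul_nonneg (by positivity) (by linarith)
        have h6 : 0 ≤ l ^ 4 := by positivity
        nlinarith
      linarith
  have hlB : l * B ≤ 4 / 9 * l ^ 4 := by
    have h3 : 0 ≤ l ^ 3 := by positivity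
    nlinarith
  have h1 : A + B ≤ 938 / 1000 * l ^ 3 := by
    have h2 : l * (A + B) ≤ l * (938 / 1000 * l ^ 3) := by
      have h4 : 0 ≤ l ^ 4 := by positivity
      nlinarith
    exact le_of_mul_le_mul_left h2 hl0
  apply Real.sqrt_le_iff.2
  refine ⟨by positivity, ?_⟩
  have h2 : (l - 1) * (A + B) ≤ (l - 1) * (938 / 1000 * l ^ 3) :=
    mul_le_mul_of_nonneg_left h1 (by linarith)
  refine h2.trans ?_
  have h3 : l ≤ 10002 / 10000 * (l - 1) + 0 := by linarith
  have h4 : l ^ 3 ≤ (10002 / 10000 * (l - 1) + 0) ^ 3 := pow_le_pow_left₀ hl0.le h3 3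
  have h5 : (997 / 1000 * (l - 1) ^ 2) ^ 2 = (l - 1) * (994009 / 1000000 * (l - 1) ^ 3) := by ring
  rw [h5]
  refine mul_le_mul_of_nonneg_left ?_ (by linarith)
  have h6 : (0 : ℝ) ≤ (l - 1) ^ 3 := pow_nonneg (by linarith) 3
  nlinarith

theorem J2_contr {s : (p : ℕ) → ZMod p → ℝ} (hs : Ev s) (l : ℕ) [Fact l.Prime] (h3 : l % 4 = 3)
    (hl : 10 ^ 4 ≤ l) (h : |∑ v : ZMod l, rho s l v| ≤ 499 / 500 * l) (k : (ZMod l)ˣ) :
    MM l (el s l k) ≤ 997 / 1000 * ((l : ℝ) - 1) ^ 2 := by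
  classical
  have hp : l.Prime := Fact.out
  have h2 : l ≠ 2 := by
    rintro rfl
    omega
  have hlR : (10 : ℝ) ^ 4 ≤ l := by exact_mod_cast hl
  obtain ⟨ρ, hρ⟩ : ∃ ρ : ZMod l → ℝ, ρ = rho s l := ⟨_, rfl⟩
  have hρ0 : ρ 0 = 0 := by rw [hρ]; exact J2_rho0 hs l
  have hρpm : ∀ v, v ≠ 0 → ρ v = 1 ∨ ρ v = -1 := fun v hv => by rw [hρ]; exact J2_pm hs l hv
  have hρe : ∀ v, ρ (-v) = ρ v := fun v => by rw [hρ]; exact J2_even hs l v
  have hρa : ∀ v, |ρ v| ≤ 1 := fun v => by rw [hρ]; exact J2_abs hs l v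
  obtain ⟨M, hM⟩ : ∃ M : ℝ, M = ∑ v, ρ v := ⟨_, rfl⟩
  have hMabs : |M| ≤ 499 / 500 * l := by rw [hM, hρ]; exact h
  have hρ2 := J2_sq l ρ hρ0 hρpm
  have hψ0 : qr l (0 : ZMod l) * ρ 0 = 0 := by rw [hρ0, mul_zero]
  have hψpm : ∀ v : ZMod l, v ≠ 0 → qr l v * ρ v = 1 ∨ qr l v * ρ v = -1 := by
    intro v hv
    rcases J2_qrpm l hv with h | h <;> rcases hρpm v hv with h' | h' <;> rw [h, h'] <;> norm_num
  have hψ2 := J2_sq l (fun v => qr l v * ρ v) hψ0 hψpm
  have hψs : ∑ v : ZMod l, qr l v * ρ v = 0 := by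
    have h1 : ∑ v : ZMod l, qr l v * ρ v = ∑ v : ZMod l, qr l (-v) * ρ (-v) :=
      (Equiv.sum_comp (Equiv.neg (ZMod l)) (fun v => qr l v * ρ v)).symm
    have h4 : ∀ v : ZMod l, qr l (-v) * ρ (-v) = -(qr l v * ρ v) := by
      intro v
      rw [J2_qr_neg l h3 v, hρe, neg_mul]
    rw [Finset.sum_congr rfl fun v _ => h4 v, Finset.sum_neg_distrib] at h1
    linarith
  have hψa : ∀ v : ZMod l, |qr l v * ρ v| ≤ 1 := by
    intro v
    by_cases hv : v = 0
    · rw [hv, hψ0, abs_zero]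
      exact zero_le_one
    · rcases hψpm v hv with h | h <;> rw [h] <;> norm_num
  rcases le_or_gt (M ^ 2) (66 / 100 * (l : ℝ) ^ 2) with hcase | hcase
  · refine (E2_max hs l h3 k).trans ?_
    have e1 := E3_energy l h2 ρ
    have e2 := E3_energy' l h2 ρ hρa
    have e3 := E3_energy' l h2 (fun v => qr l v * ρ v) hψa
    rw [hρ2, ← hM] at e1 e2
    rw [hψ2, hψs] at e3
    rw [← hρ]
    exact J2_num1 hlR hcase e1 e2 e3
  · -- most values are equal
    obtain ⟨ε, hε, hεM⟩ : ∃ ε : ℝ, (ε = 1 ∨ ε = -1) ∧ ε * M = |M| := by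
      rcases le_or_gt 0 M with h0 | h0
      · exact ⟨1, Or.inl rfl, by rw [abs_of_nonneg h0, one_mul]⟩
      · exact ⟨-1, Or.inr rfl, by rw [abs_of_neg h0]; ring⟩
    have hε2 : ε * ε = 1 := by
      rcases hε with h | h <;> rw [h] <;> norm_num
    obtain ⟨κ, hκ⟩ : ∃ κ : ZMod l → ℝ, κ = fun v => if ρ v = -ε then (1 : ℝ) else 0 := ⟨_, rfl⟩
    have hκ0 : ∀ v, 0 ≤ κ v := by
      intro v
      rw [hκ]
      show (0 : ℝ) ≤ if ρ v = -ε then (1 : ℝ) else 0
      split_ifs <;> norm_num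
    have hval : ∀ v, v ≠ 0 → ρ v = ε - 2 * ε * κ v := by
      intro v hv
      rw [hκ]
      show ρ v = ε - 2 * ε * (if ρ v = -ε then (1 : ℝ) else 0)
      split_ifs with h4
      · rw [h4]
        ring
      · rw [mul_zero, sub_zero]
        rcases hρpm v hv with h5 | h5
        · rcases hε with h6 | h6
          · rw [h5, h6]
          · exact absurd (by rw [h5, h6]; norm_num) h4
        · rcases hε with h6 | h6
          · exact absurd (by rw [h5, h6]) h4
          · rw [h5, h6]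
    have hκz : κ 0 = 0 := by
      rw [hκ]
      show (if ρ 0 = -ε then (1 : ℝ) else 0) = 0
      rw [if_neg]
      rw [hρ0]
      rcases hε with h6 | h6 <;> rw [h6] <;> norm_num
    have hκ1 : ∀ v, κ v = 0 ∨ κ v = 1 := by
      intro v
      rw [hκ]
      show (if ρ v = -ε then (1 : ℝ) else 0) = 0 ∨ (if ρ v = -ε then (1 : ℝ) else 0) = 1
      split_ifs
      · exact Or.inr rfl
      · exact Or.inl rfl
    obtain ⟨p, hpdef⟩ : ∃ p : ℝ, p = ∑ v, κ v := ⟨_, rfl⟩
    have hsum : |M| = (l : ℝ) - 1 - 2 * p := by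
      have h4 : ∀ v : ZMod l, ε * ρ v = 1 - (if v = 0 then (1 : ℝ) else 0) - 2 * κ v := by
        intro v
        by_cases hv : v = 0
        · rw [hv, hρ0, hκz, if_pos rfl]
          ring
        · rw [if_neg hv, hval v hv]
          linear_combination (1 - 2 * κ v) * hε2
      rw [← hεM, hM, Finset.mul_sum, Finset.sum_congr rfl fun v _ => h4 v,
        Finset.sum_sub_distrib, Finset.sum_sub_distrib, J2_card, J2_ind, ← Finset.mul_sum, hpdef]
    have hM8 : 8124 / 10000 * (l : ℝ) < |M| := by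
      by_contra hcon
      push Not at hcon
      have h4 : |M| ^ 2 ≤ (8124 / 10000 * (l : ℝ)) ^ 2 := pow_le_pow_left₀ (abs_nonneg _) hcon 2
      rw [sq_abs] at h4
      have h5 : (0 : ℝ) ≤ (l : ℝ) ^ 2 := by positivity
      nlinarith
    have hpair : ∀ w : ZMod l, ∀ v : ZMod l,
        1 - (if v = 0 then (1 : ℝ) else 0) - (if v = -w then (1 : ℝ) else 0) - 2 * κ v -
          2 * κ (v + w) ≤ ρ v * ρ (v + w) ∧
        |qr l v * ρ v * (qr l (v + w) * ρ (v + w)) - qr l v * qr l (v + w)| ≤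
          2 * κ v + 2 * κ (v + w) := by
      intro w v
      have hk1 := hκ0 v
      have hk2 := hκ0 (v + w)
      by_cases hv : v = 0
      · subst hv
        rw [hρ0, J2_qr0, if_pos rfl]
        constructor
        · have h4 : (0 : ℝ) ≤ if (0 : ZMod l) = -w then (1 : ℝ) else 0 := by
            split_ifs <;> norm_num
          rw [zero_mul]
          linarith
        · rw [zero_mul, zero_mul, zero_mul, sub_zero, abs_zero]
          linarith
      · by_cases hvw : v + w = 0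
        · have h5 : v = -w := eq_neg_of_add_eq_zero_left hvw
          rw [hvw, hρ0, J2_qr0, if_neg hv, if_pos h5]
          rw [hvw] at hk2
          constructor
          · rw [mul_zero]
            linarith
          · rw [mul_zero, mul_zero, mul_zero, sub_zero, abs_zero]
            linarith
        · have h5 : v ≠ -w := fun h => hvw (by rw [h, neg_add_cancel])
          rw [if_neg hv, if_neg h5]
          have e1 := hval v hv
          have e2 := hval (v + w) hvw
          have e3 : ρ v * ρ (v + w) = (1 - 2 * κ v) * (1 - 2 * κ (v + w)) := by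
            rw [e1, e2]
            linear_combination ((1 - 2 * κ v) * (1 - 2 * κ (v + w))) * hε2
          constructor
          · rw [e3]
            nlinarith [mul_nonneg hk1 hk2]
          · have e4 : qr l v * ρ v * (qr l (v + w) * ρ (v + w)) - qr l v * qr l (v + w) =
                qr l v * qr l (v + w) * (ρ v * ρ (v + w) - 1) := by ring
            rw [e4, abs_mul, e3]
            have e5 : |qr l v * qr l (v + w)| = 1 := by
              rcases J2_qrpm l hv with h | h <;> rcases J2_qrpm l hvw with h' | h' <;>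
                rw [h, h'] <;> norm_num
            rw [e5, one_mul]
            rcases hκ1 v with h | h <;> rcases hκ1 (v + w) with h' | h' <;> rw [h, h'] <;> norm_num
    have hA : ∀ w : ZMod l, (l : ℝ) - 2 - 4 * p ≤ acr l ρ w := by
      intro w
      have h4 := Finset.sum_le_sum fun v (_ : v ∈ (univ : Finset (ZMod l))) => (hpair w v).1
      rw [Finset.sum_sub_distrib, Finset.sum_sub_distrib, Finset.sum_sub_distrib,
        Finset.sum_sub_distrib, J2_card, J2_ind, J2_ind, ← Finset.mul_sum, ← Finset.mul_sum,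
        J2_shift l κ w, ← hpdef] at h4
      unfold acr
      linarith
    have hB : ∀ w : ZMod l, w ≠ 0 → |acr l (fun v => qr l v * ρ v) w| ≤ 1 + 4 * p := by
      intro w hw
      have h4 := (Finset.abs_sum_le_sum_abs (fun v => qr l v * ρ v * (qr l (v + w) * ρ (v + w)) -
        qr l v * qr l (v + w)) (univ : Finset (ZMod l))).trans
        (Finset.sum_le_sum fun v (_ : v ∈ (univ : Finset (ZMod l))) => (hpair w v).2)
      rw [Finset.sum_add_distrib, ← Finset.mul_sum, ← Finset.mul_sum, J2_shift l κ w, ← hpdef,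
        Finset.sum_sub_distrib, J2_corr l h3 hw] at h4
      unfold acr
      rw [abs_le] at h4 ⊢
      constructor <;> linarith [h4.1, h4.2]
    have hAB : ∀ w : ZMod l, w ≠ 0 → |acr l (fun v => qr l v * ρ v) w| ≤ acr l ρ w := by
      intro w hw
      refine (hB w hw).trans (le_trans ?_ (hA w))
      linarith
    have hneg : ∀ δ : (ZMod l)ˣ, (((k * -δ)⁻¹ : (ZMod l)ˣ) : ZMod l) =
        -(((k * δ)⁻¹ : (ZMod l)ˣ) : ZMod l) := by
      intro δ
      rw [mul_neg, inv_neg, Units.val_neg]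
    have hMM : MM l (el s l k) = ∑ δ : (ZMod l)ˣ,
        |acr l ρ (((k * δ)⁻¹ : (ZMod l)ˣ) : ZMod l) + qr l (δ : ZMod l) *
          acr l (fun v => qr l v * ρ v) (((k * δ)⁻¹ : (ZMod l)ˣ) : ZMod l)| := by
      unfold MM
      refine Finset.sum_congr rfl fun δ _ => ?_
      rw [E1_change hs l h2 k δ, hρ]
    have hMM' : MM l (el s l k) = ∑ δ : (ZMod l)ˣ,
        |acr l ρ (((k * δ)⁻¹ : (ZMod l)ˣ) : ZMod l) + -qr l (δ : ZMod l) *
          acr l (fun v => qr l v * ρ v) (((k * δ)⁻¹ : (ZMod l)ˣ) : ZMod l)| := by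
      rw [hMM]
      refine Fintype.sum_equiv (Equiv.neg _) _ _ fun δ => ?_
      simp only [Equiv.neg_apply]
      rw [hneg, J2_acr_neg, J2_acr_neg, Units.val_neg, J2_qr_neg l h3, neg_neg]
    have hMM2 : MM l (el s l k) ≤ ∑ δ : (ZMod l)ˣ,
        (fun w => if w = 0 then 0 else acr l ρ w) (((k * δ)⁻¹ : (ZMod l)ˣ) : ZMod l) := by
      have h4 : 2 * MM l (el s l k) = ∑ δ : (ZMod l)ˣ,
          (|acr l ρ (((k * δ)⁻¹ : (ZMod l)ˣ) : ZMod l) + qr l (δ : ZMod l) *
            acr l (fun v => qr l v * ρ v) (((k * δ)⁻¹ : (ZMod l)ˣ) : ZMod l)| +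
          |acr l ρ (((k * δ)⁻¹ : (ZMod l)ˣ) : ZMod l) + -qr l (δ : ZMod l) *
            acr l (fun v => qr l v * ρ v) (((k * δ)⁻¹ : (ZMod l)ˣ) : ZMod l)|) := by
        rw [Finset.sum_add_distrib, ← hMM, ← hMM']
        ring
      have h5 : 2 * MM l (el s l k) ≤ ∑ δ : (ZMod l)ˣ, 2 *
          (fun w => if w = 0 then 0 else acr l ρ w) (((k * δ)⁻¹ : (ZMod l)ˣ) : ZMod l) := by
        rw [h4]
        refine Finset.sum_le_sum fun δ _ => ?_
        have hw : (((k * δ)⁻¹ : (ZMod l)ˣ) : ZMod l) ≠ 0 := Units.ne_zero _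
        show _ ≤ 2 * (if (((k * δ)⁻¹ : (ZMod l)ˣ) : ZMod l) = 0 then 0 else
          acr l ρ (((k * δ)⁻¹ : (ZMod l)ˣ) : ZMod l))
        rw [if_neg hw]
        have h6 := hAB _ hw
        rw [abs_le] at h6
        rcases J2_qrpm l (Units.ne_zero δ) with h7 | h7
        · rw [h7, abs_of_nonneg (by linarith [h6.1, h6.2]),
            abs_of_nonneg (by linarith [h6.1, h6.2])]
          linarith
        · rw [h7, abs_of_nonneg (by linarith [h6.1, h6.2]),
            abs_of_nonneg (by linarith [h6.1, h6.2])]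
          linarith
      rw [← Finset.mul_sum] at h5
      linarith
    have hsumA : ∑ w : ZMod l, acr l ρ w = M ^ 2 := by
      unfold acr
      rw [Finset.sum_comm]
      have h4 : ∀ v : ZMod l, ∑ w : ZMod l, ρ v * ρ (v + w) = ρ v * M := by
        intro v
        rw [← Finset.mul_sum]
        have h5 : ∑ w : ZMod l, ρ (v + w) = M := by
          rw [hM]
          exact Equiv.sum_comp (Equiv.addLeft v) ρ
        rw [h5]
      rw [Finset.sum_congr rfl fun v _ => h4 v, ← Finset.sum_mul, ← hM]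
      ring
    have hA0 : acr l ρ 0 = (l : ℝ) - 1 := by
      unfold acr
      rw [← hρ2]
      refine Finset.sum_congr rfl fun v _ => ?_
      rw [add_zero]
      ring
    have h6 := J2_units l (fun w => if w = 0 then 0 else acr l ρ w) (fun w => by
      show 0 ≤ if w = 0 then 0 else acr l ρ w
      split_ifs with h
      · exact le_rfl
      · exact (abs_nonneg _).trans (hAB w h)) k
    have h7 : ∑ w : ZMod l, (if w = 0 then 0 else acr l ρ w) = M ^ 2 - ((l : ℝ) - 1) := by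
      have h8 : ∀ w : ZMod l, (if w = 0 then 0 else acr l ρ w) =
          acr l ρ w - (if w = 0 then acr l ρ 0 else 0) := by
        intro w
        split_ifs with h
        · rw [h, sub_self]
        · rw [sub_zero]
      rw [Finset.sum_congr rfl fun w _ => h8 w, Finset.sum_sub_distrib, hsumA,
        Finset.sum_ite_eq' Finset.univ (0 : ZMod l)]
      rw [if_pos (mem_univ _), hA0]
    have h9 : MM l (el s l k) ≤ M ^ 2 - ((l : ℝ) - 1) := by
      refine hMM2.trans (h6.trans (le_of_eq h7))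
    refine h9.trans ?_
    have h10 : M ^ 2 ≤ (499 / 500 * (l : ℝ)) ^ 2 := by
      rw [← sq_abs]
      exact pow_le_pow_left₀ (abs_nonneg _) hMabs 2
    nlinarith

end PS25
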