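import Pool.Agent.LibPS25.Defs

/-
PLAN (J3). Part 1 (existence of r odd, r = 3 mod 4, coprime to D, jacobiSym D r = 1): write D = d s^2, d squarefree (Int / Nat.sq_mul_squarefree), d /= -1. d = 1: r = 4 |D| - 1. d = 2: r = -1 mod 8; d = -2: r = 3 mod 8 (and r = -1 or
a suitable class modulo the odd part, by the Chinese remainder theorem; jacobiSym at 2 and -2: jacobiSym.at_two, at_neg_two, ZMod.chi8). Otherwise d has an odd prime factor p: write d = +-(1 or 2) p d1 with d1 odd, coprime to p;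
take r = 3 mod 8, r = 1 modulo d1 and modulo the odd part of s, and r mod p a square or a nonsquare unit as needed: by quadratic reciprocity (jacobiSym.quadratic_reciprocity) J(d | r) = (a fixed sign depending only on r mod 8
and d) times J(r | p), and both values of J(r | p) occur (FiniteField / ZMod exists nonsquare).
ALTERNATIVE: suppose J(D | r) = -1 for all r = 3 mod 4 coprime to D; then J(-D | r) = 1 for these, and with r0 = 4|D| - 1 multiplicativity gives J(-D | r) = 1 for all odd r coprime to D; then -D is a square (its squarefree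
part has Jacobi symbol 1 at all r: contradiction as above).
Part 2: for a prime l = r mod 4|D|: l odd, l = 3 mod 4, and J(D | l) = J(D | l mod 4|D|) = J(D | r) = 1 (jacobiSym.mod_right), so D is a square mod l (ZMod.isSquare_of_jacobiSym_eq_one).
-/

set_option autoImplicit false

noncomputable section

namespace PS25

open Finset

private theorem J3_caseP {p : ℕ} (hp : p.Prime) (hp2 : p ≠ 2) (k : ℕ) {m : ℕ} (hm : 0 < m)
    (hpm : ¬ p ∣ m) {ε : ℤ} (hε : ε = 1 ∨ ε = -1) :
    ∃ r : ℕ, Odd r ∧ jacobiSym (ε * ((p : ℤ) ^ (2 * k + 1) * (m : ℤ))) r = -1 := by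
  have : Fact p.Prime := ⟨hp⟩
  have hpo : Odd p := hp.odd_of_ne_two hp2
  obtain ⟨a, ha⟩ := FiniteField.exists_nonsquare (F := ZMod p) (by rw [ZMod.ringChar_zmod_n]; exact hp2)
  have hco : (4 * m).Coprime p := by
    refine Nat.Coprime.mul_left ?_ ?_
    · have h1 : (2 : ℕ).Coprime p := (Nat.coprime_primes Nat.prime_two hp).2 (Ne.symm hp2)
      have h2 : ((2 : ℕ) ^ 2).Coprime p := h1.pow_left 2
      simpa using h2
    · exact ((Nat.Prime.coprime_iff_not_dvd hp).2 hpm).symm
  obtain ⟨r, hr1, hr2⟩ := Nat.chineseRemainder hco 1 a.val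
  have hr4 : r % 4 = 1 := by
    have h1 : r ≡ 1 [MOD 4] := hr1.of_dvd (Dvd.intro m rfl)
    exact h1
  have hodd : Odd r := Nat.odd_iff.2 (by omega)
  refine ⟨r, hodd, ?_⟩
  have h1 : jacobiSym (ε * (m : ℤ)) r = 1 := by
    rw [jacobiSym.mod_right _ hodd]
    have h2 : (ε * (m : ℤ)).natAbs = m := by
      rw [Int.natAbs_mul, Int.natAbs_natCast]
      rcases hε with h | h <;> rw [h] <;> simp
    rw [h2]
    have h3 : r % (4 * m) = 1 := by
      have h4 : r % (4 * m) = 1 % (4 * m) := hr1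
      rw [h4]
      exact Nat.mod_eq_of_lt (by omega)
    rw [h3, jacobiSym.one_right]
  have h2 : jacobiSym (p : ℤ) r = -1 := by
    rw [jacobiSym.quadratic_reciprocity_one_mod_four' hpo hr4, ← jacobiSym.legendreSym.to_jacobiSym,
      legendreSym.eq_neg_one_iff]
    have h3 : ((r : ℤ) : ZMod p) = a := by
      rw [Int.cast_natCast]
      have h4 : (r : ZMod p) = (a.val : ZMod p) := (ZMod.natCast_eq_natCast_iff _ _ _).2 hr2
      rw [h4, ZMod.natCast_val, ZMod.cast_id', id]
    rw [h3]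
    exact ha
  have h3 : ε * ((p : ℤ) ^ (2 * k + 1) * (m : ℤ)) = (p : ℤ) ^ (2 * k + 1) * (ε * (m : ℤ)) := by ring
  rw [h3, jacobiSym.mul_left, jacobiSym.pow_left, h1, h2, mul_one]
  exact Odd.neg_one_pow ⟨k, rfl⟩

private theorem J3_nonsq (E : ℤ) (hE : E ≠ 0) (hs : ¬ IsSquare E) :
    ∃ r : ℕ, Odd r ∧ jacobiSym E r = -1 := by
  have hn : 0 < E.natAbs := Int.natAbs_pos.2 hE
  obtain ⟨a, b, ha0, hb0, hab, hsq⟩ := Nat.sq_mul_squarefree_of_pos hn
  obtain ⟨ε, hε, hE2⟩ : ∃ ε : ℤ, (ε = 1 ∨ ε = -1) ∧ E = ε * (((b ^ 2 * a : ℕ)) : ℤ) := by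
    rw [hab]
    rcases Int.natAbs_eq E with h | h
    · exact ⟨1, Or.inl rfl, by rw [one_mul]; exact h⟩
    · exact ⟨-1, Or.inr rfl, by rw [neg_one_mul]; exact h⟩
  by_cases hp : ∃ p : ℕ, p.Prime ∧ p ≠ 2 ∧ p ∣ a
  · obtain ⟨p, hpp, hp2, a', rfl⟩ := hp
    have hpa : ¬ p ∣ a' := by
      rintro ⟨c, rfl⟩
      have h1 : IsUnit p := hsq p ⟨c, by ring⟩
      exact hpp.one_lt.ne' (Nat.isUnit_iff.1 h1)
    obtain ⟨k, b', hb', hbk⟩ := Nat.exists_eq_pow_mul_and_not_dvd hb0.ne' p hpp.one_lt.ne'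
    have ha'0 : 0 < a' := Nat.pos_of_mul_pos_left ha0 |> fun h => h
    have hb'0 : 0 < b' := by
      rcases Nat.eq_zero_or_pos b' with h | h
      · subst h
        exact absurd (dvd_zero p) hb'
      · exact h
    obtain ⟨r, hr1, hr2⟩ := J3_caseP hpp hp2 k (m := b' ^ 2 * a') (by positivity) (by
      intro h
      rcases hpp.dvd_mul.1 h with h | h
      · exact hb' (hpp.dvd_of_dvd_pow h)
      · exact hpa h) hε
    refine ⟨r, hr1, ?_⟩
    rw [hE2, ← hr2, hbk]
    congr 1
    push_cast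
    ring
  · have hcop : ∀ r : ℕ, b.Coprime r → jacobiSym (b ^ 2 : ℤ) r = 1 := by
      intro r hr
      exact jacobiSym.sq_one' (by rw [Int.gcd_natCast_natCast]; exact hr)
    have ha : a = 1 ∨ a = 2 := by
      by_cases h2 : 2 ∣ a
      · right
        obtain ⟨a', rfl⟩ := h2
        by_contra h3
        have h4 : a' ≠ 1 := by
          rintro rfl
          exact h3 (by norm_num)
        obtain ⟨q, hq, hqa⟩ := Nat.exists_prime_and_dvd h4
        have hq2 : q = 2 := by
          by_contra h5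
          exact hp ⟨q, hq, h5, hqa.mul_left 2⟩
        subst hq2
        obtain ⟨c, rfl⟩ := hqa
        have h1 : IsUnit 2 := hsq 2 ⟨c, by ring⟩
        exact absurd (Nat.isUnit_iff.1 h1) (by norm_num)
      · left
        by_contra h4
        obtain ⟨q, hq, hqa⟩ := Nat.exists_prime_and_dvd h4
        have hq2 : q = 2 := by
          by_contra h5
          exact hp ⟨q, hq, h5, hqa⟩
        subst hq2
        exact h2 hqa
    rcases ha with rfl | rfl
    · rcases hε with rfl | rfl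
      · exfalso
        refine hs ⟨(b : ℤ), ?_⟩
        rw [hE2]
        push_cast
        ring
      · obtain ⟨B, hB⟩ : ∃ B, B = b * b := ⟨_, rfl⟩
        have hB0 : 0 < B := by rw [hB]; positivity
        refine ⟨4 * B - 1, Nat.odd_iff.2 (by omega), ?_⟩
        have h1 : E = -((b : ℤ) ^ 2) := by
          rw [hE2]
          push_cast
          ring
        rw [h1, jacobiSym.neg _ (Nat.odd_iff.2 (by omega)), ZMod.χ₄_nat_three_mod_four (by omega),
          hcop, mul_one]
        have h2 : (b.gcd (4 * B - 1)) ∣ 1 := by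
          have h3 : b.gcd (4 * B - 1) ∣ (4 * B - 1) + 1 := by
            rw [Nat.sub_add_cancel (by omega), hB]
            exact ((Nat.gcd_dvd_left b _).mul_right b).mul_left 4
          exact (Nat.dvd_add_right (Nat.gcd_dvd_right b _)).1 h3
        exact Nat.dvd_one.1 h2
    · obtain ⟨j, s, hs2, hbs⟩ := Nat.exists_eq_pow_mul_and_not_dvd hb0.ne' 2 (by norm_num)
      have hso : s % 2 = 1 := by omega
      have hodd : Odd (1 + 4 * s) := Nat.odd_iff.2 (by omega)
      refine ⟨1 + 4 * s, hodd, ?_⟩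
      have hc : b.Coprime (1 + 4 * s) := by
        rw [hbs]
        refine Nat.Coprime.mul_left (Nat.Coprime.pow_left j ?_) ?_
        · exact (Nat.coprime_two_left).2 hodd
        · have h2 : s.gcd (1 + 4 * s) ∣ 1 :=
            (Nat.dvd_add_left ((Nat.gcd_dvd_left s _).mul_left 4)).1 (Nat.gcd_dvd_right s _)
          exact Nat.dvd_one.1 h2
      have h8 : (1 + 4 * s) % 8 = 5 := by omega
      rcases hε with rfl | rfl
      · have h1 : E = 2 * (b : ℤ) ^ 2 := by
          rw [hE2]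
          push_cast
          ring
        rw [h1, jacobiSym.mul_left, hcop _ hc, mul_one, jacobiSym.at_two hodd,
          ZMod.χ₈_nat_eq_if_mod_eight, h8]
        have : (1 + 4 * s) % 2 ≠ 0 := by omega
        simp [this]
      · have h1 : E = -2 * (b : ℤ) ^ 2 := by
          rw [hE2]
          push_cast
          ring
        rw [h1, jacobiSym.mul_left, hcop _ hc, mul_one, jacobiSym.at_neg_two hodd,
          ZMod.χ₈'_nat_eq_if_mod_eight, h8]
        have : (1 + 4 * s) % 2 ≠ 0 := by omega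
        simp [this]

private theorem J3_exists (D : ℤ) (hD : D ≠ 0) (h : ¬ IsSquare (-D)) :
    ∃ r : ℕ, r % 4 = 3 ∧ jacobiSym D r = 1 := by
  obtain ⟨r1, ho, h1⟩ := J3_nonsq (-D) (neg_ne_zero.2 hD) h
  rw [jacobiSym.neg _ ho] at h1
  have hn : 0 < D.natAbs := Int.natAbs_pos.2 hD
  have ho2 := Nat.odd_iff.1 ho
  have h4 : r1 % 4 = 1 ∨ r1 % 4 = 3 := by omega
  rcases h4 with h4 | h4
  · rw [ZMod.χ₄_nat_one_mod_four h4, one_mul] at h1
    obtain ⟨r0, hr0⟩ : ∃ r0, r0 = 4 * D.natAbs - 1 := ⟨_, rfl⟩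
    have hr03 : r0 % 4 = 3 := by omega
    have hco : D.gcd r0 = 1 := by
      have h2 : (D.gcd r0) ∣ 1 := by
        have h3 : D.gcd r0 ∣ r0 + 1 := by
          rw [hr0, Nat.sub_add_cancel (by omega)]
          have h5 : D.gcd (r0 : ℤ) ∣ D.natAbs := by
            rw [Int.gcd_def]
            exact Nat.gcd_dvd_left _ _
          rw [← hr0]
          exact h5.mul_left 4
        have h6 : D.gcd (r0 : ℤ) ∣ r0 := by
          rw [Int.gcd_def, Int.natAbs_natCast]
          exact Nat.gcd_dvd_right _ _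
        exact (Nat.dvd_add_right h6).1 h3
      exact Nat.dvd_one.1 h2
    rcases jacobiSym.eq_one_or_neg_one hco with h5 | h5
    · exact ⟨r0, hr03, h5⟩
    · refine ⟨r0 * r1, ?_, ?_⟩
      · rw [Nat.mul_mod, hr03, h4]
      · rw [jacobiSym.mul_right' _ (by omega) (by omega), h5, h1]
        norm_num
  · rw [ZMod.χ₄_nat_three_mod_four h4] at h1
    exact ⟨r1, h4, by linarith⟩

theorem J3_class (D : ℤ) (hD : D ≠ 0) (h : ¬ IsSquare (-D)) :
    ∃ r : ℕ, r.Coprime (4 * D.natAbs) ∧ ∀ l : ℕ, l.Prime → l ≡ r [MOD 4 * D.natAbs] →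
      l % 4 = 3 ∧ ¬ (l : ℤ) ∣ D ∧ IsSquare ((D : ℤ) : ZMod l) := by
  obtain ⟨r, hr4, hJ⟩ := J3_exists D hD h
  have hro : Odd r := Nat.odd_iff.2 (by omega)
  have hr0 : r ≠ 0 := by
    rintro rfl
    simp at hr4
  have hco : r.Coprime (4 * D.natAbs) := by
    refine Nat.Coprime.mul_right ?_ ?_
    · have h1 : r.Coprime (2 ^ 2) := Nat.Coprime.pow_right 2 ((Nat.coprime_two_right).2 hro)
      simpa using h1
    · have h1 : D.gcd (r : ℤ) = 1 := by
        by_contra h2
        have h3 := jacobiSym.eq_zero_iff.2 ⟨hr0, h2⟩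
        rw [hJ] at h3
        exact one_ne_zero h3
      rw [Int.gcd_def, Int.natAbs_natCast] at h1
      exact (show D.natAbs.Coprime r from h1).symm
  refine ⟨r, hco, fun l hl hlr => ?_⟩
  have : Fact l.Prime := ⟨hl⟩
  have hl4 : l % 4 = 3 := by
    have h1 : l ≡ r [MOD 4] := hlr.of_dvd (Dvd.intro _ rfl)
    have h2 : l % 4 = r % 4 := h1
    omega
  have hlo : Odd l := Nat.odd_iff.2 (by omega)
  refine ⟨hl4, fun hd => ?_, ?_⟩
  · have h1 : l ∣ D.natAbs := by
      have := Int.natAbs_dvd_natAbs.2 hd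
      rwa [Int.natAbs_natCast] at this
    have h2 : l ∣ 4 * D.natAbs := h1.mul_left 4
    have h3 : l ∣ r := (Nat.ModEq.dvd_iff hlr h2).1 dvd_rfl
    have h4 : l ∣ 1 := by
      rw [← hco]
      exact Nat.dvd_gcd h3 h2
    exact hl.one_lt.ne' (Nat.dvd_one.1 h4)
  · refine ZMod.isSquare_of_jacobiSym_eq_one ?_
    rw [jacobiSym.mod_right _ hlo]
    have h1 : l % (4 * D.natAbs) = r % (4 * D.natAbs) := hlr
    rw [h1, ← jacobiSym.mod_right _ hro, hJ]

end PS25
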