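import Pool.Agent.LibPS25.Defs

/-
PLAN (J5a). With F(xi) = sum_v f(v) psi(xi v), psi = ZMod.stdAddChar: acr f w = (1/l) sum_xi |F(xi)|^2 psi(xi w) up to the sign of xi (see the delivered proof of E3 in LibPS25/E3.lean for the transform of acr and for Parseval
sum_xi |F|^2 = l sum f^2), and |sum_w qr(w) psi(zeta w)| <= sqrt l (Gauss sum; for zeta = 0 it is 0; LibPA15.A norm_G, or Mathlib gaussSum_sq). One: (1/l) sum_xi |F|^2 sqrt l = sqrt l sum f^2.
Two: (1/l^2) sum_xi sum_eta |F|^2 |G|^2 sqrt l.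
-/

set_option autoImplicit false

noncomputable section

namespace PS25

open Finset

private def J5aF (l : ℕ) [Fact l.Prime] (f : ZMod l → ℝ) (ξ : ZMod l) : ℂ :=
  ∑ v : ZMod l, (f v : ℂ) * ZMod.stdAddChar (v * ξ)

private lemma j5a_conj_std (l : ℕ) [Fact l.Prime] (x : ZMod l) :
    (starRingEnd ℂ) (ZMod.stdAddChar x) = ZMod.stdAddChar (-x) := by
  rw [AddChar.map_neg_eq_conj]

private lemma j5a_norm_std (l : ℕ) [Fact l.Prime] (x : ZMod l) :
    ‖(ZMod.stdAddChar x : ℂ)‖ = 1 := by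
  exact AddChar.norm_apply _ _

private lemma j5a_conj (l : ℕ) [Fact l.Prime] (f : ZMod l → ℝ) (ξ : ZMod l) :
    (starRingEnd ℂ) (J5aF l f ξ) = J5aF l f (-ξ) := by
  unfold J5aF
  rw [map_sum]
  refine Finset.sum_congr rfl fun v _ => ?_
  rw [map_mul, Complex.conj_ofReal, j5a_conj_std, mul_neg]

private lemma j5a_normSq (l : ℕ) [Fact l.Prime] (f : ZMod l → ℝ) (ξ : ZMod l) :
    ((‖J5aF l f ξ‖ ^ 2 : ℝ) : ℂ) = J5aF l (acr l f) ξ := by
  have h1 : ((‖J5aF l f ξ‖ ^ 2 : ℝ) : ℂ) = J5aF l f ξ * (starRingEnd ℂ) (J5aF l f ξ) := by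
    rw [Complex.mul_conj, Complex.normSq_eq_norm_sq]
  rw [h1, j5a_conj]
  unfold J5aF acr
  rw [Finset.sum_mul_sum, Finset.sum_comm]
  push_cast
  have h2 : ∀ v : ZMod l, ∑ x : ZMod l, (f x : ℂ) * ZMod.stdAddChar (x * ξ) *
      ((f v : ℂ) * ZMod.stdAddChar (v * -ξ)) =
      ∑ w : ZMod l, (f v : ℂ) * (f (v + w) : ℂ) * ZMod.stdAddChar (w * ξ) := by
    intro v
    rw [← Equiv.sum_comp (Equiv.addLeft v)]
    refine Finset.sum_congr rfl fun w _ => ?_
    simp only [Equiv.coe_addLeft]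
    have : (ZMod.stdAddChar (w * ξ) : ℂ) =
        ZMod.stdAddChar ((v + w) * ξ) * ZMod.stdAddChar (v * -ξ) := by
      rw [← AddChar.map_add_eq_mul]
      congr 1
      ring
    rw [this]
    ring
  rw [Finset.sum_congr rfl fun v _ => h2 v, Finset.sum_comm]
  refine Finset.sum_congr rfl fun w _ => ?_
  rw [Finset.sum_mul]

private lemma j5a_sum (l : ℕ) [Fact l.Prime] (g : ZMod l → ℝ) :
    ∑ ξ : ZMod l, J5aF l g ξ = ((l * g 0 : ℝ) : ℂ) := by
  unfold J5aF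
  rw [Finset.sum_comm]
  have h : ∀ v : ZMod l, ∑ ξ : ZMod l, (g v : ℂ) * ZMod.stdAddChar (v * ξ) =
      if v = 0 then (g v : ℂ) * l else 0 := by
    intro v
    rw [← Finset.mul_sum]
    have := AddChar.sum_mulShift (R := ZMod l) (R' := ℂ) v (ZMod.isPrimitive_stdAddChar l)
    simp_rw [mul_comm v]
    rw [this]
    split_ifs <;> simp [ZMod.card]
  rw [Finset.sum_congr rfl fun v _ => h v]
  rw [Finset.sum_ite_eq' Finset.univ (0 : ZMod l)]
  simp [mul_comm]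

private lemma j5a_parseval (l : ℕ) [Fact l.Prime] (f : ZMod l → ℝ) :
    ∑ ξ : ZMod l, ‖J5aF l f ξ‖ ^ 2 = l * ∑ v, f v ^ 2 := by
  have h : ((∑ ξ : ZMod l, ‖J5aF l f ξ‖ ^ 2 : ℝ) : ℂ) = ((l * ∑ v, f v ^ 2 : ℝ) : ℂ) := by
    rw [Complex.ofReal_sum, Finset.sum_congr rfl fun ξ _ => j5a_normSq l f ξ, j5a_sum]
    congr 2
    unfold acr
    refine Finset.sum_congr rfl fun v _ => ?_
    rw [add_zero, sq]
  exact_mod_cast h

/-- Gauss sum -/
private lemma j5a_gauss (l : ℕ) [Fact l.Prime] (h2 : l ≠ 2) (ζ : ZMod l) :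
    ‖J5aF l (qr l) ζ‖ ≤ Real.sqrt l := by
  have hrc : ringChar (ZMod l) ≠ 2 := by
    rw [ZMod.ringChar_zmod_n]
    exact h2
  obtain ⟨χ, hχ⟩ : ∃ χ : MulChar (ZMod l) ℂ,
      χ = (quadraticChar (ZMod l)).ringHomComp (Int.castRingHom ℂ) := ⟨_, rfl⟩
  have hχv : ∀ v, χ v = ((qr l v : ℝ) : ℂ) := by
    intro v
    rw [hχ, MulChar.ringHomComp_apply]
    unfold qr
    simp
  have hq : χ.IsQuadratic := by
    rw [hχ]
    exact (quadraticChar_isQuadratic _).comp _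
  have hne : χ ≠ 1 := by
    rw [hχ]
    exact (MulChar.ringHomComp_ne_one_iff (RingHom.injective_int _)).mpr (quadraticChar_ne_one hrc)
  by_cases hζ : ζ = 0
  · have h1 : J5aF l (qr l) ζ = 0 := by
      unfold J5aF
      rw [hζ]
      have h3 : ∑ v : ZMod l, ((qr l v : ℝ) : ℂ) * ZMod.stdAddChar (v * (0 : ZMod l)) =
          ∑ v : ZMod l, χ v := by
        refine Finset.sum_congr rfl fun v _ => ?_
        rw [mul_zero, AddChar.map_zero_eq_one, mul_one, hχv]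
      rw [h3]
      exact MulChar.sum_eq_zero_of_ne_one hne
    rw [h1, norm_zero]
    exact Real.sqrt_nonneg _
  · have h3 : J5aF l (qr l) ζ =
        gaussSum χ ((ZMod.stdAddChar (N := l)).mulShift ζ) := by
      unfold J5aF gaussSum
      refine Finset.sum_congr rfl fun v _ => ?_
      rw [AddChar.mulShift_apply, hχv, mul_comm v ζ]
    have h4 := gaussSum_mulShift χ (ZMod.stdAddChar (N := l)) (Units.mk0 ζ hζ)
    rw [Units.val_mk0, ← h3] at h4
    have h5 := gaussSum_sq hne hq (ZMod.isPrimitive_stdAddChar l)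
    have hval : ∀ v : ZMod l, v ≠ 0 → ‖χ v‖ = 1 := by
      intro v hv
      rcases hq v with h | h | h
      · exfalso
        have : χ (((Units.mk0 v hv) : (ZMod l)ˣ) : ZMod l) = 0 := by
          rw [Units.val_mk0]
          exact h
        have h6 : IsUnit (χ (((Units.mk0 v hv) : (ZMod l)ˣ) : ZMod l)) :=
          (Units.mk0 v hv).isUnit.map χ
        rw [this] at h6
        exact not_isUnit_zero h6
      · rw [h, norm_one]
      · rw [h, norm_neg, norm_one]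
    have h6 : ‖J5aF l (qr l) ζ‖ = ‖gaussSum χ (ZMod.stdAddChar (N := l))‖ := by
      rw [← h4, norm_mul, hval ζ hζ, one_mul]
    have h7 : ‖gaussSum χ (ZMod.stdAddChar (N := l))‖ ^ 2 = l := by
      rw [← norm_pow, h5, norm_mul, hval (-1) (neg_ne_zero.mpr one_ne_zero), one_mul, ZMod.card,
        Complex.norm_natCast]
    rw [h6]
    apply Real.le_sqrt_of_sq_le
    rw [h7]

private lemma j5a_inv (l : ℕ) [Fact l.Prime] (g : ZMod l → ℝ) (w : ZMod l) :
    (l : ℂ) * (acr l g w : ℂ) =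
      ∑ η : ZMod l, ((‖J5aF l g η‖ ^ 2 : ℝ) : ℂ) * ZMod.stdAddChar (-(w * η)) := by
  have h1 : ∀ η : ZMod l, ((‖J5aF l g η‖ ^ 2 : ℝ) : ℂ) * ZMod.stdAddChar (-(w * η)) =
      J5aF l (fun v => acr l g (v + w)) η := by
    intro η
    rw [j5a_normSq]
    unfold J5aF
    rw [Finset.sum_mul, ← Equiv.sum_comp (Equiv.addRight w)]
    refine Finset.sum_congr rfl fun v _ => ?_
    simp only [Equiv.coe_addRight]
    rw [mul_assoc, ← AddChar.map_add_eq_mul]
    congr 2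
    ring
  rw [Finset.sum_congr rfl fun η _ => h1 η, j5a_sum]
  push_cast
  rw [zero_add]

private lemma j5a_twist (l : ℕ) [Fact l.Prime] (h2 : l ≠ 2) (g : ZMod l → ℝ) (ξ : ZMod l) :
    ‖∑ w : ZMod l, ((qr l w * acr l g w : ℝ) : ℂ) * ZMod.stdAddChar (w * ξ)‖ ≤
      Real.sqrt l * ∑ v, g v ^ 2 := by
  have hl : (0 : ℝ) < l := by
    have := (Fact.out : l.Prime).pos
    exact_mod_cast this
  have h1 : (l : ℂ) * ∑ w : ZMod l, ((qr l w * acr l g w : ℝ) : ℂ) * ZMod.stdAddChar (w * ξ) =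
      ∑ η : ZMod l, ((‖J5aF l g η‖ ^ 2 : ℝ) : ℂ) * J5aF l (qr l) (ξ - η) := by
    rw [Finset.mul_sum]
    have h3 : ∀ w : ZMod l, (l : ℂ) * (((qr l w * acr l g w : ℝ) : ℂ) *
        ZMod.stdAddChar (w * ξ)) = ∑ η : ZMod l, ((‖J5aF l g η‖ ^ 2 : ℝ) : ℂ) *
          ((qr l w : ℂ) * ZMod.stdAddChar (w * (ξ - η))) := by
      intro w
      have h4 : (l : ℂ) * (((qr l w * acr l g w : ℝ) : ℂ) * ZMod.stdAddChar (w * ξ)) =
          ((l : ℂ) * (acr l g w : ℂ)) * ((qr l w : ℂ) * ZMod.stdAddChar (w * ξ)) := by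
        push_cast
        ring
      rw [h4, j5a_inv, Finset.sum_mul]
      refine Finset.sum_congr rfl fun η _ => ?_
      have h5 : (ZMod.stdAddChar (w * (ξ - η)) : ℂ) =
          ZMod.stdAddChar (-(w * η)) * ZMod.stdAddChar (w * ξ) := by
        rw [← AddChar.map_add_eq_mul]
        congr 1
        ring
      rw [h5]
      ring
    rw [Finset.sum_congr rfl fun w _ => h3 w, Finset.sum_comm]
    refine Finset.sum_congr rfl fun η _ => ?_
    unfold J5aF
    rw [Finset.mul_sum]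
  have h6 : ‖∑ η : ZMod l, ((‖J5aF l g η‖ ^ 2 : ℝ) : ℂ) * J5aF l (qr l) (ξ - η)‖ ≤
      ∑ η : ZMod l, ‖J5aF l g η‖ ^ 2 * Real.sqrt l := by
    refine (norm_sum_le _ _).trans ?_
    refine Finset.sum_le_sum fun η _ => ?_
    rw [norm_mul, Complex.norm_real, Real.norm_of_nonneg (by positivity)]
    exact mul_le_mul_of_nonneg_left (j5a_gauss l h2 _) (by positivity)
  rw [← h1, norm_mul, Complex.norm_natCast, ← Finset.sum_mul, j5a_parseval] at h6
  have h7 : (l : ℝ) * ‖∑ w : ZMod l, ((qr l w * acr l g w : ℝ) : ℂ) * ZMod.stdAddChar (w * ξ)‖ ≤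
      l * (Real.sqrt l * ∑ v, g v ^ 2) := by
    refine h6.trans (le_of_eq ?_)
    ring
  exact le_of_mul_le_mul_left h7 hl

theorem J5a_one (l : ℕ) [Fact l.Prime] (h2 : l ≠ 2) (f : ZMod l → ℝ) :
    |∑ w : ZMod l, qr l w * acr l f w| ≤ Real.sqrt l * ∑ v, f v ^ 2 := by
  have h1 := j5a_twist l h2 f 0
  have h3 : ∑ w : ZMod l, ((qr l w * acr l f w : ℝ) : ℂ) * ZMod.stdAddChar (w * (0 : ZMod l)) =
      ((∑ w : ZMod l, qr l w * acr l f w : ℝ) : ℂ) := by
    rw [Complex.ofReal_sum]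
    refine Finset.sum_congr rfl fun w _ => ?_
    rw [mul_zero, AddChar.map_zero_eq_one, mul_one]
  rw [h3, Complex.norm_real, Real.norm_eq_abs] at h1
  exact h1

theorem J5a_two (l : ℕ) [Fact l.Prime] (h2 : l ≠ 2) (f g : ZMod l → ℝ) :
    |∑ w : ZMod l, qr l w * (acr l f w * acr l g w)| ≤ Real.sqrt l * ((∑ v, f v ^ 2) * ∑ v, g v ^ 2) := by
  have hl : (0 : ℝ) < l := by
    have := (Fact.out : l.Prime).pos
    exact_mod_cast this
  have h1 : (l : ℂ) * ((∑ w : ZMod l, qr l w * (acr l f w * acr l g w) : ℝ) : ℂ) =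
      ∑ η : ZMod l, ((‖J5aF l f η‖ ^ 2 : ℝ) : ℂ) *
        ∑ w : ZMod l, ((qr l w * acr l g w : ℝ) : ℂ) * ZMod.stdAddChar (w * (-η)) := by
    rw [Complex.ofReal_sum, Finset.mul_sum]
    have h3 : ∀ w : ZMod l, (l : ℂ) * ((qr l w * (acr l f w * acr l g w) : ℝ) : ℂ) =
        ∑ η : ZMod l, ((‖J5aF l f η‖ ^ 2 : ℝ) : ℂ) *
          (((qr l w * acr l g w : ℝ) : ℂ) * ZMod.stdAddChar (w * (-η))) := by
      intro w
      have h4 : (l : ℂ) * ((qr l w * (acr l f w * acr l g w) : ℝ) : ℂ) =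
          ((l : ℂ) * (acr l f w : ℂ)) * ((qr l w * acr l g w : ℝ) : ℂ) := by
        push_cast
        ring
      rw [h4, j5a_inv, Finset.sum_mul]
      refine Finset.sum_congr rfl fun η _ => ?_
      rw [mul_neg]
      ring
    rw [Finset.sum_congr rfl fun w _ => h3 w, Finset.sum_comm]
    refine Finset.sum_congr rfl fun η _ => ?_
    rw [Finset.mul_sum]
  have h6 : ‖(l : ℂ) * ((∑ w : ZMod l, qr l w * (acr l f w * acr l g w) : ℝ) : ℂ)‖ ≤
      ∑ η : ZMod l, ‖J5aF l f η‖ ^ 2 * (Real.sqrt l * ∑ v, g v ^ 2) := by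
    rw [h1]
    refine (norm_sum_le _ _).trans ?_
    refine Finset.sum_le_sum fun η _ => ?_
    rw [norm_mul, Complex.norm_real, Real.norm_of_nonneg (by positivity)]
    exact mul_le_mul_of_nonneg_left (j5a_twist l h2 g _) (by positivity)
  rw [norm_mul, Complex.norm_natCast, Complex.norm_real, Real.norm_eq_abs, ← Finset.sum_mul,
    j5a_parseval] at h6
  have h7 : (l : ℝ) * |∑ w : ZMod l, qr l w * (acr l f w * acr l g w)| ≤
      l * (Real.sqrt l * ((∑ v, f v ^ 2) * ∑ v, g v ^ 2)) := by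
    refine h6.trans (le_of_eq ?_)
    ring
  exact le_of_mul_le_mul_left h7 hl

end PS25
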