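import Pool.Agent.LibPS25.Defs

/-
PLAN (J5b). The expression is sum_v (1 + eps qr(v) qr(v + w)) f(v) f(v + w). Weights c_v = 1 + eps qr(v) qr(v + w) in {0, 1, 2}; f(v) f(v + w) = 0 for v = 0, v = -w, otherwise +-1.
sum of c_v over v /= 0, -w is (l - 2) + eps sum_v qr(v) qr(v + w) = l - 2 - eps >= l - 3 (sum_v qr(v (v + w)) = -1 for w /= 0: substitute v = w y, then y + 1 = y u ... or jacobi-type sum in Mathlib / LibPS25 J2).
Let sgm be the sign of sum f and M the set of v /= 0 with f v /= sgm: #M <= (l - 1 - .76 l)/2 <= .12 l. f(v) f(v + w) = -1 only if v or v + w is in M: at most 2 #M values, each changes the sum by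
at most 2 c_v <= 4. So the expression is at least l - 3 - 8 #M >= .04 l - 3 >= 0.
-/

set_option autoImplicit false

noncomputable section

namespace PS25

open Finset

private lemma J5b_qr_mul {l : ℕ} [Fact l.Prime] (a b : ZMod l) : qr l (a * b) = qr l a * qr l b := by
  unfold qr
  rw [map_mul]
  push_cast
  rfl

private lemma J5b_qr_zero {l : ℕ} [Fact l.Prime] : qr l (0 : ZMod l) = 0 := by
  unfold qr
  rw [quadraticChar_zero]
  simp

private lemma J5b_qr_one {l : ℕ} [Fact l.Prime] : qr l (1 : ZMod l) = 1 := by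
  unfold qr
  rw [map_one]
  simp

private lemma J5b_qr_sq {l : ℕ} [Fact l.Prime] {v : ZMod l} (hv : v ≠ 0) : qr l v * qr l v = 1 := by
  unfold qr
  have h := quadraticChar_sq_one hv
  have h' : (quadraticChar (ZMod l) v) * (quadraticChar (ZMod l) v) = 1 := by
    rw [← sq]; exact h
  exact_mod_cast h'

private lemma J5b_qr_abs {l : ℕ} [Fact l.Prime] (v : ZMod l) : |qr l v| ≤ 1 := by
  by_cases hv : v = 0
  · rw [hv, J5b_qr_zero, abs_zero]; exact zero_le_one
  · unfold qr
    rcases quadraticChar_dichotomy hv with h | h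
    · rw [h]; simp
    · rw [h]; simp

private lemma J5b_sum {l : ℕ} [Fact l.Prime] (h2 : l ≠ 2) (w : ZMod l) (hw : w ≠ 0) :
    ∑ v : ZMod l, qr l v * qr l (v + w) = -1 := by
  classical
  have hF : ringChar (ZMod l) ≠ 2 := by rw [ZMod.ringChar_zmod_n]; exact h2
  have hs : ∑ u : ZMod l, qr l u = 0 := by
    unfold qr
    have := quadraticChar_sum_zero hF
    exact_mod_cast this
  have h1 : ∑ v : ZMod l, qr l v * qr l (v + w) =
      ∑ v ∈ univ.erase (0 : ZMod l), qr l (1 + w * v⁻¹) := by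
    rw [← Finset.add_sum_erase univ (fun v => qr l v * qr l (v + w)) (mem_univ (0 : ZMod l)),
      J5b_qr_zero, zero_mul, zero_add]
    refine sum_congr rfl fun v hv => ?_
    have hv0 : v ≠ 0 := Finset.ne_of_mem_erase hv
    have e : v + w = v * (1 + w * v⁻¹) := by field_simp
    rw [e, J5b_qr_mul, ← mul_assoc, J5b_qr_sq hv0, one_mul]
  have h3 : ∑ v ∈ univ.erase (0 : ZMod l), qr l (1 + w * v⁻¹) =
      ∑ u ∈ univ.erase (1 : ZMod l), qr l u := by
    refine sum_nbij' (fun v => 1 + w * v⁻¹) (fun u => w * (u - 1)⁻¹) ?_ ?_ ?_ ?_ ?_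
    · intro v hv
      have hv0 : v ≠ 0 := Finset.ne_of_mem_erase hv
      rw [Finset.mem_erase]
      refine ⟨?_, mem_univ _⟩
      intro h
      have : w * v⁻¹ = 0 := by linear_combination h
      exact mul_ne_zero hw (inv_ne_zero hv0) this
    · intro u hu
      have hu1 : u ≠ 1 := Finset.ne_of_mem_erase hu
      rw [Finset.mem_erase]
      exact ⟨mul_ne_zero hw (inv_ne_zero (sub_ne_zero.2 hu1)), mem_univ _⟩
    · intro v hv
      have hv0 : v ≠ 0 := Finset.ne_of_mem_erase hv
      change w * (1 + w * v⁻¹ - 1)⁻¹ = v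
      rw [add_sub_cancel_left, mul_inv, inv_inv, ← mul_assoc, mul_inv_cancel₀ hw, one_mul]
    · intro u hu
      have hu1 : u ≠ 1 := Finset.ne_of_mem_erase hu
      change 1 + w * (w * (u - 1)⁻¹)⁻¹ = u
      rw [mul_inv, inv_inv, ← mul_assoc, mul_inv_cancel₀ hw, one_mul]
      ring
    · intro v _
      rfl
  rw [h1, h3]
  have h4 := Finset.add_sum_erase univ (fun u => qr l u) (mem_univ (1 : ZMod l))
  rw [hs, J5b_qr_one] at h4
  linarith

theorem J5b_pos (l : ℕ) [Fact l.Prime] (hl : 1000 ≤ l) (f : ZMod l → ℝ) (h0 : f 0 = 0)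
    (h1 : ∀ v, v ≠ 0 → f v = 1 ∨ f v = -1) (h : 76 / 100 * (l : ℝ) < |∑ v, f v|) (ε : ℝ)
    (hε : ε = 1 ∨ ε = -1) (w : ZMod l) (hw : w ≠ 0) :
    0 ≤ acr l f w + ε * acr l (fun v => qr l v * f v) w := by
  classical
  have h2 : l ≠ 2 := by omega
  have hlr : (1000 : ℝ) ≤ l := by exact_mod_cast hl
  -- the sign
  obtain ⟨σ, hσ, hσs⟩ : ∃ σ : ℝ, (σ = 1 ∨ σ = -1) ∧ |∑ v, f v| = σ * ∑ v, f v := by
    rcases le_total 0 (∑ v, f v) with h3 | h3
    · exact ⟨1, Or.inl rfl, by rw [abs_of_nonneg h3, one_mul]⟩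
    · exact ⟨-1, Or.inr rfl, by rw [abs_of_nonpos h3]; ring⟩
  have hσ2 : σ * σ = 1 := by rcases hσ with h3 | h3 <;> rw [h3] <;> norm_num
  set m : ZMod l → ℝ := fun v => if f v = -σ then 1 else 0 with hm
  have hm0 : ∀ v, 0 ≤ m v := fun v => by rw [hm]; dsimp only; split_ifs <;> norm_num
  have hσ0 : (0 : ℝ) ≠ -σ := by rcases hσ with h3 | h3 <;> rw [h3] <;> norm_num
  have hfm : ∀ v, σ * f v = (if v = 0 then 0 else 1) - 2 * m v := by
    intro v
    by_cases hv : v = 0
    · rw [if_pos hv, hv, h0, hm]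
      dsimp only
      rw [h0, if_neg hσ0]
      ring
    · rw [if_neg hv, hm]
      dsimp only
      rcases hσ with h3 | h3 <;> rcases h1 v hv with h4 | h4 <;> rw [h3, h4] <;> norm_num
  have hcard : ∑ _v : ZMod l, (1 : ℝ) = l := by simp [ZMod.card]
  have hone : ∑ v : ZMod l, (if v = 0 then (0 : ℝ) else 1) = l - 1 := by
    have : ∀ v : ZMod l, (if v = 0 then (0 : ℝ) else 1) = 1 - if v = 0 then 1 else 0 := by
      intro v; split_ifs <;> norm_num
    rw [Finset.sum_congr rfl fun v _ => this v, Finset.sum_sub_distrib, hcard,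
      Finset.sum_ite_eq' Finset.univ (0 : ZMod l)]
    simp
  have hM : 2 * ∑ v, m v < (24 / 100) * (l : ℝ) - 1 := by
    have h3 : σ * ∑ v, f v = (l - 1) - 2 * ∑ v, m v := by
      rw [Finset.mul_sum, Finset.sum_congr rfl fun v _ => hfm v, Finset.sum_sub_distrib, hone,
        Finset.mul_sum]
    rw [hσs, h3] at h
    linarith
  -- the weights
  set c : ZMod l → ℝ := fun v => 1 + ε * (qr l v * qr l (v + w)) with hc
  have hqq : ∀ v, |qr l v * qr l (v + w)| ≤ 1 := by
    intro v
    rw [abs_mul]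
    exact mul_le_one₀ (J5b_qr_abs v) (abs_nonneg _) (J5b_qr_abs _)
  have hc0 : ∀ v, 0 ≤ c v ∧ c v ≤ 2 := by
    intro v
    have h3 := abs_le.1 (hqq v)
    rw [hc]
    dsimp only
    rcases hε with h4 | h4 <;> rw [h4] <;> constructor <;> linarith
  have hexp : acr l f w + ε * acr l (fun v => qr l v * f v) w = ∑ v, c v * (f v * f (v + w)) := by
    unfold acr
    rw [Finset.mul_sum, ← Finset.sum_add_distrib]
    refine Finset.sum_congr rfl fun v _ => ?_
    rw [hc]
    ring
  have hterm : ∀ v, c v - (if v = 0 then 1 else 0) - (if v = -w then 1 else 0) - 4 * m v -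
      4 * m (v + w) ≤ c v * (f v * f (v + w)) := by
    intro v
    obtain ⟨hc1, hc2⟩ := hc0 v
    have hm1 := hm0 v
    have hm2 := hm0 (v + w)
    by_cases hv : v = 0
    · have e1 : c v = 1 := by
        rw [hc]; dsimp only; rw [hv, J5b_qr_zero]; ring
      rw [e1, if_pos hv, hv, h0]
      rw [hv] at hm1 hm2
      have h5 : (0 : ℝ) ≤ if (0 : ZMod l) = -w then 1 else 0 := by split_ifs <;> norm_num
      nlinarith
    · by_cases hv' : v = -w
      · have e0 : v + w = 0 := by rw [hv']; ring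
        have e1 : c v = 1 := by
          rw [hc]; dsimp only; rw [e0, J5b_qr_zero]; ring
        rw [e1, if_neg hv, if_pos hv', e0, h0]
        rw [e0] at hm2
        nlinarith
      · rw [if_neg hv, if_neg hv']
        have hv2 : v + w ≠ 0 := fun h3 => hv' (eq_neg_of_add_eq_zero_left h3)
        have e1 := hfm v
        have e2 := hfm (v + w)
        rw [if_neg hv] at e1
        rw [if_neg hv2] at e2
        have e3 : f v * f (v + w) = (1 - 2 * m v) * (1 - 2 * m (v + w)) := by
          rw [← e1, ← e2]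
          linear_combination (-(f v * f (v + w))) * hσ2
        rw [e3]
        have hmv : m v = 0 ∨ m v = 1 := by
          rw [hm]; dsimp only; split_ifs <;> simp
        have hmv' : m (v + w) = 0 ∨ m (v + w) = 1 := by
          rw [hm]; dsimp only; split_ifs <;> simp
        rcases hmv with h5 | h5 <;> rcases hmv' with h6 | h6 <;> rw [h5, h6] <;> nlinarith
  have hsumc : ∑ v, c v = l + ε * (-1) := by
    rw [hc]
    dsimp only
    rw [Finset.sum_add_distrib, hcard, ← Finset.mul_sum, J5b_sum h2 w hw]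
  have hshift : ∑ v, m (v + w) = ∑ v, m v := Equiv.sum_comp (Equiv.addRight w) m
  rw [hexp]
  refine le_trans ?_ (Finset.sum_le_sum fun v _ => hterm v)
  rw [Finset.sum_sub_distrib, Finset.sum_sub_distrib, Finset.sum_sub_distrib,
    Finset.sum_sub_distrib, hsumc, ← Finset.mul_sum, ← Finset.mul_sum, hshift,
    Finset.sum_ite_eq' Finset.univ (0 : ZMod l), Finset.sum_ite_eq' Finset.univ (-w)]
  simp only [mem_univ, if_true]
  rcases hε with h4 | h4 <;> rw [h4] <;> nlinarith

end PS25
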