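import Pool.Agent.LibPS25.E1
import Pool.Agent.LibPS25.E3
import Pool.Agent.LibPS25.J5a
import Pool.Agent.LibPS25.J5b

/-
PLAN (J5). NO condition on l mod 4. rho := rho s l, psi := qr rho, A := acr rho, B := acr psi. By E1_change MM = sum over the units delta of |I(delta)|, I(delta) = A(w) + qr(delta) B(w), w = (k delta)^-1, and
qr(delta) = qr(k) qr(w). delta -> w is a bijection of the units.
(a) |sum rho| <= .76 l and |sum psi| <= .76 l: Cauchy-Schwarz MM <= ((l - 1) sum_w (A + qr(k) qr(w) B)^2)^(1/2), sum <= sum A^2 + sum B^2 + 2 |sum_w qr(w) A B| <= (8/9) l^3 + 2 l^(5/2): each of sum A^2, sum B^2 is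
<= (4/9) l^3 as in E5 (E3_energy' if (sum f)^2 <= (4/9) l^2, E3_energy otherwise; f = rho and f = psi, |f| <= 1, sum f^2 <= l), the cross term by J5a_two. l >= 10^8: fine.
(b) |sum rho| > .76 l: I(delta) >= 0 by J5b_pos (f = rho, eps = qr(delta)), so MM = sum_delta I(delta) = sum_{w /= 0} A(w) + qr(k) sum_w qr(w) B(w) <= (sum rho)^2 + sqrt l * l (sum over all w of A = (sum rho)^2, A(0) >= 0; J5a_one)
<= (999/1000)^2 l^2 + l^(3/2) <= (999/1000) (l - 1)^2 for l >= 10^8.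
(c) |sum psi| > .76 l: qr(delta) I(delta) = B(w) + qr(delta) A(w), and A = acr (qr psi) up to v = 0 (qr psi = qr^2 rho = rho), so J5b_pos with f = psi gives qr(delta) I(delta) >= 0 and the same computation with psi.
-/

set_option autoImplicit false

noncomputable section

namespace PS25

open Finset

private theorem J5_rho {s : (p : ℕ) → ZMod p → ℝ} (hs : Ev s) (l : ℕ) [Fact l.Prime]
    (v : ZMod l) : |rho s l v| ≤ 1 := by
  unfold rho
  by_cases h0 : v⁻¹ = 0
  · rw [h0, hs.zero l Fact.out]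
    norm_num
  · rcases hs.pm l Fact.out _ h0 with h | h <;> rw [h] <;> norm_num

private theorem J5_qr (l : ℕ) [Fact l.Prime] (v : ZMod l) : |qr l v| ≤ 1 := by
  unfold qr
  by_cases h0 : v = 0
  · rw [h0, MulChar.map_zero]
    norm_num
  · rcases quadraticChar_dichotomy h0 with h | h <;> rw [h] <;> norm_num

private theorem J5_qr_pm (l : ℕ) [Fact l.Prime] {v : ZMod l} (h0 : v ≠ 0) :
    qr l v = 1 ∨ qr l v = -1 := by
  unfold qr
  rcases quadraticChar_dichotomy h0 with h | h <;> rw [h]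
  · left; norm_num
  · right; norm_num

private theorem J5_qr_zero (l : ℕ) [Fact l.Prime] : qr l (0 : ZMod l) = 0 := by
  unfold qr
  rw [quadraticChar_zero]
  simp

private lemma J5_qr_mul {l : ℕ} [Fact l.Prime] (a b : ZMod l) : qr l (a * b) = qr l a * qr l b := by
  unfold qr
  rw [map_mul]
  push_cast
  rfl

private theorem J5_num (L S Q : ℝ) (hL : 0 < L) (hS : |S| ≤ 76 / 100 * L) (hQ : Q ≤ L)
    (hSQ : S ^ 2 ≤ L * Q) (E : ℝ) (h1 : L * E ≤ S ^ 4 + (L * Q - S ^ 2) ^ 2 / 2)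
    (h2 : L * E ≤ S ^ 4 + (L * Q - S ^ 2) * (4 / 9 * L ^ 2)) : L * E ≤ 4 / 9 * L ^ 4 := by
  have hm0 : S ^ 2 ≤ (5776 / 10000) * L ^ 2 := by
    have h3 := abs_le.1 hS
    nlinarith
  have hLQ : L * Q ≤ L ^ 2 := by nlinarith
  set M : ℝ := S ^ 2 with hM
  have hS4 : S ^ 4 = M ^ 2 := by rw [hM]; ring
  rw [hS4] at h1 h2
  have hM0 : 0 ≤ M := sq_nonneg S
  set P : ℝ := L ^ 2 with hP
  have hP0 : 0 < P := by positivity
  have hL4 : L ^ 4 = P ^ 2 := by rw [hP]; ring
  rw [hL4]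
  by_cases hc : M ≤ 4 / 9 * P
  · refine h2.trans ?_
    have h3 : (L * Q - M) * (4 / 9 * P) ≤ (P - M) * (4 / 9 * P) := by
      apply mul_le_mul_of_nonneg_right _ (by positivity)
      linarith
    nlinarith
  · push Not at hc
    refine h1.trans ?_
    have h3 : (L * Q - M) ^ 2 ≤ (P - M) ^ 2 := by
      apply pow_le_pow_left₀ (by linarith)
      linarith
    nlinarith [mul_nonneg (sub_nonneg.2 hc.le) (sub_nonneg.2 hm0), mul_nonneg hP0.le hM0,
      mul_nonneg hP0.le (sub_nonneg.2 hm0), mul_nonneg hP0.le (sub_nonneg.2 hc.le)]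

private theorem J5_sumsq (l : ℕ) [Fact l.Prime] (f : ZMod l → ℝ) (hf : ∀ v, |f v| ≤ 1) :
    ∑ v, f v ^ 2 ≤ l := by
  have hcard : ((Finset.univ : Finset (ZMod l)).card : ℝ) = l := by
    rw [Finset.card_univ, ZMod.card]
  calc ∑ v, f v ^ 2 ≤ ∑ _v : ZMod l, (1 : ℝ) := by
        refine Finset.sum_le_sum fun v _ => ?_
        have h5 := abs_le.1 (hf v)
        nlinarith
    _ = l := by rw [Finset.sum_const, nsmul_eq_mul, mul_one, hcard]

private theorem J5_energy (l : ℕ) [Fact l.Prime] (h2 : l ≠ 2) (f : ZMod l → ℝ)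
    (hf : ∀ v, |f v| ≤ 1) (hS : |∑ v, f v| ≤ 76 / 100 * l) :
    ∑ w : ZMod l, acr l f w ^ 2 ≤ 4 / 9 * (l : ℝ) ^ 3 := by
  have hL0 : (0 : ℝ) < l := by exact_mod_cast (Fact.out : l.Prime).pos
  have hcard : ((Finset.univ : Finset (ZMod l)).card : ℝ) = l := by
    rw [Finset.card_univ, ZMod.card]
  have h := J5_num l (∑ v, f v) (∑ v, f v ^ 2) hL0 hS (J5_sumsq l f hf) (by
    have h6 := sq_sum_le_card_mul_sum_sq (s := (Finset.univ : Finset (ZMod l))) (f := f)
    rwa [hcard] at h6) _ (E3_energy l h2 f) (E3_energy' l h2 f hf)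
  have : (l : ℝ) * ∑ w : ZMod l, acr l f w ^ 2 ≤ l * (4 / 9 * (l : ℝ) ^ 3) := by
    refine h.trans (le_of_eq ?_)
    ring
  exact le_of_mul_le_mul_left this hL0

private theorem J5_sum_acr (l : ℕ) [NeZero l] (f : ZMod l → ℝ) :
    ∑ w : ZMod l, acr l f w = (∑ v, f v) ^ 2 := by
  unfold acr
  rw [Finset.sum_comm, sq, Finset.sum_mul]
  refine Finset.sum_congr rfl fun v _ => ?_
  rw [← Finset.mul_sum]
  congr 1
  exact Equiv.sum_comp (Equiv.addLeft v) f

private theorem J5_sqrt (l : ℕ) (hl : 10 ^ 8 ≤ l) : Real.sqrt l ≤ (l : ℝ) / 10 ^ 4 := by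
  have hlr : (10 : ℝ) ^ 8 ≤ l := by exact_mod_cast hl
  have hl0 : (0 : ℝ) ≤ l := Nat.cast_nonneg _
  refine Real.sqrt_le_iff.2 ⟨by positivity, ?_⟩
  have : ((l : ℝ) / 10 ^ 4) ^ 2 = (l : ℝ) * ((l : ℝ) / 10 ^ 8) := by ring
  rw [this]
  have h1 : 1 ≤ (l : ℝ) / 10 ^ 8 := by
    rw [le_div_iff₀ (by positivity)]
    linarith
  nlinarith

/-- the case of a large mean -/
private theorem J5_large (l : ℕ) [Fact l.Prime] (hl : 10 ^ 8 ≤ l) (f : ZMod l → ℝ) (h0 : f 0 = 0)
    (h1 : ∀ v, v ≠ 0 → f v = 1 ∨ f v = -1) (h : 76 / 100 * (l : ℝ) < |∑ v, f v|)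
    (h' : |∑ v, f v| ≤ 999 / 1000 * l) (κ : ℝ) (hκ : κ = 1 ∨ κ = -1) :
    ∑ w ∈ univ.erase (0 : ZMod l),
      |acr l f w + κ * qr l w * acr l (fun v => qr l v * f v) w| ≤
      999 / 1000 * ((l : ℝ) - 1) ^ 2 := by
  classical
  have h2 : l ≠ 2 := by omega
  have hlr : (10 : ℝ) ^ 8 ≤ l := by exact_mod_cast hl
  have hf : ∀ v, |f v| ≤ 1 := by
    intro v
    by_cases hv : v = 0
    · rw [hv, h0, abs_zero]; exact zero_le_one
    · rcases h1 v hv with h3 | h3 <;> rw [h3] <;> norm_num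
  have hψ : ∀ v, |qr l v * f v| ≤ 1 := by
    intro v
    rw [abs_mul]
    exact mul_le_one₀ (J5_qr l v) (abs_nonneg _) (hf v)
  have hpos : ∀ w ∈ univ.erase (0 : ZMod l),
      |acr l f w + κ * qr l w * acr l (fun v => qr l v * f v) w| =
        acr l f w + κ * qr l w * acr l (fun v => qr l v * f v) w := by
    intro w hw
    have hw0 : w ≠ 0 := Finset.ne_of_mem_erase hw
    refine abs_of_nonneg (J5b_pos l (by omega) f h0 h1 h (κ * qr l w) ?_ w hw0)
    rcases hκ with h3 | h3 <;> rcases J5_qr_pm l hw0 with h4 | h4 <;> rw [h3, h4] <;> norm_num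
  rw [Finset.sum_congr rfl hpos]
  have hz : 0 ≤ acr l f 0 + κ * qr l 0 * acr l (fun v => qr l v * f v) 0 := by
    rw [J5_qr_zero, mul_zero, zero_mul, add_zero]
    unfold acr
    refine Finset.sum_nonneg fun v _ => ?_
    rw [add_zero]
    exact mul_self_nonneg _
  have hall := Finset.add_sum_erase univ
    (fun w => acr l f w + κ * qr l w * acr l (fun v => qr l v * f v) w) (mem_univ (0 : ZMod l))
  have hsum : ∑ w : ZMod l, (acr l f w + κ * qr l w * acr l (fun v => qr l v * f v) w) =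
      (∑ v, f v) ^ 2 + κ * ∑ w : ZMod l, qr l w * acr l (fun v => qr l v * f v) w := by
    rw [Finset.sum_add_distrib, J5_sum_acr, Finset.mul_sum]
    congr 1
    refine Finset.sum_congr rfl fun w _ => by ring
  have hone := J5a_one l h2 (fun v => qr l v * f v)
  have hQ := J5_sumsq l _ hψ
  have hsq := J5_sqrt l hl
  have hb : |∑ w : ZMod l, qr l w * acr l (fun v => qr l v * f v) w| ≤ (l : ℝ) / 10 ^ 4 * l := by
    refine hone.trans ?_
    refine mul_le_mul hsq hQ ?_ (by positivity)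
    exact Finset.sum_nonneg fun v _ => sq_nonneg _
  have hb' := abs_le.1 hb
  have hκb : κ * ∑ w : ZMod l, qr l w * acr l (fun v => qr l v * f v) w ≤ (l : ℝ) / 10 ^ 4 * l := by
    rcases hκ with h3 | h3 <;> rw [h3] <;> linarith [hb'.1, hb'.2]
  have hS2 : (∑ v, f v) ^ 2 ≤ (999 / 1000 * (l : ℝ)) ^ 2 := by
    rw [← sq_abs]
    exact pow_le_pow_left₀ (abs_nonneg _) h' 2
  rw [hsum] at hall
  nlinarith

/-- the case of two small means -/
private theorem J5_small (l : ℕ) [Fact l.Prime] (hl : 10 ^ 8 ≤ l) (f g : ZMod l → ℝ)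
    (hf : ∀ v, |f v| ≤ 1) (hg : ∀ v, |g v| ≤ 1) (h : |∑ v, f v| ≤ 76 / 100 * l)
    (h' : |∑ v, g v| ≤ 76 / 100 * l) (κ : ℝ) (hκ : κ = 1 ∨ κ = -1) :
    ∑ w ∈ univ.erase (0 : ZMod l), |acr l f w + κ * qr l w * acr l g w| ≤
      999 / 1000 * ((l : ℝ) - 1) ^ 2 := by
  classical
  have h2 : l ≠ 2 := by omega
  have hlr : (10 : ℝ) ^ 8 ≤ l := by exact_mod_cast hl
  have hl1 : 1 ≤ l := by omega
  have e1 := J5_energy l h2 f hf h
  have e2 := J5_energy l h2 g hg h'
  have e3 := J5a_two l h2 f g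
  have hsq := J5_sqrt l hl
  have hQf := J5_sumsq l f hf
  have hQg := J5_sumsq l g hg
  have e4 : |∑ w : ZMod l, qr l w * (acr l f w * acr l g w)| ≤ (l : ℝ) / 10 ^ 4 * (l * l) := by
    refine e3.trans ?_
    refine mul_le_mul hsq (mul_le_mul hQf hQg ?_ (by positivity)) ?_ (by positivity)
    · exact Finset.sum_nonneg fun v _ => sq_nonneg _
    · exact mul_nonneg (Finset.sum_nonneg fun v _ => sq_nonneg _)
        (Finset.sum_nonneg fun v _ => sq_nonneg _)
  have hκ2 : κ ^ 2 = 1 := by rcases hκ with h3 | h3 <;> rw [h3] <;> norm_num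
  have e5 : ∑ w ∈ univ.erase (0 : ZMod l), |acr l f w + κ * qr l w * acr l g w| ^ 2 ≤
      ∑ w : ZMod l, acr l f w ^ 2 + ∑ w : ZMod l, acr l g w ^ 2 +
        2 * (κ * ∑ w : ZMod l, qr l w * (acr l f w * acr l g w)) := by
    calc ∑ w ∈ univ.erase (0 : ZMod l), |acr l f w + κ * qr l w * acr l g w| ^ 2
        ≤ ∑ w : ZMod l, |acr l f w + κ * qr l w * acr l g w| ^ 2 :=
          Finset.sum_le_sum_of_subset_of_nonneg (Finset.erase_subset _ _)
            fun _ _ _ => sq_nonneg _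
      _ ≤ ∑ w : ZMod l, (acr l f w ^ 2 + acr l g w ^ 2 +
            2 * (κ * (qr l w * (acr l f w * acr l g w)))) := by
          refine Finset.sum_le_sum fun w _ => ?_
          rw [sq_abs]
          have h5 : qr l w ^ 2 ≤ 1 := by
            have := abs_le.1 (J5_qr l w)
            nlinarith
          have h6 : (acr l f w + κ * qr l w * acr l g w) ^ 2 =
              acr l f w ^ 2 + κ ^ 2 * (qr l w ^ 2) * acr l g w ^ 2 +
                2 * (κ * (qr l w * (acr l f w * acr l g w))) := by ring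
          rw [h6, hκ2, one_mul]
          have h7 : qr l w ^ 2 * acr l g w ^ 2 ≤ 1 * acr l g w ^ 2 :=
            mul_le_mul_of_nonneg_right h5 (sq_nonneg _)
          linarith
      _ = _ := by
          rw [Finset.sum_add_distrib, Finset.sum_add_distrib, Finset.mul_sum, Finset.mul_sum]
  have hκb : κ * ∑ w : ZMod l, qr l w * (acr l f w * acr l g w) ≤ (l : ℝ) / 10 ^ 4 * (l * l) := by
    have hb' := abs_le.1 e4
    rcases hκ with h3 | h3 <;> rw [h3] <;> linarith [hb'.1, hb'.2]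
  have hc : ((univ.erase (0 : ZMod l)).card : ℝ) = (l : ℝ) - 1 := by
    rw [Finset.card_erase_of_mem (mem_univ _), Finset.card_univ, ZMod.card, Nat.cast_sub hl1,
      Nat.cast_one]
  have hcs := sq_sum_le_card_mul_sum_sq (s := univ.erase (0 : ZMod l))
    (f := fun w => |acr l f w + κ * qr l w * acr l g w|)
  rw [hc] at hcs
  have hl1R : (0 : ℝ) ≤ (l : ℝ) - 1 := by linarith
  have h0 : 0 ≤ ∑ w ∈ univ.erase (0 : ZMod l), |acr l f w + κ * qr l w * acr l g w| :=
    Finset.sum_nonneg fun _ _ => abs_nonneg _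
  refine abs_le_of_sq_le_sq' ?_ (by positivity) |>.2
  refine hcs.trans ?_
  have h8 : ∑ w ∈ univ.erase (0 : ZMod l), |acr l f w + κ * qr l w * acr l g w| ^ 2 ≤
      8892 / 10000 * (l : ℝ) ^ 3 := by
    refine e5.trans ?_
    nlinarith [e1, e2, hκb, pow_pos (lt_of_lt_of_le (by norm_num : (0 : ℝ) < 10 ^ 8) hlr) 3]
  have h9 : 8892 / 10000 * (l : ℝ) ^ 3 ≤ (999 / 1000) ^ 2 * ((l : ℝ) - 1) ^ 3 := by
    set u : ℝ := (l : ℝ) - 1 with hu
    have hl : (l : ℝ) = u + 1 := by rw [hu]; ring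
    have hu1 : (9999 : ℝ) ≤ u := by rw [hu]; linarith
    rw [hl]
    nlinarith [mul_nonneg (sub_nonneg.2 hu1) (sq_nonneg u), mul_nonneg (sub_nonneg.2 hu1)
      (by linarith : (0 : ℝ) ≤ u)]
  calc ((l : ℝ) - 1) * ∑ w ∈ univ.erase (0 : ZMod l), |acr l f w + κ * qr l w * acr l g w| ^ 2
      ≤ ((l : ℝ) - 1) * (8892 / 10000 * (l : ℝ) ^ 3) := mul_le_mul_of_nonneg_left h8 hl1R
    _ ≤ ((l : ℝ) - 1) * ((999 / 1000) ^ 2 * ((l : ℝ) - 1) ^ 3) :=
        mul_le_mul_of_nonneg_left h9 hl1R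
    _ = (999 / 1000 * ((l : ℝ) - 1) ^ 2) ^ 2 := by ring

theorem J5_contr {s : (p : ℕ) → ZMod p → ℝ} (hs : Ev s) (l : ℕ) [Fact l.Prime]
    (hl : 10 ^ 8 ≤ l) (h : |∑ v : ZMod l, rho s l v| ≤ 999 / 1000 * l)
    (h' : |∑ v : ZMod l, qr l v * rho s l v| ≤ 999 / 1000 * l) (k : (ZMod l)ˣ) :
    MM l (el s l k) ≤ 999 / 1000 * ((l : ℝ) - 1) ^ 2 := by
  classical
  have h2 : l ≠ 2 := by omega
  set κ : ℝ := qr l (k : ZMod l) with hκdef
  have hκ : κ = 1 ∨ κ = -1 := J5_qr_pm l k.ne_zero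
  have hκ2 : κ * κ = 1 := by rcases hκ with h3 | h3 <;> rw [h3] <;> norm_num
  set A := acr l (rho s l) with hA
  set B := acr l (fun v => qr l v * rho s l v) with hB
  -- the change of variables
  have hMM : MM l (el s l k) = ∑ w ∈ univ.erase (0 : ZMod l), |A w + κ * qr l w * B w| := by
    unfold MM
    have e1 : ∀ δ : (ZMod l)ˣ, |∑ x : (ZMod l)ˣ, el s l k (((x : ZMod l).val : ℕ) : ℤ)
        (((((δ * x⁻¹ : (ZMod l)ˣ) : ZMod l)).val : ℕ) : ℤ)| =
        (fun w : (ZMod l)ˣ => |A (w : ZMod l) + κ * qr l (w : ZMod l) * B (w : ZMod l)|)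
          ((k * δ)⁻¹) := by
      intro δ
      rw [E1_change hs l h2 k δ]
      have e2 : κ * qr l (((k * δ)⁻¹ : (ZMod l)ˣ) : ZMod l) = qr l (δ : ZMod l) := by
        have e3 : qr l (((k * δ)⁻¹ : (ZMod l)ˣ) : ZMod l) * (κ * qr l (δ : ZMod l)) = 1 := by
          rw [hκdef, ← J5_qr_mul, ← J5_qr_mul, ← Units.val_mul, ← Units.val_mul,
            inv_mul_cancel, Units.val_one]
          unfold qr
          rw [map_one]
          norm_num
        rcases J5_qr_pm l (δ.ne_zero) with h3 | h3 <;> rw [h3] at e3 ⊢ <;> linarith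
      dsimp only
      rw [e2]
    rw [Finset.sum_congr rfl fun δ _ => e1 δ]
    have e4 : ∑ δ : (ZMod l)ˣ,
        (fun w : (ZMod l)ˣ => |A (w : ZMod l) + κ * qr l (w : ZMod l) * B (w : ZMod l)|)
          ((k * δ)⁻¹) =
        ∑ w : (ZMod l)ˣ, |A (w : ZMod l) + κ * qr l (w : ZMod l) * B (w : ZMod l)| :=
      Equiv.sum_comp ((Equiv.mulLeft k).trans (Equiv.inv _))
        (fun w : (ZMod l)ˣ => |A (w : ZMod l) + κ * qr l (w : ZMod l) * B (w : ZMod l)|)
    rw [e4]
    refine Finset.sum_bij (fun w _ => (w : ZMod l)) ?_ ?_ ?_ ?_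
    · intro w _
      exact Finset.mem_erase.2 ⟨w.ne_zero, mem_univ _⟩
    · intro a _ b _ hab
      exact Units.ext hab
    · intro b hb
      exact ⟨Units.mk0 b (Finset.ne_of_mem_erase hb), mem_univ _, rfl⟩
    · intro w _
      rfl
  rw [hMM]
  have hr0 : rho s l 0 = 0 := by
    unfold rho
    rw [inv_zero, hs.zero l Fact.out]
  have hr1 : ∀ v : ZMod l, v ≠ 0 → rho s l v = 1 ∨ rho s l v = -1 := fun v hv =>
    hs.pm l Fact.out _ (inv_ne_zero hv)
  by_cases hρ : |∑ v, rho s l v| ≤ 76 / 100 * l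
  · by_cases hψ : |∑ v, qr l v * rho s l v| ≤ 76 / 100 * l
    · exact J5_small l hl (rho s l) (fun v => qr l v * rho s l v) (J5_rho hs l) (fun v => by
        rw [abs_mul]
        exact mul_le_one₀ (J5_qr l v) (abs_nonneg _) (J5_rho hs l v)) hρ hψ κ hκ
    · push Not at hψ
      have hL := J5_large l hl (fun v => qr l v * rho s l v) (by
          rw [hr0, mul_zero]) (fun v hv => by
          rcases J5_qr_pm l hv with h3 | h3 <;> rcases hr1 v hv with h4 | h4 <;> rw [h3, h4] <;>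
            norm_num) hψ h' κ hκ
      have hfun : (fun v => qr l v * (fun v => qr l v * rho s l v) v) = rho s l := by
        funext v
        by_cases hv : v = 0
        · rw [hv]
          beta_reduce
          rw [hr0]
          ring
        · rcases J5_qr_pm l hv with h3 | h3 <;> dsimp only <;> rw [h3] <;> ring
      rw [hfun] at hL
      refine le_trans (le_of_eq ?_) hL
      refine Finset.sum_congr rfl fun w hw => ?_
      have hw0 : w ≠ 0 := Finset.ne_of_mem_erase hw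
      have hq : qr l w * qr l w = 1 := by
        rcases J5_qr_pm l hw0 with h3 | h3 <;> rw [h3] <;> norm_num
      have hε : |κ * qr l w| = 1 := by
        rcases hκ with h3 | h3 <;> rcases J5_qr_pm l hw0 with h4 | h4 <;> rw [h3, h4] <;> norm_num
      have hmul : A w + κ * qr l w * B w = (κ * qr l w) * (B w + κ * qr l w * A w) := by
        linear_combination (-(A w)) * hκ2 - (A w) * (κ * κ) * hq + (A w) * (0 : ℝ) * hq
      rw [hmul, abs_mul, hε, one_mul]
  · push Not at hρ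
    exact J5_large l hl (rho s l) hr0 hr1 hρ h κ hκ

end PS25
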