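import Pool.Agent.LibPA15.D
import Pool.Agent.LibPS25.Sg

/-
PLAN (J6). The same as the delivered J1 (LibPS25/J1.lean, complete proof) with the twist qr. b = a sigma^2 mod l, s(u) = sign Kr l (a u^2), rho (sg a) l v = s(v), rho (sg b) l v = s(sigma v) for v /= 0. Suppose
|sum_v qr(v) s(v) s(sigma v)| > (999/1000) l: then with eps = sign of the sum, s(u) = eps qr(u) s(sigma u) for all u but at most l/2000 (half of l/1000); so s(u) = eps qr(u) eps qr(sigma u) s(sigma^2 u) = qr(sigma) s(sigma^2 u) but for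
at most 2 l/2000, and s(u) = s(tau u), tau = sigma^4, but for at most 4 l/2000 = 2 l/1000 of the u. From here as in J1: P_i = 2 i l/1000, T = {tau^(2i) : i < 40} (k_i = (tau^i)^2 = (b/a)^(4i), distinct by hord with exponent
4 (i - j) <= 156), 19.99 - 6.24 > 12.65.
-/

set_option autoImplicit false

noncomputable section

namespace PS25

open Finset

section
variable {l : ℕ} [Fact l.Prime]

/-- the values of the Kloosterman sums at squares -/
private def J6_f (α u : (ZMod l)ˣ) : ℝ := PA15.Kr l ((α : ZMod l) * (u : ZMod l) ^ 2)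

private def J6_s (α u : (ZMod l)ˣ) : ℝ := Real.sign (J6_f α u)

private lemma J6_pm (α u : (ZMod l)ˣ) : J6_s α u = 1 ∨ J6_s α u = -1 := by
  have h : J6_f α u ≠ 0 := PA15.Kr_ne_zero _
  rcases lt_or_gt_of_ne h with h1 | h1
  · exact Or.inr (Real.sign_of_neg h1)
  · exact Or.inl (Real.sign_of_pos h1)

private lemma J6_sq (α u : (ZMod l)ˣ) : J6_s α u * J6_s α u = 1 := by
  rcases J6_pm α u with h | h <;> rw [h] <;> norm_num

private lemma J6_abs (α u : (ZMod l)ˣ) : J6_f α u = J6_s α u * |J6_f α u| := by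
  have h : J6_f α u ≠ 0 := PA15.Kr_ne_zero _
  unfold J6_s
  rcases lt_or_gt_of_ne h with h1 | h1
  · rw [Real.sign_of_neg h1, abs_of_neg h1]; ring
  · rw [Real.sign_of_pos h1, abs_of_pos h1, one_mul]

private lemma J6_tri {x y : ℝ} (hx : x = 1 ∨ x = -1) (hy : y = 1 ∨ y = -1) :
    1 - x * y ≤ (1 - x) + (1 - y) := by
  rcases hx with rfl | rfl <;> rcases hy with rfl | rfl <;> norm_num

private lemma J6_mulpm {x y : ℝ} (hx : x = 1 ∨ x = -1) (hy : y = 1 ∨ y = -1) :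
    x * y = 1 ∨ x * y = -1 := by
  rcases hx with rfl | rfl <;> rcases hy with rfl | rfl <;> norm_num

/-- twice the number of sign changes under the shift -/
private def J6_D (α ρ : (ZMod l)ˣ) : ℝ := ∑ u : (ZMod l)ˣ, (1 - J6_s α u * J6_s α (ρ * u))

private lemma J6_D_one (α : (ZMod l)ˣ) : J6_D α 1 = 0 := by
  unfold J6_D
  refine sum_eq_zero fun u _ => ?_
  rw [one_mul, J6_sq, sub_self]

private lemma J6_D_mul (α ρ₁ ρ₂ : (ZMod l)ˣ) : J6_D α (ρ₁ * ρ₂) ≤ J6_D α ρ₁ + J6_D α ρ₂ := by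
  have e : J6_D α ρ₁ = ∑ u : (ZMod l)ˣ, (1 - J6_s α (ρ₂ * u) * J6_s α (ρ₁ * (ρ₂ * u))) := by
    unfold J6_D
    exact (Fintype.sum_equiv (Equiv.mulLeft ρ₂) _ _ fun u => rfl).symm
  rw [e]
  unfold J6_D
  rw [← sum_add_distrib]
  refine sum_le_sum fun u _ => ?_
  have h1 := J6_tri (J6_mulpm (J6_pm α (ρ₂ * u)) (J6_pm α (ρ₁ * (ρ₂ * u))))
    (J6_mulpm (J6_pm α u) (J6_pm α (ρ₂ * u)))
  have h2 : J6_s α (ρ₂ * u) * J6_s α (ρ₁ * (ρ₂ * u)) * (J6_s α u * J6_s α (ρ₂ * u)) =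
      J6_s α u * J6_s α (ρ₁ * ρ₂ * u) := by
    rw [mul_assoc ρ₁ ρ₂ u]
    linear_combination (J6_s α u * J6_s α (ρ₁ * (ρ₂ * u))) * J6_sq α (ρ₂ * u)
  rw [h2] at h1
  exact h1

private lemma J6_D_pow (α ρ : (ZMod l)ˣ) (i : ℕ) : J6_D α (ρ ^ i) ≤ i * J6_D α ρ := by
  induction i with
  | zero => rw [pow_zero, J6_D_one]; simp
  | succ i ih =>
    rw [pow_succ]
    have := J6_D_mul α (ρ ^ i) ρ
    push_cast
    linarith

private lemma J6_card : ∑ _u : (ZMod l)ˣ, (1 : ℝ) = (l : ℝ) - 1 := by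
  rw [sum_const, nsmul_eq_mul, mul_one, card_univ, PA15.card_units']

private lemma J6_D_sq (α σ : (ZMod l)ˣ) (ε : ℝ) (hε : ε = 1 ∨ ε = -1) :
    J6_D α (σ * σ) ≤ 2 * (((l : ℝ) - 1) - ε * ∑ u : (ZMod l)ˣ, J6_s α u * J6_s α (σ * u)) := by
  have hε2 : ε * ε = 1 := by rcases hε with rfl | rfl <;> norm_num
  set E : ℝ := ∑ u : (ZMod l)ˣ, (1 - ε * (J6_s α u * J6_s α (σ * u))) with hE
  have e1 : E = ((l : ℝ) - 1) - ε * ∑ u : (ZMod l)ˣ, J6_s α u * J6_s α (σ * u) := by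
    rw [hE, sum_sub_distrib, J6_card, mul_sum]
  have e2 : E = ∑ u : (ZMod l)ˣ, (1 - ε * (J6_s α (σ * u) * J6_s α (σ * (σ * u)))) := by
    rw [hE]
    exact (Fintype.sum_equiv (Equiv.mulLeft σ) _ _ fun u => rfl).symm
  rw [← e1, two_mul]
  nth_rewrite 1 [e2]
  rw [hE]
  unfold J6_D
  rw [← sum_add_distrib]
  refine sum_le_sum fun u _ => ?_
  have h1 := J6_tri (J6_mulpm hε (J6_mulpm (J6_pm α (σ * u)) (J6_pm α (σ * (σ * u)))))
    (J6_mulpm hε (J6_mulpm (J6_pm α u) (J6_pm α (σ * u))))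
  have h2 : ε * (J6_s α (σ * u) * J6_s α (σ * (σ * u))) * (ε * (J6_s α u * J6_s α (σ * u))) =
      J6_s α u * J6_s α (σ * σ * u) := by
    rw [mul_assoc σ σ u]
    linear_combination (ε * ε * J6_s α u * J6_s α (σ * (σ * u))) * J6_sq α (σ * u) +
      (J6_s α u * J6_s α (σ * (σ * u))) * hε2
  rw [h2] at h1
  exact h1

/-- the `L^1` norms agree -/
private lemma J6_S (h2 : l ≠ 2) (α : (ZMod l)ˣ) : ∑ t : (ZMod l)ˣ, |PA15.ff α t| = ∑ u : (ZMod l)ˣ, |J6_f α u| := by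
  have h3 := PA15.sum_sq h2 (fun t : (ZMod l)ˣ => |PA15.Kr l ((α : ZMod l) * (t : ZMod l))|)
  simp only [Units.val_pow_eq_pow_val] at h3
  unfold J6_f
  rw [h3]
  refine sum_congr rfl fun t _ => ?_
  unfold PA15.ff
  rw [abs_mul]
  congr 1
  rw [abs_of_nonneg]
  unfold PA15.qc
  rcases quadraticChar_dichotomy (F := ZMod l) t.ne_zero with h | h <;> rw [h] <;> norm_num

private lemma J6_term (α ρ t : (ZMod l)ˣ) :
    Real.sign (PA15.ff α t) * PA15.ff α (ρ ^ 2 * t) =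
      (Real.sign (PA15.Kr l ((α : ZMod l) * (t : ZMod l))) *
        PA15.Kr l ((α : ZMod l) * ((ρ ^ 2 * t : (ZMod l)ˣ) : ZMod l))) * (1 + PA15.qc l (t : ZMod l)) := by
  have hq : quadraticChar (ZMod l) ((ρ ^ 2 * t : (ZMod l)ˣ) : ZMod l) = quadraticChar (ZMod l) (t : ZMod l) := by
    rw [Units.val_mul, map_mul, Units.val_pow_eq_pow_val, quadraticChar_sq_one' (Units.ne_zero _), one_mul]
  unfold PA15.ff PA15.qc
  rw [hq]
  rcases quadraticChar_dichotomy (F := ZMod l) t.ne_zero with h | h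
  · rw [h]
    have h2 : Real.sign (PA15.Kr l ((α : ZMod l) * (t : ZMod l)) * (1 + ((1 : ℤ) : ℝ))) =
        Real.sign (PA15.Kr l ((α : ZMod l) * (t : ZMod l))) := by
      have h0 := PA15.Kr_ne_zero ((α : ZMod l) * (t : ZMod l))
      rcases lt_or_gt_of_ne h0 with h1 | h1
      · rw [Real.sign_of_neg h1, Real.sign_of_neg]
        push_cast
        linarith
      · rw [Real.sign_of_pos h1, Real.sign_of_pos]
        push_cast
        linarith
    rw [h2]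
    ring
  · rw [h]
    push_cast
    ring

private lemma J6_low (h2 : l ≠ 2) (α ρ : (ZMod l)ˣ) :
    ∑ u : (ZMod l)ˣ, |J6_f α u| - 2 * Real.sqrt l * J6_D α ρ ≤
      ∑ t : (ZMod l)ˣ, Real.sign (PA15.ff α t) * PA15.ff α (ρ ^ 2 * t) := by
  have h3 := PA15.sum_sq h2 (fun t : (ZMod l)ˣ => Real.sign (PA15.Kr l ((α : ZMod l) * (t : ZMod l))) *
        PA15.Kr l ((α : ZMod l) * ((ρ ^ 2 * t : (ZMod l)ˣ) : ZMod l)))
  rw [sum_congr rfl fun t _ => J6_term α ρ t, ← h3]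
  have e1 : ∑ u : (ZMod l)ˣ, |J6_f α u| = ∑ u : (ZMod l)ˣ, |J6_f α (ρ * u)| :=
    (Fintype.sum_equiv (Equiv.mulLeft ρ) _ _ fun u => rfl).symm
  rw [e1]
  unfold J6_D
  rw [mul_sum, ← sum_sub_distrib]
  refine sum_le_sum fun u _ => ?_
  have e2 : Real.sign (PA15.Kr l ((α : ZMod l) * ((u ^ 2 : (ZMod l)ˣ) : ZMod l))) = J6_s α u := by
    unfold J6_s J6_f
    rw [Units.val_pow_eq_pow_val]
  have e3 : PA15.Kr l ((α : ZMod l) * ((ρ ^ 2 * u ^ 2 : (ZMod l)ˣ) : ZMod l)) = J6_f α (ρ * u) := by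
    unfold J6_f
    rw [← mul_pow, Units.val_pow_eq_pow_val]
  rw [e2, e3]
  have h4 : |J6_f α (ρ * u)| ≤ 2 * Real.sqrt l :=
    PA15.Kr_le _ (mul_ne_zero α.ne_zero (pow_ne_zero 2 (ρ * u).ne_zero))
  have h5 : 0 ≤ 1 - J6_s α u * J6_s α (ρ * u) := by
    rcases J6_mulpm (J6_pm α u) (J6_pm α (ρ * u)) with h | h <;> rw [h] <;> norm_num
  have h6 := J6_abs α (ρ * u)
  have h7 : J6_s α u * J6_f α (ρ * u) = J6_s α u * J6_s α (ρ * u) * |J6_f α (ρ * u)| := by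
    nth_rewrite 1 [h6]
    ring
  rw [h7]
  nlinarith [mul_le_mul_of_nonneg_right h4 h5]

private lemma J6_num (X S W : ℝ) (hX : 100 ≤ X) (h1 : 40 * S - 2 * X * 780 * (X ^ 2 / 250) ≤ W)
    (h2 : (X ^ 2) ^ 2 - 2 * X ^ 2 - 1 ≤ 2 * X * S) (h3 : W ^ 2 ≤ (X ^ 2 - 1) * ((2 * X ^ 2) ^ 2 * 40)) : False := by
  have hX0 : 0 < X := by linarith
  have hXX : 10000 ≤ X ^ 2 := by nlinarith
  -- S is at least (X^3 - 2 X - 1) / 2
  have h4 : X ^ 3 - 2 * X - 1 ≤ 2 * S := by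
    by_contra hcon
    push Not at hcon
    have h5 : X * (2 * S) < X * (X ^ 3 - 2 * X - 1) := mul_lt_mul_of_pos_left hcon hX0
    nlinarith
  have h6 : 13 * X ^ 3 ≤ W := by
    have h7 : 10000 * X ≤ X ^ 2 * X := mul_le_mul_of_nonneg_right hXX hX0.le
    nlinarith
  have h8 : (13 * X ^ 3) ^ 2 ≤ W ^ 2 := pow_le_pow_left₀ (by positivity) h6 2
  have h9 : 0 < X ^ 4 := by positivity
  nlinarith [mul_pos h9 hX0]

private lemma J6_tw (α σ : (ZMod l)ˣ) (g : (ZMod l)ˣ → ℝ) (κ : ℝ) (hg : ∀ u, g u = 1 ∨ g u = -1)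
    (hg2 : ∀ u, g u * g (σ * u) = κ) (ε : ℝ) (hε : ε = 1 ∨ ε = -1) :
    ((l : ℝ) - 1) - κ * ∑ u : (ZMod l)ˣ, J6_s α u * J6_s α (σ * σ * u) ≤
      2 * (((l : ℝ) - 1) - ε * ∑ u : (ZMod l)ˣ, g u * (J6_s α u * J6_s α (σ * u))) := by
  have hε2 : ε * ε = 1 := by rcases hε with rfl | rfl <;> norm_num
  set E : ℝ := ∑ u : (ZMod l)ˣ, (1 - ε * (g u * (J6_s α u * J6_s α (σ * u)))) with hE
  have e1 : E = ((l : ℝ) - 1) - ε * ∑ u : (ZMod l)ˣ, g u * (J6_s α u * J6_s α (σ * u)) := by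
    rw [hE, sum_sub_distrib, J6_card, mul_sum]
  have e2 : E = ∑ u : (ZMod l)ˣ, (1 - ε * (g (σ * u) * (J6_s α (σ * u) * J6_s α (σ * (σ * u))))) := by
    rw [hE]
    exact (Fintype.sum_equiv (Equiv.mulLeft σ) _ _ fun u => rfl).symm
  have e3 : ((l : ℝ) - 1) - κ * ∑ u : (ZMod l)ˣ, J6_s α u * J6_s α (σ * σ * u) =
      ∑ u : (ZMod l)ˣ, (1 - κ * (J6_s α u * J6_s α (σ * σ * u))) := by
    rw [sum_sub_distrib, J6_card, mul_sum]
  rw [← e1, two_mul, e3]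
  nth_rewrite 1 [e2]
  rw [hE]
  rw [← sum_add_distrib]
  refine sum_le_sum fun u _ => ?_
  have h1 := J6_tri (J6_mulpm hε (J6_mulpm (hg (σ * u)) (J6_mulpm (J6_pm α (σ * u)) (J6_pm α (σ * (σ * u))))))
    (J6_mulpm hε (J6_mulpm (hg u) (J6_mulpm (J6_pm α u) (J6_pm α (σ * u)))))
  have h2 : ε * (g (σ * u) * (J6_s α (σ * u) * J6_s α (σ * (σ * u)))) *
      (ε * (g u * (J6_s α u * J6_s α (σ * u)))) =
      κ * (J6_s α u * J6_s α (σ * σ * u)) := by
    rw [mul_assoc σ σ u, ← hg2 u]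
    linear_combination (ε * ε * (g u * g (σ * u)) * J6_s α u * J6_s α (σ * (σ * u))) * J6_sq α (σ * u) +
      ((g u * g (σ * u)) * J6_s α u * J6_s α (σ * (σ * u))) * hε2
  rw [h2] at h1
  exact h1

private theorem J6_main (hl : 10 ^ 4 ≤ l) (α τ : (ZMod l)ˣ) (hDτ : J6_D α τ ≤ (l : ℝ) / 250)
    (hinj : ∀ i < 40, ∀ j < 40, (τ ^ i) ^ 2 = (τ ^ j) ^ 2 → i = j) : False := by
  classical
  have hp : l.Prime := Fact.out
  have h2 : l ≠ 2 := by
    intro h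
    rw [h] at hl
    norm_num at hl
  set T : Finset (ZMod l)ˣ := (range 40).image fun i => (τ ^ i) ^ 2 with hT
  have hinj' : Set.InjOn (fun i : ℕ => (τ ^ i) ^ 2) (range 40 : Finset ℕ) := by
    intro i hi j hj hij
    exact hinj i (mem_range.1 (mem_coe.1 hi)) j (mem_range.1 (mem_coe.1 hj)) hij
  have hTc : #T = 40 := by
    rw [hT, card_image_of_injOn hinj', card_range]
  -- lower bound
  set W : ℝ := ∑ t : (ZMod l)ˣ, Real.sign (PA15.ff α t) * ∑ k ∈ T, PA15.ff α (k * t) with hW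
  set S : ℝ := ∑ t : (ZMod l)ˣ, |PA15.ff α t| with hS
  have hlow : 40 * S - 2 * Real.sqrt l * 780 * ((l : ℝ) / 250) ≤ W := by
    have e1 : W = ∑ i ∈ range 40, ∑ t : (ZMod l)ˣ, Real.sign (PA15.ff α t) * PA15.ff α ((τ ^ i) ^ 2 * t) := by
      rw [hW, sum_comm]
      refine sum_congr rfl fun t _ => ?_
      rw [← mul_sum, hT, sum_image hinj']
    rw [e1]
    have e2 : ∀ i ∈ range 40, S - 2 * Real.sqrt l * (i * ((l : ℝ) / 250)) ≤
        ∑ t : (ZMod l)ˣ, Real.sign (PA15.ff α t) * PA15.ff α ((τ ^ i) ^ 2 * t) := by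
      intro i _
      have h3 := J6_low h2 α (τ ^ i)
      rw [← J6_S h2 α, ← hS] at h3
      have h4 : J6_D α (τ ^ i) ≤ i * ((l : ℝ) / 250) :=
        (J6_D_pow α τ i).trans (mul_le_mul_of_nonneg_left hDτ (Nat.cast_nonneg _))
      have h5 : 2 * Real.sqrt l * J6_D α (τ ^ i) ≤ 2 * Real.sqrt l * (i * ((l : ℝ) / 250)) :=
        mul_le_mul_of_nonneg_left h4 (by positivity)
      linarith
    refine le_trans (le_of_eq ?_) (sum_le_sum e2)
    rw [sum_sub_distrib, sum_const, card_range, nsmul_eq_mul, ← mul_sum, ← sum_mul]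
    have e3 : ∑ i ∈ range 40, (i : ℝ) = 780 := by
      rw [← Nat.cast_sum, Finset.sum_range_id]
      norm_num
    rw [e3]
    push_cast
    ring
  -- upper bound
  have hup : W ^ 2 ≤ ((l : ℝ) - 1) * ((2 * (l : ℝ)) ^ 2 * 40) := by
    have h1 := PA15.shift_bound (fun t => (PA15.ff α t : ℂ)) (2 * l) (PA15.mellin_ff α) T
    have h3 : ∀ t : (ZMod l)ˣ, ‖∑ k ∈ T, ((PA15.ff α (k * t) : ℝ) : ℂ)‖ ^ 2 = (∑ k ∈ T, PA15.ff α (k * t)) ^ 2 := by
      intro t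
      rw [← Complex.ofReal_sum, Complex.norm_real, Real.norm_eq_abs, sq_abs]
    rw [sum_congr rfl fun t _ => h3 t, hTc] at h1
    have hcs := sum_mul_sq_le_sq_mul_sq univ (fun t : (ZMod l)ˣ => Real.sign (PA15.ff α t))
      (fun t => ∑ k ∈ T, PA15.ff α (k * t))
    rw [← hW] at hcs
    have h5 : ∑ t : (ZMod l)ˣ, Real.sign (PA15.ff α t) ^ 2 ≤ (l : ℝ) - 1 := by
      rw [← J6_card]
      refine sum_le_sum fun t _ => ?_
      rcases Real.sign_apply_eq (PA15.ff α t) with h | h | h <;> rw [h] <;> norm_num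
    have h0 : (0 : ℝ) ≤ (l : ℝ) - 1 := by
      have : (1 : ℝ) < l := by exact_mod_cast hp.one_lt
      linarith
    push_cast at h1
    exact hcs.trans (mul_le_mul h5 h1 (sum_nonneg fun _ _ => sq_nonneg _) h0)
  have hl1 := PA15.l1_ff h2 α
  rw [← hS] at hl1
  have hX2 : Real.sqrt l ^ 2 = (l : ℝ) := Real.sq_sqrt (Nat.cast_nonneg _)
  have hX : 100 ≤ Real.sqrt l := by
    apply Real.le_sqrt_of_sq_le
    have : ((10 ^ 4 : ℕ) : ℝ) ≤ (l : ℝ) := by exact_mod_cast hl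
    push_cast at this
    linarith
  refine J6_num (Real.sqrt l) S W hX ?_ ?_ ?_
  · rw [hX2]; exact hlow
  · rw [hX2]; exact hl1
  · rw [hX2]; exact hup

end

private lemma J6_rho (a : ℤ) (l : ℕ) [Fact l.Prime] (u : (ZMod l)ˣ) :
    rho (sg a) l (u : ZMod l) = Real.sign (PA15.Kr l ((a : ZMod l) * (u : ZMod l) ^ 2)) := by
  have h0 : l ≠ 0 := (Fact.out : l.Prime).ne_zero
  have h1 : ((u : ZMod l))⁻¹ ≠ 0 := inv_ne_zero u.ne_zero
  unfold rho sg
  rw [dif_pos h0, if_neg h1, inv_inv]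
  rfl

private lemma J6_rho_zero (a : ℤ) (l : ℕ) : rho (sg a) l 0 = 0 := by
  unfold rho sg
  split_ifs with h1 h2
  · rfl
  · exact absurd (ZMod.inv_zero l) h2
  · rfl

private lemma J6_units (l : ℕ) [Fact l.Prime] (F : ZMod l → ℝ) (h0 : F 0 = 0) :
    ∑ v : ZMod l, F v = ∑ u : (ZMod l)ˣ, F (u : ZMod l) := by
  classical
  have h1 : ∑ u : (ZMod l)ˣ, F (u : ZMod l) =
      ∑ v ∈ Finset.image (Units.val : (ZMod l)ˣ → ZMod l) univ, F v := by
    rw [sum_image]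
    intro u _ v _ h
    exact Units.ext h
  rw [h1]
  symm
  refine sum_subset (subset_univ _) fun v _ hv => ?_
  by_cases h : v = 0
  · rw [h, h0]
  · exact absurd (mem_image.2 ⟨Units.mk0 v h, mem_univ _, rfl⟩) hv

theorem J6_pair (a b : ℤ) (l : ℕ) [Fact l.Prime] (hl : 10 ^ 4 ≤ l) (ha : ¬ (l : ℤ) ∣ a) (hb : ¬ (l : ℤ) ∣ b)
    (hsq : IsSquare ((a * b : ℤ) : ZMod l))
    (hord : ∀ k : ℕ, 1 ≤ k → k ≤ 160 → ¬ (l : ℤ) ∣ a ^ k - b ^ k) :
    |∑ v : ZMod l, qr l v * (rho (sg a) l v * rho (sg b) l v)| ≤ 999 / 1000 * l := by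
  by_contra hcon
  push Not at hcon
  have ha' : (a : ZMod l) ≠ 0 := fun h => ha ((ZMod.intCast_zmod_eq_zero_iff_dvd a l).1 h)
  have hb' : (b : ZMod l) ≠ 0 := fun h => hb ((ZMod.intCast_zmod_eq_zero_iff_dvd b l).1 h)
  obtain ⟨r, hr⟩ := hsq
  rw [Int.cast_mul] at hr
  have hr0 : r ≠ 0 := by
    rintro rfl
    rw [mul_zero] at hr
    exact mul_ne_zero ha' hb' hr
  set α : (ZMod l)ˣ := Units.mk0 (a : ZMod l) ha' with hα
  set σ : (ZMod l)ˣ := Units.mk0 r hr0 * α⁻¹ with hσ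
  have hσv : (σ : ZMod l) = r * (a : ZMod l)⁻¹ := by
    rw [hσ, Units.val_mul, Units.val_mk0, hα, Units.val_inv_eq_inv_val, Units.val_mk0]
  have hbσ : (b : ZMod l) = (a : ZMod l) * (σ : ZMod l) ^ 2 := by
    rw [hσv]
    field_simp
    linear_combination hr
  set g : (ZMod l)ˣ → ℝ := fun u => qr l (u : ZMod l) with hg
  have hgpm : ∀ u, g u = 1 ∨ g u = -1 := by
    intro u
    rw [hg]
    unfold qr
    rcases quadraticChar_dichotomy (F := ZMod l) u.ne_zero with h | h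
    · left; simp only [h, Int.cast_one]
    · right; simp only [h, Int.cast_neg, Int.cast_one]
  have hgm : ∀ u, g u * g (σ * u) = g σ := by
    intro u
    have h1 : g (σ * u) = g σ * g u := by
      simp only [hg, qr, Units.val_mul, map_mul, Int.cast_mul]
    have h2 : g u * g u = 1 := by
      rcases hgpm u with h | h <;> rw [h] <;> norm_num
    rw [h1]
    linear_combination g σ * h2
  have hsum : ∑ v : ZMod l, qr l v * (rho (sg a) l v * rho (sg b) l v) =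
      ∑ u : (ZMod l)ˣ, g u * (J6_s α u * J6_s α (σ * u)) := by
    rw [J6_units l (fun v => qr l v * (rho (sg a) l v * rho (sg b) l v)) (by simp only [J6_rho_zero, mul_zero])]
    refine sum_congr rfl fun u _ => ?_
    rw [J6_rho, J6_rho]
    unfold J6_s J6_f
    rw [Units.val_mul, hbσ, hα, Units.val_mk0]
    congr 4
    ring
  rw [hsum] at hcon
  have hinj : ∀ i < 40, ∀ j < 40, ((σ * σ * (σ * σ)) ^ i) ^ 2 = ((σ * σ * (σ * σ)) ^ j) ^ 2 → i = j := by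
    have key : ∀ i j : ℕ, i < j → j < 40 →
        ((σ * σ * (σ * σ)) ^ i) ^ 2 = ((σ * σ * (σ * σ)) ^ j) ^ 2 → False := by
      intro i j hij hj h
      rw [← pow_mul, ← pow_mul] at h
      obtain ⟨m, rfl⟩ := Nat.exists_eq_add_of_lt hij
      have h1 : (σ * σ * (σ * σ)) ^ ((m + 1) * 2) = 1 := by
        have h2 : (i + m + 1) * 2 = i * 2 + (m + 1) * 2 := by ring
        rw [h2, pow_add] at h
        exact (left_eq_mul.1 h)
      have h3 : ((σ : ZMod l) ^ 2) ^ ((m + 1) * 4) = 1 := by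
        have h4 := congrArg (fun x : (ZMod l)ˣ => (x : ZMod l)) h1
        simp only [Units.val_pow_eq_pow_val, Units.val_mul, Units.val_one] at h4
        rw [← h4, ← pow_mul]
        have h5 : (σ : ZMod l) * σ * (σ * σ) = (σ : ZMod l) ^ 4 := by ring
        rw [h5, ← pow_mul]
        congr 1
        ring
      apply hord ((m + 1) * 4) (by omega) (by omega)
      rw [← ZMod.intCast_zmod_eq_zero_iff_dvd, Int.cast_sub, Int.cast_pow, Int.cast_pow, hbσ, mul_pow,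
        h3, mul_one, sub_self]
    intro i hi j hj h
    rcases lt_trichotomy i j with h1 | h1 | h1
    · exact (key i j h1 hj h).elim
    · exact h1
    · exact (key j i h1 hi h.symm).elim
  have fin : ∀ ε : ℝ, ε = 1 ∨ ε = -1 →
      999 / 1000 * (l : ℝ) < ε * ∑ u : (ZMod l)ˣ, g u * (J6_s α u * J6_s α (σ * u)) → False := by
    intro ε hε hC
    have h1 := J6_tw α σ g (g σ) hgpm hgm ε hε
    have h2 := J6_D_sq α (σ * σ) (g σ) (hgpm σ)
    refine J6_main hl α (σ * σ * (σ * σ)) ?_ hinj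
    linarith
  rcases le_total 0 (∑ u : (ZMod l)ˣ, g u * (J6_s α u * J6_s α (σ * u))) with h | h
  · rw [abs_of_nonneg h] at hcon
    refine fin 1 (Or.inl rfl) ?_
    rw [one_mul]
    exact hcon
  · rw [abs_of_nonpos h] at hcon
    refine fin (-1) (Or.inr rfl) ?_
    rw [neg_one_mul]
    exact hcon

end PS25
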