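import Pool.Agent.LibPA15.G
import Pool.Agent.LibPS25.Sg

/-
PLAN (J7). kap(t) := Kr l (a t) Kr l (-a t), t a unit, even in t. (1) sum_t kap = -l - 1 (see h0 in PA15.exists_signs: PA15.sumF_zero). (2) |kap| <= 4 l (PA15.Kr_le). (3) sum_t kap^2 >= l (l^2 - l - 5): Parseval on
ZMod l: sum_k |sum_{t in ZMod l} K(a t) K(-a t) psi(k t)|^2 = l sum_{t in ZMod l} |K(a t) K(-a t)|^2 (t = 0 contributes 1); the terms k = -a m^-1, m /= 0, are l^2 |sum_{x in WW} psi(m psx x)|^2 (PA15.sumF_ne), and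
sum over m /= 0 of |sum_{x in WW}|^2 = l N - (l - 2)^2 with N >= 2 l - 5 (both facts inside the proof of PA15.exists_large: copy them as private lemmas), so l (1 + sum kap^2) >= l^2 (l (2l - 5) - (l - 2)^2).
(4) sum |kap| >= sum kap^2/(4 l) >= (l^2 - l - 5)/4; the sum of the positive values is (sum |kap| + sum kap)/2, of the negative ones (sum |kap| - sum kap)/2: both are >= (l^2 - 5 l - 9)/8 and at most 4 l times the number of
such t, so each sign occurs for at least (l^2 - 5 l - 9)/(32 l) of the t, and |sum_t sign kap(t)| <= (l - 1) - 2 (l - 6)/32 <= (19/20) l for l >= 10^4.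
(5) For l = 3 mod 4: sum over units v of sign kap(v^2) = sum_t (1 + qc t) sign kap(t) (PA15.sum_sq) = sum_t sign kap(t), because kap is even and qc(-t) = -qc(t). rho (sg a) l v rho (sg (-a)) l v = sign kap(v^2) for v /= 0, 0 for v = 0.
-/

set_option autoImplicit false

noncomputable section

namespace PS25

open Finset

section
variable {d : ℕ} [Fact d.Prime]

private lemma J7_WWc (h3 : d % 4 = 3) : (#(PA15.WW d) : ℝ) = d - 2 := by
  classical
  have hp : d.Prime := Fact.out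
  have h1 : PA15.WW d = univ \ {1, -1} := by
    ext x
    rw [PA15.mem_WW]
    simp
  have h2 : (1 : ZMod d) ≠ -1 := by
    intro h
    exact PA15.neg_one_ne h3 1 (by rw [mul_one]; exact h)
  rw [h1, card_sdiff_of_subset (subset_univ _), card_univ, ZMod.card, card_pair h2,
    Nat.cast_sub (by have := hp.two_le; omega)]
  norm_num

private lemma J7_parseval (F : ZMod d → ℂ) :
    ∑ k : ZMod d, ‖∑ t : ZMod d, F t * ZMod.stdAddChar (k * t)‖ ^ 2 =
      (d : ℝ) * ∑ t : ZMod d, ‖F t‖ ^ 2 := by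
  classical
  have e1 : ∀ k : ZMod d, ((‖∑ t : ZMod d, F t * ZMod.stdAddChar (k * t)‖ ^ 2 : ℝ) : ℂ) =
      ∑ t : ZMod d, ∑ s : ZMod d, (F t * (starRingEnd ℂ) (F s)) *
        (ZMod.stdAddChar ((t - s) * k) : ℂ) := by
    intro k
    rw [← Complex.normSq_eq_norm_sq, ← Complex.mul_conj, map_sum, sum_mul_sum]
    refine sum_congr rfl fun t _ => sum_congr rfl fun s _ => ?_
    rw [map_mul (starRingEnd ℂ), ← AddChar.map_neg_eq_conj]
    have e : (t - s) * k = k * t + -(k * s) := by ring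
    rw [e, AddChar.map_add_eq_mul]
    ring
  have e2 : ((∑ k : ZMod d, ‖∑ t : ZMod d, F t * ZMod.stdAddChar (k * t)‖ ^ 2 : ℝ) : ℂ) =
      (((d : ℝ) * ∑ t : ZMod d, ‖F t‖ ^ 2 : ℝ) : ℂ) := by
    rw [Complex.ofReal_sum, sum_congr rfl fun k _ => e1 k, sum_comm, Complex.ofReal_mul,
      Complex.ofReal_sum, mul_sum]
    refine sum_congr rfl fun t _ => ?_
    rw [sum_comm]
    have e3 : ∀ s : ZMod d, ∑ k : ZMod d, (F t * (starRingEnd ℂ) (F s)) *
        (ZMod.stdAddChar ((t - s) * k) : ℂ) =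
        if s = t then (F t * (starRingEnd ℂ) (F s)) * (d : ℂ) else 0 := by
      intro s
      rw [← mul_sum]
      by_cases h : s = t
      · rw [if_pos h, h, sub_self]
        simp only [zero_mul, AddChar.map_zero_eq_one, sum_const, card_univ, ZMod.card,
          nsmul_eq_mul, mul_one]
      · rw [if_neg h, Kloo.sum_psi_zero _ (fun h' => h (sub_eq_zero.1 h').symm), mul_zero]
    rw [sum_congr rfl fun s _ => e3 s, sum_ite_eq' univ t, if_pos (mem_univ _), Complex.mul_conj,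
      Complex.normSq_eq_norm_sq]
    push_cast
    ring
  exact_mod_cast e2

private lemma J7_units (F : ZMod d → ℝ) :
    ∑ v : ZMod d, F v = F 0 + ∑ u : (ZMod d)ˣ, F (u : ZMod d) := by
  classical
  have h1 : ∑ u : (ZMod d)ˣ, F (u : ZMod d) =
      ∑ v ∈ Finset.image (Units.val : (ZMod d)ˣ → ZMod d) univ, F v := by
    rw [sum_image]
    intro u _ v _ h
    exact Units.ext h
  have h2 : Finset.image (Units.val : (ZMod d)ˣ → ZMod d) univ = univ.erase 0 := by
    ext v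
    rw [mem_image, mem_erase]
    constructor
    · rintro ⟨u, _, rfl⟩
      exact ⟨u.ne_zero, mem_univ _⟩
    · rintro ⟨h, _⟩
      exact ⟨Units.mk0 v h, mem_univ _, rfl⟩
  rw [h1, h2, Finset.add_sum_erase univ _ (mem_univ (0 : ZMod d))]

private lemma J7_S (h3 : d % 4 = 3) :
    (d : ℝ) * (2 * d - 5) ≤
      ∑ l : ZMod d, ‖∑ x ∈ PA15.WW d, (ZMod.stdAddChar (l * PA15.psx x) : ℂ)‖ ^ 2 := by
  classical
  have hp : d.Prime := Fact.out
  set N := #((PA15.WW d ×ˢ PA15.WW d).filter fun p => PA15.psx p.1 - PA15.psx p.2 = 0) with hN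
  have hWc := J7_WWc (d := d) h3
  have hS : ∑ l : ZMod d, ‖∑ x ∈ PA15.WW d, (ZMod.stdAddChar (l * PA15.psx x) : ℂ)‖ ^ 2 =
      (d : ℝ) * N := by
    have e1 : ∀ l : ZMod d,
        ((‖∑ x ∈ PA15.WW d, (ZMod.stdAddChar (l * PA15.psx x) : ℂ)‖ ^ 2 : ℝ) : ℂ) =
        ∑ p ∈ PA15.WW d ×ˢ PA15.WW d,
          (ZMod.stdAddChar ((PA15.psx p.1 - PA15.psx p.2) * l) : ℂ) := by
      intro l
      rw [← Complex.normSq_eq_norm_sq, ← Complex.mul_conj, map_sum, sum_mul_sum,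
        ← Finset.sum_product']
      refine sum_congr rfl fun p _ => ?_
      rw [← AddChar.map_neg_eq_conj, ← AddChar.map_add_eq_mul]
      congr 1
      ring
    have e2 : ((∑ l : ZMod d,
        ‖∑ x ∈ PA15.WW d, (ZMod.stdAddChar (l * PA15.psx x) : ℂ)‖ ^ 2 : ℝ) : ℂ) =
        (d : ℂ) * N := by
      rw [Complex.ofReal_sum, sum_congr rfl fun l _ => e1 l, sum_comm]
      have e3 : ∀ p ∈ PA15.WW d ×ˢ PA15.WW d,
          ∑ l : ZMod d, (ZMod.stdAddChar ((PA15.psx p.1 - PA15.psx p.2) * l) : ℂ) =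
          if PA15.psx p.1 - PA15.psx p.2 = 0 then (d : ℂ) else 0 := by
        intro p _
        by_cases h : PA15.psx p.1 - PA15.psx p.2 = 0
        · rw [if_pos h, h]
          simp only [zero_mul, AddChar.map_zero_eq_one, sum_const, card_univ, ZMod.card,
            nsmul_eq_mul, mul_one]
        · rw [if_neg h]
          exact Kloo.sum_psi_zero _ h
      rw [sum_congr rfl e3, ← sum_filter, sum_const, nsmul_eq_mul, mul_comm]
    exact_mod_cast e2
  have hNl : 2 * (d : ℝ) - 5 ≤ N := by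
    have hx0 : ∀ x ∈ PA15.WW d, x * x - 1 ≠ 0 := by
      intro x hx
      rw [PA15.mem_WW] at hx
      have : x * x - 1 = (x + 1) * (x - 1) := by ring
      rw [this]
      exact mul_ne_zero (fun h => hx.2 (eq_neg_of_add_eq_zero_left h)) (sub_ne_zero.2 hx.1)
    set A := (PA15.WW d).image fun x => (x, x) with hA
    set B := ((PA15.WW d).erase 0).image fun x => (x, -x⁻¹) with hB
    have hAc : #A = #(PA15.WW d) := by
      rw [hA, card_image_of_injective _ (fun v w h => (Prod.mk.inj h).1)]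
    have h0W : (0 : ZMod d) ∈ PA15.WW d := by
      rw [PA15.mem_WW]
      exact ⟨zero_ne_one, fun h => one_ne_zero (neg_eq_zero.1 h.symm)⟩
    have hBc : #B = #(PA15.WW d) - 1 := by
      rw [hB, card_image_of_injective _ (fun v w h => (Prod.mk.inj h).1), card_erase_of_mem h0W]
    have hdisj : Disjoint A B := by
      rw [disjoint_left]
      intro p hpA hpB
      obtain ⟨x, hx, rfl⟩ := mem_image.1 hpA
      obtain ⟨y, hy, hxy⟩ := mem_image.1 hpB
      have h1 := (Prod.mk.inj hxy).1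
      have h2 := (Prod.mk.inj hxy).2
      subst h1
      have hy0 : y ≠ 0 := (mem_erase.1 hy).1
      have h4 : y * y⁻¹ = 1 := mul_inv_cancel₀ hy0
      exact PA15.neg_one_ne h3 y (by linear_combination -y * h2 - h4)
    have hsub : A ∪ B ⊆
        (PA15.WW d ×ˢ PA15.WW d).filter fun p => PA15.psx p.1 - PA15.psx p.2 = 0 := by
      intro p hp
      rw [mem_filter, mem_product]
      rcases mem_union.1 hp with h | h
      · obtain ⟨x, hx, rfl⟩ := mem_image.1 h
        exact ⟨⟨hx, hx⟩, sub_self _⟩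
      · obtain ⟨x, hx, rfl⟩ := mem_image.1 h
        have hx' := mem_erase.1 hx
        refine ⟨⟨hx'.2, ?_⟩, ?_⟩
        · have hxW := (PA15.mem_WW x).1 hx'.2
          have h4 : x * x⁻¹ = 1 := mul_inv_cancel₀ hx'.1
          rw [PA15.mem_WW]
          constructor
          · intro h5
            exact hxW.2 (by linear_combination -x * h5 - h4)
          · intro h5
            exact hxW.1 (by linear_combination x * h5 + h4)
        · rw [PA15.psx_inv x hx'.1 (hx0 x hx'.2), sub_self]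
    have h5 := card_le_card hsub
    rw [card_union_of_disjoint hdisj, hAc, hBc] at h5
    have hW1 : 1 ≤ #(PA15.WW d) := card_pos.2 ⟨0, h0W⟩
    have h6 : ((#(PA15.WW d) + (#(PA15.WW d) - 1) : ℕ) : ℝ) ≤ N := by exact_mod_cast h5
    rw [Nat.cast_add, Nat.cast_sub hW1, hWc, Nat.cast_one] at h6
    linarith
  rw [hS]
  exact mul_le_mul_of_nonneg_left hNl (Nat.cast_nonneg _)

private lemma J7_S' (h3 : d % 4 = 3) :
    (d : ℝ) * (2 * d - 5) - (d - 2) ^ 2 ≤
      ∑ l ∈ univ.erase (0 : ZMod d),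
        ‖∑ x ∈ PA15.WW d, (ZMod.stdAddChar (l * PA15.psx x) : ℂ)‖ ^ 2 := by
  classical
  have h := J7_S (d := d) h3
  rw [← Finset.add_sum_erase univ _ (mem_univ (0 : ZMod d))] at h
  have : ∑ x ∈ PA15.WW d, (ZMod.stdAddChar ((0 : ZMod d) * PA15.psx x) : ℂ) =
      ((#(PA15.WW d) : ℝ) : ℂ) := by
    simp only [zero_mul, AddChar.map_zero_eq_one, sum_const, nsmul_eq_mul, mul_one]
    norm_num
  rw [this, Complex.norm_real, J7_WWc h3, Real.norm_eq_abs, sq_abs] at h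
  linarith

private lemma J7_K0 : Kloo.K d 0 = -1 := by
  unfold Kloo.K
  have h := Kloo.sum_psi_zero (1 : ZMod d) one_ne_zero
  rw [Kloo.sum_units_eq] at h
  simp only [one_mul, AddChar.map_zero_eq_one] at h
  have h2 : ∑ u : (ZMod d)ˣ,
      (ZMod.stdAddChar (0 * (u : ZMod d) + ((u⁻¹ : (ZMod d)ˣ) : ZMod d)) : ℂ) =
      ∑ u : (ZMod d)ˣ, (ZMod.stdAddChar (u : ZMod d) : ℂ) := by
    refine Fintype.sum_equiv (Equiv.inv _) _ _ fun u => ?_
    rw [Equiv.inv_apply, zero_mul, zero_add]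
  rw [h2]
  linear_combination h

private def J7_k (a : ZMod d) (t : (ZMod d)ˣ) : ℝ :=
  PA15.Kr d (a * t) * PA15.Kr d (-a * t)

private lemma J7_sum (h3 : d % 4 = 3) (a : ZMod d) (ha : a ≠ 0) :
    ∑ t : (ZMod d)ˣ, J7_k a t = -(d : ℝ) - 1 := by
  have h := PA15.sumF_zero (by omega : d ≠ 2) a ha
  rw [Kloo.sum_units_eq, mul_zero, mul_zero, J7_K0] at h
  have h2 : ((∑ t : (ZMod d)ˣ, J7_k a t : ℝ) : ℂ) = ((-(d : ℝ) - 1 : ℝ) : ℂ) := by
    rw [Complex.ofReal_sum]
    have e : ∀ t : (ZMod d)ˣ, ((J7_k a t : ℝ) : ℂ) = Kloo.K d (a * t) * Kloo.K d (-a * t) := by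
      intro t
      rw [PA15.K_eq, PA15.K_eq]
      unfold J7_k
      push_cast
      ring
    rw [sum_congr rfl fun t _ => e t]
    push_cast
    linear_combination h
  exact_mod_cast h2

private lemma J7_sq (h3 : d % 4 = 3) (h7 : 7 ≤ d) (a : ZMod d) (ha : a ≠ 0) :
    (d : ℝ) * ((d : ℝ) ^ 2 - d - 3) ≤ 1 + ∑ t : (ZMod d)ˣ, J7_k a t ^ 2 := by
  classical
  have hp : d.Prime := Fact.out
  have hd : (7 : ℝ) ≤ d := by exact_mod_cast h7
  have h1 := J7_parseval (d := d) (fun t => Kloo.K d (a * t) * Kloo.K d (-a * t))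
  have hR : ∑ t : ZMod d, ‖Kloo.K d (a * t) * Kloo.K d (-a * t)‖ ^ 2 =
      1 + ∑ t : (ZMod d)ˣ, J7_k a t ^ 2 := by
    rw [J7_units]
    congr 1
    · rw [mul_zero, mul_zero, J7_K0]
      norm_num
    · refine sum_congr rfl fun t _ => ?_
      rw [PA15.K_eq, PA15.K_eq, ← Complex.ofReal_mul, Complex.norm_real, Real.norm_eq_abs, sq_abs]
      rfl
  rw [← hR]
  have h2 : ∑ k ∈ univ.erase (0 : ZMod d),
      ‖∑ t : ZMod d, Kloo.K d (a * t) * Kloo.K d (-a * t) * ZMod.stdAddChar (k * t)‖ ^ 2 =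
      (d : ℝ) ^ 2 * ∑ m ∈ univ.erase (0 : ZMod d),
        ‖∑ x ∈ PA15.WW d, (ZMod.stdAddChar (m * PA15.psx x) : ℂ)‖ ^ 2 := by
    rw [mul_sum]
    symm
    refine sum_bij (fun m _ => -a * m⁻¹) ?_ ?_ ?_ ?_
    · intro m hm
      have hm0 := (mem_erase.1 hm).1
      exact mem_erase.2 ⟨mul_ne_zero (neg_ne_zero.2 ha) (inv_ne_zero hm0), mem_univ _⟩
    · intro m _ m' _ h
      exact inv_injective (mul_left_cancel₀ (neg_ne_zero.2 ha) h)
    · intro k hk
      have hk0 := (mem_erase.1 hk).1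
      refine ⟨-a * k⁻¹, mem_erase.2 ⟨mul_ne_zero (neg_ne_zero.2 ha) (inv_ne_zero hk0), mem_univ _⟩, ?_⟩
      field_simp
    · intro m hm
      have hm0 := (mem_erase.1 hm).1
      rw [PA15.sumF_ne (by omega : d ≠ 2) a ha m hm0, norm_mul, Complex.norm_natCast, mul_pow]
  have h3' := J7_S' (d := d) h3
  have h4 : ‖∑ t : ZMod d, Kloo.K d (a * t) * Kloo.K d (-a * t) *
      ZMod.stdAddChar ((0 : ZMod d) * t)‖ ^ 2 = (d : ℝ) ^ 2 := by
    simp only [zero_mul, AddChar.map_zero_eq_one, mul_one]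
    rw [PA15.sumF_zero (by omega : d ≠ 2) a ha, norm_neg, Complex.norm_natCast]
  rw [← Finset.add_sum_erase univ _ (mem_univ (0 : ZMod d)), h4, h2] at h1
  have h5 : (d : ℝ) ^ 2 * ((d : ℝ) * (2 * d - 5) - (d - 2) ^ 2) ≤
      (d : ℝ) ^ 2 * ∑ m ∈ univ.erase (0 : ZMod d),
        ‖∑ x ∈ PA15.WW d, (ZMod.stdAddChar (m * PA15.psx x) : ℂ)‖ ^ 2 :=
    mul_le_mul_of_nonneg_left h3' (by positivity)
  have h6 : (d : ℝ) * ((d : ℝ) * ((d : ℝ) ^ 2 - d - 3)) ≤
      d * ∑ t : ZMod d, ‖Kloo.K d (a * t) * Kloo.K d (-a * t)‖ ^ 2 := by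
    rw [← h1]
    nlinarith
  exact le_of_mul_le_mul_left h6 (by linarith)

private lemma J7_bd (a : ZMod d) (ha : a ≠ 0) (t : (ZMod d)ˣ) : |J7_k a t| ≤ 4 * d := by
  unfold J7_k
  rw [abs_mul]
  have h1 := PA15.Kr_le (a * (t : ZMod d)) (mul_ne_zero ha t.ne_zero)
  have h2 := PA15.Kr_le (-a * (t : ZMod d)) (mul_ne_zero (neg_ne_zero.2 ha) t.ne_zero)
  calc |PA15.Kr d (a * t)| * |PA15.Kr d (-a * t)| ≤ (2 * Real.sqrt d) * (2 * Real.sqrt d) :=
        mul_le_mul h1 h2 (abs_nonneg _) (by positivity)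
    _ = 4 * (Real.sqrt d * Real.sqrt d) := by ring
    _ = 4 * d := by rw [Real.mul_self_sqrt (Nat.cast_nonneg _)]

private lemma J7_main (h3 : d % 4 = 3) (hl : 10 ^ 4 ≤ d) (a : ZMod d) (ha : a ≠ 0) :
    |∑ t : (ZMod d)ˣ, Real.sign (J7_k a t)| ≤ 19 / 20 * d := by
  have hd : (10 : ℝ) ^ 4 ≤ d := by exact_mod_cast hl
  have hd0 : (0 : ℝ) < d := by linarith
  have h1 := J7_sum h3 a ha
  have h2 := J7_sq h3 (by omega) a ha
  have hb := J7_bd a ha
  have hL : ∑ t : (ZMod d)ˣ, J7_k a t ^ 2 ≤ 4 * d * ∑ t : (ZMod d)ˣ, |J7_k a t| := by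
    rw [mul_sum]
    refine sum_le_sum fun t _ => ?_
    rw [← sq_abs, pow_two]
    exact mul_le_mul_of_nonneg_right (hb t) (abs_nonneg _)
  have hcard : ∑ _t : (ZMod d)ˣ, (1 : ℝ) = (d : ℝ) - 1 := by
    rw [sum_const, card_univ, nsmul_eq_mul, mul_one, PA15.card_units']
  have hplus : ∑ t : (ZMod d)ˣ, |J7_k a t| + ∑ t : (ZMod d)ˣ, J7_k a t ≤
      4 * d * ((d - 1) + ∑ t : (ZMod d)ˣ, Real.sign (J7_k a t)) := by
    rw [← hcard, ← sum_add_distrib, ← sum_add_distrib, mul_sum]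
    refine sum_le_sum fun t _ => ?_
    have h5 := hb t
    rcases lt_trichotomy (J7_k a t) 0 with h | h | h
    · rw [Real.sign_of_neg h, abs_of_neg h]
      linarith
    · rw [h, Real.sign_zero, abs_zero]
      linarith
    · rw [Real.sign_of_pos h, abs_of_pos h]
      rw [abs_of_pos h] at h5
      linarith
  have hminus : ∑ t : (ZMod d)ˣ, |J7_k a t| - ∑ t : (ZMod d)ˣ, J7_k a t ≤
      4 * d * ((d - 1) - ∑ t : (ZMod d)ˣ, Real.sign (J7_k a t)) := by
    rw [← hcard, ← sum_sub_distrib, ← sum_sub_distrib, mul_sum]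
    refine sum_le_sum fun t _ => ?_
    have h5 := hb t
    rcases lt_trichotomy (J7_k a t) 0 with h | h | h
    · rw [Real.sign_of_neg h]
      have h6 : |J7_k a t| - J7_k a t ≤ |J7_k a t| + |J7_k a t| := by
        linarith [neg_abs_le (J7_k a t)]
      linarith
    · rw [h, Real.sign_zero, abs_zero]
      linarith
    · rw [Real.sign_of_pos h, abs_of_pos h]
      linarith
  rw [h1] at hplus hminus
  set S := ∑ t : (ZMod d)ˣ, Real.sign (J7_k a t)
  set T := ∑ t : (ZMod d)ˣ, |J7_k a t|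
  set Q := ∑ t : (ZMod d)ˣ, J7_k a t ^ 2
  have hT : (d : ℝ) * ((d : ℝ) ^ 2 - d - 3) - 1 ≤ 4 * d * T := by linarith
  have hT2 : (d : ℝ) ^ 2 - d - 4 ≤ 4 * T := by
    have h7 : (d : ℝ) * ((d : ℝ) ^ 2 - d - 4) ≤ d * (4 * T) := by nlinarith
    exact le_of_mul_le_mul_left h7 hd0
  rw [abs_le]
  constructor
  · have h8 : 16 * (d : ℝ) * (-S) ≤ 16 * d * (19 / 20 * d) := by nlinarith
    have h9 := le_of_mul_le_mul_left h8 (by positivity)
    linarith
  · have h8 : 16 * (d : ℝ) * S ≤ 16 * d * (19 / 20 * d) := by nlinarith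
    exact le_of_mul_le_mul_left h8 (by positivity)

end

private lemma J7_qc (l : ℕ) [Fact l.Prime] (h3 : l % 4 = 3) (t : (ZMod l)ˣ) :
    PA15.qc l ((-t : (ZMod l)ˣ) : ZMod l) = -PA15.qc l (t : ZMod l) := by
  have hF : ringChar (ZMod l) ≠ 2 := by rw [ZMod.ringChar_zmod_n]; omega
  have h4 : quadraticChar (ZMod l) (-1) = -1 := by
    rw [quadraticChar_neg_one hF, ZMod.card, ZMod.χ₄_nat_three_mod_four h3]
  unfold PA15.qc
  rw [Units.val_neg, neg_eq_neg_one_mul, map_mul, h4]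
  push_cast
  ring

private lemma J7_rho (a : ℤ) (l : ℕ) [Fact l.Prime] (u : (ZMod l)ˣ) :
    rho (sg a) l (u : ZMod l) = Real.sign (PA15.Kr l ((a : ZMod l) * (u : ZMod l) ^ 2)) := by
  have h0 : l ≠ 0 := (Fact.out : l.Prime).ne_zero
  have h1 : ((u : ZMod l))⁻¹ ≠ 0 := inv_ne_zero u.ne_zero
  unfold rho sg
  rw [dif_pos h0, if_neg h1, inv_inv]
  rfl

private lemma J7_rho_zero (a : ℤ) (l : ℕ) : rho (sg a) l 0 = 0 := by
  unfold rho sg
  split_ifs with h1 h2
  · rfl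
  · exact absurd (ZMod.inv_zero l) h2
  · rfl

private lemma J7_sign_mul (x y : ℝ) : Real.sign (x * y) = Real.sign x * Real.sign y := by
  rcases lt_trichotomy x 0 with hx | hx | hx
  · rcases lt_trichotomy y 0 with hy | hy | hy
    · rw [Real.sign_of_pos (mul_pos_of_neg_of_neg hx hy), Real.sign_of_neg hx,
        Real.sign_of_neg hy]
      norm_num
    · rw [hy, mul_zero, Real.sign_zero, mul_zero]
    · rw [Real.sign_of_neg (mul_neg_of_neg_of_pos hx hy), Real.sign_of_neg hx,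
        Real.sign_of_pos hy]
      norm_num
  · rw [hx, zero_mul, Real.sign_zero, zero_mul]
  · rcases lt_trichotomy y 0 with hy | hy | hy
    · rw [Real.sign_of_neg (mul_neg_of_pos_of_neg hx hy), Real.sign_of_pos hx,
        Real.sign_of_neg hy]
      norm_num
    · rw [hy, mul_zero, Real.sign_zero, mul_zero]
    · rw [Real.sign_of_pos (mul_pos hx hy), Real.sign_of_pos hx, Real.sign_of_pos hy]
      norm_num

theorem J7_neg (a : ℤ) (l : ℕ) [Fact l.Prime] (h3 : l % 4 = 3) (hl : 10 ^ 4 ≤ l) (ha : ¬ (l : ℤ) ∣ a) :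
    |∑ v : ZMod l, rho (sg a) l v * rho (sg (-a)) l v| ≤ 19 / 20 * l := by
  have ha' : (a : ZMod l) ≠ 0 := fun h => ha ((ZMod.intCast_zmod_eq_zero_iff_dvd a l).1 h)
  have e1 : ∑ v : ZMod l, rho (sg a) l v * rho (sg (-a)) l v =
      ∑ u : (ZMod l)ˣ, rho (sg a) l (u : ZMod l) * rho (sg (-a)) l (u : ZMod l) := by
    have hs : ∑ v : ZMod l, ((rho (sg a) l v * rho (sg (-a)) l v : ℝ) : ℂ) =
        ∑ u : (ZMod l)ˣ, ((rho (sg a) l (u : ZMod l) * rho (sg (-a)) l (u : ZMod l) : ℝ) : ℂ) := by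
      rw [Kloo.sum_units_eq, J7_rho_zero, zero_mul, Complex.ofReal_zero, zero_add]
    exact_mod_cast hs
  have e2 : ∀ u : (ZMod l)ˣ, rho (sg a) l (u : ZMod l) * rho (sg (-a)) l (u : ZMod l) =
      Real.sign (J7_k (a : ZMod l) (u ^ 2)) := by
    intro u
    rw [J7_rho, J7_rho, ← J7_sign_mul]
    unfold J7_k
    rw [Units.val_pow_eq_pow_val, Int.cast_neg]
  have e3 := PA15.sum_sq (d := l) (by omega) (fun t => Real.sign (J7_k (a : ZMod l) t))
  have e4 : ∑ t : (ZMod l)ˣ, Real.sign (J7_k (a : ZMod l) t) * PA15.qc l (t : ZMod l) = 0 := by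
    have hev : ∀ t : (ZMod l)ˣ, J7_k (a : ZMod l) (-t) = J7_k (a : ZMod l) t := by
      intro t
      unfold J7_k
      rw [Units.val_neg, mul_neg, neg_mul, neg_mul, mul_neg, neg_neg, mul_comm]
    have h := Fintype.sum_equiv (Equiv.neg (ZMod l)ˣ)
      (fun t => Real.sign (J7_k (a : ZMod l) (-t)) * PA15.qc l ((-t : (ZMod l)ˣ) : ZMod l))
      (fun t => Real.sign (J7_k (a : ZMod l) t) * PA15.qc l (t : ZMod l)) (fun t => rfl)
    have h' : ∑ t : (ZMod l)ˣ, Real.sign (J7_k (a : ZMod l) (-t)) *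
        PA15.qc l ((-t : (ZMod l)ˣ) : ZMod l) =
        -∑ t : (ZMod l)ˣ, Real.sign (J7_k (a : ZMod l) t) * PA15.qc l (t : ZMod l) := by
      rw [← sum_neg_distrib]
      refine sum_congr rfl fun t _ => ?_
      rw [hev, J7_qc l h3, mul_neg]
    rw [h'] at h
    linarith
  have e5 : ∑ v : ZMod l, rho (sg a) l v * rho (sg (-a)) l v =
      ∑ t : (ZMod l)ˣ, Real.sign (J7_k (a : ZMod l) t) := by
    rw [e1, sum_congr rfl fun u _ => e2 u, e3]
    have e6 : ∀ t : (ZMod l)ˣ, Real.sign (J7_k (a : ZMod l) t) * (1 + PA15.qc l (t : ZMod l)) =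
        Real.sign (J7_k (a : ZMod l) t) + Real.sign (J7_k (a : ZMod l) t) * PA15.qc l (t : ZMod l) := by
      intro t
      ring
    rw [sum_congr rfl fun t _ => e6 t, sum_add_distrib, e4, add_zero]
  rw [e5]
  exact J7_main h3 hl (a : ZMod l) ha'

end PS25
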