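import Pool.Agent.LibPS25.H2
import Pool.Agent.LibPS25.E5
import Pool.Agent.LibPS25.J1
import Pool.Agent.LibPS25.J2
import Pool.Agent.LibPS25.J5
import Pool.Agent.LibPS25.J6
import Pool.Agent.LibPS25.J7
import Pool.Agent.LibPS25.G4
import Pool.Agent.LibPS25.G4q

/-!
# PS25/K: the main theorem for the pair `S(a,1;mn)`, `S(b,1;mn)`
-/

set_option autoImplicit false

noncomputable section

namespace PS25

open Finset

theorem Ev_mul {s s' : (p : ℕ) → ZMod p → ℝ} (h : Ev s) (h' : Ev s') : Ev (fun p x => s p x * s' p x) where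
  zero p hp := by rw [h.zero p hp, zero_mul]
  pm p hp x hx := by
    rcases h.pm p hp x hx with h1 | h1 <;> rcases h'.pm p hp x hx with h2 | h2 <;> rw [h1, h2] <;> norm_num
  even p x := by rw [h.even, h'.even]

theorem Th_prod (s s' : (p : ℕ) → ZMod p → ℝ) (m : ℕ) (t : ℤ) :
    Th (fun p x => s p x * s' p x) m t = Th s m t * Th s' m t := by
  unfold Th
  exact Finset.prod_mul_distrib

theorem K_pow_ne (a b : ℤ) (hab : a ≠ b) (hab' : a ≠ -b) (k : ℕ) (hk : 1 ≤ k) : a ^ k ≠ b ^ k := by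
  intro h
  have h1 : (a.natAbs) ^ k = (b.natAbs) ^ k := by
    rw [← Int.natAbs_pow, ← Int.natAbs_pow, h]
  have h2 : a.natAbs = b.natAbs := Nat.pow_left_injective (by omega : k ≠ 0) h1
  rcases Int.natAbs_eq_natAbs_iff.1 h2 with h3 | h3
  · exact hab h3
  · exact hab' h3

theorem K_hord (a b : ℤ) (ha : a ≠ 0) (hab : a ≠ b) (hab' : a ≠ -b) (l M : ℕ)
    (hl : (a.natAbs + b.natAbs) ^ M + 1 ≤ l) (k : ℕ) (hk1 : 1 ≤ k) (hk2 : k ≤ M) :
    ¬ (l : ℤ) ∣ a ^ k - b ^ k := by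
  intro hdvd
  have hne : a ^ k - b ^ k ≠ 0 := sub_ne_zero.2 (K_pow_ne a b hab hab' k hk1)
  have h7 : l ≤ (a ^ k - b ^ k).natAbs :=
    Nat.le_of_dvd (Int.natAbs_pos.2 hne) (Int.natCast_dvd.1 hdvd)
  have h8 : (a ^ k - b ^ k).natAbs ≤ a.natAbs ^ k + b.natAbs ^ k := by
    have := Int.natAbs_sub_le (a ^ k) (b ^ k)
    rw [Int.natAbs_pow, Int.natAbs_pow] at this
    exact this
  have h9 : a.natAbs ^ k + b.natAbs ^ k ≤ (a.natAbs + b.natAbs) ^ k :=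
    pow_add_pow_le (Nat.zero_le _) (Nat.zero_le _) (by omega)
  have h10 : (a.natAbs + b.natAbs) ^ k ≤ (a.natAbs + b.natAbs) ^ M := by
    have := Int.natAbs_pos.2 ha
    exact Nat.pow_le_pow_right (by omega) hk2
  omega

theorem K_one (a : ℤ) (ha : a ≠ 0) : ∃ (l1 : ℕ) (P : ℕ → Prop), Dv P ∧ Loc (sg a) (999 / 1000) l1 P := by
  obtain ⟨la, hla⟩ := E5_loc a ha
  refine ⟨la, fun p => p % 4 = 3, G4_div, ?_⟩
  intro l _ hl hP k
  refine (hla l hl hP k).trans ?_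
  exact mul_le_mul_of_nonneg_right (by norm_num) (sq_nonneg _)

/-- residues for the primes `l ≡ 1` modulo `4 |D|` -/
theorem K_res (D : ℤ) (hD : D ≠ 0) (l : ℕ) [hl : Fact l.Prime] (h : l ≡ 1 [MOD 4 * D.natAbs]) :
    ¬ (l : ℤ) ∣ D ∧ IsSquare ((D : ℤ) : ZMod l) := by
  have hD0 : 0 < D.natAbs := Int.natAbs_pos.2 hD
  have hp : l.Prime := hl.out
  have hmod : l % (4 * D.natAbs) = 1 := by
    have := h
    rw [Nat.ModEq, Nat.mod_eq_of_lt (by omega : 1 < 4 * D.natAbs)] at this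
    exact this
  constructor
  · intro hdvd
    have h1 : l ∣ D.natAbs := Int.natCast_dvd.1 hdvd
    have h2 : l ∣ 4 * D.natAbs := Dvd.dvd.mul_left h1 4
    have h3 : l ∣ l % (4 * D.natAbs) := (Nat.dvd_mod_iff h2).2 dvd_rfl
    rw [hmod] at h3
    exact hp.one_lt.ne' (Nat.dvd_one.1 h3)
  · have hodd : Odd l := by
      rcases hp.eq_two_or_odd' with h2 | h2
      · exfalso
        subst h2
        have : 2 % (4 * D.natAbs) = 2 := Nat.mod_eq_of_lt (by omega)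
        omega
      · exact h2
    apply ZMod.isSquare_of_jacobiSym_eq_one
    rw [jacobiSym.mod_right D hodd, hmod]
    exact jacobiSym.one_right D

theorem K_loc (a b : ℤ) (ha : a ≠ 0) (hb : b ≠ 0) (hab : a ≠ b) :
    ∃ (l1 : ℕ) (P : ℕ → Prop), Dv P ∧ Loc (fun p x => sg a p x * sg b p x) (999 / 1000) l1 P := by
  have hab0 : a * b ≠ 0 := mul_ne_zero ha hb
  by_cases hneg : b = -a
  · subst hneg
    refine ⟨max (10 ^ 4) (a.natAbs + 1), fun p => p % 4 = 3, G4_div, ?_⟩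
    intro l hlp hl hP k
    have hl4 : 10 ^ 4 ≤ l := le_trans (by omega) hl
    have hla : ¬ (l : ℤ) ∣ a := by
      intro h
      have h1 := Nat.le_of_dvd (Int.natAbs_pos.2 ha) (Int.natCast_dvd.1 h)
      have h2 : a.natAbs + 1 ≤ l := le_trans (by omega) hl
      omega
    refine (J2_contr (Ev_mul (A1_ev a) (A1_ev (-a))) l hP hl4 ?_ k).trans
      (mul_le_mul_of_nonneg_right (by norm_num) (sq_nonneg _))
    refine (J7_neg a l hP hl4 hla).trans ?_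
    exact mul_le_mul_of_nonneg_right (by norm_num) (Nat.cast_nonneg _)
  · have hab' : a ≠ -b := fun h => hneg (by rw [h, neg_neg])
    have hq : 0 < 4 * (a * b).natAbs := by
      have := Int.natAbs_pos.2 hab0
      omega
    refine ⟨max (10 ^ 8) ((a.natAbs + b.natAbs) ^ 160 + 1),
      fun p => p ≡ 1 [MOD 4 * (a * b).natAbs], G4q_div _ 1 hq (Nat.coprime_one_left _), ?_⟩
    intro l hlp hl hP k
    obtain ⟨h4, h5⟩ := K_res (a * b) hab0 l hP
    have hl8 : 10 ^ 8 ≤ l := le_trans (by omega) hl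
    have hlB : (a.natAbs + b.natAbs) ^ 160 + 1 ≤ l := le_trans (by omega) hl
    have hla : ¬ (l : ℤ) ∣ a := fun h => h4 (Dvd.dvd.mul_right h b)
    have hlb : ¬ (l : ℤ) ∣ b := fun h => h4 (Dvd.dvd.mul_left h a)
    refine J5_contr (Ev_mul (A1_ev a) (A1_ev b)) l hl8 ?_ ?_ k
    · refine (J1_pair a b l (by omega) hla hlb h5 (fun j hj1 hj2 =>
        K_hord a b ha hab hab' l 160 hlB j hj1 (by omega))).trans ?_
      exact mul_le_mul_of_nonneg_right (by norm_num) (Nat.cast_nonneg _)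
    · exact J6_pair a b l (by omega) hla hlb h5 (fun j hj1 hj2 =>
        K_hord a b ha hab hab' l 160 hlB j hj1 hj2)

/-- the main theorem for a pair -/
theorem K_main (a b : ℤ) (ha : a ≠ 0) (hb : b ≠ 0) (hab : a ≠ b)
    (N : ℕ) (hN : 0 < N) (ε : ℝ) (hε : 0 < ε) :
    ∃ X0 : ℕ, ∀ X : ℕ, X0 ≤ X → ∀ (g : ℕ → ℝ) (w : ZMod N → ℝ), SM g → Wt N w →
      ∑ n ∈ Icc 1 X, |∑ m ∈ (Icc 1 X).filter fun m => Squarefree (m * n) ∧ m.Coprime N,
        g m * w (m : ZMod N) * Th (sg a) (m * n) 1| ≤ ε * (X : ℝ) ^ 2 ∧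
      ∑ n ∈ Icc 1 X, |∑ m ∈ (Icc 1 X).filter fun m => Squarefree (m * n) ∧ m.Coprime N,
        g m * w (m : ZMod N) * Th (sg b) (m * n) 1| ≤ ε * (X : ℝ) ^ 2 ∧
      ∑ n ∈ Icc 1 X, |∑ m ∈ (Icc 1 X).filter fun m => Squarefree (m * n) ∧ m.Coprime N,
        g m * w (m : ZMod N) * (Th (sg a) (m * n) 1 * Th (sg b) (m * n) 1)| ≤ ε * (X : ℝ) ^ 2 := by
  obtain ⟨l1, P1, hP1, h1⟩ := K_one a ha
  obtain ⟨l2, P2, hP2, h2⟩ := K_one b hb
  obtain ⟨l3, P3, hP3, h3⟩ := K_loc a b ha hb hab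
  obtain ⟨X1, hX1⟩ := H2_main (A1_ev a) (by norm_num : (0 : ℝ) ≤ 999 / 1000) (by norm_num) hP1 h1 N hN ε hε
  obtain ⟨X2, hX2⟩ := H2_main (A1_ev b) (by norm_num : (0 : ℝ) ≤ 999 / 1000) (by norm_num) hP2 h2 N hN ε hε
  obtain ⟨X3, hX3⟩ := H2_main (Ev_mul (A1_ev a) (A1_ev b)) (by norm_num : (0 : ℝ) ≤ 999 / 1000)
    (by norm_num) hP3 h3 N hN ε hε
  refine ⟨max X1 (max X2 X3), fun X hX g w hg hw => ⟨hX1 X (le_trans (by omega) hX) g w hg hw,
    hX2 X (le_trans (by omega) hX) g w hg hw, ?_⟩⟩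
  have h4 := hX3 X (le_trans (by omega) hX) g w hg hw
  simp only [Th_prod] at h4
  exact h4

end PS25
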