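import Pool.Agent.LibPS25.Defs

/-
PLAN (M1). Q := 2 |a b| q. y large with 8/y <= eps and y >= 8; W := Q prod_{p <= y, p prime, p not dividing Q} p (fixed). Class r2 mod W, coprime to W: r2 = r mod q and r2 = 1 modulo the primes p <= y or p | 2 a b that do not divide q
(Nat.chineseRemainder, or: take r2 = r + q t by CRT for the coprime moduli q and (product of the primes dividing W but not q)). Every m = r2 mod W is = r mod q, coprime to 2 a b and to all primes <= y.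
Bad n: sum of 1/p over the primes p | n, p > y, exceeds 1/8: their number is at most 8 sum_{n <= X} sum_{p | n, p > y} 1/p <= 8 X sum_{p > y} 1/p^2 <= 8 X / y <= eps X.
For n admissible and not bad: #{m <= X, m = r2 mod W, m coprime to n, m squarefree} >= (X/W - 1) - sum_{p | n, p > y} (X/(p W) + 1) - sum_{y < p <= sqrt X} (X/(p^2 W) + 1) >= (X/W)(1 - 1/8 - 1/y) - 2 - omega(n) - sqrt X
>= X/(2W) for X large (omega(n) <= log_2 X): multiples of p (p coprime to W, p > y) in one class modulo W: at most X/(p W) + 1. All these m are counted in the inner set. delta := 1/(2W).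
-/

set_option autoImplicit false

noncomputable section

namespace PS25

open Finset

private theorem M1_class (S : Finset ℕ) (k X : ℕ) (hk : 0 < k) (h : ∀ m ∈ S, ∀ m' ∈ S, m ≡ m' [MOD k])
    (hX : ∀ m ∈ S, m ≤ X) : (#S : ℝ) ≤ X / k + 1 := by
  have h1 : #S ≤ #(range (X / k + 1)) := by
    refine Finset.card_le_card_of_injOn (fun m => m / k) ?_ ?_
    · intro m hm
      rw [Finset.mem_coe, Finset.mem_range]
      exact Nat.lt_succ_of_le (Nat.div_le_div_right (hX m hm))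
    · intro m hm m' hm' hmm
      have h2 : m / k = m' / k := hmm
      have h3 : m % k = m' % k := h m hm m' hm'
      rw [← Nat.div_add_mod m k, ← Nat.div_add_mod m' k, h2, h3]
  rw [Finset.card_range] at h1
  have h2 : ((X / k : ℕ) : ℝ) ≤ (X : ℝ) / k := Nat.cast_div_le
  have h3 : (#S : ℝ) ≤ ((X / k + 1 : ℕ) : ℝ) := by exact_mod_cast h1
  push_cast at h3
  linarith

private theorem M1_harm (X : ℕ) : ∑ p ∈ Icc 1 X, ((p : ℝ))⁻¹ ≤ 2 * Real.sqrt X := by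
  induction X with
  | zero => simp
  | succ n ih =>
    rw [Finset.sum_Icc_succ_top (by omega)]
    have h1 : (((n + 1 : ℕ) : ℝ))⁻¹ ≤ 2 * Real.sqrt ((n + 1 : ℕ) : ℝ) - 2 * Real.sqrt n := by
      have e1 : (0 : ℝ) ≤ n := Nat.cast_nonneg n
      obtain ⟨x, hx⟩ : ∃ x, x = Real.sqrt ((n + 1 : ℕ) : ℝ) := ⟨_, rfl⟩
      obtain ⟨z, hz⟩ : ∃ z, z = Real.sqrt (n : ℝ) := ⟨_, rfl⟩
      have hx2 : x * x = n + 1 := by
        rw [hx, Real.mul_self_sqrt (by positivity)]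
        push_cast
        ring
      have hz2 : z * z = n := by rw [hz, Real.mul_self_sqrt e1]
      have hx0 : 0 ≤ x := by rw [hx]; exact Real.sqrt_nonneg _
      have hz0 : 0 ≤ z := by rw [hz]; exact Real.sqrt_nonneg _
      have hx1 : 1 ≤ x := by nlinarith
      have hzx : z ≤ x := by nlinarith
      rw [← hx, ← hz]
      have e2 : (((n + 1 : ℕ) : ℝ)) = x * x := by push_cast; linarith
      rw [e2]
      rw [inv_le_iff_one_le_mul₀ (by positivity)]
      have e3 : (2 * x - 2 * z) * (x + z) = 2 := by nlinarith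
      have e4 : (2 * x - 2 * z) * (x * x) ≥ (2 * x - 2 * z) * x := by
        have : (2 * x - 2 * z) ≥ 0 := by linarith
        nlinarith [mul_nonneg this (mul_nonneg hx0 (sub_nonneg.2 hx1))]
      nlinarith
    linarith

private theorem M1_sq (y X : ℕ) (hy : y ≠ 0) (h : y ≤ X) : ∑ p ∈ Ioc y X, (((p : ℝ)) ^ 2)⁻¹ ≤ (y : ℝ)⁻¹ := by
  have h1 := sum_Ioc_inv_sq_le_sub (α := ℝ) hy h
  have h2 : (0 : ℝ) ≤ (X : ℝ)⁻¹ := by positivity
  linarith

private theorem M1_unit (W q r : ℕ) (hW : 1 < W) (hqW : q ∣ W) (hr : r.Coprime q) :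
    ∃ r2 : ℕ, 1 ≤ r2 ∧ r2 ≤ W ∧ r2.Coprime W ∧ r2 ≡ r [MOD q] := by
  have : NeZero W := ⟨by omega⟩
  obtain ⟨u, hu⟩ := ZMod.unitsMap_surjective hqW (ZMod.unitOfCoprime r hr)
  have hc : ((u : ZMod W).val).Coprime W := ZMod.val_coe_unit_coprime u
  refine ⟨(u : ZMod W).val, ?_, (ZMod.val_lt _).le, hc, ?_⟩
  · rcases Nat.eq_zero_or_pos (u : ZMod W).val with h | h
    · rw [h, Nat.coprime_zero_left] at hc
      omega
    · exact h
  · rw [← ZMod.natCast_eq_natCast_iff]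
    have h1 := congrArg (fun x : (ZMod q)ˣ => (x : ZMod q)) hu
    simp only [ZMod.coe_unitOfCoprime] at h1
    rw [← h1, ZMod.unitsMap_def]
    have h2 : ((u : ZMod W).val : ZMod W) = (u : ZMod W) := ZMod.natCast_zmod_val _
    have h3 : (ZMod.castHom hqW (ZMod q)) (((u : ZMod W).val : ℕ) : ZMod W) = (((u : ZMod W).val : ℕ) : ZMod q) :=
      map_natCast _ _
    rw [h2] at h3
    rw [← h3]
    rfl

private theorem M1_low (X W r2 : ℕ) (hW : 0 < W) (h1 : 1 ≤ r2) (h2 : r2 ≤ W) :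
    (X : ℝ) / W - 1 ≤ #((Icc 1 X).filter fun m : ℕ => m ≡ r2 [MOD W]) := by
  have h3 : #(range (X / W)) ≤ #((Icc 1 X).filter fun m : ℕ => m ≡ r2 [MOD W]) := by
    refine Finset.card_le_card_of_injOn (fun t => W * t + r2) ?_ ?_
    · intro t ht
      rw [Finset.mem_coe, Finset.mem_range] at ht
      rw [Finset.mem_coe, Finset.mem_filter, Finset.mem_Icc]
      refine ⟨⟨h1.trans (Nat.le_add_left _ _), ?_⟩, ?_⟩
      · have h4 : W * (t + 1) ≤ W * (X / W) := Nat.mul_le_mul_left W ht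
        have h5 := Nat.mul_div_le X W
        calc W * t + r2 ≤ W * t + W := by omega
          _ = W * (t + 1) := by ring
          _ ≤ _ := h4.trans h5
      · change (W * t + r2) % W = r2 % W
        rw [Nat.mul_add_mod]
    · intro t _ t' _ h
      have h4 : W * t + r2 = W * t' + r2 := h
      exact Nat.eq_of_mul_eq_mul_left hW (by omega)
  rw [Finset.card_range] at h3
  have h4 : (X : ℝ) / W - 1 ≤ ((X / W : ℕ) : ℝ) := by
    rw [sub_le_iff_le_add, div_le_iff₀ (by exact_mod_cast hW)]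
    have h5 := Nat.div_add_mod X W
    have h6 := Nat.mod_lt X hW
    have h7 : X ≤ (X / W + 1) * W := by
      calc X = W * (X / W) + X % W := h5.symm
        _ ≤ W * (X / W) + W := by omega
        _ = _ := by ring
    exact_mod_cast h7
  exact h4.trans (by exact_mod_cast h3)

private theorem M1_mult (X W r2 d : ℕ) (hW : 0 < W) (hd : 0 < d) (hc : d.Coprime W) :
    (#(((Icc 1 X).filter fun m : ℕ => m ≡ r2 [MOD W]).filter fun m => d ∣ m) : ℝ) ≤ X / (d * W) + 1 := by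
  have h := M1_class (((Icc 1 X).filter fun m : ℕ => m ≡ r2 [MOD W]).filter fun m => d ∣ m) (d * W) X
    (Nat.mul_pos hd hW) ?_ ?_
  · push_cast at h
    exact h
  · intro m hm m' hm'
    rw [Finset.mem_filter, Finset.mem_filter] at hm hm'
    refine (Nat.modEq_and_modEq_iff_modEq_mul hc).1 ⟨?_, ?_⟩
    · exact (Nat.modEq_zero_iff_dvd.2 hm.2).trans (Nat.modEq_zero_iff_dvd.2 hm'.2).symm
    · exact hm.1.2.trans hm'.1.2.symm
  · intro m hm
    rw [Finset.mem_filter, Finset.mem_filter, Finset.mem_Icc] at hm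
    exact hm.1.1.2

open scoped Classical in
private theorem M1_s2 (X W r2 y : ℕ) (hW : 0 < W) (hy : 0 < y) (hyX : y ≤ X) (hr2 : r2.Coprime W) :
    (#(((Icc 1 X).filter fun m : ℕ => m ≡ r2 [MOD W]).filter fun m => ∃ p : ℕ, p.Prime ∧ y < p ∧ p ^ 2 ∣ m) : ℝ) ≤
      X / W * (y : ℝ)⁻¹ + Real.sqrt X := by
  obtain ⟨M, hM⟩ : ∃ M, M = ((Icc 1 X).filter fun m : ℕ => m ≡ r2 [MOD W]) := ⟨_, rfl⟩
  have hco : ∀ m ∈ M, m.Coprime W := by
    intro m hm
    rw [hM, Finset.mem_filter] at hm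
    have h1 := hm.2.gcd_eq
    unfold Nat.Coprime
    rw [h1]
    exact hr2
  have hsub : (M.filter fun m => ∃ p : ℕ, p.Prime ∧ y < p ∧ p ^ 2 ∣ m) ⊆
      ((Ioc y (Nat.sqrt X)).filter fun p => p.Coprime W).biUnion fun p => M.filter fun m => p ^ 2 ∣ m := by
    intro m hm
    rw [Finset.mem_filter] at hm
    obtain ⟨hm, p, hp, hyp, hpm⟩ := hm
    have hmX : 1 ≤ m ∧ m ≤ X := by
      rw [hM, Finset.mem_filter, Finset.mem_Icc] at hm
      exact hm.1
    rw [Finset.mem_biUnion]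
    refine ⟨p, ?_, ?_⟩
    · rw [Finset.mem_filter, Finset.mem_Ioc]
      refine ⟨⟨hyp, ?_⟩, ?_⟩
      · rw [Nat.le_sqrt']
        exact (Nat.le_of_dvd (by omega) hpm).trans hmX.2
      · exact Nat.Coprime.coprime_dvd_left ((dvd_pow_self p two_ne_zero).trans hpm) (hco m hm)
    · rw [Finset.mem_filter]
      exact ⟨hm, hpm⟩
  rw [← hM]
  have h1 : (#(M.filter fun m => ∃ p : ℕ, p.Prime ∧ y < p ∧ p ^ 2 ∣ m) : ℝ) ≤
      ∑ p ∈ (Ioc y (Nat.sqrt X)).filter fun p => p.Coprime W, (#(M.filter fun m => p ^ 2 ∣ m) : ℝ) := by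
    have := (Finset.card_le_card hsub).trans Finset.card_biUnion_le
    exact_mod_cast this
  refine h1.trans ?_
  have h2 : ∑ p ∈ (Ioc y (Nat.sqrt X)).filter fun p => p.Coprime W, (#(M.filter fun m => p ^ 2 ∣ m) : ℝ) ≤
      ∑ p ∈ (Ioc y (Nat.sqrt X)).filter fun p => p.Coprime W, ((X : ℝ) / W * ((p : ℝ) ^ 2)⁻¹ + 1) := by
    refine Finset.sum_le_sum fun p hp => ?_
    rw [Finset.mem_filter, Finset.mem_Ioc] at hp
    have h3 := M1_mult X W r2 (p ^ 2) hW (pow_pos (by omega) 2) (Nat.Coprime.pow_left 2 hp.2)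
    rw [← hM] at h3
    refine h3.trans (le_of_eq ?_)
    push_cast
    have : (p : ℝ) ≠ 0 := by
      have := hp.1.1
      have : 0 < p := by omega
      positivity
    have hW' : (W : ℝ) ≠ 0 := by positivity
    field_simp
  refine h2.trans ?_
  have h3 : ∑ p ∈ (Ioc y (Nat.sqrt X)).filter fun p => p.Coprime W, ((X : ℝ) / W * ((p : ℝ) ^ 2)⁻¹ + 1) ≤
      ∑ p ∈ (Ioc y (Nat.sqrt X)), ((X : ℝ) / W * ((p : ℝ) ^ 2)⁻¹ + 1) :=
    Finset.sum_le_sum_of_subset_of_nonneg (Finset.filter_subset _ _) fun p _ _ => by positivity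
  refine h3.trans ?_
  rw [Finset.sum_add_distrib, ← Finset.mul_sum]
  have h4 : ∑ p ∈ (Ioc y (Nat.sqrt X)), ((p : ℝ) ^ 2)⁻¹ ≤ (y : ℝ)⁻¹ := by
    refine le_trans ?_ (M1_sq y X (by omega) hyX)
    exact Finset.sum_le_sum_of_subset_of_nonneg (Finset.Ioc_subset_Ioc_right (Nat.sqrt_le_self X))
      fun p _ _ => by positivity
  have h5 : ∑ p ∈ (Ioc y (Nat.sqrt X)), (1 : ℝ) ≤ Real.sqrt X := by
    rw [Finset.sum_const, nsmul_eq_mul, mul_one, Nat.card_Ioc]
    have h6 : ((Nat.sqrt X - y : ℕ) : ℝ) ≤ (Nat.sqrt X : ℝ) := by exact_mod_cast Nat.sub_le _ _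
    refine h6.trans ?_
    exact Real.nat_sqrt_le_real_sqrt
  gcongr

open scoped Classical in
private theorem M1_s1 (X W r2 y : ℕ) (hW : 0 < W) (hy : 0 < y) (hyX : y ≤ X) (hr2 : r2.Coprime W) :
    ∑ n ∈ Icc 1 X, (#(((Icc 1 X).filter fun m : ℕ => m ≡ r2 [MOD W]).filter fun m =>
      ∃ p : ℕ, p.Prime ∧ y < p ∧ p ∣ m ∧ p ∣ n) : ℝ) ≤
      (X : ℝ) ^ 2 / W * (y : ℝ)⁻¹ + 2 * X * Real.sqrt X := by
  obtain ⟨M, hM⟩ : ∃ M, M = ((Icc 1 X).filter fun m : ℕ => m ≡ r2 [MOD W]) := ⟨_, rfl⟩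
  have hco : ∀ m ∈ M, m.Coprime W := by
    intro m hm
    rw [hM, Finset.mem_filter] at hm
    have h1 := hm.2.gcd_eq
    unfold Nat.Coprime
    rw [h1]
    exact hr2
  rw [← hM]
  obtain ⟨P, hP⟩ : ∃ P, P = (Ioc y X).filter fun p => p.Coprime W := ⟨_, rfl⟩
  have hsub : ∀ n, (M.filter fun m => ∃ p : ℕ, p.Prime ∧ y < p ∧ p ∣ m ∧ p ∣ n) ⊆
      (P.filter fun p => p ∣ n).biUnion fun p => M.filter fun m => p ∣ m := by
    intro n m hm
    rw [Finset.mem_filter] at hm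
    obtain ⟨hm, p, hp, hyp, hpm, hpn⟩ := hm
    have hmX : 1 ≤ m ∧ m ≤ X := by
      rw [hM, Finset.mem_filter, Finset.mem_Icc] at hm
      exact hm.1
    rw [Finset.mem_biUnion]
    refine ⟨p, ?_, ?_⟩
    · rw [Finset.mem_filter, hP, Finset.mem_filter, Finset.mem_Ioc]
      exact ⟨⟨⟨hyp, (Nat.le_of_dvd (by omega) hpm).trans hmX.2⟩,
        Nat.Coprime.coprime_dvd_left hpm (hco m hm)⟩, hpn⟩
    · rw [Finset.mem_filter]
      exact ⟨hm, hpm⟩
  have h1 : ∀ n, (#(M.filter fun m => ∃ p : ℕ, p.Prime ∧ y < p ∧ p ∣ m ∧ p ∣ n) : ℝ) ≤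
      ∑ p ∈ P, if p ∣ n then (#(M.filter fun m => p ∣ m) : ℝ) else 0 := by
    intro n
    rw [← Finset.sum_filter]
    have := (Finset.card_le_card (hsub n)).trans Finset.card_biUnion_le
    exact_mod_cast this
  refine (Finset.sum_le_sum fun n _ => h1 n).trans ?_
  rw [Finset.sum_comm]
  have h2 : ∀ p ∈ P, ∑ n ∈ Icc 1 X, (if p ∣ n then (#(M.filter fun m => p ∣ m) : ℝ) else 0) ≤
      (X : ℝ) ^ 2 / W * ((p : ℝ) ^ 2)⁻¹ + X * (p : ℝ)⁻¹ := by
    intro p hp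
    rw [hP, Finset.mem_filter, Finset.mem_Ioc] at hp
    have hp0 : 0 < p := by omega
    rw [← Finset.sum_filter, Finset.sum_const, nsmul_eq_mul]
    have h3 : (#((Icc 1 X).filter fun n => p ∣ n) : ℝ) ≤ X / p := by
      have h4 : #((Icc 1 X).filter fun n => p ∣ n) = X / p := Nat.Ioc_filter_dvd_card_eq_div X p
      rw [h4]
      exact Nat.cast_div_le
    have h5 := M1_mult X W r2 p hW hp0 hp.2
    rw [← hM] at h5
    have h6 : (#((Icc 1 X).filter fun n => p ∣ n) : ℝ) * (#(M.filter fun m => p ∣ m) : ℝ) ≤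
        X / p * (X / (p * W) + 1) := mul_le_mul h3 h5 (by positivity) (by positivity)
    refine h6.trans (le_of_eq ?_)
    have : (p : ℝ) ≠ 0 := by positivity
    have hW' : (W : ℝ) ≠ 0 := by positivity
    field_simp
  refine (Finset.sum_le_sum h2).trans ?_
  have h3 : ∑ p ∈ P, ((X : ℝ) ^ 2 / W * ((p : ℝ) ^ 2)⁻¹ + X * (p : ℝ)⁻¹) ≤
      ∑ p ∈ Ioc y X, ((X : ℝ) ^ 2 / W * ((p : ℝ) ^ 2)⁻¹ + X * (p : ℝ)⁻¹) := by
    rw [hP]
    exact Finset.sum_le_sum_of_subset_of_nonneg (Finset.filter_subset _ _) fun p _ _ => by positivity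
  refine h3.trans ?_
  rw [Finset.sum_add_distrib, ← Finset.mul_sum, ← Finset.mul_sum]
  have h4 := M1_sq y X (by omega) hyX
  have h5 : ∑ p ∈ Ioc y X, ((p : ℝ))⁻¹ ≤ 2 * Real.sqrt X := by
    refine le_trans ?_ (M1_harm X)
    refine Finset.sum_le_sum_of_subset_of_nonneg ?_ fun p _ _ => by positivity
    intro p hp
    rw [Finset.mem_Ioc] at hp
    rw [Finset.mem_Icc]
    omega
  calc (X : ℝ) ^ 2 / W * ∑ p ∈ Ioc y X, ((p : ℝ) ^ 2)⁻¹ + X * ∑ p ∈ Ioc y X, ((p : ℝ))⁻¹ ≤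
      (X : ℝ) ^ 2 / W * (y : ℝ)⁻¹ + X * (2 * Real.sqrt X) := by gcongr
    _ = _ := by ring

theorem M1_many (a b : ℤ) (ha : a ≠ 0) (hb : b ≠ 0) (q r : ℕ) (hq : 0 < q) (hr : r.Coprime q)
    (ε : ℝ) (hε : 0 < ε) :
    ∃ δ : ℝ, 0 < δ ∧ ∃ X0 : ℕ, ∀ X : ℕ, X0 ≤ X →
      (open scoped Classical in
      (#((Icc 1 X).filter fun n : ℕ => (Squarefree n ∧ Odd n ∧ Int.gcd (a * b) n = 1) ∧
        (#((Icc 1 X).filter fun m : ℕ => m ≡ r [MOD q] ∧ Squarefree (m * n) ∧ Odd (m * n) ∧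
          Int.gcd (a * b) (m * n : ℕ) = 1) : ℝ) < δ * X) : ℝ)) ≤ ε * X := by
  obtain ⟨y, hy⟩ : ∃ y : ℕ, 8 ≤ y ∧ 8 / ε ≤ y := by
    obtain ⟨y, hy⟩ := exists_nat_ge (8 / ε)
    exact ⟨y + 8, by omega, hy.trans (by push_cast; linarith)⟩
  obtain ⟨hy8, hyε⟩ := hy
  have hab : (a * b).natAbs ≠ 0 := Int.natAbs_ne_zero.2 (mul_ne_zero ha hb)
  obtain ⟨W, hWd⟩ : ∃ W : ℕ, W = 2 * ((a * b).natAbs * (q * y.factorial)) := ⟨_, rfl⟩
  have hc0 : 0 < (a * b).natAbs * (q * y.factorial) :=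
    Nat.mul_pos (Nat.pos_of_ne_zero hab) (Nat.mul_pos hq (Nat.factorial_pos y))
  have hW1 : 1 < W := by omega
  have hW0 : 0 < W := by omega
  have hqW : q ∣ W := by
    rw [hWd]
    exact Dvd.dvd.mul_left (Dvd.dvd.mul_left (dvd_mul_right _ _) _) _
  have h2W : 2 ∣ W := by rw [hWd]; exact dvd_mul_right _ _
  have habW : (a * b).natAbs ∣ W := by
    rw [hWd]
    exact Dvd.dvd.mul_left (dvd_mul_right _ _) _
  have hyW : y.factorial ∣ W := by
    rw [hWd]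
    exact Dvd.dvd.mul_left (Dvd.dvd.mul_left (dvd_mul_left _ _) _) _
  obtain ⟨r2, hr1, hrW, hr2, hrr⟩ := M1_unit W q r hW1 hqW hr
  have hWR : (0 : ℝ) < W := by exact_mod_cast hW0
  have hyR : (8 : ℝ) ≤ y := by exact_mod_cast hy8
  obtain ⟨X1, hX1⟩ := exists_nat_ge ((16 * (W : ℝ) + 16 * W / ε) ^ 2)
  refine ⟨1 / (2 * W), by positivity, max X1 y, ?_⟩
  intro X hX
  have hXy : y ≤ X := (le_max_right _ _).trans hX
  have hX1' : X1 ≤ X := (le_max_left _ _).trans hX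
  have hXR : ((16 * (W : ℝ) + 16 * W / ε) ^ 2) ≤ X := hX1.trans (by exact_mod_cast hX1')
  obtain ⟨x, hx⟩ : ∃ x, x = Real.sqrt (X : ℝ) := ⟨_, rfl⟩
  have hx0 : 0 ≤ x := by rw [hx]; exact Real.sqrt_nonneg _
  have hxx : x * x = X := by rw [hx]; exact Real.mul_self_sqrt (Nat.cast_nonneg X)
  have hxW : 16 * (W : ℝ) + 16 * W / ε ≤ x := by
    rw [hx]
    exact Real.le_sqrt_of_sq_le hXR
  have hWε : 0 < 16 * (W : ℝ) / ε := by positivity
  have hW1R : (1 : ℝ) ≤ W := by exact_mod_cast hW0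
  have hXpos : (0 : ℝ) < X := by
    have : 8 ≤ X := hy8.trans hXy
    have : 0 < X := by omega
    exact_mod_cast this
  classical
  obtain ⟨M, hM⟩ : ∃ M, M = ((Icc 1 X).filter fun m : ℕ => m ≡ r2 [MOD W]) := ⟨_, rfl⟩
  have hco : ∀ m ∈ M, m.Coprime W := by
    intro m hm
    rw [hM, Finset.mem_filter] at hm
    have h1 := hm.2.gcd_eq
    unfold Nat.Coprime
    rw [h1]
    exact hr2
  obtain ⟨S1, hS1⟩ : ∃ S1 : ℕ → Finset ℕ, S1 = fun n => M.filter fun m =>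
      ∃ p : ℕ, p.Prime ∧ y < p ∧ p ∣ m ∧ p ∣ n := ⟨_, rfl⟩
  obtain ⟨S2, hS2⟩ : ∃ S2 : Finset ℕ, S2 = M.filter fun m => ∃ p : ℕ, p.Prime ∧ y < p ∧ p ^ 2 ∣ m := ⟨_, rfl⟩
  have hMlow := M1_low X W r2 hW0 hr1 hrW
  rw [← hM] at hMlow
  have hS2c : (#S2 : ℝ) ≤ X / W * (y : ℝ)⁻¹ + x := by
    have := M1_s2 X W r2 y hW0 (by omega) hXy hr2
    rw [← hM, ← hx] at this
    rw [hS2]
    exact this
  have hS1c : ∑ n ∈ Icc 1 X, (#(S1 n) : ℝ) ≤ (X : ℝ) ^ 2 / W * (y : ℝ)⁻¹ + 2 * X * x := by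
    have := M1_s1 X W r2 y hW0 (by omega) hXy hr2
    rw [← hM, ← hx] at this
    rw [hS1]
    exact this
  have hdist : ∀ p : ℕ, p.Prime → ∀ m ∈ M, p ∣ m → y < p := by
    intro p hp m hm hpm
    by_contra hle
    have h1 : p ∣ W := ((Nat.Prime.dvd_factorial hp).2 (by omega)).trans hyW
    have h2 : p ∣ 1 := by
      have := Nat.dvd_gcd hpm h1
      rwa [hco m hm] at this
    exact hp.one_lt.ne' (Nat.dvd_one.1 h2)
  obtain ⟨Bn, hBn⟩ : ∃ Bn : Finset ℕ, Bn = ((Icc 1 X).filter fun n : ℕ => (Squarefree n ∧ Odd n ∧ Int.gcd (a * b) n = 1) ∧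
        (#((Icc 1 X).filter fun m : ℕ => m ≡ r [MOD q] ∧ Squarefree (m * n) ∧ Odd (m * n) ∧
          Int.gcd (a * b) (m * n : ℕ) = 1) : ℝ) < 1 / (2 * W) * X) := ⟨_, rfl⟩
  have hgoal : (#Bn : ℝ) ≤ ε * X := by
    have hbig : ∀ n ∈ Bn, (X : ℝ) / (4 * W) ≤ #(S1 n) := by
      intro n hn
      rw [hBn, Finset.mem_filter, Finset.mem_Icc] at hn
      obtain ⟨⟨hn1, hnX⟩, ⟨hsq, hodd, hgcd⟩, hlt⟩ := hn
      have hsub : M \ (S1 n ∪ S2) ⊆ ((Icc 1 X).filter fun m : ℕ => m ≡ r [MOD q] ∧ Squarefree (m * n) ∧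
          Odd (m * n) ∧ Int.gcd (a * b) (m * n : ℕ) = 1) := by
        intro m hm
        rw [Finset.mem_sdiff, Finset.mem_union, not_or] at hm
        obtain ⟨hmM, hm1, hm2⟩ := hm
        have hmI : m ∈ Icc 1 X ∧ m ≡ r2 [MOD W] := by
          rw [hM, Finset.mem_filter] at hmM
          exact hmM
        have hcop : m.Coprime n := by
          by_contra hnc
          obtain ⟨p, hp, hpm, hpn⟩ := Nat.Prime.not_coprime_iff_dvd.1 hnc
          apply hm1
          rw [hS1]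
          exact Finset.mem_filter.2 ⟨hmM, p, hp, hdist p hp m hmM hpm, hpm, hpn⟩
        have hsqm : Squarefree m := by
          rw [Nat.squarefree_iff_prime_squarefree]
          intro p hp hpp
          apply hm2
          rw [hS2]
          refine Finset.mem_filter.2 ⟨hmM, p, hp, hdist p hp m hmM ((dvd_mul_right p p).trans hpp), ?_⟩
          rw [pow_two]
          exact hpp
        have hoddm : Odd m := Nat.coprime_two_right.1 (Nat.Coprime.coprime_dvd_right h2W (hco m hmM))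
        have hgm : Nat.Coprime (a * b).natAbs m :=
          (Nat.Coprime.coprime_dvd_right habW (hco m hmM)).symm
        have hgn : Nat.Coprime (a * b).natAbs n := by
          rw [Int.gcd_eq_natAbs_gcd_natAbs, Int.natAbs_natCast] at hgcd
          exact hgcd
        rw [Finset.mem_filter]
        refine ⟨hmI.1, (hmI.2.of_dvd hqW).trans hrr, (Nat.squarefree_mul hcop).2 ⟨hsqm, hsq⟩,
          Nat.odd_mul.2 ⟨hoddm, hodd⟩, ?_⟩
        rw [Int.gcd_eq_natAbs_gcd_natAbs, Int.natAbs_natCast]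
        exact Nat.Coprime.mul_right hgm hgn
      have h1 := Finset.card_le_card hsub
      have h2 : #M ≤ #(M \ (S1 n ∪ S2)) + (#(S1 n) + #S2) := by
        have h3 : #M ≤ #(M \ (S1 n ∪ S2)) + #(S1 n ∪ S2) := by
          have := Finset.le_card_sdiff (S1 n ∪ S2) M
          omega
        exact h3.trans (Nat.add_le_add_left (Finset.card_union_le _ _) _)
      have h3 : (#M : ℝ) ≤ #((Icc 1 X).filter fun m : ℕ => m ≡ r [MOD q] ∧ Squarefree (m * n) ∧
          Odd (m * n) ∧ Int.gcd (a * b) (m * n : ℕ) = 1) + (#(S1 n) + #S2) := by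
        exact_mod_cast h2.trans (Nat.add_le_add_right h1 _)
      have h4 : (X : ℝ) / W * (y : ℝ)⁻¹ ≤ X / W * (8 : ℝ)⁻¹ := by gcongr
      obtain ⟨z, hz⟩ : ∃ z, z = (X : ℝ) / W := ⟨_, rfl⟩
      rw [← hz] at hMlow hS2c h4
      have e1 : 1 / (2 * (W : ℝ)) * X = z / 2 := by rw [hz]; field_simp
      have e2 : (X : ℝ) / (4 * W) = z / 4 := by rw [hz]; field_simp
      rw [e1] at hlt
      rw [e2]
      have h5 : 1 + x ≤ z / 8 := by
        rw [hz, ← hxx, div_div, le_div_iff₀ (by positivity)]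
        have h6 : 16 * (W : ℝ) ≤ x := by linarith
        nlinarith
      linarith
    have h1 : (#Bn : ℝ) * ((X : ℝ) / (4 * W)) ≤ (X : ℝ) ^ 2 / W * (y : ℝ)⁻¹ + 2 * X * x := by
      calc (#Bn : ℝ) * ((X : ℝ) / (4 * W)) = ∑ n ∈ Bn, (X : ℝ) / (4 * W) := by
            rw [Finset.sum_const, nsmul_eq_mul]
        _ ≤ ∑ n ∈ Bn, (#(S1 n) : ℝ) := Finset.sum_le_sum hbig
        _ ≤ ∑ n ∈ Icc 1 X, (#(S1 n) : ℝ) :=
            Finset.sum_le_sum_of_subset_of_nonneg (by rw [hBn]; exact Finset.filter_subset _ _)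
              fun n _ _ => by positivity
        _ ≤ _ := hS1c
    have h2 : (#Bn : ℝ) ≤ 4 * X * (y : ℝ)⁻¹ + 8 * W * x := by
      have h3 : (X : ℝ) ^ 2 / W * (y : ℝ)⁻¹ + 2 * X * x = (4 * X * (y : ℝ)⁻¹ + 8 * W * x) * ((X : ℝ) / (4 * W)) := by
        field_simp
        ring
      rw [h3] at h1
      exact le_of_mul_le_mul_right h1 (by positivity)
    have h3 : 4 * X * (y : ℝ)⁻¹ ≤ ε / 2 * X := by
      have h4 : (y : ℝ)⁻¹ ≤ ε / 8 := by
        have h5 : (0 : ℝ) < y := by linarith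
        rw [inv_le_comm₀ h5 (by positivity), inv_div]
        exact hyε
      nlinarith
    have h4 : 8 * W * x ≤ ε / 2 * X := by
      have h5 : 16 * (W : ℝ) / ε ≤ x := by
        have : 0 < 16 * (W : ℝ) := by positivity
        linarith
      rw [div_le_iff₀ hε] at h5
      rw [← hxx]
      nlinarith
    linarith
  rw [hBn] at hgoal
  convert hgoal using 2

end PS25
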